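import Pool.Agent.Lib.MP_b07157_agT.Defs

/-!
# The microlocal cone: definitions

The lattice is `Fin (n + 1) → ℤ`, the coordinate `0` is the exponent of the microlocal variable,
the values are in the exterior algebra of `k ^ n`.
-/

noncomputable section

namespace MPb07157T

open Finset Matrix

variable {k : Type} [Field k] {n : ℕ}

/-- The lattice vector `(1, v)`. -/
def sh (v : Fin n → ℤ) : Fin (n + 1) → ℤ := Fin.cons 1 v

/-- Functions on the big lattice. -/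
abbrev MFun (k : Type) [Field k] (n : ℕ) : Type := (Fin (n + 1) → ℤ) → Lam k n

/-- The operators `b_j + 1 + y θ_j f`: `w ↦ con(b + 1) w(κ, b) + ∑_v F_v con(v) w(κ - 1, b - v)`. -/
def EE (F : (Fin n → ℤ) →₀ k) (w : MFun k n) : MFun k n :=
  fun m => con (vec k (Fin.tail m) + 1) (w m) + ∑ v ∈ F.support, F v • con (vec k v) (w (m - sh v))

/-- The support of `w` is finite and contained in `A`. -/
def MSuppIn (A : Set (Fin (n + 1) → ℤ)) (w : MFun k n) : Prop :=
  (Function.support w).Finite ∧ ∀ m, w m ≠ 0 → m ∈ A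

/-- All values are in `Fil k n d`. -/
def MDeg (d : ℕ) (w : MFun k n) : Prop := ∀ m, w m ∈ Fil k n d

/-- The coordinate forms. -/
def ee (l : Fin n) : Fin n → ℤ := Pi.single l 1

/-- The form `w·b - N κ` of the weight `σ = (w, N)`. -/
def hs (σ : (Fin n → ℤ) × ℤ) : Fin (n + 1) → ℤ := Fin.cons (-σ.2) σ.1

/-- The coordinate forms on the big lattice. -/
def he (l : Fin n) : Fin (n + 1) → ℤ := Fin.cons 0 (ee l)

/-- All forms of the microlocal cone. -/
def HS (Sg : Finset ((Fin n → ℤ) × ℤ)) : Finset (Fin (n + 1) → ℤ) :=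
  Sg.image hs ∪ univ.image he

/-- The form of `τ` on the levels of `σ`: `N_σ w_τ - N_τ w_σ`. -/
def et (σ τ : (Fin n → ℤ) × ℤ) : Fin n → ℤ := σ.2 • τ.1 - τ.2 • σ.1

/-- The forms on the levels of `σ`. -/
def H2 (Sg : Finset ((Fin n → ℤ) × ℤ)) (σ : (Fin n → ℤ) × ℤ) : Finset (Fin n → ℤ) :=
  Sg.image (et σ) ∪ univ.image ee

/-- The part of `F` on the face of `σ`. -/
def Fs (σ : (Fin n → ℤ) × ℤ) (F : (Fin n → ℤ) →₀ k) : (Fin n → ℤ) →₀ k := by
  classical exact F.filter fun v => σ.1 ⬝ᵥ v = σ.2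

/-- The standing hypotheses: positive weights, nonnegative exponents, and nondegeneracy on every
level. -/
structure WOK (Sg : Finset ((Fin n → ℤ) × ℤ)) (F : (Fin n → ℤ) →₀ k) : Prop where
  posN : ∀ σ ∈ Sg, 0 < σ.2
  posw : ∀ σ ∈ Sg, ∀ j, 0 < σ.1 j
  nonneg : ∀ v ∈ F.support, ∀ j, 0 ≤ v j
  le : ∀ σ ∈ Sg, ∀ v ∈ F.support, σ.2 ≤ σ.1 ⬝ᵥ v
  nd : ∀ σ ∈ Sg, ND (H2 Sg σ) (Fs σ F)

/-- The list of coordinate forms of a list of coordinates, on the big lattice. -/
def slc (J : List (Fin n)) : List (Fin (n + 1) → ℤ) := J.map he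

/-- The list of coordinate forms of a list of coordinates. -/
def eJ (J : List (Fin n)) : List (Fin n → ℤ) := J.map ee

/-- The conic set of the slice `J` at `c`. -/
def NN (Sg : Finset ((Fin n → ℤ) × ℤ)) (J : List (Fin n)) (c : Fin (n + 1) → ℝ) :
    Set (Fin (n + 1) → ℤ) :=
  Nset (slc J) (HS Sg) c

/-- Filled at the coordinates in `S`, modulo `J`. -/
def Filled (S J : List (Fin n)) (w : MFun k n) : Prop :=
  ∀ m : Fin (n + 1) → ℤ, ∀ j ∈ S, m j.succ = -1 →
    zet k (eJ J) * (gi (vec k (ee j)) * w m) = 0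

/-- The statement `X(S, J)`: the quotient of the filled slice complexes at `c + T e₀` and at `c`
is exact in degree `d ≥ 1`. -/
def XSt (F : (Fin n → ℤ) →₀ k) (Sg : Finset ((Fin n → ℤ) × ℤ)) (c : Fin (n + 1) → ℝ) (T : ℝ)
    (S J : List (Fin n)) : Prop :=
  ∀ d : ℕ, 1 ≤ d → ∀ w : MFun k n, MSuppIn (NN Sg J (c + Pi.single 0 T)) w → MDeg d w →
    Filled S J w → (∀ m, m ∉ NN Sg J c → zet k (eJ J) * EE (Fpart (eJ J) F) w m = 0) →
    ∃ g : MFun k n, MSuppIn (NN Sg J (c + Pi.single 0 T)) g ∧ MDeg (d + 1) g ∧ Filled S J g ∧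
      ∀ m, m ∉ NN Sg J c → zet k (eJ J) * (w m - EE (Fpart (eJ J) F) g m) = 0

end MPb07157T
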