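import Pool.Agent.Lib.MP_b07157_agT.Defs

/-!
# Finiteness: the monomials outside the ideal of the logarithmic derivatives

For `F` nondegenerate relative to `H` and arbitrary integral bounds `c`, all but finitely many
monomials `x^m` with `h · m ≥ c h` (`h ∈ H`) are of the form `∑ᵢ gᵢ θᵢ F` with the supports of the
`gᵢ` subject to the same bounds.
-/

noncomputable section

namespace MPb07157T

open Finset Matrix

variable {k : Type} [Field k] {r : ℕ}

/-- Laurent polynomials. -/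
abbrev LP (k : Type) [Field k] (r : ℕ) : Type := AddMonoidAlgebra k (Fin r → ℤ)

/-- The logarithmic derivative `θᵢ F`. -/
def thF (F : (Fin r → ℤ) →₀ k) (i : Fin r) : LP k r :=
  AddMonoidAlgebra.ofCoeff (Finsupp.onFinset F.support (fun v => ((v i : ℤ) : k) * F v) (by
    intro v hv
    rw [Finsupp.mem_support_iff]
    intro h
    exact hv (by rw [h, mul_zero])))

theorem coeff_thF (F : (Fin r → ℤ) →₀ k) (i : Fin r) (v : Fin r → ℤ) :
    (thF F i).coeff v = ((v i : ℤ) : k) * F v := rfl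

/-- The support of `x` is contained in `S`. -/
def SupIn (S : Set (Fin r → ℤ)) (x : LP k r) : Prop := ∀ v ∈ x.coeff.support, v ∈ S

/-- `x = ∑ᵢ gᵢ θᵢ F` with the supports of the `gᵢ` in `S`. -/
def Cert (S : Set (Fin r → ℤ)) (F : (Fin r → ℤ) →₀ k) (x : LP k r) : Prop :=
  ∃ g : Fin r → LP k r, (∀ i, SupIn S (g i)) ∧ ∑ i, g i * thF F i = x

theorem coeff_mul_thF (g : LP k r) (F : (Fin r → ℤ) →₀ k) (i : Fin r) (m : Fin r → ℤ) :
    (g * thF F i).coeff m = ∑ v ∈ g.coeff.support, g.coeff v * (((m - v) i : ℤ) : k) * F (m - v) := by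
  rw [AddMonoidAlgebra.coeff_mul_apply_left, Finsupp.sum]
  refine Finset.sum_congr rfl fun v _ => ?_
  rw [coeff_thF, neg_add_eq_sub, mul_assoc]

theorem unitOn_iff (Z : List (Fin r → ℤ)) (F : (Fin r → ℤ) →₀ k) :
    UnitOn Z F ↔ Cert {v | ∀ z ∈ Z, z ⬝ᵥ v = 0} F 1 := by
  classical
  constructor
  · rintro ⟨a, ha, h⟩
    refine ⟨fun i => AddMonoidAlgebra.ofCoeff (a i), fun i v hv => ha i v hv, ?_⟩
    ext m
    rw [AddMonoidAlgebra.coeff_sum, Finsupp.finsetSum_apply]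
    simp only [coeff_mul_thF]
    rw [h m, AddMonoidAlgebra.one_def, AddMonoidAlgebra.coeff_single, Finsupp.single_apply]
    simp only [eq_comm]
  · rintro ⟨g, hg, h⟩
    refine ⟨fun i => (g i).coeff, fun i v hv => hg i v hv, fun m => ?_⟩
    have h1 := congrArg (fun x => x.coeff m) h
    simp only [AddMonoidAlgebra.coeff_sum, Finsupp.finsetSum_apply, coeff_mul_thF] at h1
    rw [h1, AddMonoidAlgebra.one_def, AddMonoidAlgebra.coeff_single, Finsupp.single_apply]
    simp only [eq_comm]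

theorem cert_single_iff (S : Set (Fin r → ℤ)) (F : (Fin r → ℤ) →₀ k) (m : Fin r → ℤ) :
    Cert S F (AddMonoidAlgebra.single m 1) ↔
      ∃ g : Fin r → ((Fin r → ℤ) →₀ k), (∀ i, ∀ v ∈ (g i).support, v ∈ S) ∧
        ∀ m' : Fin r → ℤ,
          (∑ i, ∑ v ∈ (g i).support, (g i) v * (((m' - v) i : ℤ) : k) * F (m' - v)) =
            if m' = m then 1 else 0 := by
  classical
  constructor
  · rintro ⟨g, hg, h⟩
    refine ⟨fun i => (g i).coeff, fun i v hv => hg i v hv, fun m' => ?_⟩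
    have h1 := congrArg (fun x => x.coeff m') h
    simp only [AddMonoidAlgebra.coeff_sum, Finsupp.finsetSum_apply, coeff_mul_thF] at h1
    rw [h1, AddMonoidAlgebra.coeff_single, Finsupp.single_apply]
    simp only [eq_comm]
  · rintro ⟨a, ha, h⟩
    refine ⟨fun i => AddMonoidAlgebra.ofCoeff (a i), fun i v hv => ha i v hv, ?_⟩
    ext m'
    rw [AddMonoidAlgebra.coeff_sum, Finsupp.finsetSum_apply]
    simp only [coeff_mul_thF]
    rw [h m', AddMonoidAlgebra.coeff_single, Finsupp.single_apply]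
    simp only [eq_comm]

theorem SupIn.mono {S T : Set (Fin r → ℤ)} (h : S ⊆ T) {x : LP k r} (hx : SupIn S x) :
    SupIn T x := fun v hv => h (hx v hv)

theorem Cert.mono {S T : Set (Fin r → ℤ)} (h : S ⊆ T) {F : (Fin r → ℤ) →₀ k} {x : LP k r}
    (hx : Cert S F x) : Cert T F x := by
  obtain ⟨g, hg, e⟩ := hx
  exact ⟨g, fun i => (hg i).mono h, e⟩

theorem dot_inSpan {Z : List (Fin r → ℤ)} {h : Fin r → ℤ} (hh : InSpan Z h) {v : Fin r → ℤ}
    (hv : ∀ z ∈ Z, z ⬝ᵥ v = 0) : h ⬝ᵥ v = 0 := by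
  have key : ∀ y ∈ Submodule.span ℚ {y | ∃ z ∈ Z, y = vec ℚ z}, y ⬝ᵥ vec ℚ v = 0 := by
    intro y hy
    induction hy using Submodule.span_induction with
    | mem y hy =>
      obtain ⟨z, hz, rfl⟩ := hy
      have := hv z hz
      have h2 : ((z ⬝ᵥ v : ℤ) : ℚ) = vec ℚ z ⬝ᵥ vec ℚ v := by
        simp [dotProduct, vec]
      rw [← h2, this, Int.cast_zero]
    | zero => exact zero_dotProduct _
    | add x y _ _ hx hy => rw [add_dotProduct, hx, hy, add_zero]
    | smul a x _ hx => rw [smul_dotProduct, hx, smul_zero]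
  have h1 := key _ hh
  have h2 : ((h ⬝ᵥ v : ℤ) : ℚ) = vec ℚ h ⬝ᵥ vec ℚ v := by
    simp [dotProduct, vec]
  rw [← h2] at h1
  exact_mod_cast h1

theorem inSpan_mono {Z Z' : List (Fin r → ℤ)} (h : ∀ z ∈ Z, z ∈ Z') {x : Fin r → ℤ}
    (hx : InSpan Z x) : InSpan Z' x := by
  refine Submodule.span_mono ?_ hx
  rintro y ⟨z, hz, rfl⟩
  exact ⟨z, h z hz, rfl⟩

/-- The Laurent polynomials with support in the cone of `Z`. -/
def AZ (k : Type) [Field k] {r : ℕ} (Z : Finset (Fin r → ℤ)) : Subring (LP k r) where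
  carrier := {x | ∀ v ∈ x.coeff.support, ∀ z ∈ Z, 0 ≤ z ⬝ᵥ v}
  mul_mem' := by
    classical
    intro a b ha hb v hv z hz
    have h1 := AddMonoidAlgebra.support_coeff_mul_subset a b hv
    obtain ⟨x, hx, y, hy, rfl⟩ := Finset.mem_add.1 h1
    rw [dotProduct_add]
    exact add_nonneg (ha x hx z hz) (hb y hy z hz)
  one_mem' := by
    classical
    intro v hv z hz
    have h1 := AddMonoidAlgebra.support_coeff_one_subset (k := k) hv
    have h2 : v = 0 := by simpa using h1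
    rw [h2, dotProduct_zero]
  add_mem' := by
    classical
    intro a b ha hb v hv z hz
    rw [AddMonoidAlgebra.coeff_add] at hv
    rcases Finset.mem_union.1 (Finsupp.support_add hv) with h | h
    · exact ha v h z hz
    · exact hb v h z hz
  zero_mem' := by
    intro v hv
    simp at hv
  neg_mem' := by
    intro a ha v hv z hz
    rw [AddMonoidAlgebra.coeff_neg, Finsupp.support_neg] at hv
    exact ha v hv z hz

theorem mem_AZ {Z : Finset (Fin r → ℤ)} {x : LP k r} :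
    x ∈ AZ k Z ↔ ∀ v ∈ x.coeff.support, ∀ z ∈ Z, 0 ≤ z ⬝ᵥ v := Iff.rfl

theorem thF_mem_AZ {H Z : Finset (Fin r → ℤ)} (hZ : Z ⊆ H) {F : (Fin r → ℤ) →₀ k}
    (hF : ∀ v ∈ F.support, ∀ h ∈ H, 0 ≤ h ⬝ᵥ v) (i : Fin r) : thF F i ∈ AZ k Z := by
  intro v hv z hz
  refine hF v ?_ z (hZ hz)
  rw [Finsupp.mem_support_iff, coeff_thF] at hv
  rw [Finsupp.mem_support_iff]
  exact right_ne_zero_of_mul hv

theorem single_mem_AZ {Z : Finset (Fin r → ℤ)} {m : Fin r → ℤ} (hm : ∀ z ∈ Z, 0 ≤ z ⬝ᵥ m)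
    (c : k) : (AddMonoidAlgebra.single m c : LP k r) ∈ AZ k Z := by
  classical
  intro v hv z hz
  rw [AddMonoidAlgebra.coeff_single] at hv
  have := Finsupp.support_single_subset hv
  rw [Finset.mem_singleton] at this
  rw [this]
  exact hm z hz

/-- The ideal of the logarithmic derivatives in the ring of the cone of `Z`. -/
def JZ {H Z : Finset (Fin r → ℤ)} (hZ : Z ⊆ H) {F : (Fin r → ℤ) →₀ k}
    (hF : ∀ v ∈ F.support, ∀ h ∈ H, 0 ≤ h ⬝ᵥ v) : Ideal (AZ k Z) :=
  Ideal.span (Set.range fun i => (⟨thF F i, thF_mem_AZ hZ hF i⟩ : AZ k Z))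

theorem mem_JZ {H Z : Finset (Fin r → ℤ)} (hZ : Z ⊆ H) {F : (Fin r → ℤ) →₀ k}
    (hF : ∀ v ∈ F.support, ∀ h ∈ H, 0 ≤ h ⬝ᵥ v) (x : AZ k Z) :
    x ∈ JZ hZ hF ↔ Cert {v | ∀ z ∈ Z, 0 ≤ z ⬝ᵥ v} F (x : LP k r) := by
  unfold JZ
  rw [Ideal.mem_span_range_iff_exists_fun]
  constructor
  · rintro ⟨c, hc⟩
    refine ⟨fun i => (c i : LP k r), fun i v hv z hz => (c i).2 v hv z hz, ?_⟩
    rw [← hc]
    push_cast
    rfl
  · rintro ⟨g, hg, h⟩
    refine ⟨fun i => ⟨g i, fun v hv z hz => hg i v hv z hz⟩, ?_⟩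
    apply Subtype.ext
    push_cast
    rw [← h]

/-- A level bound for a finite family of Laurent polynomials. -/
theorem exists_bound (H : Finset (Fin r → ℤ)) (g : Fin r → LP k r) :
    ∃ K : ℕ, ∀ i, ∀ v ∈ (g i).coeff.support, ∀ h ∈ H, -(K : ℤ) ≤ h ⬝ᵥ v := by
  classical
  let T : Finset ℤ := Finset.univ.biUnion fun i => (g i).coeff.support.biUnion fun v =>
    H.image fun h => h ⬝ᵥ v
  refine ⟨T.sup fun t => t.natAbs, fun i v hv h hh => ?_⟩
  have h1 : h ⬝ᵥ v ∈ T := by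
    refine Finset.mem_biUnion.2 ⟨i, Finset.mem_univ _, Finset.mem_biUnion.2 ⟨v, hv, ?_⟩⟩
    exact Finset.mem_image_of_mem _ hh
  have h2 : (h ⬝ᵥ v).natAbs ≤ T.sup fun t => t.natAbs :=
    Finset.le_sup (f := fun t : ℤ => t.natAbs) h1
  omega

/-- Multiplication of a certificate by a monomial. -/
theorem cert_shift {T : Set (Fin r → ℤ)} {F : (Fin r → ℤ) →₀ k} {x : LP k r}
    (m : Fin r → ℤ) (g : Fin r → LP k r) (e : ∑ i, g i * thF F i = x)
    (hT : ∀ i, ∀ v ∈ (g i).coeff.support, m + v ∈ T) :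
    Cert T F (AddMonoidAlgebra.single m 1 * x) := by
  classical
  refine ⟨fun i => AddMonoidAlgebra.single m 1 * g i, fun i v hv => ?_, ?_⟩
  · have h1 := AddMonoidAlgebra.support_coeff_single_mul_subset (g i) (1 : k) m hv
    obtain ⟨w, hw, rfl⟩ := Finset.mem_image.1 h1
    exact hT i w hw
  · rw [← e, Finset.mul_sum]
    refine Finset.sum_congr rfl fun i _ => ?_
    rw [mul_assoc]

/-- On every face the logarithmic derivatives generate the unit ideal of the localized ring. -/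
theorem cert_face (H : Finset (Fin r → ℤ)) (F : (Fin r → ℤ) →₀ k)
    (hF : ∀ v ∈ F.support, ∀ h ∈ H, 0 ≤ h ⬝ᵥ v) (hND : ND H F) :
    ∀ N : ℕ, ∀ Z : Finset (Fin r → ℤ), Z ⊆ H → Z.card ≤ N →
      (∀ h ∈ H, InSpan Z.toList h → h ∈ Z) → (∃ u, Relint Z.toList H u) →
      (∃ h, ¬ InSpan Z.toList h) → Cert {v | ∀ z ∈ Z, 0 ≤ z ⬝ᵥ v} F 1 := by
  classical
  intro N
  induction N with
  | zero =>
    intro Z hZ hcard _ hrel hns
    have h0 : Z = ∅ := Finset.card_eq_zero.1 (Nat.le_zero.1 hcard)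
    have h1 := hND Z.toList (fun z hz => hZ (Finset.mem_toList.1 hz)) hrel hns
    rw [unitOn_iff] at h1
    have h2 : Fpart Z.toList F = F := by
      unfold Fpart
      rw [Finsupp.filter_eq_self_iff]
      intro v _ z hz
      rw [h0] at hz
      simp at hz
    rw [h2] at h1
    refine h1.mono ?_
    intro v hv z hz
    rw [h0] at hz
    simp at hz
  | succ N ih =>
    intro Z hZ hcard hsat hrel hns
    obtain ⟨u, hu⟩ := hrel
    have hN := hND Z.toList (fun z hz => hZ (Finset.mem_toList.1 hz)) ⟨u, hu⟩ hns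
    rw [unitOn_iff] at hN
    obtain ⟨a, ha, hsum⟩ := hN
    have haZ : ∀ i, a i ∈ AZ k Z := fun i v hv z hz => by
      have := ha i v hv z (Finset.mem_toList.2 hz)
      exact le_of_eq this.symm
    -- the radical of the ideal
    let J : Ideal (AZ k Z) := JZ hZ hF
    -- monomials of positive level lie in the radical
    have hmono : ∀ m : Fin r → ℤ, ∀ hm : (∀ z ∈ Z, 0 ≤ z ⬝ᵥ m), (∃ z ∈ Z, 0 < z ⬝ᵥ m) →
        (⟨AddMonoidAlgebra.single m 1, single_mem_AZ hm 1⟩ : AZ k Z) ∈ J.radical := by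
      intro m hm ⟨z₀, hz₀, hz₀m⟩
      set Z' : Finset (Fin r → ℤ) := Z.filter fun z => z ⬝ᵥ m = 0 with hZ'
      have hsub : Z' ⊆ Z := Finset.filter_subset _ _
      have hlt : Z'.card < Z.card := by
        refine Finset.card_lt_card ⟨hsub, fun h => ?_⟩
        have := (Finset.mem_filter.1 (h hz₀)).2
        omega
      have hmz : ∀ z ∈ Z'.toList, z ⬝ᵥ m = 0 := fun z hz =>
        (Finset.mem_filter.1 (Finset.mem_toList.1 hz)).2
      have hsp : ∀ h, InSpan Z'.toList h → InSpan Z.toList h := fun h hh =>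
        inSpan_mono (fun z hz => Finset.mem_toList.2 (hsub (Finset.mem_toList.1 hz))) hh
      have hsat' : ∀ h ∈ H, InSpan Z'.toList h → h ∈ Z' := fun h hh hs =>
        Finset.mem_filter.2 ⟨hsat h hh (hsp h hs), dot_inSpan hs hmz⟩
      have hns' : ∃ h, ¬ InSpan Z'.toList h := by
        obtain ⟨h, hh⟩ := hns
        exact ⟨h, fun h' => hh (hsp h h')⟩
      -- a relative interior direction
      have hrel' : ∃ u', Relint Z'.toList H u' := by
        obtain ⟨t, ht⟩ : ∃ t : ℝ, ∀ h ∈ H, 0 < rdot h u →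
            0 < ((h ⬝ᵥ m : ℤ) : ℝ) + t * rdot h u := by
          refine ⟨1 + ∑ h ∈ H, |((h ⬝ᵥ m : ℤ) : ℝ)| / |rdot h u|, fun h hh hpos => ?_⟩
          have h1 : |((h ⬝ᵥ m : ℤ) : ℝ)| / |rdot h u| ≤
              ∑ h ∈ H, |((h ⬝ᵥ m : ℤ) : ℝ)| / |rdot h u| :=
            Finset.single_le_sum (f := fun h => |((h ⬝ᵥ m : ℤ) : ℝ)| / |rdot h u|)
              (fun h _ => div_nonneg (abs_nonneg _) (abs_nonneg _)) hh
          rw [abs_of_pos hpos, div_le_iff₀ hpos] at h1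
          have h2 := neg_abs_le ((h ⬝ᵥ m : ℤ) : ℝ)
          nlinarith
        have hlin : ∀ h : Fin r → ℤ, rdot h (fun i => (m i : ℝ) + t * u i) =
            ((h ⬝ᵥ m : ℤ) : ℝ) + t * rdot h u := by
          intro h
          unfold rdot dotProduct
          push_cast
          rw [Finset.mul_sum, ← Finset.sum_add_distrib]
          exact Finset.sum_congr rfl fun i _ => by ring
        refine ⟨fun i => (m i : ℝ) + t * u i, fun z hz => ?_, fun h hh hs => ?_⟩
        · rw [hlin, hmz z hz, hu.1 z (Finset.mem_toList.2 (hsub (Finset.mem_toList.1 hz)))]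
          simp
        · rw [hlin]
          by_cases hhZ : h ∈ Z
          · rw [hu.1 h (Finset.mem_toList.2 hhZ), mul_zero, add_zero]
            have h1 := hm h hhZ
            have h2 : h ⬝ᵥ m ≠ 0 := fun h0 => hs
              (Submodule.subset_span ⟨h, Finset.mem_toList.2 (Finset.mem_filter.2 ⟨hhZ, h0⟩), rfl⟩)
            exact_mod_cast lt_of_le_of_ne h1 (Ne.symm h2)
          · exact ht h hh (hu.2 h hh fun h' => hhZ (hsat h hh h'))
      obtain ⟨g, hg, e⟩ := ih Z' (hsub.trans hZ) (by omega) hsat' hrel' hns'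
      obtain ⟨K, hK⟩ := exists_bound H g
      refine ⟨K, ?_⟩
      change _ ∈ JZ hZ hF
      rw [mem_JZ]
      have h1 := cert_shift (T := {v | ∀ z ∈ Z, 0 ≤ z ⬝ᵥ v}) (K • m) g e (by
        intro i v hv z hz
        rw [dotProduct_add, dotProduct_smul]
        by_cases h0 : z ⬝ᵥ m = 0
        · rw [h0, smul_zero, zero_add]
          exact hg i v hv z (Finset.mem_filter.2 ⟨hz, h0⟩)
        · have h2 := hm z hz
          have h3 : 1 ≤ z ⬝ᵥ m := by omega
          have h4 := hK i v hv z (hZ hz)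
          rw [nsmul_eq_mul]
          nlinarith [Int.natCast_nonneg K])
      rw [mul_one] at h1
      convert h1 using 1
      rw [SubmonoidClass.coe_pow, AddMonoidAlgebra.single_pow, one_pow]
    -- elements with support of positive level
    have hpos : ∀ x : AZ k Z, (∀ v ∈ (x : LP k r).coeff.support, ∃ z ∈ Z, 0 < z ⬝ᵥ v) →
        x ∈ J.radical := by
      intro x hx
      have h1 : x = ∑ v ∈ (x : LP k r).coeff.support.attach,
          (⟨AddMonoidAlgebra.single 0 ((x : LP k r).coeff v.1),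
            single_mem_AZ (by intro z _; rw [dotProduct_zero]) _⟩ : AZ k Z) *
          (⟨AddMonoidAlgebra.single v.1 1, single_mem_AZ (fun z hz => x.2 v.1 v.2 z hz) 1⟩ :
            AZ k Z) := by
        apply Subtype.ext
        rw [AddSubmonoidClass.coe_finsetSum]
        simp only [Subring.coe_mul, AddMonoidAlgebra.single_mul_single, zero_add, mul_one]
        rw [Finset.sum_attach (x : LP k r).coeff.support
          (fun v => (AddMonoidAlgebra.single v ((x : LP k r).coeff v) : LP k r))]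
        exact (AddMonoidAlgebra.sum_coeff_single (x : LP k r)).symm
      rw [h1]
      refine Ideal.sum_mem _ fun v _ => Ideal.mul_mem_left _ _ ?_
      exact hmono v.1 (fun z hz => x.2 v.1 v.2 z hz) (hx v.1 v.2)
    -- the error
    have he : (1 : AZ k Z) - ∑ i, (⟨a i, haZ i⟩ : AZ k Z) * ⟨thF F i, thF_mem_AZ hZ hF i⟩ ∈
        J.radical := by
      refine hpos _ ?_
      intro v hv
      by_contra hno
      push Not at hno
      set x : AZ k Z := (1 : AZ k Z) - ∑ i, (⟨a i, haZ i⟩ : AZ k Z) *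
        ⟨thF F i, thF_mem_AZ hZ hF i⟩ with hx
      have hv0 : ∀ z ∈ Z, z ⬝ᵥ v = 0 := fun z hz => le_antisymm (hno z hz) (x.2 v hv z hz)
      have hxc : (x : LP k r) = 1 - ∑ i, a i * thF F i := by
        rw [hx, AddSubgroupClass.coe_sub, AddSubmonoidClass.coe_finsetSum]
        rfl
      rw [Finsupp.mem_support_iff] at hv
      apply hv
      rw [hxc, ← hsum]
      simp only [AddMonoidAlgebra.coeff_sub, Finsupp.sub_apply, AddMonoidAlgebra.coeff_sum,
        Finsupp.finsetSum_apply, coeff_mul_thF]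
      rw [sub_eq_zero]
      refine Finset.sum_congr rfl fun i _ => Finset.sum_congr rfl fun w hw => ?_
      congr 1
      unfold Fpart
      rw [Finsupp.filter_apply_pos]
      intro z hz
      rw [dotProduct_sub, hv0 z (Finset.mem_toList.1 hz), ha i w hw z hz, sub_zero]
    have hin : ∑ i, (⟨a i, haZ i⟩ : AZ k Z) * ⟨thF F i, thF_mem_AZ hZ hF i⟩ ∈ J.radical := by
      refine Ideal.le_radical ?_
      refine Ideal.sum_mem _ fun i _ => Ideal.mul_mem_left _ _ ?_
      exact Ideal.subset_span ⟨i, rfl⟩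
    have h1 : (1 : AZ k Z) ∈ J.radical := by
      have := Ideal.add_mem _ he hin
      rwa [sub_add_cancel] at this
    have h2 : (1 : AZ k Z) ∈ J := by
      obtain ⟨n, hn⟩ := h1
      rwa [one_pow] at hn
    exact (mem_JZ hZ hF 1).1 h2

/-- **Finiteness.** All but finitely many monomials with `h · m ≥ c h` are combinations of the
logarithmic derivatives with multipliers subject to the same bounds. -/
theorem fin_cert (H : Finset (Fin r → ℤ)) (F : (Fin r → ℤ) →₀ k)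
    (hF : ∀ v ∈ F.support, ∀ h ∈ H, 0 ≤ h ⬝ᵥ v) (hND : ND H F) (c : (Fin r → ℤ) → ℤ) :
    {m : Fin r → ℤ | (∀ h ∈ H, c h ≤ h ⬝ᵥ m) ∧
      ¬ Cert {v | ∀ h ∈ H, c h ≤ h ⬝ᵥ v} F (AddMonoidAlgebra.single m 1)}.Finite := by
  classical
  by_contra hinf
  set B : Set (Fin r → ℤ) := {m : Fin r → ℤ | (∀ h ∈ H, c h ≤ h ⬝ᵥ m) ∧
      ¬ Cert {v | ∀ h ∈ H, c h ≤ h ⬝ᵥ v} F (AddMonoidAlgebra.single m 1)} with hB
  have hinf' : B.Infinite := hinf
  let f : ℕ ↪ B := hinf'.natEmbedding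
  let φ : ℕ → (H → ℕ) := fun n h => (h.1 ⬝ᵥ (f n).1 - c h.1).toNat
  have hφ : ∀ n (h : H), (φ n h : ℤ) = h.1 ⬝ᵥ (f n).1 - c h.1 := by
    intro n h
    have := (f n).2.1 h.1 h.2
    simp only [φ]
    omega
  obtain ⟨g, hg⟩ := (wellQuasiOrdered_le (α := H → ℕ)).exists_monotone_subseq φ
  let p : ℕ → (Fin r → ℤ) := fun n => (f (g n)).1
  have hpinj : Function.Injective p := fun a b h =>
    g.injective (f.injective (Subtype.ext h))
  have hpB : ∀ n, p n ∈ B := fun n => (f (g n)).2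
  have hmono : ∀ h ∈ H, ∀ a b, a ≤ b → h ⬝ᵥ p a ≤ h ⬝ᵥ p b := by
    intro h hh a b hab
    have h1 := hg a b hab ⟨h, hh⟩
    have h2 := hφ (g a) ⟨h, hh⟩
    have h3 := hφ (g b) ⟨h, hh⟩
    simp only [p]
    have h4 : (φ (g a) ⟨h, hh⟩ : ℤ) ≤ φ (g b) ⟨h, hh⟩ := by exact_mod_cast h1
    rw [h2, h3] at h4
    linarith
  set Z : Finset (Fin r → ℤ) := H.filter fun h => ∃ b : ℤ, ∀ n, h ⬝ᵥ p n ≤ b with hZdef
  have hZ : Z ⊆ H := Finset.filter_subset _ _
  -- stabilization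
  have hstab : ∀ h ∈ Z, ∃ n₀, ∀ n, n₀ ≤ n → h ⬝ᵥ p n = h ⬝ᵥ p n₀ := by
    intro h hh
    obtain ⟨hhH, b, hb⟩ := Finset.mem_filter.1 hh
    let F' : ℕ → ℕ := fun n => (b - h ⬝ᵥ p n).toNat
    refine ⟨Function.argmin F', fun n hn => ?_⟩
    have h1 := hmono h hhH _ n hn
    have h2 : F' (Function.argmin F') ≤ F' n := Function.argmin_le F' n
    have h3 := hb n
    have h4 := hb (Function.argmin F')
    change (b - h ⬝ᵥ p (Function.argmin F')).toNat ≤ (b - h ⬝ᵥ p n).toNat at h2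
    omega
  choose! ν hν using hstab
  let n₀ : ℕ := Z.sup ν
  have hn₀ : ∀ h ∈ Z, ∀ n, n₀ ≤ n → h ⬝ᵥ p n = h ⬝ᵥ p n₀ := by
    intro h hh n hn
    have h1 : ν h ≤ n₀ := Finset.le_sup hh
    rw [hν h hh n (h1.trans hn), hν h hh n₀ h1]
  have hgrow : ∀ K : ℤ, ∃ n₁, n₀ < n₁ ∧ ∀ h ∈ H, h ∉ Z → h ⬝ᵥ p n₀ + K ≤ h ⬝ᵥ p n₁ := by
    intro K
    have h1 : ∀ h ∈ H, h ∉ Z → ∃ n, h ⬝ᵥ p n₀ + K ≤ h ⬝ᵥ p n := by
      intro h hh hhZ
      by_contra hno
      push Not at hno
      exact hhZ (Finset.mem_filter.2 ⟨hh, _, fun n => (hno n).le⟩)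
    choose! μ hμ using h1
    refine ⟨max (n₀ + 1) (H.sup μ), by omega, fun h hh hhZ => ?_⟩
    exact (hμ h hh hhZ).trans (hmono h hh _ _ ((Finset.le_sup hh).trans (le_max_right _ _)))
  obtain ⟨n₁, hn₁, hg₁⟩ := hgrow 1
  have hzero : ∀ z ∈ Z.toList, z ⬝ᵥ (p n₁ - p n₀) = 0 := by
    intro z hz
    rw [dotProduct_sub, hn₀ z (Finset.mem_toList.1 hz) n₁ hn₁.le, sub_self]
  have hsat : ∀ h ∈ H, InSpan Z.toList h → h ∈ Z := by
    intro h hh hs
    by_contra hhZ
    have h1 := dot_inSpan hs hzero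
    rw [dotProduct_sub] at h1
    have h2 := hg₁ h hh hhZ
    omega
  have hrel : ∃ u, Relint Z.toList H u := by
    have hcast : ∀ h : Fin r → ℤ, rdot h (fun i => (((p n₁ - p n₀) i : ℤ) : ℝ)) =
        ((h ⬝ᵥ (p n₁ - p n₀) : ℤ) : ℝ) := by
      intro h
      unfold rdot dotProduct
      push_cast
      rfl
    refine ⟨fun i => (((p n₁ - p n₀) i : ℤ) : ℝ), fun z hz => ?_, fun h hh hs => ?_⟩
    · rw [hcast, hzero z hz, Int.cast_zero]
    · rw [hcast]
      have hhZ : h ∉ Z := fun h' => hs (Submodule.subset_span ⟨h, Finset.mem_toList.2 h', rfl⟩)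
      have h1 := hg₁ h hh hhZ
      have h2 : 0 < h ⬝ᵥ (p n₁ - p n₀) := by
        rw [dotProduct_sub]
        omega
      exact_mod_cast h2
  have hns : ∃ h, ¬ InSpan Z.toList h := by
    by_contra hno
    push Not at hno
    apply hn₁.ne
    apply hpinj
    funext i
    have h1 := dot_inSpan (hno (Pi.single i 1)) hzero
    rw [single_one_dotProduct, Pi.sub_apply] at h1
    omega
  obtain ⟨γ, hγ, e⟩ := cert_face H F hF hND Z.card Z hZ le_rfl hsat hrel hns
  obtain ⟨K, hK⟩ := exists_bound H γ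
  obtain ⟨n₂, hn₂, hg₂⟩ := hgrow K
  have h1 := cert_shift (T := {v | ∀ h ∈ H, c h ≤ h ⬝ᵥ v}) (p n₂) γ e (by
    intro i v hv h hh
    rw [dotProduct_add]
    by_cases hhZ : h ∈ Z
    · have h2 := (hpB n₂).1 h hh
      have h3 : 0 ≤ h ⬝ᵥ v := hγ i v hv h hhZ
      omega
    · have h2 := (hpB n₀).1 h hh
      have h3 := hg₂ h hh hhZ
      have h4 := hK i v hv h hh
      omega)
  rw [mul_one] at h1
  exact (hpB n₂).2 h1

/-- Finiteness, written out. -/
theorem fin_bad (H : Finset (Fin r → ℤ)) (F : (Fin r → ℤ) →₀ k)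
    (hF : ∀ v ∈ F.support, ∀ h ∈ H, 0 ≤ h ⬝ᵥ v) (hND : ND H F) (c : (Fin r → ℤ) → ℤ) :
    {m : Fin r → ℤ | (∀ h ∈ H, c h ≤ h ⬝ᵥ m) ∧
      ¬ ∃ g : Fin r → ((Fin r → ℤ) →₀ k), (∀ i, ∀ v ∈ (g i).support, ∀ h ∈ H, c h ≤ h ⬝ᵥ v) ∧
        ∀ m' : Fin r → ℤ,
          (∑ i, ∑ v ∈ (g i).support, (g i) v * (((m' - v) i : ℤ) : k) * F (m' - v)) =
            if m' = m then 1 else 0}.Finite := by
  refine (fin_cert H F hF hND c).subset ?_
  rintro m ⟨h1, h2⟩
  refine ⟨h1, fun h => h2 ?_⟩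
  obtain ⟨g, hg, e⟩ := (cert_single_iff _ F m).1 h
  exact ⟨g, fun i v hv h hh => hg i v hv h hh, e⟩

end MPb07157T
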