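import Pool.Agent.Lib.MP_b07157_agT.Defs

/-!
# T1, section A: exterior algebra

Convention: an element `x` is zero modulo `Z` if `zet k Z * x = 0`.
-/

noncomputable section

namespace MPb07157T

open Finset Matrix

variable {k : Type} [Field k] {r : ℕ}

theorem con_gi_mul (v ξ : Fin r → k) (x : Lam k r) :
    con v (gi ξ * x) = (v ⬝ᵥ ξ) • x - gi ξ * con v x :=
  CliffordAlgebra.contractLeft_ι_mul (Q := (0 : QuadraticForm k (Fin r → k))) (dualv v) ξ x

theorem con_self (v : Fin r → k) (x : Lam k r) : con v (con v x) = 0 :=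
  CliffordAlgebra.contractLeft_contractLeft (Q := (0 : QuadraticForm k (Fin r → k))) (dualv v) x

theorem con_comm (u v : Fin r → k) (x : Lam k r) : con u (con v x) = - con v (con u x) :=
  CliffordAlgebra.contractLeft_comm (Q := (0 : QuadraticForm k (Fin r → k))) (dualv u) (dualv v) x

theorem dualv_add (u v : Fin r → k) : dualv (u + v) = dualv u + dualv v := by
  ext x
  simp [dualv, add_dotProduct]

theorem dualv_smul (c : k) (v : Fin r → k) : dualv (c • v) = c • dualv v := by
  ext x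
  simp [dualv, smul_dotProduct]

theorem con_add (u v : Fin r → k) (x : Lam k r) : con (u + v) x = con u x + con v x := by
  unfold con
  rw [dualv_add, map_add]
  rfl

theorem con_smul (c : k) (v : Fin r → k) (x : Lam k r) : con (c • v) x = c • con v x := by
  unfold con
  rw [dualv_smul, map_smul]
  rfl

theorem gi_gi (ξ η : Fin r → k) (x : Lam k r) : gi ξ * (gi η * x) = - (gi η * (gi ξ * x)) := by
  have h : gi ξ * gi η + gi η * gi ξ = 0 := ExteriorAlgebra.ι_add_mul_swap ξ η
  have h2 : gi ξ * gi η = - (gi η * gi ξ) := eq_neg_of_add_eq_zero_left h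
  rw [← mul_assoc, h2, neg_mul, mul_assoc]

theorem gi_self (ξ : Fin r → k) (x : Lam k r) : gi ξ * (gi ξ * x) = 0 := by
  have h : gi ξ * gi ξ = 0 := ExteriorAlgebra.ι_sq_zero ξ
  rw [← mul_assoc, h, zero_mul]

theorem gi_add (ξ η : Fin r → k) : gi (ξ + η) = gi ξ + gi η := map_add _ ξ η

theorem gi_smul (c : k) (ξ : Fin r → k) : gi (c • ξ) = c • gi ξ := map_smul _ c ξ

theorem gi_mem_Fil {d : ℕ} (ξ : Fin r → k) {x : Lam k r} (hx : x ∈ Fil k r d) :
    gi ξ * x ∈ Fil k r (d + 1) := by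
  unfold Fil at *
  rw [pow_succ', mul_assoc]
  exact Submodule.mul_mem_mul (LinearMap.mem_range_self _ ξ) hx

theorem Fil_zero : Fil k r 0 = ⊤ := by
  unfold Fil
  rw [pow_zero, one_mul]

theorem Fil_succ (d : ℕ) :
    Fil k r (d + 1) = (LinearMap.range (ExteriorAlgebra.ι k (M := Fin r → k))) * Fil k r d := by
  unfold Fil
  rw [pow_succ', mul_assoc]

/-- Induction principle for the steps of the filtration. -/
theorem Fil_succ_induction {d : ℕ} {P : Lam k r → Prop}
    (hmul : ∀ ξ : Fin r → k, ∀ y ∈ Fil k r d, P (gi ξ * y))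
    (hadd : ∀ x y, P x → P y → P (x + y)) {x : Lam k r} (hx : x ∈ Fil k r (d + 1)) : P x := by
  rw [Fil_succ] at hx
  refine Submodule.mul_induction_on hx ?_ hadd
  rintro _ ⟨ξ, rfl⟩ y hy
  exact hmul ξ y hy

theorem Fil_mono (d : ℕ) : Fil k r (d + 1) ≤ Fil k r d := by
  induction d with
  | zero =>
    rw [Fil_zero]
    exact le_top
  | succ d ih =>
    rw [Fil_succ (d + 1)]
    refine Submodule.mul_le.2 fun m hm n hn => ?_
    rw [Fil_succ d]
    exact Submodule.mul_mem_mul hm (ih hn)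

theorem con_mem_Fil {d : ℕ} (v : Fin r → k) {x : Lam k r} (hx : x ∈ Fil k r (d + 1)) :
    con v x ∈ Fil k r d := by
  induction d generalizing x with
  | zero =>
    rw [Fil_zero]
    trivial
  | succ d ih =>
    refine Fil_succ_induction (P := fun x => con v x ∈ Fil k r (d + 1)) ?_ ?_ hx
    · intro ξ y hy
      rw [con_gi_mul]
      exact Submodule.sub_mem _ (Submodule.smul_mem _ _ hy) (gi_mem_Fil ξ (ih hy))
    · intro x y hx hy
      rw [map_add]
      exact Submodule.add_mem _ hx hy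

theorem zet_nil : zet k ([] : List (Fin r → ℤ)) = 1 := rfl

theorem zet_cons (z : Fin r → ℤ) (Z : List (Fin r → ℤ)) :
    zet k (z :: Z) = gi (vec k z) * zet k Z := by
  unfold zet
  rw [List.map_cons, List.prod_cons]

theorem zet_gi (Z : List (Fin r → ℤ)) (ξ : Fin r → k) (x : Lam k r) :
    zet k Z * (gi ξ * x) = (-1 : k) ^ Z.length • (gi ξ * (zet k Z * x)) := by
  induction Z with
  | nil => simp [zet_nil]
  | cons z Z ih =>
    rw [zet_cons, mul_assoc, ih, mul_smul_comm, gi_gi, List.length_cons, pow_succ, mul_smul,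
      mul_assoc]
    simp

theorem zet_con (Z : List (Fin r → ℤ)) (v : Fin r → k) (hv : ∀ z ∈ Z, v ⬝ᵥ vec k z = 0)
    (x : Lam k r) : zet k Z * con v x = (-1 : k) ^ Z.length • con v (zet k Z * x) := by
  induction Z with
  | nil => simp [zet_nil]
  | cons z Z ih =>
    rw [zet_cons, mul_assoc, ih fun z hz => hv z (List.mem_cons_of_mem _ hz), mul_assoc,
      con_gi_mul, hv z List.mem_cons_self, zero_smul, zero_sub, mul_smul_comm, List.length_cons,
      pow_succ, mul_smul]
    simp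

/-- Elements of the list are zero modulo the list. -/
theorem zet_mem (Z : List (Fin r → ℤ)) {z : Fin r → ℤ} (hz : z ∈ Z) (x : Lam k r) :
    zet k Z * (gi (vec k z) * x) = 0 := by
  induction Z with
  | nil => simp at hz
  | cons y Z ih =>
    rw [zet_cons, mul_assoc]
    rcases List.mem_cons.1 hz with rfl | hz
    · rw [zet_gi, mul_smul_comm, gi_self, smul_zero]
    · rw [ih hz, mul_zero]

theorem vec_dotProduct (c h : Fin r → ℤ) : vec k c ⬝ᵥ vec k h = ((c ⬝ᵥ h : ℤ) : k) := by
  simp [vec, dotProduct]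

/-- Integral multiples of vectors in the rational span of a list are integral combinations. -/
theorem inSpan_iff (Z : List (Fin r → ℤ)) (h : Fin r → ℤ) :
    InSpan Z h ↔ ∃ (N : ℕ) (c : (Fin r → ℤ) → ℤ), 0 < N ∧
      N • h = ∑ z ∈ Z.toFinset, c z • z := by
  classical
  have hset : {y : Fin r → ℚ | ∃ z ∈ Z, y = vec ℚ z} =
      vec ℚ '' (Z.toFinset : Set (Fin r → ℤ)) := by
    ext y
    simp only [Set.mem_ofPred_eq, Set.mem_image, Finset.mem_coe, List.mem_toFinset]
    exact ⟨fun ⟨z, hz, hy⟩ => ⟨z, hz, hy.symm⟩, fun ⟨z, hz, hy⟩ => ⟨z, hz, hy.symm⟩⟩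
  unfold InSpan
  rw [hset]
  constructor
  · intro h1
    obtain ⟨q₀, hq₀⟩ := (Submodule.mem_span_image_finset_iff_exists_fun ℚ).1 h1
    let q : (Fin r → ℤ) → ℚ := fun z => if hz : z ∈ Z.toFinset then q₀ ⟨z, hz⟩ else 0
    have hq : ∑ z ∈ Z.toFinset, q z • vec ℚ z = vec ℚ h := by
      rw [← hq₀, ← Finset.sum_coe_sort Z.toFinset]
      refine Finset.sum_congr rfl fun z _ => ?_
      simp only [q]
      rw [dif_pos z.2]
    let N : ℕ := ∏ z ∈ Z.toFinset, (q z).den
    have hN : 0 < N := Finset.prod_pos fun z _ => (q z).den_pos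
    refine ⟨N, fun z => (q z).num * (N / (q z).den : ℕ), hN, ?_⟩
    have hcz : ∀ z ∈ Z.toFinset, (((q z).num * (N / (q z).den : ℕ) : ℤ) : ℚ) = N * q z := by
      intro z hz
      have hd : (q z).den ∣ N := Finset.dvd_prod_of_mem (fun z => (q z).den) hz
      obtain ⟨M, hM⟩ := hd
      have h2 : N / (q z).den = M := by
        rw [hM]
        exact Nat.mul_div_cancel_left M (q z).den_pos
      rw [h2, hM]
      push_cast
      have h3 : q z * (q z).den = (q z).num := Rat.mul_den_eq_num (q z)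
      rw [← h3]
      ring
    funext i
    have h4 := congrFun hq i
    rw [Finset.sum_apply] at h4
    have h5 : (N : ℚ) * (h i : ℚ) =
        ∑ z ∈ Z.toFinset, (((q z).num * (N / (q z).den : ℕ) : ℤ) : ℚ) * (z i : ℚ) := by
      have h6 : (h i : ℚ) = vec ℚ h i := rfl
      rw [h6, ← h4, Finset.mul_sum]
      refine Finset.sum_congr rfl fun z hz => ?_
      rw [hcz z hz, Pi.smul_apply, smul_eq_mul, mul_assoc]
      rfl
    rw [Pi.smul_apply, Finset.sum_apply, nsmul_eq_mul]
    have h7 : (((N : ℤ) * h i : ℤ) : ℚ) =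
        ((∑ z ∈ Z.toFinset, ((q z).num * (N / (q z).den : ℕ) : ℤ) * z i : ℤ) : ℚ) := by
      push_cast at h5 ⊢
      exact h5
    exact_mod_cast h7
  · rintro ⟨N, c, hN, h1⟩
    have h2 : vec ℚ h = (N : ℚ)⁻¹ • ∑ z ∈ Z.toFinset, (c z : ℚ) • vec ℚ z := by
      funext i
      have h3 := congrFun h1 i
      rw [Pi.smul_apply, Finset.sum_apply] at h3
      rw [Pi.smul_apply, Finset.sum_apply]
      have h4 : (N : ℚ) * (h i : ℚ) = ∑ z ∈ Z.toFinset, (c z : ℚ) * (z i : ℚ) := by
        have h5 : (((N : ℤ) * h i : ℤ) : ℚ) = ((∑ z ∈ Z.toFinset, c z * z i : ℤ) : ℚ) := by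
          rw [nsmul_eq_mul] at h3
          exact_mod_cast congrArg (fun x : ℤ => (x : ℚ)) h3
        push_cast at h5
        exact h5
      have h6 : (N : ℚ) ≠ 0 := by exact_mod_cast hN.ne'
      have h7 : ∑ z ∈ Z.toFinset, ((c z : ℚ) • vec ℚ z) i = (N : ℚ) * (h i : ℚ) := by
        rw [h4]
        rfl
      rw [h7, smul_eq_mul, inv_mul_cancel_left₀ h6]
      rfl
    rw [h2]
    refine Submodule.smul_mem _ _ (Submodule.sum_mem _ fun z hz => Submodule.smul_mem _ _ ?_)
    exact Submodule.subset_span ⟨z, hz, rfl⟩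

/-- Forms in the rational span of the list are zero modulo the list. -/
theorem zet_inSpan [CharZero k] (Z : List (Fin r → ℤ)) {h : Fin r → ℤ} (hh : InSpan Z h)
    (x : Lam k r) : zet k Z * (gi (vec k h) * x) = 0 := by
  obtain ⟨N, c, hN, hc⟩ := (inSpan_iff Z h).1 hh
  have h0 : (N : k) ≠ 0 := by exact_mod_cast hN.ne'
  have h1 : (N : k) • gi (vec k h) = ∑ z ∈ Z.toFinset, (c z : k) • (gi (vec k z) : Lam k r) := by
    have h2 : (N : k) • vec k h = ∑ z ∈ Z.toFinset, (c z : k) • vec k z := by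
      funext i
      have h3 := congrFun hc i
      rw [Pi.smul_apply, Finset.sum_apply, nsmul_eq_mul] at h3
      rw [Pi.smul_apply, Finset.sum_apply]
      have h4 : (((N : ℤ) * h i : ℤ) : k) = ((∑ z ∈ Z.toFinset, (c z • z) i : ℤ) : k) := by
        rw [← h3]
      simp only [Pi.smul_apply, smul_eq_mul] at h4 ⊢
      push_cast at h4
      exact h4
    rw [← gi_smul, h2]
    unfold gi
    rw [map_sum]
    exact Finset.sum_congr rfl fun z _ => by rw [map_smul]
  have h5 : (N : k) • (zet k Z * (gi (vec k h) * x)) = 0 := by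
    rw [← mul_smul_comm, ← smul_mul_assoc, h1, Finset.sum_mul, Finset.mul_sum]
    refine Finset.sum_eq_zero fun z hz => ?_
    rw [smul_mul_assoc, mul_smul_comm, zet_mem Z (List.mem_toFinset.1 hz), smul_zero]
  exact (smul_eq_zero.1 h5).resolve_left h0

/-- If every form is in the span of `Z` then everything of positive degree is zero modulo `Z`. -/
theorem zet_top [CharZero k] (Z : List (Fin r → ℤ)) (h : ∀ h, InSpan Z h) {x : Lam k r}
    (hx : x ∈ Fil k r 1) : zet k Z * x = 0 := by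
  refine Fil_succ_induction (P := fun x => zet k Z * x = 0) ?_ ?_ hx
  · intro ξ y _
    have h1 : ξ = ∑ i, ξ i • vec k (Pi.single i (1 : ℤ) : Fin r → ℤ) := by
      funext j
      rw [Finset.sum_apply, Finset.sum_eq_single j]
      · simp [vec]
      · intro i _ hij
        simp [vec, hij.symm]
      · intro hj
        exact absurd (Finset.mem_univ j) hj
    have h2 : (gi ξ : Lam k r) = ∑ i, ξ i • gi (vec k (Pi.single i (1 : ℤ) : Fin r → ℤ)) := by
      conv_lhs => rw [h1]
      unfold gi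
      rw [map_sum]
      exact Finset.sum_congr rfl fun z _ => by rw [map_smul]
    rw [h2, Finset.sum_mul, Finset.mul_sum]
    refine Finset.sum_eq_zero fun i _ => ?_
    rw [smul_mul_assoc, mul_smul_comm, zet_inSpan Z (h _), smul_zero]
  · intro x y hx hy
    rw [mul_add, hx, hy, add_zero]

/-- Division by `h` modulo `Z`: contract `0 = zet (h :: Z) * γ` with `c`. -/
theorem zet_div [CharZero k] (Z : List (Fin r → ℤ)) (h c : Fin r → ℤ)
    (hc : ∀ z ∈ Z, c ⬝ᵥ z = 0) (hch : c ⬝ᵥ h ≠ 0) {γ : Lam k r} (hγ : zet k (h :: Z) * γ = 0) :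
    zet k Z * γ = zet k Z * (gi (vec k h) * ((((c ⬝ᵥ h : ℤ) : k))⁻¹ • con (vec k c) γ)) := by
  have h0 : ((c ⬝ᵥ h : ℤ) : k) ≠ 0 := by exact_mod_cast hch
  have h1 : con (vec k c) (gi (vec k h) * (zet k Z * γ)) = 0 := by
    rw [← mul_assoc, ← zet_cons, hγ, map_zero]
  rw [con_gi_mul, vec_dotProduct, sub_eq_zero] at h1
  have h2 := zet_con (k := k) Z (vec k c) (fun z hz => by
    rw [vec_dotProduct, hc z hz, Int.cast_zero]) γ
  have h3 : con (vec k c) (zet k Z * γ) = (-1 : k) ^ Z.length • (zet k Z * con (vec k c) γ) := by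
    rw [h2, smul_smul, ← mul_pow]
    simp
  rw [h3, mul_smul_comm] at h1
  rw [mul_smul_comm, mul_smul_comm, zet_gi, ← h1, smul_smul, inv_mul_cancel₀ h0, one_smul]

/-- A form outside the rational span of `Z` is separated from `Z` by an integral vector. -/
theorem exists_sep (Z : List (Fin r → ℤ)) (h : Fin r → ℤ) (hh : ¬ InSpan Z h) :
    ∃ c : Fin r → ℤ, (∀ z ∈ Z, c ⬝ᵥ z = 0) ∧ c ⬝ᵥ h ≠ 0 := by
  classical
  obtain ⟨φ, hφ, hφ0⟩ := Submodule.exists_dual_map_eq_bot_of_notMem hh inferInstance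
  have hz : ∀ z ∈ Z, φ (vec ℚ z) = 0 := by
    intro z hz
    have h1 : φ (vec ℚ z) ∈ Submodule.map φ (Submodule.span ℚ {y | ∃ z ∈ Z, y = vec ℚ z}) :=
      ⟨_, Submodule.subset_span ⟨z, hz, rfl⟩, rfl⟩
    rw [hφ0] at h1
    exact (Submodule.mem_bot ℚ).1 h1
  let q : Fin r → ℚ := fun i => φ (Pi.single i 1)
  have hφe : ∀ x : Fin r → ℚ, φ x = ∑ i, q i * x i := by
    intro x
    conv_lhs => rw [← Finset.univ_sum_single x]
    rw [map_sum]
    refine Finset.sum_congr rfl fun m _ => ?_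
    have : (Pi.single m (x m) : Fin r → ℚ) = x m • Pi.single m (1 : ℚ) := by
      rw [← Pi.single_smul, smul_eq_mul, mul_one]
    rw [this, map_smul, smul_eq_mul, mul_comm]
  let N : ℕ := ∏ i, (q i).den
  have hN : 0 < N := Finset.prod_pos fun i _ => (q i).den_pos
  have hN0 : (N : ℚ) ≠ 0 := by exact_mod_cast hN.ne'
  let c : Fin r → ℤ := fun i => (q i).num * (N / (q i).den : ℕ)
  have hc : ∀ i, (c i : ℚ) = N * q i := by
    intro i
    obtain ⟨M, hM⟩ : (q i).den ∣ N :=
      Finset.dvd_prod_of_mem (fun i => (q i).den) (Finset.mem_univ i)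
    have h2 : N / (q i).den = M := by
      rw [hM]
      exact Nat.mul_div_cancel_left M (q i).den_pos
    simp only [c]
    rw [h2, hM]
    push_cast
    have h3 : q i * (q i).den = (q i).num := Rat.mul_den_eq_num (q i)
    rw [← h3]
    ring
  have hcd : ∀ z : Fin r → ℤ, ((c ⬝ᵥ z : ℤ) : ℚ) = N * φ (vec ℚ z) := by
    intro z
    rw [hφe, Finset.mul_sum]
    unfold dotProduct
    push_cast
    refine Finset.sum_congr rfl fun i _ => ?_
    rw [hc, mul_assoc]
    rfl
  refine ⟨c, fun z hz' => ?_, fun h0 => ?_⟩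
  · have h1 := hcd z
    rw [hz z hz', mul_zero] at h1
    exact_mod_cast h1
  · have h1 := hcd h
    rw [h0, Int.cast_zero] at h1
    exact hφ ((mul_eq_zero.1 h1.symm).resolve_left hN0)

/-- Forms in the span have the same value at two points where the forms in `Z` agree. -/
theorem rdot_eq_of_inSpan (Z : List (Fin r → ℤ)) (h : Fin r → ℤ) (hh : InSpan Z h)
    (u : Fin r → ℝ) (hu : ∀ z ∈ Z, rdot z u = 0) : rdot h u = 0 := by
  obtain ⟨N, c, hN, hc⟩ := (inSpan_iff Z h).1 hh
  have h0 : (N : ℝ) ≠ 0 := by exact_mod_cast hN.ne'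
  have h1 : (N : ℝ) * rdot h u = 0 := by
    have h2 : (N : ℝ) * rdot h u = ∑ z ∈ Z.toFinset, (c z : ℝ) * rdot z u := by
      unfold rdot
      rw [Finset.mul_sum]
      simp only [Finset.mul_sum]
      rw [Finset.sum_comm]
      refine Finset.sum_congr rfl fun i _ => ?_
      have h3 := congrFun hc i
      rw [Pi.smul_apply, Finset.sum_apply, nsmul_eq_mul] at h3
      have h4 : (((N : ℤ) * h i : ℤ) : ℝ) = ((∑ z ∈ Z.toFinset, (c z • z) i : ℤ) : ℝ) := by
        rw [← h3]
      simp only [Pi.smul_apply, smul_eq_mul] at h4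
      push_cast at h4
      rw [← mul_assoc, h4, Finset.sum_mul]
      exact Finset.sum_congr rfl fun z _ => by ring
    rw [h2]
    exact Finset.sum_eq_zero fun z hz => by rw [hu z (List.mem_toFinset.1 hz), mul_zero]
  exact (mul_eq_zero.1 h1).resolve_left h0

end MPb07157T
end
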