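import Pool.Agent.Lib.MP_b07157_agT.F0

/-!
# Newton polyhedra: definitions
-/

noncomputable section

namespace MPb07157T

open Finset Matrix MvPolynomial MPb07157

variable {n : ℕ}

/-- Newton nondegeneracy on the compact faces (the faces of positive weights). -/
def NondegC (f : MvPolynomial (Fin n) ℂ) : Prop :=
  ∀ (a : Fin n → ℕ) (N : ℕ), (∀ j, 0 < a j) → IsMinWt f a N →
    NondegAt f (f.support.filter fun v => wt a v = N)

/-- `f` is convenient: some power of each variable is an exponent. -/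
def Convenient (f : MvPolynomial (Fin n) ℂ) : Prop :=
  ∀ j : Fin n, ∃ d : ℕ, 0 < d ∧ Finsupp.single j d ∈ f.support

/-- The weights of `Sg` cut out the Newton polyhedron. -/
def CutsOut (Sg : Finset ((Fin n → ℤ) × ℤ)) (f : MvPolynomial (Fin n) ℂ) : Prop :=
  ∀ q : Fin n → ℝ, (∀ j, 0 ≤ q j) → (∀ σ ∈ Sg, (σ.2 : ℝ) ≤ rdot σ.1 q) →
    ∃ l : (Fin n → ℤ) → ℝ, (∀ v ∈ (Fc f).support, 0 ≤ l v) ∧ ∑ v ∈ (Fc f).support, l v = 1 ∧
      ∀ j, ∑ v ∈ (Fc f).support, l v * (v j : ℝ) ≤ q j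

end MPb07157T
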