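import Pool.Agent.Lib.MP_b07157_agT.Fin
import Pool.Agent.Lib.MP_b07157_ag.NewtClass

/-!
# Nondegeneracy: from the torus to the unit ideal
-/

noncomputable section

namespace MPb07157T

open Finset Matrix

variable {k : Type} [Field k] {n : ℕ}

/-- The exponent as an integral vector. -/
def castv (v : Fin n →₀ ℕ) : Fin n → ℤ := fun j => (v j : ℤ)

theorem castv_injective : Function.Injective (castv (n := n)) := by
  intro a b h
  ext j
  have := congrFun h j
  simp only [castv] at this
  exact_mod_cast this

/-- The inclusion of the polynomials in the Laurent polynomials. -/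
def iotaL (k : Type) [Field k] (n : ℕ) : MvPolynomial (Fin n) k →ₐ[k] LP k n :=
  MvPolynomial.aeval fun j => AddMonoidAlgebra.single (Pi.single j 1) 1

theorem iotaL_monomial (v : Fin n →₀ ℕ) (c : k) :
    iotaL k n (MvPolynomial.monomial v c) = AddMonoidAlgebra.single (castv v) c := by
  classical
  unfold iotaL
  rw [MvPolynomial.aeval_monomial]
  have h1 : (v.prod fun i e => (AddMonoidAlgebra.single (Pi.single i 1) 1 : LP k n) ^ e) =
      AddMonoidAlgebra.single (castv v) 1 := by
    rw [Finsupp.prod_fintype _ _ (fun i => pow_zero _)]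
    simp only [AddMonoidAlgebra.single_pow, one_pow]
    rw [AddMonoidAlgebra.prod_single, Finset.prod_const_one]
    congr 1
    funext j
    rw [Finset.sum_apply, Finset.sum_eq_single j]
    · simp [castv]
    · intro i _ hij
      simp [hij]
    · intro h
      exact absurd (Finset.mem_univ j) h
  rw [h1, AddMonoidAlgebra.coe_algebraMap]
  simp [AddMonoidAlgebra.single_mul_single]

/-- The restriction of a certificate for `1` to the common kernel of `Z`. -/
theorem unitOn_of_cert (Z : List (Fin n → ℤ)) (F : (Fin n → ℤ) →₀ k)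
    (hZ : ∀ v ∈ F.support, ∀ z ∈ Z, z ⬝ᵥ v = 0) (hc : Cert Set.univ F 1) : UnitOn Z F := by
  classical
  obtain ⟨g, -, e⟩ := hc
  have he : ∀ m, ∑ i, ∑ v ∈ (g i).coeff.support,
      (g i).coeff v * (((m - v) i : ℤ) : k) * F (m - v) = if m = 0 then 1 else 0 := by
    intro m
    have h1 := congrArg (fun x => x.coeff m) e
    simp only [AddMonoidAlgebra.coeff_sum, Finsupp.finsetSum_apply, coeff_mul_thF] at h1
    rw [h1, AddMonoidAlgebra.one_def, AddMonoidAlgebra.coeff_single, Finsupp.single_apply]
    simp only [eq_comm]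
  refine ⟨fun i => (g i).coeff.filter fun v => ∀ z ∈ Z, z ⬝ᵥ v = 0, ?_, fun m => ?_⟩
  · intro i v hv
    rw [Finsupp.support_filter, Finset.mem_filter] at hv
    exact hv.2
  · by_cases hm : ∀ z ∈ Z, z ⬝ᵥ m = 0
    · rw [← he m]
      refine Finset.sum_congr rfl fun i _ => ?_
      rw [Finsupp.support_filter, Finset.sum_filter]
      refine Finset.sum_congr rfl fun v _ => ?_
      by_cases hv : ∀ z ∈ Z, z ⬝ᵥ v = 0
      · rw [if_pos hv, Finsupp.filter_apply_pos _ _ hv]
      · rw [if_neg hv]
        have h0 : F (m - v) = 0 := by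
          by_contra h
          apply hv
          intro z hz
          have h1 := hZ (m - v) (Finsupp.mem_support_iff.2 h) z hz
          rw [dotProduct_sub, hm z hz] at h1
          omega
        rw [h0, mul_zero]
    · have hm0 : m ≠ 0 := by
        rintro rfl
        exact hm fun z _ => dotProduct_zero z
      rw [if_neg hm0]
      refine Finset.sum_eq_zero fun i _ => Finset.sum_eq_zero fun v hv => ?_
      rw [Finsupp.support_filter, Finset.mem_filter] at hv
      have h0 : F (m - v) = 0 := by
        by_contra h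
        apply hm
        intro z hz
        have h1 := hZ (m - v) (Finsupp.mem_support_iff.2 h) z hz
        rw [dotProduct_sub, hv.2 z hz] at h1
        omega
      rw [h0, mul_zero]

/-- The part of `f` with exponents in `I` as a Laurent polynomial. -/
def toF (f : MvPolynomial (Fin n) k) (I : Finset (Fin n →₀ ℕ)) : (Fin n → ℤ) →₀ k :=
  ∑ v ∈ I, Finsupp.single (castv v) (MvPolynomial.coeff v f)

theorem toF_castv (f : MvPolynomial (Fin n) k) (I : Finset (Fin n →₀ ℕ)) (v : Fin n →₀ ℕ) :
    toF f I (castv v) = if v ∈ I then MvPolynomial.coeff v f else 0 := by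
  classical
  unfold toF
  rw [Finsupp.finsetSum_apply]
  simp only [Finsupp.single_apply, castv_injective.eq_iff]
  rw [Finset.sum_ite_eq']

theorem toF_support {f : MvPolynomial (Fin n) k} {I : Finset (Fin n →₀ ℕ)} {m : Fin n → ℤ}
    (hm : toF f I m ≠ 0) : ∃ v ∈ I, m = castv v ∧ MvPolynomial.coeff v f ≠ 0 := by
  classical
  unfold toF at hm
  rw [Finsupp.finsetSum_apply] at hm
  obtain ⟨v, hv, h⟩ := Finset.exists_ne_zero_of_sum_ne_zero hm
  rw [Finsupp.single_apply] at h
  split_ifs at h with h1
  · exact ⟨v, hv, h1.symm, h⟩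
  · exact absurd rfl h

theorem fpart_toF (Z : List (Fin n → ℤ)) (f : MvPolynomial (Fin n) k)
    (I : Finset (Fin n →₀ ℕ)) [DecidablePred fun v : Fin n →₀ ℕ => ∀ z ∈ Z, z ⬝ᵥ castv v = 0] :
    Fpart Z (toF f I) = toF f (I.filter fun v => ∀ z ∈ Z, z ⬝ᵥ castv v = 0) := by
  classical
  ext m
  unfold Fpart
  by_cases hm : ∀ z ∈ Z, z ⬝ᵥ m = 0
  · rw [Finsupp.filter_apply_pos _ _ hm]
    unfold toF
    rw [Finsupp.finsetSum_apply, Finsupp.finsetSum_apply, Finset.sum_filter]
    refine Finset.sum_congr rfl fun v _ => ?_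
    by_cases hv : castv v = m
    · rw [if_pos (by rw [hv]; exact hm)]
    · rw [Finsupp.single_apply, if_neg hv]
      split_ifs <;> rfl
  · rw [Finsupp.filter_apply_neg _ _ hm]
    symm
    by_contra h
    obtain ⟨v, hv, rfl, -⟩ := toF_support h
    exact hm (Finset.mem_filter.1 hv).2

/-- The Nullstellensatz for the logarithmic derivatives on the torus. -/
theorem cert_of_torus [IsAlgClosed k] (f : MvPolynomial (Fin n) k) (I : Finset (Fin n →₀ ℕ))
    (ht : ∀ u : Fin n → k, (∀ j, u j ≠ 0) →
      ∃ i, MvPolynomial.eval u (∑ v ∈ I, MvPolynomial.monomial v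
        ((v i : k) * MvPolynomial.coeff v f)) ≠ 0) :
    Cert Set.univ (toF f I) 1 := by
  classical
  let G : Fin n → MvPolynomial (Fin n) k := fun i =>
    ∑ v ∈ I, MvPolynomial.monomial v ((v i : k) * MvPolynomial.coeff v f)
  have hG : ∀ i, iotaL k n (G i) = thF (toF f I) i := by
    intro i
    simp only [G]
    rw [map_sum]
    simp only [iotaL_monomial]
    ext m
    rw [coeff_thF, AddMonoidAlgebra.coeff_sum, Finsupp.finsetSum_apply]
    unfold toF
    rw [Finsupp.finsetSum_apply, Finset.mul_sum]
    refine Finset.sum_congr rfl fun v _ => ?_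
    rw [AddMonoidAlgebra.coeff_single, Finsupp.single_apply, Finsupp.single_apply]
    by_cases h : castv v = m
    · rw [if_pos h, if_pos h, ← h]
      simp [castv]
    · rw [if_neg h, if_neg h, mul_zero]
  have h1 : (MvPolynomial.monomial (Finsupp.equivFunOnFinite.symm fun _ => 1) 1 :
      MvPolynomial (Fin n) k) ∈ (Ideal.span (Set.range G)).radical := by
    rw [← MvPolynomial.vanishingIdeal_zeroLocus_eq_radical (K := k), 
      MvPolynomial.mem_vanishingIdeal_iff]
    intro u hu
    rw [MvPolynomial.zeroLocus_span] at hu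
    by_contra hne
    rw [MvPolynomial.aeval_monomial, Finsupp.prod_fintype _ _ (fun i => pow_zero _)] at hne
    have h2 : ∀ j, u j ≠ 0 := by
      intro j hj
      apply hne
      rw [Finset.prod_eq_zero (Finset.mem_univ j), mul_zero]
      simp [hj]
    obtain ⟨i, hi⟩ := ht u h2
    apply hi
    have h3 := hu (G i) ⟨i, rfl⟩
    rwa [MvPolynomial.aeval_eq_eval] at h3
  obtain ⟨N, hN⟩ := h1
  rw [Ideal.mem_span_range_iff_exists_fun] at hN
  obtain ⟨c, hc⟩ := hN
  have h2 := congrArg (iotaL k n) hc
  rw [map_sum, map_pow, iotaL_monomial, AddMonoidAlgebra.single_pow, one_pow] at h2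
  simp only [map_mul, hG] at h2
  set e := castv (Finsupp.equivFunOnFinite.symm fun _ : Fin n => 1) with he
  refine ⟨fun i => AddMonoidAlgebra.single (-(N • e)) 1 * iotaL k n (c i),
    fun i v _ => Set.mem_univ _, ?_⟩
  simp only [mul_assoc]
  rw [← Finset.mul_sum, h2, AddMonoidAlgebra.single_mul_single, neg_add_cancel, one_mul,
    AddMonoidAlgebra.one_def]

/-- Nondegeneracy on a homogeneous part gives the unit ideal, with multipliers on the kernel. -/
theorem unitOn_of_nondegAt (f : MvPolynomial (Fin n) ℂ) (I : Finset (Fin n →₀ ℕ))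
    (hnd : MPb07157.NondegAt f I) (w : Fin n → ℤ) (N : ℤ) (hN : N ≠ 0)
    (hw : ∀ v ∈ I, w ⬝ᵥ castv v = N) (Z : List (Fin n → ℤ))
    (hZ : ∀ z ∈ Z, ∀ v ∈ I, z ⬝ᵥ castv v = 0) : UnitOn Z (toF f I) := by
  classical
  refine unitOn_of_cert Z _ ?_ (cert_of_torus f I ?_)
  · intro m hm z hz
    obtain ⟨v, hv, rfl, -⟩ := toF_support (Finsupp.mem_support_iff.1 hm)
    exact hZ z hz v hv
  · intro u hu
    by_contra hno
    push Not at hno
    -- logarithmic derivatives
    have h1 : ∀ i, MvPolynomial.eval u (∑ v ∈ I, MvPolynomial.monomial v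
        ((v i : ℂ) * MvPolynomial.coeff v f)) =
        u i * MvPolynomial.eval u (MvPolynomial.pderiv i (MPb07157.inForm f I)) := by
      intro i
      unfold MPb07157.inForm
      rw [map_sum, map_sum, map_sum, Finset.mul_sum]
      refine Finset.sum_congr rfl fun v _ => ?_
      rw [MvPolynomial.pderiv_monomial, MvPolynomial.eval_monomial, MvPolynomial.eval_monomial]
      by_cases hvi : v i = 0
      · rw [hvi]
        simp
      · have h2 : v = (v - Finsupp.single i 1) + Finsupp.single i 1 := by
          rw [tsub_add_cancel_of_le]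
          rw [Finsupp.single_le_iff]
          omega
        have h3 : (v.prod fun j e => u j ^ e) =
            ((v - Finsupp.single i 1).prod fun j e => u j ^ e) * u i := by
          have h4 : ((Finsupp.single i 1 : Fin n →₀ ℕ).prod fun j e => u j ^ e) = u i := by
            rw [Finsupp.prod_single_index (h := fun j e => u j ^ e) (pow_zero _), pow_one]
          have h5 := Finsupp.prod_add_index' (f := v - Finsupp.single i 1)
            (g := Finsupp.single i 1) (h := fun j e => u j ^ e) (fun j => pow_zero _)
            (fun j a b => pow_add _ _ _)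
          rw [← h2, h4] at h5
          exact h5
        rw [h3]
        ring
    have h2 : ∀ i, MvPolynomial.eval u (MvPolynomial.pderiv i (MPb07157.inForm f I)) = 0 := by
      intro i
      have h3 := h1 i
      rw [hno i] at h3
      exact (mul_eq_zero.1 h3.symm).resolve_left (hu i)
    -- Euler
    have h3 : (N : ℂ) * MvPolynomial.eval u (MPb07157.inForm f I) = 0 := by
      have h4 : ∑ i, (w i : ℂ) * MvPolynomial.eval u (∑ v ∈ I, MvPolynomial.monomial v
          ((v i : ℂ) * MvPolynomial.coeff v f)) =
          (N : ℂ) * MvPolynomial.eval u (MPb07157.inForm f I) := by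
        unfold MPb07157.inForm
        simp only [map_sum, MvPolynomial.eval_monomial, Finset.mul_sum]
        rw [Finset.sum_comm]
        refine Finset.sum_congr rfl fun v hv => ?_
        have h5 : ∑ i, (w i : ℂ) * (v i : ℂ) = N := by
          have h6 := hw v hv
          unfold dotProduct castv at h6
          rw [← h6]
          push_cast
          rfl
        rw [← h5, Finset.sum_mul]
        exact Finset.sum_congr rfl fun i _ => by ring
      rw [← h4]
      exact Finset.sum_eq_zero fun i _ => by rw [hno i, mul_zero]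
    have h4 : MvPolynomial.eval u (MPb07157.inForm f I) = 0 :=
      (mul_eq_zero.1 h3).resolve_left (by exact_mod_cast hN)
    obtain ⟨j, hj⟩ := hnd u hu h4
    exact hj (h2 j)

end MPb07157T
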