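import Pool.Agent.Lib.MP_b07157_agT.DDefs
import Pool.Agent.Lib.MP_b07157_ag.NewtLocal
import Pool.Agent.Lib.MP_b07157_ag.NewtFF1

/-!
# The module `ℂ[[x]][y]` and its lattice coefficients: definitions
-/

noncomputable section

namespace MPb07157T

open Finset Matrix MvPolynomial MPb07157

variable {n : ℕ}

/-- The module `ℂ[[x]][y]`. -/
abbrev PY (n : ℕ) : Type := Polynomial (MvPowerSeries (Fin n) ℂ)

/-- `∇_i = ∂_i + y f_i`. -/
def nab (f : MvPolynomial (Fin n) ℂ) (i : Fin n) (m : PY n) : PY n :=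
  derivC i m + Polynomial.X * Polynomial.C ((pderiv i f : MvPolynomial (Fin n) ℂ) :
    MvPowerSeries (Fin n) ℂ) * m

/-- `Θ = y ∂_y + y f` (the action of `s`). -/
def Tht (f : MvPolynomial (Fin n) ℂ) (m : PY n) : PY n :=
  Polynomial.X * Polynomial.derivative m +
    Polynomial.X * Polynomial.C (f : MvPowerSeries (Fin n) ℂ) * m

/-- The submodule `D[[x]][s] f^{s+1}` of `ℂ[[x]][y]` (`y^k ↔ [s]_k f^{s-k}`, `f ↔ f^{s+1}`):
generated from the elements `c(x) Θ^i f` by sums and the operators `∇_i`. -/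
inductive TT (f : MvPolynomial (Fin n) ℂ) : PY n → Prop
  | gen (c : MvPowerSeries (Fin n) ℂ) (i : ℕ) :
      TT f (Polynomial.C c * (Tht f)^[i] (Polynomial.C (f : MvPowerSeries (Fin n) ℂ)))
  | add {m m' : PY n} : TT f m → TT f m' → TT f (m + m')
  | nab {m : PY n} (i : Fin n) : TT f m → TT f (nab f i m)

/-- `∑_j [s]_j m_j f^{K-j}` in `ℂ[[x]][s]`, where `[s]_j = s (s - 1) ⋯ (s - j + 1)`. -/
def ph (f : MvPolynomial (Fin n) ℂ) (K : ℕ) (m : PY n) : PY n :=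
  m.sum fun j a => (descPochhammer (MvPowerSeries (Fin n) ℂ) j) * Polynomial.C
    (a * (f : MvPowerSeries (Fin n) ℂ) ^ (K - j))

/-- The coefficient of `y^κ x^β` at the lattice point `(κ, β)`, zero outside the orthant. -/
def cf (φ : PY n) (m : Fin (n + 1) → ℤ) : ℂ :=
  if ∀ i, 0 ≤ m i then
    MvPowerSeries.coeff (Finsupp.equivFunOnFinite.symm fun j : Fin n => (m j.succ).toNat)
      (φ.coeff (m 0).toNat)
  else 0

/-- The coefficient function of `f` on the lattice. -/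
def Fc (f : MvPolynomial (Fin n) ℂ) : (Fin n → ℤ) →₀ ℂ :=
  f.support.sum fun v => Finsupp.single (fun j => (v j : ℤ)) (coeff v f)

/-- `Θ` on scalar functions on the lattice. -/
def thL (F : (Fin n → ℤ) →₀ ℂ) (g : (Fin (n + 1) → ℤ) → ℂ) : (Fin (n + 1) → ℤ) → ℂ :=
  fun m => (m 0 : ℂ) * g m + ∑ v ∈ F.support, F v * g (m - sh v)

/-- The lattice set of the face of `κ` at `-a`. -/
def MM (Sg : Finset ((Fin n → ℤ) × ℤ)) (κ : (Fin n → ℤ) × ℤ) (a : Fin n → ℝ) :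
    Set (Fin n → ℤ) :=
  {m | κ.2 ∣ κ.1 ⬝ᵥ m ∧ (∀ j, -a j ≤ m j) ∧ ∀ τ ∈ Sg, -rdot (et κ τ) a ≤ ((et κ τ ⬝ᵥ m : ℤ) : ℝ)}

end MPb07157T
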