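import Pool.Agent.Lib.MP_b07157_agT.Defs

/-!
# The abstract crossing induction
-/

noncomputable section

namespace MPb07157T

open Finset Matrix

variable {k : Type} [Field k] {n : ℕ}

/-- The abstract crossing induction: `val h m` are integers, `A h` reals, `B h > 0`; a state has a
finite set of relevant points; if all relevant points satisfy the inequalities at time `t > 0`
then there is another state where they are strict; then from every state one reaches a state whose
relevant points satisfy the inequalities at time `0`.  (Strong induction on the number of pairs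
`(h, p)` with `0 < A h - p ≤ t B h`.) -/
theorem abstract_cross {ι M St : Type} (H : Finset ι) (val : ι → M → ℤ) (A B : ι → ℝ)
    (hB : ∀ h ∈ H, 0 < B h) (rel : St → Set M) (hfin : ∀ s, (rel s).Finite)
    (step : ∀ t : ℝ, 0 < t → ∀ s, (∀ m ∈ rel s, ∀ h ∈ H, A h - t * B h ≤ val h m) →
      ∃ s', ∀ m ∈ rel s', ∀ h ∈ H, A h - t * B h < val h m) (s : St) :
    ∃ s', ∀ m ∈ rel s', ∀ h ∈ H, A h ≤ val h m := by
  classical
  have hT : ∀ t : ℝ, ({x : ℝ | (∃ h ∈ H, ∃ p : ℤ, (p : ℝ) < A h ∧ x = (A h - p) / B h) ∧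
      x ≤ t}).Finite := by
    intro t
    apply Set.Finite.subset (s := ⋃ h ∈ H, (fun p : ℤ => (A h - (p : ℝ)) / B h) ''
      (Set.Icc ⌈A h - t * B h⌉ ⌈A h⌉))
    · exact Set.Finite.biUnion H.finite_toSet (fun h _ => (Set.finite_Icc _ _).image _)
    · rintro x ⟨⟨h, hh, p, hp, rfl⟩, hx⟩
      simp only [Set.mem_iUnion]
      refine ⟨h, hh, p, ⟨?_, ?_⟩, rfl⟩
      · rw [Int.ceil_le]
        have := (div_le_iff₀ (hB h hh)).1 hx
        linarith
      · have h1 : (p : ℝ) ≤ (⌈A h⌉ : ℤ) := hp.le.trans (Int.le_ceil _)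
        exact_mod_cast h1
  have main : ∀ N : ℕ, ∀ s, ({x : ℝ | (∃ h ∈ H, ∃ p : ℤ, (p : ℝ) < A h ∧ x = (A h - p) / B h) ∧
      ∃ h ∈ H, ∃ m ∈ rel s, (val h m : ℝ) < A h ∧ x ≤ (A h - val h m) / B h}).ncard = N →
      ∃ s', ∀ m ∈ rel s', ∀ h ∈ H, A h ≤ val h m := by
    intro N
    induction N using Nat.strong_induction_on with
    | _ N ih =>
    intro s hN
    have hbf : ((H : Set ι) ×ˢ (rel s)).Finite := H.finite_toSet.prod (hfin s)
    by_cases hbad : ∃ q : ι × M, q.1 ∈ H ∧ q.2 ∈ rel s ∧ (val q.1 q.2 : ℝ) < A q.1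
    · have hbf2 : {q : ι × M | q.1 ∈ H ∧ q.2 ∈ rel s ∧ (val q.1 q.2 : ℝ) < A q.1}.Finite :=
        hbf.subset (fun q hq => ⟨hq.1, hq.2.1⟩)
      obtain ⟨q0, hq0, hmax⟩ := Set.exists_max_image _
        (fun q : ι × M => (A q.1 - val q.1 q.2) / B q.1) hbf2 hbad
      set t : ℝ := (A q0.1 - val q0.1 q0.2) / B q0.1 with ht
      have htpos : 0 < t := div_pos (by linarith [hq0.2.2]) (hB _ hq0.1)
      obtain ⟨s', hs'⟩ := step t htpos s (by
        intro m hm h hh
        by_cases hlt : (val h m : ℝ) < A h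
        · have h1 := hmax (h, m) ⟨hh, hm, hlt⟩
          have h2 := (div_le_iff₀ (hB h hh)).1 h1
          simp only at h2
          linarith
        · have h1 : 0 ≤ t * B h := (mul_pos htpos (hB h hh)).le
          linarith [not_lt.1 hlt])
      have hlt' : ∀ h ∈ H, ∀ m ∈ rel s', (A h - val h m) / B h < t := by
        intro h hh m hm
        rw [div_lt_iff₀ (hB h hh)]
        linarith [hs' m hm h hh]
      refine ih _ ?_ s' rfl
      rw [← hN]
      apply Set.ncard_lt_ncard
      · rw [Set.ssubset_iff_of_subset]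
        · refine ⟨t, ⟨⟨q0.1, hq0.1, val q0.1 q0.2, hq0.2.2, rfl⟩,
            q0.1, hq0.1, q0.2, hq0.2.1, hq0.2.2, le_refl _⟩, ?_⟩
          rintro ⟨_, h, hh, m, hm, _, hle⟩
          exact absurd (hlt' h hh m hm) (not_lt.2 hle)
        · rintro x ⟨hx, h, hh, m, hm, _, hle⟩
          exact ⟨hx, q0.1, hq0.1, q0.2, hq0.2.1, hq0.2.2, hle.trans (hlt' h hh m hm).le⟩
      · apply (hT t).subset
        rintro x ⟨hx, h, hh, m, hm, hl, hle⟩
        exact ⟨hx, hle.trans (hmax (h, m) ⟨hh, hm, hl⟩)⟩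
    · refine ⟨s, fun m hm h hh => ?_⟩
      by_contra hc
      exact hbad ⟨(h, m), hh, hm, not_le.1 hc⟩
  exact main _ s rfl

end MPb07157T
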