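import Pool.Agent.Lib.MP_b07157_agT.T1B

/-!
# T1, section C: generic directions
-/

noncomputable section

namespace MPb07157T

open Finset Matrix MeasureTheory

variable {k : Type} [Field k] {r : ℕ}

theorem rdot_sub (h : Fin r → ℤ) (x y : Fin r → ℝ) : rdot h (x - y) = rdot h x - rdot h y := by
  unfold rdot
  rw [← Finset.sum_sub_distrib]
  exact Finset.sum_congr rfl fun i _ => by rw [Pi.sub_apply, mul_sub]

theorem rdot_smul (h : Fin r → ℤ) (t : ℝ) (x : Fin r → ℝ) : rdot h (t • x) = t * rdot h x := by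
  unfold rdot
  rw [Finset.mul_sum]
  exact Finset.sum_congr rfl fun i _ => by rw [Pi.smul_apply, smul_eq_mul]; ring

theorem rdot_add (h : Fin r → ℤ) (x y : Fin r → ℝ) : rdot h (x + y) = rdot h x + rdot h y := by
  unfold rdot
  rw [← Finset.sum_add_distrib]
  exact Finset.sum_congr rfl fun i _ => by rw [Pi.add_apply, mul_add]

theorem rdot_int (h m : Fin r → ℤ) : rdot h (fun i => (m i : ℝ)) = ((h ⬝ᵥ m : ℤ) : ℝ) := by
  unfold rdot dotProduct
  push_cast
  rfl

theorem rdot_time (h : Fin r → ℤ) (x u : Fin r → ℝ) (t : ℝ) :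
    rdot h (x - t • u) = rdot h x - t * rdot h u := by
  rw [rdot_sub, rdot_smul]

theorem rdot_continuous (h : Fin r → ℤ) : Continuous (rdot h) := by
  unfold rdot
  exact continuous_finsetSum _ fun i _ => continuous_const.mul (continuous_apply i)

/-- The real kernel of `Z`. -/
def kerZ (Z : List (Fin r → ℤ)) : Submodule ℝ (Fin r → ℝ) where
  carrier := {u | ∀ z ∈ Z, rdot z u = 0}
  add_mem' := fun {x y} hx hy z hz => by rw [rdot_add, hx z hz, hy z hz, add_zero]
  zero_mem' := fun z _ => by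
    have := rdot_smul z 0 (0 : Fin r → ℝ)
    rw [zero_smul, zero_mul] at this
    exact this
  smul_mem' := fun c x hx z hz => by rw [rdot_smul, hx z hz, mul_zero]

/-- A relative interior direction for which two classes of levels are never crossed at the same
time.  The relative interior directions form a nonempty open subset of the real kernel `V`
of `Z`; for `h, h'` and integers `p, p'` with `α = h·x - p > 0`, `α' = h'·x - p' > 0` such that
`h'` is not in the span of `h :: Z` the set `(α h' - α' h)·u = 0` is a proper subspace of `V`, of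
measure zero; there are countably many. -/
theorem exists_generic (Z : List (Fin r → ℤ)) (H : Finset (Fin r → ℤ)) (x : Fin r → ℝ)
    (hrel : ∃ u, Relint Z H u) :
    ∃ u, Relint Z H u ∧ ∀ h ∈ H, ∀ h' ∈ H, ¬ InSpan Z h → ¬ InSpan Z h' → ∀ p p' : ℤ, ∀ t : ℝ,
      0 < t → rdot h x - p = t * rdot h u → rdot h' x - p' = t * rdot h' u →
      InSpan (h :: Z) h' := by
  classical
  let V := kerZ Z
  let μ : Measure V := Measure.addHaar
  -- the bad subspaces
  let B : (Fin r → ℤ) × (Fin r → ℤ) × ℤ × ℤ → Submodule ℝ V := fun q =>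
    { carrier := {u | (rdot q.1 x - q.2.2.1) * rdot q.2.1 (u : Fin r → ℝ) =
        (rdot q.2.1 x - q.2.2.2) * rdot q.1 (u : Fin r → ℝ)}
      add_mem' := fun {a b} ha hb => by
        change _ * rdot q.2.1 ((a : Fin r → ℝ) + (b : Fin r → ℝ)) =
          _ * rdot q.1 ((a : Fin r → ℝ) + (b : Fin r → ℝ))
        have ha' : (rdot q.1 x - q.2.2.1) * rdot q.2.1 (a : Fin r → ℝ) =
          (rdot q.2.1 x - q.2.2.2) * rdot q.1 (a : Fin r → ℝ) := ha
        have hb' : (rdot q.1 x - q.2.2.1) * rdot q.2.1 (b : Fin r → ℝ) =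
          (rdot q.2.1 x - q.2.2.2) * rdot q.1 (b : Fin r → ℝ) := hb
        rw [rdot_add, rdot_add, mul_add, mul_add, ha', hb']
      zero_mem' := by
        change _ * rdot q.2.1 (0 : Fin r → ℝ) = _ * rdot q.1 (0 : Fin r → ℝ)
        have h0 : ∀ h : Fin r → ℤ, rdot h (0 : Fin r → ℝ) = 0 := fun h => by
          have := rdot_smul h 0 (0 : Fin r → ℝ)
          rw [zero_smul, zero_mul] at this
          exact this
        rw [h0, h0, mul_zero, mul_zero]
      smul_mem' := fun c a ha => by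
        change _ * rdot q.2.1 (c • (a : Fin r → ℝ)) = _ * rdot q.1 (c • (a : Fin r → ℝ))
        have ha' : (rdot q.1 x - q.2.2.1) * rdot q.2.1 (a : Fin r → ℝ) =
          (rdot q.2.1 x - q.2.2.2) * rdot q.1 (a : Fin r → ℝ) := ha
        rw [rdot_smul, rdot_smul, mul_left_comm, ha', mul_left_comm] }
  let I : Set ((Fin r → ℤ) × (Fin r → ℤ) × ℤ × ℤ) :=
    {q | ¬ InSpan (q.1 :: Z) q.2.1 ∧ 0 < rdot q.1 x - q.2.2.1}
  have hI : ∀ q ∈ I, B q ≠ ⊤ := by
    rintro ⟨h, h', p, p'⟩ ⟨hq1, hq2⟩ htop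
    obtain ⟨c, hc, hch⟩ := exists_sep (h :: Z) h' hq1
    let v : V := ⟨fun i => (c i : ℝ), fun z hz => by
      rw [rdot_int, dotProduct_comm, hc z (List.mem_cons_of_mem _ hz), Int.cast_zero]⟩
    have hv : v ∈ B (h, h', p, p') := by
      rw [htop]
      trivial
    have hv' : (rdot h x - p) * rdot h' (fun i => (c i : ℝ)) =
        (rdot h' x - p') * rdot h (fun i => (c i : ℝ)) := hv
    have h1 : rdot h (fun i => (c i : ℝ)) = 0 := by
      rw [rdot_int, dotProduct_comm, hc h List.mem_cons_self, Int.cast_zero]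
    have h2 : rdot h' (fun i => (c i : ℝ)) ≠ 0 := by
      rw [rdot_int, dotProduct_comm]
      exact_mod_cast hch
    rw [h1, mul_zero] at hv'
    rcases mul_eq_zero.1 hv' with h3 | h3
    · exact hq2.ne' h3
    · exact h2 h3
  have hnull : μ (⋃ q ∈ I, (B q : Set V)) = 0 := by
    refine (measure_biUnion_null_iff (Set.to_countable I)).2 fun q hq => ?_
    exact Measure.addHaar_submodule μ (B q) (hI q hq)
  -- the open set of relative interior directions
  let U : Set V := {u | ∀ h ∈ H, ¬ InSpan Z h → 0 < rdot h (u : Fin r → ℝ)}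
  have hUopen : IsOpen U := by
    have hU : U = ⋂ h ∈ (H.filter fun h => ¬ InSpan Z h), {u : V | 0 < rdot h (u : Fin r → ℝ)} := by
      ext u
      simp only [U, Set.mem_iInter, Finset.mem_filter]
      exact ⟨fun h1 h h2 => h1 h h2.1 h2.2, fun h1 h h2 h3 => h1 h ⟨h2, h3⟩⟩
    rw [hU]
    refine isOpen_biInter_finset fun h _ => ?_
    exact isOpen_lt continuous_const ((rdot_continuous h).comp continuous_subtype_val)
  obtain ⟨u₀, hu₀, hu₀'⟩ := hrel
  have hUne : U.Nonempty := ⟨⟨u₀, hu₀⟩, hu₀'⟩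
  have hpos : 0 < μ U := hUopen.measure_pos μ hUne
  obtain ⟨u, huU, huB⟩ : ∃ u ∈ U, u ∉ ⋃ q ∈ I, (B q : Set V) := by
    by_contra hcon
    push Not at hcon
    have : μ U ≤ μ (⋃ q ∈ I, (B q : Set V)) := measure_mono hcon
    rw [hnull] at this
    exact absurd hpos (not_lt.2 this)
  refine ⟨u, ⟨u.2, huU⟩, ?_⟩
  intro h hh h' hh' hs hs' p p' t ht e1 e2
  by_contra hcon
  apply huB
  rw [Set.mem_iUnion₂]
  have hpu := huU h hh hs
  refine ⟨(h, h', p, p'), ⟨hcon, ?_⟩, ?_⟩
  · change 0 < rdot h x - p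
    rw [e1]
    exact mul_pos ht hpu
  · change (rdot h x - p) * rdot h' (u : Fin r → ℝ) = (rdot h' x - p') * rdot h (u : Fin r → ℝ)
    rw [e1, e2]
    ring

/-- If the face of `Z` has no relative interior direction, some form outside the span is constant
on the conic set. -/
theorem no_relint (Z : List (Fin r → ℤ)) (H : Finset (Fin r → ℤ)) (hrel : ¬ ∃ u, Relint Z H u)
    (y : Fin r → ℝ) (m : Fin r → ℤ) (hm : m ∈ Nset Z H y) :
    ∃ h ∈ H, ¬ InSpan Z h ∧ rdot h y = ((h ⬝ᵥ m : ℤ) : ℝ) := by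
  by_contra hcon
  push Not at hcon
  refine hrel ⟨(fun i => (m i : ℝ)) - y, fun z hz => ?_, fun h hh hs => ?_⟩
  · rw [rdot_sub, rdot_int, hm.1 z hz, sub_self]
  · rw [rdot_sub, rdot_int]
    have h1 := hm.2 h hh
    have h2 := hcon h hh hs
    exact sub_pos.2 (lt_of_le_of_ne h1 h2)

theorem InSpan.cons {Z : List (Fin r → ℤ)} {h : Fin r → ℤ} (hh : InSpan Z h) (h' : Fin r → ℤ) :
    InSpan (h' :: Z) h := by
  refine Submodule.span_mono ?_ hh
  rintro y ⟨z, hz, rfl⟩
  exact ⟨z, List.mem_cons_of_mem _ hz, rfl⟩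

theorem InSpan.mem {Z : List (Fin r → ℤ)} {h : Fin r → ℤ} (hh : h ∈ Z) : InSpan Z h :=
  Submodule.subset_span ⟨h, hh, rfl⟩

/-- Exchange: if `h'` is in the span of `h :: Z` but not of `Z`, and `Z`, `h'` vanish at `Δ`, then
`h` vanishes at `Δ`. -/
theorem exchange {Z : List (Fin r → ℤ)} {h h' : Fin r → ℤ} (h1 : InSpan (h :: Z) h')
    (h2 : ¬ InSpan Z h') (Δ : Fin r → ℝ) (hZ : ∀ z ∈ Z, rdot z Δ = 0) (h3 : rdot h' Δ = 0) :
    rdot h Δ = 0 := by
  classical
  by_cases hz : h ∈ Z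
  · exact hZ h hz
  obtain ⟨N, c, hN, hc⟩ := (inSpan_iff (h :: Z) h').1 h1
  have hnot : h ∉ Z.toFinset := fun hx => hz (List.mem_toFinset.1 hx)
  have hfs : (h :: Z).toFinset = insert h Z.toFinset := List.toFinset_cons
  rw [hfs, Finset.sum_insert hnot] at hc
  have hch : c h ≠ 0 := by
    intro h0
    rw [h0, zero_smul, zero_add] at hc
    exact h2 ((inSpan_iff Z h').2 ⟨N, c, hN, hc⟩)
  have key : (N : ℝ) * rdot h' Δ = (c h : ℝ) * rdot h Δ + ∑ z ∈ Z.toFinset, (c z : ℝ) * rdot z Δ := by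
    unfold rdot
    rw [Finset.mul_sum, Finset.mul_sum]
    simp only [Finset.mul_sum]
    rw [Finset.sum_comm, ← Finset.sum_add_distrib]
    refine Finset.sum_congr rfl fun i _ => ?_
    have h4 := congrFun hc i
    rw [Pi.smul_apply, Pi.add_apply, Finset.sum_apply, nsmul_eq_mul] at h4
    have h5 : (((N : ℤ) * h' i : ℤ) : ℝ) =
        (((c h • h) i + ∑ z ∈ Z.toFinset, (c z • z) i : ℤ) : ℝ) := by
      rw [← h4]
    simp only [Pi.smul_apply, smul_eq_mul] at h5
    push_cast at h5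
    rw [← mul_assoc, h5, add_mul, Finset.sum_mul, mul_assoc]
    congr 1
    exact Finset.sum_congr rfl fun z _ => by ring
  rw [h3, mul_zero, Finset.sum_eq_zero fun z hz => by
    rw [hZ z (List.mem_toFinset.1 hz), mul_zero], add_zero] at key
  have h6 : (c h : ℝ) ≠ 0 := by exact_mod_cast hch
  exact (mul_eq_zero.1 key.symm).resolve_left h6

end MPb07157T
end
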