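import Pool.Agent.Lib.MP_b07157_agT.W0
import Pool.Agent.Lib.MP_b07157_agT.T1C
import Pool.Agent.Lib.MP_b07157_agT.Nd

/-!
# Unit ideals on all levels of a nondegenerate polynomial
-/

noncomputable section

namespace MPb07157T

open Finset Matrix MvPolynomial MPb07157

variable {n : ℕ}

theorem mem_Fc_support {f : MvPolynomial (Fin n) ℂ} {m : Fin n → ℤ} :
    m ∈ (Fc f).support ↔ ∃ v ∈ f.support, m = castv v := by
  have h : Fc f = toF f f.support := rfl
  rw [Finsupp.mem_support_iff, h]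
  constructor
  · intro hm
    obtain ⟨v, hv, e, -⟩ := toF_support hm
    exact ⟨v, hv, e⟩
  · rintro ⟨v, hv, rfl⟩
    rw [toF_castv, if_pos hv]
    exact MvPolynomial.mem_support_iff.1 hv

theorem castv_nonneg (v : Fin n →₀ ℕ) (j : Fin n) : 0 ≤ castv v j := Int.natCast_nonneg _

theorem ee_dotProduct (l : Fin n) (v : Fin n → ℤ) : ee l ⬝ᵥ v = v l := by
  unfold ee
  rw [single_dotProduct, one_mul]

theorem rdot_ee (l : Fin n) (u : Fin n → ℝ) : rdot (ee l) u = u l := by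
  unfold rdot ee
  rw [Finset.sum_eq_single l]
  · simp
  · intro i _ hi
    simp [hi]
  · intro h
    exact absurd (Finset.mem_univ l) h

theorem et_dotProduct (σ τ : (Fin n → ℤ) × ℤ) (v : Fin n → ℤ) :
    et σ τ ⬝ᵥ v = σ.2 * (τ.1 ⬝ᵥ v) - τ.2 * (σ.1 ⬝ᵥ v) := by
  unfold et
  rw [sub_dotProduct, smul_dotProduct, smul_dotProduct]
  simp

theorem rdot_et (σ τ : (Fin n → ℤ) × ℤ) (u : Fin n → ℝ) :
    rdot (et σ τ) u = σ.2 * rdot τ.1 u - τ.2 * rdot σ.1 u := by
  unfold rdot et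
  rw [Finset.mul_sum, Finset.mul_sum, ← Finset.sum_sub_distrib]
  refine Finset.sum_congr rfl fun i _ => ?_
  simp only [Pi.sub_apply, Pi.smul_apply, smul_eq_mul]
  push_cast
  ring

/-- Unit ideals on all levels. Given `Z ⊆ H2 Sg σ` with a relative interior direction `u` and a
form outside its span (so `u ≠ 0`, since all `ee l` are in `H2 Sg σ`): with `t = σ.1·u / σ.2 > 0`,
`q = u / t` satisfies the hypotheses of `CutsOut`, so `∑ l_v v ≤ q`; since `σ.1·q = σ.2`, there is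
equality, and every `v` with `l_v > 0` is on the face `I` of `Z`, which is therefore nonempty;
`I` is the face of the weight `a = σ.1 + ∑ τ.1 + ∑ ee l` (sums over the `et σ τ` and `ee l` in `Z`),
so `NondegAt f I` by `hnd`, and `unitOn_of_nondegAt` (helper51, Nd.lean) gives `UnitOn`. -/
theorem wok_of_nondeg {f : MvPolynomial (Fin n) ℂ} (hnd : NondegC f)
    {Sg : Finset ((Fin n → ℤ) × ℤ)} (hcut : CutsOut Sg f)
    (hSg : ∀ σ ∈ Sg, 0 < σ.2 ∧ (∀ j, 0 < σ.1 j) ∧ ∀ v ∈ (Fc f).support, σ.2 ≤ σ.1 ⬝ᵥ v) :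
    WOK Sg (Fc f) := by
  classical
  refine ⟨fun σ hσ => (hSg σ hσ).1, fun σ hσ => (hSg σ hσ).2.1, fun v hv j => ?_,
    fun σ hσ => (hSg σ hσ).2.2, fun σ hσ Z hZ hrel hout => ?_⟩
  · obtain ⟨v, -, rfl⟩ := mem_Fc_support.1 hv
    exact castv_nonneg v j
  obtain ⟨hσ2, hσ1, hσle⟩ := hSg σ hσ
  have hσle' : ∀ v ∈ f.support, σ.2 ≤ σ.1 ⬝ᵥ castv v := fun v hv =>
    hσle _ (mem_Fc_support.2 ⟨v, hv, rfl⟩)
  let I : Finset (Fin n →₀ ℕ) :=
    f.support.filter fun v => σ.1 ⬝ᵥ castv v = σ.2 ∧ ∀ z ∈ Z, z ⬝ᵥ castv v = 0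
  -- the part of `F`
  have hpart : Fpart Z (Fs σ (Fc f)) = toF f I := by
    have h : Fc f = toF f f.support := rfl
    ext m
    unfold Fpart Fs
    rw [h]
    by_cases hm : ∃ v ∈ f.support, m = castv v
    · obtain ⟨v, hv, rfl⟩ := hm
      rw [toF_castv]
      by_cases h1 : ∀ z ∈ Z, z ⬝ᵥ castv v = 0
      · rw [Finsupp.filter_apply_pos _ _ h1]
        by_cases h2 : σ.1 ⬝ᵥ castv v = σ.2
        · rw [Finsupp.filter_apply_pos (fun v : Fin n → ℤ => σ.1 ⬝ᵥ v = σ.2) _ h2, toF_castv, if_pos hv,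
            if_pos (Finset.mem_filter.2 ⟨hv, h2, h1⟩)]
        · rw [Finsupp.filter_apply_neg (fun v : Fin n → ℤ => σ.1 ⬝ᵥ v = σ.2) _ h2, if_neg fun hx => h2 (Finset.mem_filter.1 hx).2.1]
      · rw [Finsupp.filter_apply_neg _ _ h1, if_neg fun hx => h1 (Finset.mem_filter.1 hx).2.2]
    · have h1 : toF f f.support m = 0 := by
        by_contra hne
        obtain ⟨v, hv, e, -⟩ := toF_support hne
        exact hm ⟨v, hv, e⟩
      have h2 : toF f I m = 0 := by
        by_contra hne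
        obtain ⟨v, hv, e, -⟩ := toF_support hne
        exact hm ⟨v, (Finset.mem_filter.1 hv).1, e⟩
      rw [h2, Finsupp.filter_apply]
      split_ifs
      · rw [Finsupp.filter_apply]
        split_ifs
        · exact h1
        · rfl
      · rfl
  rw [hpart]
  -- `I` is nonempty
  have hIne : I.Nonempty := by
    obtain ⟨u, hu0, hu1⟩ := hrel
    have hH : ∀ h ∈ H2 Sg σ, 0 ≤ rdot h u := by
      intro h hh
      by_cases hs : InSpan Z h
      · exact (rdot_eq_of_inSpan Z h hs u hu0).ge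
      · exact (hu1 h hh hs).le
    have hee : ∀ l, ee l ∈ H2 Sg σ := fun l =>
      Finset.mem_union_right _ (Finset.mem_image_of_mem _ (Finset.mem_univ l))
    have het : ∀ τ ∈ Sg, et σ τ ∈ H2 Sg σ := fun τ hτ =>
      Finset.mem_union_left _ (Finset.mem_image_of_mem _ hτ)
    have hunn : ∀ l, 0 ≤ u l := fun l => by
      have := hH _ (hee l)
      rwa [rdot_ee] at this
    obtain ⟨l₀, hl₀⟩ : ∃ l, ¬ InSpan Z (ee l) := by
      by_contra hcon
      push Not at hcon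
      obtain ⟨h, hh⟩ := hout
      apply hh
      have h1 : vec ℚ h = ∑ l, (h l : ℚ) • vec ℚ (ee l) := by
        funext j
        rw [Finset.sum_apply, Finset.sum_eq_single j]
        · simp [vec, ee]
        · intro i _ hij
          simp [vec, ee, hij.symm]
        · intro hj
          exact absurd (Finset.mem_univ j) hj
      unfold InSpan
      rw [h1]
      exact Submodule.sum_mem _ fun l _ => Submodule.smul_mem _ _ (hcon l)
    have hul₀ : 0 < u l₀ := by
      have := hu1 _ (hee l₀) hl₀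
      rwa [rdot_ee] at this
    have hσu : 0 < rdot σ.1 u := by
      unfold rdot
      refine Finset.sum_pos' (fun i _ => mul_nonneg (by exact_mod_cast (hσ1 i).le) (hunn i))
        ⟨l₀, Finset.mem_univ _, mul_pos (by exact_mod_cast hσ1 l₀) hul₀⟩
    have hσ2' : (0 : ℝ) < σ.2 := by exact_mod_cast hσ2
    set t : ℝ := σ.2 / rdot σ.1 u with ht
    have ht0 : 0 < t := div_pos hσ2' hσu
    have hσq : rdot σ.1 (t • u) = σ.2 := by
      rw [rdot_smul, ht, div_mul_cancel₀ _ hσu.ne']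
    obtain ⟨l, hl0, hl1, hlq⟩ := hcut (t • u) (fun j => by
        rw [Pi.smul_apply, smul_eq_mul]
        exact mul_nonneg ht0.le (hunn j)) (fun τ hτ => by
        have h1 := hH _ (het τ hτ)
        have h2 : 0 ≤ rdot (et σ τ) (t • u) := by
          rw [rdot_smul]
          exact mul_nonneg ht0.le h1
        rw [rdot_et, hσq] at h2
        have h3 : (σ.2 : ℝ) * τ.2 ≤ σ.2 * rdot τ.1 (t • u) := by linarith
        exact le_of_mul_le_mul_left h3 hσ2')
    -- the weighted sum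
    have hσv : ∀ v ∈ (Fc f).support, (σ.2 : ℝ) ≤ ((σ.1 ⬝ᵥ v : ℤ) : ℝ) := fun v hv => by
      exact_mod_cast hσle v hv
    have hswap : ∀ h : Fin n → ℤ, ∑ j, (h j : ℝ) * ∑ v ∈ (Fc f).support, l v * (v j : ℝ) =
        ∑ v ∈ (Fc f).support, l v * ((h ⬝ᵥ v : ℤ) : ℝ) := by
      intro h
      simp only [Finset.mul_sum]
      rw [Finset.sum_comm]
      refine Finset.sum_congr rfl fun v _ => ?_
      rw [← rdot_int]
      unfold rdot
      rw [Finset.mul_sum]
      exact Finset.sum_congr rfl fun j _ => by ring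
    have hge : (σ.2 : ℝ) ≤ ∑ v ∈ (Fc f).support, l v * ((σ.1 ⬝ᵥ v : ℤ) : ℝ) := by
      calc (σ.2 : ℝ) = ∑ v ∈ (Fc f).support, l v * (σ.2 : ℝ) := by
            rw [← Finset.sum_mul, hl1, one_mul]
        _ ≤ _ := Finset.sum_le_sum fun v hv => mul_le_mul_of_nonneg_left (hσv v hv) (hl0 v hv)
    have hle : ∑ v ∈ (Fc f).support, l v * ((σ.1 ⬝ᵥ v : ℤ) : ℝ) ≤ σ.2 := by
      rw [← hswap, ← hσq]
      unfold rdot
      exact Finset.sum_le_sum fun j _ =>
        mul_le_mul_of_nonneg_left (hlq j) (by exact_mod_cast (hσ1 j).le)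
    have heq : ∑ v ∈ (Fc f).support, l v * ((σ.1 ⬝ᵥ v : ℤ) : ℝ) = σ.2 := le_antisymm hle hge
    -- equality in each coordinate
    have hqj : ∀ j, ∑ v ∈ (Fc f).support, l v * (v j : ℝ) = (t • u) j := by
      have h1 : ∑ j, (σ.1 j : ℝ) * ((t • u) j - ∑ v ∈ (Fc f).support, l v * (v j : ℝ)) = 0 := by
        simp only [mul_sub]
        rw [Finset.sum_sub_distrib, hswap, heq]
        have h2 : ∑ j, (σ.1 j : ℝ) * (t • u) j = rdot σ.1 (t • u) := rfl
        rw [h2, hσq, sub_self]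
      intro j
      have h2 := (Finset.sum_eq_zero_iff_of_nonneg fun j _ =>
        mul_nonneg (by exact_mod_cast (hσ1 j).le : (0 : ℝ) ≤ (σ.1 j : ℝ))
          (sub_nonneg.2 (hlq j))).1 h1 j (Finset.mem_univ j)
      have h3 : (σ.1 j : ℝ) ≠ 0 := by exact_mod_cast (hσ1 j).ne'
      have h4 := (mul_eq_zero.1 h2).resolve_left h3
      linarith
    -- a point with positive coefficient
    obtain ⟨v, hv, hlv⟩ : ∃ v ∈ (Fc f).support, 0 < l v := by
      by_contra hcon
      push Not at hcon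
      have := Finset.sum_nonpos hcon
      rw [hl1] at this
      linarith
    have hσeq : ∀ v ∈ (Fc f).support, 0 < l v → σ.1 ⬝ᵥ v = σ.2 := by
      intro v hv hlv
      have h1 : ∑ v ∈ (Fc f).support, l v * (((σ.1 ⬝ᵥ v : ℤ) : ℝ) - σ.2) = 0 := by
        simp only [mul_sub]
        rw [Finset.sum_sub_distrib, heq, ← Finset.sum_mul, hl1, one_mul, sub_self]
      have h2 := (Finset.sum_eq_zero_iff_of_nonneg fun v hv =>
        mul_nonneg (hl0 v hv) (sub_nonneg.2 (hσv v hv))).1 h1 v hv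
      have h3 := (mul_eq_zero.1 h2).resolve_left hlv.ne'
      have h4 : ((σ.1 ⬝ᵥ v : ℤ) : ℝ) = σ.2 := by linarith
      exact_mod_cast h4
    obtain ⟨v', hv', hvv'⟩ := mem_Fc_support.1 hv
    refine ⟨v', Finset.mem_filter.2 ⟨hv', ?_, fun z hz => ?_⟩⟩
    · rw [← hvv']
      exact hσeq v hv hlv
    · rw [← hvv']
      have hz0 : ∑ v ∈ (Fc f).support, l v * ((z ⬝ᵥ v : ℤ) : ℝ) = 0 := by
        rw [← hswap]
        have h1 : ∑ j, (z j : ℝ) * ∑ v ∈ (Fc f).support, l v * (v j : ℝ) = rdot z (t • u) := by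
          unfold rdot
          exact Finset.sum_congr rfl fun j _ => by rw [hqj]
        rw [h1, rdot_smul, hu0 z hz, mul_zero]
      have hnn : ∀ v ∈ (Fc f).support, 0 ≤ l v * ((z ⬝ᵥ v : ℤ) : ℝ) := by
        intro v hv
        rcases (hl0 v hv).eq_or_lt with h0 | h0
        · rw [← h0, zero_mul]
        · refine mul_nonneg h0.le ?_
          have h1 := hσeq v hv h0
          have h2 : 0 ≤ z ⬝ᵥ v := by
            rcases Finset.mem_union.1 (hZ z hz) with h3 | h3
            · obtain ⟨τ, hτ, rfl⟩ := Finset.mem_image.1 h3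
              rw [et_dotProduct, h1, mul_comm τ.2, ← mul_sub]
              exact mul_nonneg hσ2.le (sub_nonneg.2 ((hSg τ hτ).2.2 v hv))
            · obtain ⟨j, -, rfl⟩ := Finset.mem_image.1 h3
              rw [ee_dotProduct]
              obtain ⟨v'', -, rfl⟩ := mem_Fc_support.1 hv
              exact castv_nonneg v'' j
          exact_mod_cast h2
      have h3 := (Finset.sum_eq_zero_iff_of_nonneg hnn).1 hz0 v hv
      have h4 := (mul_eq_zero.1 h3).resolve_left hlv.ne'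
      exact_mod_cast h4
  -- the weight of `I`
  have hwz : ∀ z ∈ H2 Sg σ, ∃ p : (Fin n → ℤ) × ℤ, (∀ j, 0 ≤ p.1 j) ∧ 0 ≤ p.2 ∧
      (∀ v ∈ f.support, p.2 ≤ p.1 ⬝ᵥ castv v) ∧
      ∀ v ∈ f.support, σ.1 ⬝ᵥ castv v = σ.2 → (p.1 ⬝ᵥ castv v = p.2 ↔ z ⬝ᵥ castv v = 0) := by
    intro z hz
    rcases Finset.mem_union.1 hz with h3 | h3
    · obtain ⟨τ, hτ, rfl⟩ := Finset.mem_image.1 h3
      obtain ⟨t1, t2, t3⟩ := hSg τ hτ
      refine ⟨τ, fun j => (t2 j).le, t1.le, fun v hv => t3 _ (mem_Fc_support.2 ⟨v, hv, rfl⟩),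
        fun v _ he => ?_⟩
      rw [et_dotProduct, he, mul_comm τ.2, ← mul_sub, mul_eq_zero, sub_eq_zero]
      exact ⟨fun h => Or.inr h, fun h => h.resolve_left hσ2.ne'⟩
    · obtain ⟨j, -, rfl⟩ := Finset.mem_image.1 h3
      refine ⟨(ee j, 0), fun i => ?_, le_rfl, fun v _ => ?_, fun v _ _ => Iff.rfl⟩
      · change 0 ≤ (Pi.single j 1 : Fin n → ℤ) i
        rw [Pi.single_apply]
        split_ifs <;> norm_num
      · rw [ee_dotProduct]
        exact castv_nonneg v j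
  choose! p hp0 hp1 hp2 hp3 using hwz
  let a : Fin n → ℤ := fun j => σ.1 j + ∑ z ∈ Z.toFinset, (p z).1 j
  let N' : ℤ := σ.2 + ∑ z ∈ Z.toFinset, (p z).2
  have hZt : ∀ z ∈ Z.toFinset, z ∈ H2 Sg σ := fun z hz => hZ z (List.mem_toFinset.1 hz)
  have hapos : ∀ j, 0 < a j := fun j =>
    add_pos_of_pos_of_nonneg (hσ1 j) (Finset.sum_nonneg fun z hz => hp0 z (hZt z hz) j)
  have hN'pos : 0 < N' :=
    add_pos_of_pos_of_nonneg hσ2 (Finset.sum_nonneg fun z hz => hp1 z (hZt z hz))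
  have hav : ∀ v, a ⬝ᵥ castv v = σ.1 ⬝ᵥ castv v + ∑ z ∈ Z.toFinset, (p z).1 ⬝ᵥ castv v := by
    intro v
    simp only [dotProduct, a]
    rw [Finset.sum_comm, ← Finset.sum_add_distrib]
    refine Finset.sum_congr rfl fun j _ => ?_
    rw [add_mul, Finset.sum_mul]
  have hdiff : ∀ v, a ⬝ᵥ castv v - N' = (σ.1 ⬝ᵥ castv v - σ.2) +
      ∑ z ∈ Z.toFinset, ((p z).1 ⬝ᵥ castv v - (p z).2) := by
    intro v
    rw [hav, Finset.sum_sub_distrib]
    simp only [N']
    ring
  have hge : ∀ v ∈ f.support, N' ≤ a ⬝ᵥ castv v := by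
    intro v hv
    have h1 := hdiff v
    have h2 : 0 ≤ ∑ z ∈ Z.toFinset, ((p z).1 ⬝ᵥ castv v - (p z).2) :=
      Finset.sum_nonneg fun z hz => sub_nonneg.2 (hp2 z (hZt z hz) v hv)
    have h3 := hσle' v hv
    omega
  have hmemI : ∀ v ∈ f.support, (a ⬝ᵥ castv v = N' ↔ v ∈ I) := by
    intro v hv
    have h1 := hdiff v
    have hnn : ∀ z ∈ Z.toFinset, 0 ≤ (p z).1 ⬝ᵥ castv v - (p z).2 := fun z hz =>
      sub_nonneg.2 (hp2 z (hZt z hz) v hv)
    have h2 := Finset.sum_nonneg hnn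
    have h3 := hσle' v hv
    constructor
    · intro he
      have h4 : σ.1 ⬝ᵥ castv v = σ.2 := by omega
      have h5 : ∑ z ∈ Z.toFinset, ((p z).1 ⬝ᵥ castv v - (p z).2) = 0 := by omega
      refine Finset.mem_filter.2 ⟨hv, h4, fun z hz => ?_⟩
      have h6 := (Finset.sum_eq_zero_iff_of_nonneg hnn).1 h5 z (List.mem_toFinset.2 hz)
      exact (hp3 z (hZ z hz) v hv h4).1 (sub_eq_zero.1 h6)
    · intro hvI
      obtain ⟨-, h4, h5⟩ := Finset.mem_filter.1 hvI
      have h6 : ∑ z ∈ Z.toFinset, ((p z).1 ⬝ᵥ castv v - (p z).2) = 0 :=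
        Finset.sum_eq_zero fun z hz =>
          sub_eq_zero.2 ((hp3 z (hZt z hz) v hv h4).2 (h5 z (List.mem_toFinset.1 hz)))
      omega
  have hwt : ∀ v : Fin n →₀ ℕ, ((wt (fun j => (a j).toNat) v : ℕ) : ℤ) = a ⬝ᵥ castv v := by
    intro v
    unfold wt dotProduct castv
    push_cast
    exact Finset.sum_congr rfl fun j _ => by rw [Int.toNat_of_nonneg (hapos j).le]
  have hfilter : (f.support.filter fun v => wt (fun j => (a j).toNat) v = N'.toNat) = I := by
    ext v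
    rw [Finset.mem_filter]
    constructor
    · rintro ⟨hv, he⟩
      rw [← hmemI v hv, ← hwt, he]
      exact Int.toNat_of_nonneg hN'pos.le
    · intro hvI
      have hv := (Finset.mem_filter.1 hvI).1
      refine ⟨hv, ?_⟩
      have h1 := (hmemI v hv).2 hvI
      rw [← hwt] at h1
      omega
  have hmin : IsMinWt f (fun j => (a j).toNat) N'.toNat := by
    obtain ⟨v, hv⟩ := hIne
    refine ⟨fun v hv => ?_, v, (Finset.mem_filter.1 hv).1, ?_⟩
    · have h1 := hge v hv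
      rw [← hwt] at h1
      omega
    · rw [← hfilter] at hv
      exact (Finset.mem_filter.1 hv).2
  have hndI : NondegAt f I := by
    rw [← hfilter]
    refine hnd _ _ (fun j => ?_) hmin
    have := hapos j
    omega
  exact unitOn_of_nondegAt f I hndI σ.1 σ.2 hσ2.ne' (fun v hv => (Finset.mem_filter.1 hv).2.1) Z
    fun z hz v hv => (Finset.mem_filter.1 hv).2.2 z hz

end MPb07157T
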