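import Pool.Agent.Lib.MP_b07157_agT.F0

/-!
# Lattice coefficients
-/

noncomputable section

namespace MPb07157T

open Finset Matrix MvPolynomial MPb07157

variable {n : ℕ}

private theorem F4_add (φ ψ : PY n) (m : Fin (n + 1) → ℤ) :
    cf (φ + ψ) m = cf φ m + cf ψ m := by
  unfold cf
  split_ifs
  · rw [Polynomial.coeff_add, map_add]
  · rw [add_zero]

private theorem F4_zero (m : Fin (n + 1) → ℤ) : cf (0 : PY n) m = 0 := by
  unfold cf
  split_ifs
  · rw [Polynomial.coeff_zero, map_zero]
  · rfl

/-- Sums over the support of `Fc f`. -/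
private theorem F4_sum (f : MvPolynomial (Fin n) ℂ) (G : (Fin n → ℤ) → ℂ) :
    ∑ v ∈ (Fc f).support, Fc f v * G v =
      ∑ v ∈ f.support, coeff v f * G (fun j => (v j : ℤ)) := by
  have h := Finsupp.sum_finsetSum_index (s := f.support)
    (g := fun v : Fin n →₀ ℕ => Finsupp.single (fun j => (v j : ℤ)) (coeff v f))
    (h := fun (v : Fin n → ℤ) (a : ℂ) => a * G v) (fun _ => zero_mul _)
    (fun _ _ _ => add_mul _ _ _)
  have h' : ∑ v ∈ (Fc f).support, Fc f v * G v =
      (∑ v ∈ f.support, Finsupp.single (fun j => (v j : ℤ)) (coeff v f)).sum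
        fun (v : Fin n → ℤ) (a : ℂ) => a * G v := rfl
  rw [h', ← h]
  refine Finset.sum_congr rfl fun v _ => ?_
  rw [Finsupp.sum_single_index (zero_mul _)]

private theorem F4_mon (φ : PY n) (m : Fin (n + 1) → ℤ) (v : Fin n →₀ ℕ) (c : ℂ) :
    cf (Polynomial.X * Polynomial.C ((monomial v c : MvPolynomial (Fin n) ℂ) :
      MvPowerSeries (Fin n) ℂ) * φ) m = c * cf φ (m - sh fun j => (v j : ℤ)) := by
  classical
  have hs0 : (m - sh fun j => (v j : ℤ)) 0 = m 0 - 1 := rfl
  have hss : ∀ j : Fin n, (m - sh fun j => (v j : ℤ)) j.succ = m j.succ - v j := fun j => rfl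
  unfold cf
  by_cases hm : ∀ i, 0 ≤ m i
  · rw [if_pos hm]
    rcases hk : (m 0).toNat with _ | k
    · rw [mul_assoc, Polynomial.coeff_X_mul_zero, map_zero, if_neg, mul_zero]
      intro h
      have h1 := h 0
      rw [hs0] at h1
      omega
    · rw [mul_assoc, Polynomial.coeff_X_mul, Polynomial.coeff_C_mul, MvPolynomial.coe_monomial,
        MvPowerSeries.coeff_monomial_mul]
      have hk' : ((m - sh fun j => (v j : ℤ)) 0).toNat = k := by
        rw [hs0]
        have := hm 0
        omega
      by_cases hle : v ≤ (Finsupp.equivFunOnFinite.symm fun j : Fin n => (m j.succ).toNat)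
      · have hle' : ∀ j, v j ≤ (m j.succ).toNat := fun j => by
          have := hle j
          rwa [Finsupp.equivFunOnFinite_symm_apply_apply] at this
        rw [if_pos hle, if_pos, hk']
        · congr 2
          congr 1
          ext j
          rw [Finsupp.tsub_apply, Finsupp.equivFunOnFinite_symm_apply_apply,
            Finsupp.equivFunOnFinite_symm_apply_apply, hss]
          have := hm j.succ
          have := hle' j
          omega
        · intro i
          refine Fin.cases ?_ (fun j => ?_) i
          · rw [hs0]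
            have := hm 0
            omega
          · rw [hss]
            have := hm j.succ
            have := hle' j
            omega
      · rw [if_neg hle, if_neg, mul_zero]
        intro h
        refine hle fun j => ?_
        rw [Finsupp.equivFunOnFinite_symm_apply_apply]
        have h1 := h j.succ
        rw [hss] at h1
        omega
  · rw [if_neg hm, if_neg, mul_zero]
    intro h
    refine hm fun i => ?_
    revert h
    refine Fin.cases ?_ (fun j => ?_) i
    · intro h
      have h1 := h 0
      rw [hs0] at h1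
      omega
    · intro h
      have h1 := h j.succ
      rw [hss] at h1
      have : (0 : ℤ) ≤ v j := Int.natCast_nonneg _
      omega

private theorem F4_fsum (φ : PY n) (m : Fin (n + 1) → ℤ) {ι : Type} (s : Finset ι)
    (g : ι → MvPolynomial (Fin n) ℂ) :
    cf (Polynomial.X * Polynomial.C ((∑ v ∈ s, g v : MvPolynomial (Fin n) ℂ) :
      MvPowerSeries (Fin n) ℂ) * φ) m =
    ∑ v ∈ s, cf (Polynomial.X * Polynomial.C ((g v : MvPolynomial (Fin n) ℂ) :
      MvPowerSeries (Fin n) ℂ) * φ) m := by
  classical
  induction s using Finset.induction_on with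
  | empty =>
    rw [Finset.sum_empty, Finset.sum_empty, MvPolynomial.coe_zero, map_zero, mul_zero, zero_mul,
      F4_zero]
  | insert a s ha ih =>
    rw [Finset.sum_insert ha, Finset.sum_insert ha, ← ih, MvPolynomial.coe_add, map_add, mul_add,
      add_mul, F4_add]

private theorem F4_mul (f : MvPolynomial (Fin n) ℂ) (φ : PY n) (m : Fin (n + 1) → ℤ) :
    cf (Polynomial.X * Polynomial.C (f : MvPowerSeries (Fin n) ℂ) * φ) m =
      ∑ v ∈ f.support, coeff v f * cf φ (m - sh fun j => (v j : ℤ)) := by
  conv_lhs => rw [f.as_sum]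
  rw [F4_fsum]
  exact Finset.sum_congr rfl fun v _ => F4_mon _ _ _ _

private theorem F4_der (φ : PY n) (m : Fin (n + 1) → ℤ) :
    cf (Polynomial.X * Polynomial.derivative φ) m = (m 0 : ℂ) * cf φ m := by
  unfold cf
  by_cases hm : ∀ i, 0 ≤ m i
  · rw [if_pos hm, if_pos hm]
    have h0 := hm 0
    rcases hk : (m 0).toNat with _ | k
    · have : m 0 = 0 := by omega
      rw [Polynomial.coeff_X_mul_zero, map_zero, this, Int.cast_zero, zero_mul]
    · have : m 0 = (k : ℤ) + 1 := by omega
      have e : φ.coeff (k + 1) * ((k : MvPowerSeries (Fin n) ℂ) + 1) =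
          (k + 1) • φ.coeff (k + 1) := by
        rw [nsmul_eq_mul]
        push_cast
        ring
      rw [Polynomial.coeff_X_mul, Polynomial.coeff_derivative, e, map_nsmul, this, nsmul_eq_mul]
      push_cast
      ring
  · rw [if_neg hm, if_neg hm, mul_zero]

theorem cf_tht (f : MvPolynomial (Fin n) ℂ) (φ : PY n) : cf (Tht f φ) = thL (Fc f) (cf φ) := by
  funext m
  unfold Tht thL
  rw [F4_add, F4_der, F4_mul, F4_sum f fun v => cf φ (m - sh v)]

theorem cf_add (φ ψ : PY n) : cf (φ + ψ) = cf φ + cf ψ := by
  funext m
  exact F4_add φ ψ m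

private theorem F4_derC (j : Fin n) (V : PY n) (m : Fin (n + 1) → ℤ) :
    cf (derivC j V) m = ((m j.succ : ℂ) + 1) * cf V (m + he j) := by
  have h0 : (m + he j) 0 = m 0 := by
    show m 0 + 0 = m 0
    rw [add_zero]
  have hs : ∀ i : Fin n, (m + he j) i.succ = m i.succ + (Pi.single j 1 : Fin n → ℤ) i :=
    fun i => rfl
  have hj : (m + he j) j.succ = m j.succ + 1 := by rw [hs, Pi.single_eq_same]
  have hne : ∀ i : Fin n, i ≠ j → (m + he j) i.succ = m i.succ := fun i hi => by
    rw [hs, Pi.single_eq_of_ne hi, add_zero]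
  unfold cf
  by_cases hm : ∀ i, 0 ≤ m i
  · rw [if_pos hm, if_pos, coeff_derivC, MvPowerSeries.coeff_pderiv, h0]
    · have e : (Finsupp.equivFunOnFinite.symm fun i : Fin n => (m i.succ).toNat) +
          Finsupp.single j 1 =
          Finsupp.equivFunOnFinite.symm fun i : Fin n => ((m + he j) i.succ).toNat := by
        ext i
        rw [Finsupp.add_apply, Finsupp.equivFunOnFinite_symm_apply_apply,
          Finsupp.equivFunOnFinite_symm_apply_apply]
        by_cases hi : i = j
        · subst hi
          rw [Finsupp.single_eq_same, hj]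
          have := hm i.succ
          omega
        · rw [Finsupp.single_eq_of_ne hi, hne i hi, add_zero]
      rw [e, mul_comm, Finsupp.equivFunOnFinite_symm_apply_apply]
      congr 2
      have h1 : ((m j.succ).toNat : ℤ) = m j.succ := Int.toNat_of_nonneg (hm _)
      rw [← Int.cast_natCast, h1]
    · intro i
      refine Fin.cases ?_ (fun i => ?_) i
      · rw [h0]
        exact hm 0
      · have := hm i.succ
        by_cases hi : i = j
        · subst hi
          rw [hj]
          omega
        · rw [hne i hi]
          exact this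
  · rw [if_neg hm]
    by_cases hm' : ∀ i, 0 ≤ (m + he j) i
    · have h1 : m j.succ = -1 := by
        by_contra hcon
        refine hm fun i => ?_
        refine Fin.cases ?_ (fun i => ?_) i
        · rw [← h0]
          exact hm' 0
        · by_cases hi : i = j
          · subst hi
            have := hm' i.succ
            rw [hj] at this
            omega
          · rw [← hne i hi]
            exact hm' _
      rw [h1]
      push_cast
      ring
    · rw [if_neg hm', mul_zero]

private theorem F4_pd (f : MvPolynomial (Fin n) ℂ) (j : Fin n) (V : PY n)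
    (m : Fin (n + 1) → ℤ) :
    cf (Polynomial.X * Polynomial.C ((pderiv j f : MvPolynomial (Fin n) ℂ) :
      MvPowerSeries (Fin n) ℂ) * V) m =
      ∑ v ∈ f.support, coeff v f * ((v j : ℂ) * cf V (m + he j - sh fun i => (v i : ℤ))) := by
  have h : pderiv j f = ∑ v ∈ f.support, monomial (v - Finsupp.single j 1) (coeff v f * v j) := by
    conv_lhs => rw [f.as_sum]
    rw [map_sum]
    exact Finset.sum_congr rfl fun v _ => pderiv_monomial
  rw [h, F4_fsum]
  refine Finset.sum_congr rfl fun v _ => ?_
  rw [F4_mon, mul_assoc]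
  congr 1
  rcases Nat.eq_zero_or_pos (v j) with h0 | h0
  · rw [h0, Nat.cast_zero, zero_mul, zero_mul]
  · congr 2
    funext i
    refine Fin.cases ?_ (fun i => ?_) i
    · show m 0 - 1 = m 0 + 0 - 1
      ring
    · show m i.succ - (((v - Finsupp.single j 1 : Fin n →₀ ℕ) i : ℕ) : ℤ) =
        m i.succ + (Pi.single j 1 : Fin n → ℤ) i - v i
      by_cases hi : i = j
      · subst hi
        rw [Finsupp.tsub_apply, Finsupp.single_eq_same, Pi.single_eq_same]
        omega
      · rw [Finsupp.tsub_apply, Finsupp.single_eq_of_ne hi, Pi.single_eq_of_ne hi]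
        omega

/-- The coefficients of `∇_j V` in terms of those of `V` at the shifted points. -/
theorem cf_nab (f : MvPolynomial (Fin n) ℂ) (j : Fin n) (V : PY n) (m : Fin (n + 1) → ℤ) :
    cf (nab f j V) m = ((m j.succ : ℂ) + 1) * cf V (m + he j) +
      ∑ v ∈ (Fc f).support, Fc f v * (v j : ℂ) * cf V (m + he j - sh v) := by
  unfold nab
  rw [F4_add, F4_derC, F4_pd]
  congr 1
  have h := F4_sum f fun v => (v j : ℂ) * cf V (m + he j - sh v)
  simp only [Int.cast_natCast] at h
  rw [← h]
  exact Finset.sum_congr rfl fun v _ => (mul_assoc _ _ _).symm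

end MPb07157T
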