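import Pool.Agent.Lib.MP_b07157_agT.F4

/-!
# Supports of the error terms
-/

noncomputable section

namespace MPb07157T

open Finset Matrix MvPolynomial MPb07157

variable {n : ℕ}

/-- The coefficients of `φ` are supported on `w·β ≥ N (κ + 1)`. -/
private def F5_P (w : Fin n → ℤ) (N : ℤ) (φ : PY n) : Prop :=
  ∀ (κ : ℕ) (β : Fin n →₀ ℕ), MvPowerSeries.coeff β (φ.coeff κ) ≠ 0 →
    N * ((κ : ℤ) + 1) ≤ ∑ j, w j * (β j : ℤ)

private theorem F5_Fc_apply (f : MvPolynomial (Fin n) ℂ) (β : Fin n →₀ ℕ) :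
    Fc f (fun j => (β j : ℤ)) = coeff β f := by
  classical
  unfold Fc
  rw [Finsupp.finsetSum_apply, Finset.sum_eq_single β]
  · rw [Finsupp.single_eq_same]
  · intro v _ hv
    refine Finsupp.single_eq_of_ne fun h => hv ?_
    ext j
    have := congrFun h j
    exact_mod_cast this.symm
  · intro h
    rw [MvPolynomial.notMem_support_iff.1 h, Finsupp.single_zero, Finsupp.coe_zero, Pi.zero_apply]

private theorem F5_mul {w : Fin n → ℤ} (c φ : MvPowerSeries (Fin n) ℂ) (A B : ℤ)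
    (hc : ∀ a : Fin n →₀ ℕ, MvPowerSeries.coeff a c ≠ 0 → A ≤ ∑ j, w j * (a j : ℤ))
    (hφ : ∀ b : Fin n →₀ ℕ, MvPowerSeries.coeff b φ ≠ 0 → B ≤ ∑ j, w j * (b j : ℤ))
    (β : Fin n →₀ ℕ) (h : MvPowerSeries.coeff β (c * φ) ≠ 0) :
    A + B ≤ ∑ j, w j * (β j : ℤ) := by
  classical
  rw [MvPowerSeries.coeff_mul] at h
  obtain ⟨p, hp, hne⟩ := Finset.exists_ne_zero_of_sum_ne_zero h
  rw [Finset.HasAntidiagonal.mem_antidiagonal] at hp
  have h1 := hc p.1 (left_ne_zero_of_mul hne)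
  have h2 := hφ p.2 (right_ne_zero_of_mul hne)
  calc A + B ≤ ∑ j, w j * (p.1 j : ℤ) + ∑ j, w j * (p.2 j : ℤ) := add_le_add h1 h2
    _ = ∑ j, w j * (β j : ℤ) := by
        rw [← Finset.sum_add_distrib]
        refine Finset.sum_congr rfl fun j _ => ?_
        rw [← hp, Finsupp.add_apply]
        push_cast
        ring

private theorem F5_f {f : MvPolynomial (Fin n) ℂ} {w : Fin n → ℤ} {N : ℤ}
    (hN : ∀ v ∈ (Fc f).support, N ≤ w ⬝ᵥ v) (a : Fin n →₀ ℕ)
    (ha : MvPowerSeries.coeff a (f : MvPowerSeries (Fin n) ℂ) ≠ 0) :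
    N ≤ ∑ j, w j * (a j : ℤ) := by
  rw [MvPolynomial.coeff_coe] at ha
  refine hN (fun j => (a j : ℤ)) ?_
  rw [Finsupp.mem_support_iff, F5_Fc_apply]
  exact ha

private theorem F5_base {f : MvPolynomial (Fin n) ℂ} {w : Fin n → ℤ} {N : ℤ}
    (hN : ∀ v ∈ (Fc f).support, N ≤ w ⬝ᵥ v) :
    F5_P w N (Polynomial.C (f : MvPowerSeries (Fin n) ℂ)) := by
  intro κ β h
  rw [Polynomial.coeff_C] at h
  split_ifs at h with hκ
  · have := F5_f hN β h
    rw [hκ]
    simpa using this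
  · exact absurd (map_zero _) h

private theorem F5_tht {f : MvPolynomial (Fin n) ℂ} {w : Fin n → ℤ} {N : ℤ}
    (hN : ∀ v ∈ (Fc f).support, N ≤ w ⬝ᵥ v) {φ : PY n} (hφ : F5_P w N φ) :
    F5_P w N (Tht f φ) := by
  intro κ β h
  unfold Tht at h
  rw [Polynomial.coeff_add, mul_assoc] at h
  rcases κ with _ | k
  · rw [Polynomial.coeff_X_mul_zero, Polynomial.coeff_X_mul_zero, add_zero] at h
    exact absurd (map_zero _) h
  · rw [Polynomial.coeff_X_mul, Polynomial.coeff_X_mul, Polynomial.coeff_derivative,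
      Polynomial.coeff_C_mul, map_add] at h
    have h' : MvPowerSeries.coeff β (φ.coeff (k + 1) * ((k : MvPowerSeries (Fin n) ℂ) + 1)) ≠ 0 ∨
        MvPowerSeries.coeff β ((f : MvPowerSeries (Fin n) ℂ) * φ.coeff k) ≠ 0 := by
      by_contra hcon
      rw [not_or, not_not, not_not] at hcon
      rw [hcon.1, hcon.2, add_zero] at h
      exact h rfl
    rcases h' with h' | h'
    · refine hφ (k + 1) β fun h0 => h' ?_
      have e : φ.coeff (k + 1) * ((k : MvPowerSeries (Fin n) ℂ) + 1) =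
          (k + 1) • φ.coeff (k + 1) := by
        rw [nsmul_eq_mul]
        push_cast
        ring
      rw [e, map_nsmul, h0, smul_zero]
    · have := F5_mul (w := w) (f : MvPowerSeries (Fin n) ℂ) (φ.coeff k) N (N * ((k : ℤ) + 1))
        (F5_f hN) (hφ k) β h'
      push_cast
      linarith

private theorem F5_iter {f : MvPolynomial (Fin n) ℂ} {w : Fin n → ℤ} {N : ℤ}
    (hN : ∀ v ∈ (Fc f).support, N ≤ w ⬝ᵥ v) (i : ℕ) :
    F5_P w N ((Tht f)^[i] (Polynomial.C (f : MvPowerSeries (Fin n) ℂ))) := by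
  induction i with
  | zero => exact F5_base hN
  | succ i ih =>
    rw [Function.iterate_succ_apply']
    exact F5_tht hN ih

private theorem F5_C_mul {w : Fin n → ℤ} {N : ℤ} (hw : ∀ j, 0 ≤ w j)
    (c : MvPowerSeries (Fin n) ℂ) {φ : PY n} (hφ : F5_P w N φ) :
    F5_P w N (Polynomial.C c * φ) := by
  intro κ β h
  rw [Polynomial.coeff_C_mul] at h
  have := F5_mul (w := w) c (φ.coeff κ) 0 (N * ((κ : ℤ) + 1))
    (fun a _ => Finset.sum_nonneg fun j _ => mul_nonneg (hw j) (Int.natCast_nonneg _))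
    (hφ κ) β h
  linarith

/-- The coefficients of `c(x) Θ^i f` are supported on `{m ≥ 0, w·b ≥ N (κ + 1)}`. -/
theorem cf_gen_support (f : MvPolynomial (Fin n) ℂ) (c : MvPowerSeries (Fin n) ℂ) (i : ℕ)
    {w : Fin n → ℤ} {N : ℤ} (hw : ∀ j, 0 ≤ w j) (hN : ∀ v ∈ (Fc f).support, N ≤ w ⬝ᵥ v)
    (m : Fin (n + 1) → ℤ)
    (hm : cf (Polynomial.C c * (Tht f)^[i] (Polynomial.C (f : MvPowerSeries (Fin n) ℂ))) m ≠ 0) :
    N * (m 0 + 1) ≤ w ⬝ᵥ Fin.tail m := by
  unfold cf at hm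
  split_ifs at hm with h0
  · have := F5_C_mul hw c (F5_iter hN i) _ _ hm
    rw [Int.toNat_of_nonneg (h0 0)] at this
    refine le_trans this (le_of_eq ?_)
    unfold dotProduct
    refine Finset.sum_congr rfl fun j _ => ?_
    have e : ((Finsupp.equivFunOnFinite.symm fun j : Fin n => (m j.succ).toNat) j : ℤ) =
        m j.succ := by
      rw [Finsupp.equivFunOnFinite_symm_apply_apply]
      exact Int.toNat_of_nonneg (h0 j.succ)
    rw [e]
    rfl
  · exact absurd rfl hm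

end MPb07157T
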