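import Pool.Agent.Lib.MP_b07157_agT.T1
import Pool.Agent.Lib.MP_b07157_agT.DDefs

/-!
# From the symbol to the operator
-/

noncomputable section

namespace MPb07157T

open Finset Matrix

variable {k : Type} [Field k] {n : ℕ}

private theorem c1_iF_add (F : (Fin n → ℤ) →₀ k) (w w' : LFun k n) (m : Fin n → ℤ) :
    iF F (w + w') m = iF F w m + iF F w' m := by
  simp only [iF, Pi.add_apply, map_add, smul_add, Finset.sum_add_distrib]

private theorem c1_iF_sub (F : (Fin n → ℤ) →₀ k) (w w' : LFun k n) (m : Fin n → ℤ) :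
    iF F (w - w') m = iF F w m - iF F w' m := by
  simp only [iF, Pi.sub_apply, map_sub, smul_sub, Finset.sum_sub_distrib]

private theorem c1_Eop_add (b : Fin n → k) (F : (Fin n → ℤ) →₀ k) (w w' : LFun k n)
    (m : Fin n → ℤ) : Eop b F (w + w') m = Eop b F w m + Eop b F w' m := by
  simp only [Eop, c1_iF_add, Pi.add_apply, map_add]
  abel

private theorem c1_Eop_sub (b : Fin n → k) (F : (Fin n → ℤ) →₀ k) (w w' : LFun k n)
    (m : Fin n → ℤ) : Eop b F (w - w') m = Eop b F w m - Eop b F w' m := by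
  simp only [Eop, c1_iF_sub, Pi.sub_apply, map_sub]
  abel

private theorem c1_Fpart_supp (Z : List (Fin n → ℤ)) (F : (Fin n → ℤ) →₀ k) (v : Fin n → ℤ)
    (hv : v ∈ (Fpart Z F).support) : v ∈ F.support := by
  classical
  unfold Fpart at hv
  rw [Finsupp.support_filter, Finset.mem_filter] at hv
  exact hv.1

/-- If `iF F g m ≠ 0` then some `g (m - v)` is nonzero. -/
private theorem c1_iF_ne (F : (Fin n → ℤ) →₀ k) (w : LFun k n) (m : Fin n → ℤ)
    (h : iF F w m ≠ 0) : ∃ v ∈ F.support, w (m - v) ≠ 0 := by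
  by_contra hcon
  push Not at hcon
  apply h
  unfold iF
  refine Finset.sum_eq_zero fun v hv => ?_
  rw [hcon v hv, map_zero, smul_zero]

private theorem c1_iF_congr (F : (Fin n → ℤ) →₀ k) (w w' : LFun k n) (m : Fin n → ℤ)
    (h : ∀ v ∈ F.support, w (m - v) = w' (m - v)) : iF F w m = iF F w' m := by
  unfold iF
  refine Finset.sum_congr rfl fun v hv => ?_
  rw [h v hv]

private theorem c1_step [CharZero k] (H : Finset (Fin n → ℤ)) (F : (Fin n → ℤ) →₀ k)
    (hF : ∀ v ∈ F.support, ∀ h ∈ H, 0 ≤ h ⬝ᵥ v) (hND : ND H F) (Z : List (Fin n → ℤ))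
    (hZ : ∀ z ∈ Z, z ∈ H) (hrel : ∃ u, Relint Z H u) (δ : Fin n → ℤ) (N : ℤ) (hN : 0 < N)
    (hδ : ∀ v ∈ F.support, δ ⬝ᵥ v = N) (x : Fin n → ℝ) (b : Fin n → k)
    (hb : ∀ m ∈ Nset Z H x, ∀ z ∈ Z, (vec k m + b) ⬝ᵥ vec k z = 0) (p : ℤ) {d : ℕ} (hd : 1 ≤ d)
    (D : ℤ) {w : LFun k n} (hw : SuppIn {m | m ∈ Nset Z H x ∧ N ∣ δ ⬝ᵥ m - p} w)
    (hdeg : Deg d w) (hcyc : ∀ m, zet k Z * Eop b (Fpart Z F) w m = 0)
    (htop : ∀ m, zet k Z * w m ≠ 0 → δ ⬝ᵥ m ≤ D) :
    ∃ g : LFun k n, SuppIn {m | m ∈ Nset Z H x ∧ N ∣ δ ⬝ᵥ m - p} g ∧ Deg (d + 1) g ∧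
      SuppIn {m | m ∈ Nset Z H x ∧ N ∣ δ ⬝ᵥ m - p} (w - Eop b (Fpart Z F) g) ∧
      Deg d (w - Eop b (Fpart Z F) g) ∧
      (∀ m, zet k Z * Eop b (Fpart Z F) (w - Eop b (Fpart Z F) g) m = 0) ∧
      ∀ m, zet k Z * (w - Eop b (Fpart Z F) g) m ≠ 0 → δ ⬝ᵥ m ≤ D - 1 := by
  classical
  have hδz : ∀ v ∈ (Fpart Z F).support, δ ⬝ᵥ v = N := fun v hv => hδ v (c1_Fpart_supp Z F v hv)
  have hsub : ∀ m v : Fin n → ℤ, δ ⬝ᵥ (m - v) = δ ⬝ᵥ m - δ ⬝ᵥ v := fun m v => dotProduct_sub _ _ _
  let wD : LFun k n := fun m => if δ ⬝ᵥ m = D then w m else 0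
  have hwDs : SuppIn (Nset Z H x) wD := by
    refine ⟨hw.1.subset ?_, ?_⟩
    · intro m hm
      rw [Function.mem_support] at hm ⊢
      intro h0
      apply hm
      simp only [wD, h0, ite_self]
    · intro m hm
      refine (hw.2 m ?_).1
      intro h0
      apply hm
      simp only [wD, h0, ite_self]
  have hwDd : Deg d wD := by
    intro m
    simp only [wD]
    split_ifs
    · exact hdeg m
    · exact Submodule.zero_mem _
  have hwDc : ∀ m, zet k Z * iF (Fpart Z F) wD m = 0 := by
    intro m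
    by_cases hm : δ ⬝ᵥ m = D + N
    · have e1 : iF (Fpart Z F) wD m = iF (Fpart Z F) w m := by
        apply c1_iF_congr
        intro v hv
        have : δ ⬝ᵥ (m - v) = D := by rw [hsub, hδz v hv, hm]; ring
        simp only [wD, this, if_true]
      rw [e1]
      have h1 := hcyc m
      have h2 : zet k Z * con (vec k m + b) (w m) = 0 := by
        by_cases hwm : w m = 0
        · rw [hwm, map_zero, mul_zero]
        · have hmN := (hw.2 m hwm).1
          rw [zet_con Z _ (hb m hmN)]
          have h3 : zet k Z * w m = 0 := by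
            by_contra h4
            have := htop m h4
            omega
          rw [h3, map_zero, smul_zero]
      have h5 : zet k Z * Eop b (Fpart Z F) w m
          = zet k Z * con (vec k m + b) (w m) + zet k Z * iF (Fpart Z F) w m := by
        simp only [Eop, mul_add]
      rw [h5, h2, zero_add] at h1
      exact h1
    · have e1 : iF (Fpart Z F) wD m = 0 := by
        by_contra h0
        obtain ⟨v, hv, hne⟩ := c1_iF_ne _ _ _ h0
        apply hne
        have : δ ⬝ᵥ (m - v) ≠ D := by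
          rw [hsub, hδz v hv]
          omega
        simp only [wD, this, if_false]
      rw [e1, mul_zero]
  obtain ⟨g0, hg0s, hg0d, hg0⟩ := koszul_exact H F hF hND Z hZ hrel x d hd wD hwDs hwDd hwDc
  let g : LFun k n := fun m => if δ ⬝ᵥ m = D - N ∧ N ∣ δ ⬝ᵥ m - p then g0 m else 0
  have hgne : ∀ m, g m ≠ 0 → (δ ⬝ᵥ m = D - N ∧ N ∣ δ ⬝ᵥ m - p) ∧ g0 m ≠ 0 := by
    intro m hm
    by_cases hc : δ ⬝ᵥ m = D - N ∧ N ∣ δ ⬝ᵥ m - p
    · refine ⟨hc, ?_⟩
      simp only [g, if_pos hc] at hm
      exact hm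
    · exfalso
      apply hm
      simp only [g, if_neg hc]
  have hgs : SuppIn {m | m ∈ Nset Z H x ∧ N ∣ δ ⬝ᵥ m - p} g := by
    refine ⟨hg0s.1.subset fun m hm => ?_, fun m hm => ?_⟩
    · exact (hgne m hm).2
    · exact ⟨hg0s.2 m (hgne m hm).2, (hgne m hm).1.2⟩
  have hgd : Deg (d + 1) g := by
    intro m
    simp only [g]
    split_ifs
    · exact hg0d m
    · exact Submodule.zero_mem _
  have hg : ∀ m, zet k Z * (wD m - iF (Fpart Z F) g m) = 0 := by
    intro m
    by_cases hm : δ ⬝ᵥ m = D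
    · by_cases hp : N ∣ D - p
      · have e1 : iF (Fpart Z F) g m = iF (Fpart Z F) g0 m := by
          apply c1_iF_congr
          intro v hv
          have h1 : δ ⬝ᵥ (m - v) = D - N := by rw [hsub, hδz v hv, hm]
          have h2 : N ∣ D - N - p := by
            have : D - N - p = (D - p) - N := by ring
            rw [this]
            exact dvd_sub hp (dvd_refl N)
          simp only [g, h1, h2, and_self, if_true]
        rw [e1]
        exact hg0 m
      · have h1 : w m = 0 := by
          by_contra h0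
          have := (hw.2 m h0).2
          rw [hm] at this
          exact hp this
        have h2 : iF (Fpart Z F) g m = 0 := by
          by_contra h0
          obtain ⟨v, hv, hne⟩ := c1_iF_ne _ _ _ h0
          have h3 := (hgne _ hne).1
          apply hp
          have h4 : D - p = (δ ⬝ᵥ (m - v) - p) + N := by rw [h3.1]; ring
          rw [h4]
          exact dvd_add h3.2 (dvd_refl N)
        simp only [wD, h1, ite_self, h2, sub_zero, mul_zero]
    · have h2 : iF (Fpart Z F) g m = 0 := by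
        by_contra h0
        obtain ⟨v, hv, hne⟩ := c1_iF_ne _ _ _ h0
        have h3 := (hgne _ hne).1.1
        rw [hsub, hδz v hv] at h3
        omega
      simp only [wD, hm, if_false, h2, sub_zero, mul_zero]
  have hgN : SuppIn (Nset Z H x) g := ⟨hgs.1, fun m hm => (hgs.2 m hm).1⟩
  have hiFs := SuppIn.iF hF hgN
  refine ⟨g, hgs, hgd, ⟨?_, ?_⟩, ?_, ?_, ?_⟩
  · refine ((hw.1.union hgs.1).union hiFs.1).subset ?_
    intro m hm
    by_contra hcon
    simp only [Set.mem_union, Function.mem_support, not_or, not_not] at hcon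
    apply hm
    simp only [Pi.sub_apply, Eop, hcon.1.1, hcon.1.2, hcon.2, map_zero, add_zero, sub_zero]
  · intro m hm
    by_cases h1 : w m = 0
    · by_cases h2 : g m = 0
      · have h3 : iF (Fpart Z F) g m ≠ 0 := by
          intro h3
          apply hm
          simp only [Pi.sub_apply, Eop, h1, h2, h3, map_zero, add_zero, sub_zero]
        refine ⟨hiFs.2 m h3, ?_⟩
        obtain ⟨v, hv, hne⟩ := c1_iF_ne _ _ _ h3
        have h4 := (hgne _ hne).1.2
        rw [hsub, hδz v hv] at h4
        have h5 : δ ⬝ᵥ m - p = (δ ⬝ᵥ m - N - p) + N := by ring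
        rw [h5]
        exact dvd_add h4 (dvd_refl N)
      · exact hgs.2 m h2
    · exact hw.2 m h1
  · intro m
    simp only [Pi.sub_apply, Eop]
    refine Submodule.sub_mem _ (hdeg m) (Submodule.add_mem _ ?_ ?_)
    · exact con_mem_Fil _ (hgd m)
    · exact Deg.iF hgd _ m
  · intro m
    rw [c1_Eop_sub, Eop_Eop]
    simp only [Pi.zero_apply, sub_zero]
    exact hcyc m
  · intro m hm
    by_contra hcon
    apply hm
    rcases lt_or_eq_of_le (show D ≤ δ ⬝ᵥ m by omega) with hlt | heq
    · have h1 : zet k Z * w m = 0 := by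
        by_contra h0
        have := htop m h0
        omega
      have h2 : g m = 0 := by
        by_contra h0
        have := (hgne m h0).1.1
        omega
      have h3 : iF (Fpart Z F) g m = 0 := by
        by_contra h0
        obtain ⟨v, hv, hne⟩ := c1_iF_ne _ _ _ h0
        have h3 := (hgne _ hne).1.1
        rw [hsub, hδz v hv] at h3
        omega
      simp only [Pi.sub_apply, Eop, h2, h3, map_zero, add_zero, sub_zero, h1]
    · have h2 : g m = 0 := by
        by_contra h0
        have := (hgne m h0).1.1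
        omega
      have h4 := hg m
      simp only [wD, heq.symm, if_true] at h4
      simp only [Pi.sub_apply, Eop, h2, map_zero, zero_add]
      exact h4

/-- The operator version of T1.  Notation: `Fz = Fpart Z F`, zero modulo `Z` means
`zet k Z * _ = 0`.  (1) `Eop b Fz` and `iF Fz` respect zero modulo `Z` on functions supported in
`Nset Z H x` (`zet_con`, `hb`, and `z·v = 0` for `v` in the support of `Fz`).  (2) Descending
induction on the top degree `D = max {δ·m : zet k Z * w m ≠ 0}` (finite support; if there is no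
such `m` take `g = 0`): let `w_D` be `w` restricted to `{δ·m = D}` (and to the values not zero
modulo `Z`).  In degree `D + N` the cycle condition says `zet k Z * iF Fz w_D m = 0`: the term
`con (vec k m + b) (w m)` is zero modulo `Z` there, and `w (m - v)` is in degree `D`; in other
degrees `iF Fz w_D` vanishes.  T1 (`koszul_exact`, applied to `w_D`) gives `g₀` with
`zet k Z * (w_D m - iF Fz g₀ m) = 0`; restrict `g₀` to `{δ·m = D - N}` and to the congruence class
(both restrictions commute with `iF Fz`).  Then `w₁ = w - Eop b Fz g₀` has the same properties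
(`Eop_Eop`), and its top degree is at most `D - 1`.  If `D < B` (the bound in `hbd`) then `w_D = 0`;
so the induction stops. -/
theorem op_exact [CharZero k] (H : Finset (Fin n → ℤ)) (F : (Fin n → ℤ) →₀ k)
    (hF : ∀ v ∈ F.support, ∀ h ∈ H, 0 ≤ h ⬝ᵥ v) (hND : ND H F) (Z : List (Fin n → ℤ))
    (hZ : ∀ z ∈ Z, z ∈ H) (hrel : ∃ u, Relint Z H u) (δ : Fin n → ℤ) (N : ℤ) (hN : 0 < N)
    (hδ : ∀ v ∈ F.support, δ ⬝ᵥ v = N) (x : Fin n → ℝ)
    (hbd : ∃ B : ℤ, ∀ m ∈ Nset Z H x, B ≤ δ ⬝ᵥ m) (b : Fin n → k)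
    (hb : ∀ m ∈ Nset Z H x, ∀ z ∈ Z, (vec k m + b) ⬝ᵥ vec k z = 0) (p : ℤ) {d : ℕ} (hd : 1 ≤ d)
    {w : LFun k n} (hw : SuppIn {m | m ∈ Nset Z H x ∧ N ∣ δ ⬝ᵥ m - p} w) (hdeg : Deg d w)
    (hcyc : ∀ m, zet k Z * Eop b (Fpart Z F) w m = 0) :
    ∃ g : LFun k n, SuppIn {m | m ∈ Nset Z H x ∧ N ∣ δ ⬝ᵥ m - p} g ∧ Deg (d + 1) g ∧
      ∀ m, zet k Z * (w m - Eop b (Fpart Z F) g m) = 0 := by
  obtain ⟨B, hB⟩ := hbd
  have key : ∀ t : ℕ, ∀ w : LFun k n,
      SuppIn {m | m ∈ Nset Z H x ∧ N ∣ δ ⬝ᵥ m - p} w → Deg d w →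
      (∀ m, zet k Z * Eop b (Fpart Z F) w m = 0) →
      (∀ m, zet k Z * w m ≠ 0 → δ ⬝ᵥ m ≤ B - 1 + t) →
      ∃ g : LFun k n, SuppIn {m | m ∈ Nset Z H x ∧ N ∣ δ ⬝ᵥ m - p} g ∧ Deg (d + 1) g ∧
        ∀ m, zet k Z * (w m - Eop b (Fpart Z F) g m) = 0 := by
    intro t
    induction t with
    | zero =>
      intro w hw hdeg hcyc htop
      refine ⟨0, ⟨?_, ?_⟩, ?_, ?_⟩
      · simp
      · intro m hm
        exact absurd rfl hm
      · intro m
        exact Submodule.zero_mem _
      · intro m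
        have h1 : zet k Z * w m = 0 := by
          by_contra h0
          have h2 := htop m h0
          have h3 : w m ≠ 0 := by
            intro h3
            apply h0
            rw [h3, mul_zero]
          have h4 := hB m (hw.2 m h3).1
          push_cast at h2
          omega
        have h2 : Eop b (Fpart Z F) (0 : LFun k n) m = 0 := by
          simp only [Eop, iF, Pi.zero_apply, map_zero, smul_zero, Finset.sum_const_zero, add_zero]
        rw [h2, sub_zero, h1]
    | succ t ih =>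
      intro w hw hdeg hcyc htop
      obtain ⟨g1, hg1s, hg1d, hw1s, hw1d, hw1c, hw1t⟩ := c1_step H F hF hND Z hZ hrel δ N hN hδ x
        b hb p hd (B + t) hw hdeg hcyc (fun m hm => by
          have := htop m hm
          push_cast at this
          omega)
      obtain ⟨g2, hg2s, hg2d, hg2⟩ := ih _ hw1s hw1d hw1c (fun m hm => by
        have := hw1t m hm
        omega)
      refine ⟨g1 + g2, ⟨(hg1s.1.union hg2s.1).subset ?_, ?_⟩, ?_, ?_⟩
      · intro m hm
        by_contra hcon
        simp only [Set.mem_union, Function.mem_support, not_or, not_not] at hcon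
        apply hm
        simp only [Pi.add_apply, hcon.1, hcon.2, add_zero]
      · intro m hm
        by_cases h1 : g1 m = 0
        · apply hg2s.2 m
          intro h2
          apply hm
          simp only [Pi.add_apply, h1, h2, add_zero]
        · exact hg1s.2 m h1
      · intro m
        exact Submodule.add_mem _ (hg1d m) (hg2d m)
      · intro m
        rw [c1_Eop_add]
        have h := hg2 m
        simp only [Pi.sub_apply] at h
        rw [sub_sub] at h
        exact h
  obtain ⟨C, hC⟩ : ∃ C : ℤ, ∀ m, w m ≠ 0 → δ ⬝ᵥ m ≤ C := by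
    obtain ⟨C, hC⟩ := (hw.1.image fun m => δ ⬝ᵥ m).bddAbove
    exact ⟨C, fun m hm => hC ⟨m, hm, rfl⟩⟩
  apply key (C - B + 1).toNat w hw hdeg hcyc
  intro m hm
  have h1 : w m ≠ 0 := by
    intro h1
    apply hm
    rw [h1, mul_zero]
  have h2 := hC m h1
  have h3 := Int.self_le_toNat (C - B + 1)
  omega

end MPb07157T
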