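import Pool.Agent.Lib.MP_b07157_agT.D1

/-!
# The induction over the filled coordinates
-/

noncomputable section

namespace MPb07157T

open Finset Matrix

variable {k : Type} [Field k] {n : ℕ}

/-! ### Helper lemmas -/

private theorem d2_he_dot (j : Fin n) (m : Fin (n + 1) → ℤ) : he j ⬝ᵥ m = m j.succ := by
  unfold he ee
  rw [dotProduct, Fin.sum_univ_succ]
  simp [Pi.single_apply]

private theorem d2_rdot_he (j : Fin n) (x : Fin (n + 1) → ℝ) : rdot (he j) x = x j.succ := by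
  unfold rdot he ee
  rw [Fin.sum_univ_succ]
  simp [Pi.single_apply]

private theorem d2_ee_dot (j : Fin n) (v : Fin n → ℤ) : ee j ⬝ᵥ v = v j := by
  unfold ee
  simp

private theorem d2_he_mem (Sg : Finset ((Fin n → ℤ) × ℤ)) (j : Fin n) : he j ∈ HS Sg := by
  unfold HS
  exact mem_union_right _ (mem_image_of_mem _ (mem_univ j))

private theorem d2_NN_cons (Sg : Finset ((Fin n → ℤ) × ℤ)) (J : List (Fin n)) (j : Fin n)
    (c : Fin (n + 1) → ℝ) (m : Fin (n + 1) → ℤ) :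
    m ∈ NN Sg (j :: J) c ↔ m ∈ NN Sg J c ∧ ((m j.succ : ℤ) : ℝ) = c j.succ := by
  unfold NN Nset slc
  simp only [Set.mem_setOf_eq, List.map_cons, List.mem_cons, forall_eq_or_imp, d2_he_dot,
    d2_rdot_he]
  tauto

private theorem d2_NN_J {Sg : Finset ((Fin n → ℤ) × ℤ)} {J : List (Fin n)}
    {c : Fin (n + 1) → ℝ} {m : Fin (n + 1) → ℤ} (hm : m ∈ NN Sg J c) {i : Fin n} (hi : i ∈ J) :
    ((m i.succ : ℤ) : ℝ) = c i.succ := by
  have := hm.1 (he i) (List.mem_map_of_mem hi)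
  rwa [d2_he_dot, d2_rdot_he] at this

private theorem d2_NN_le {Sg : Finset ((Fin n → ℤ) × ℤ)} {J : List (Fin n)}
    {c : Fin (n + 1) → ℝ} {m : Fin (n + 1) → ℤ} (hm : m ∈ NN Sg J c) (i : Fin n) :
    c i.succ ≤ ((m i.succ : ℤ) : ℝ) := by
  have := hm.2 (he i) (d2_he_mem Sg i)
  rwa [d2_he_dot, d2_rdot_he] at this

private theorem d2_Fpart_cons_support (F : (Fin n → ℤ) →₀ k) (J : List (Fin n)) (j : Fin n)
    (v : Fin n → ℤ) : v ∈ (Fpart (eJ (j :: J)) F).support ↔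
      v ∈ (Fpart (eJ J) F).support ∧ v j = 0 := by
  classical
  unfold Fpart eJ
  simp only [Finsupp.support_filter, mem_filter, List.map_cons, List.mem_cons, forall_eq_or_imp,
    d2_ee_dot]
  tauto

private theorem d2_Fpart_cons_apply (F : (Fin n → ℤ) →₀ k) (J : List (Fin n)) (j : Fin n)
    {v : Fin n → ℤ} (hv : v ∈ (Fpart (eJ (j :: J)) F).support) :
    Fpart (eJ (j :: J)) F v = Fpart (eJ J) F v := by
  classical
  have h1 := hv
  rw [d2_Fpart_cons_support] at h1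
  unfold Fpart at hv h1 ⊢
  rw [Finsupp.support_filter, mem_filter] at hv h1
  rw [Finsupp.filter_apply_pos _ _ hv.2, Finsupp.filter_apply_pos _ _ h1.1.2]

private theorem d2_sh_succ (m : Fin (n + 1) → ℤ) (v : Fin n → ℤ) (j : Fin n) :
    (m - sh v) j.succ = m j.succ - v j := by
  simp [sh]

private theorem d2_EE_eq {F : (Fin n → ℤ) →₀ k} (hF : ∀ v ∈ F.support, ∀ j, 0 ≤ v j)
    (J : List (Fin n)) (j : Fin n) {w : MFun k n} {m : Fin (n + 1) → ℤ} (hm : m j.succ = -1)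
    (hw : ∀ m, w m ≠ 0 → -1 ≤ m j.succ) :
    EE (Fpart (eJ J) F) w m = EE (Fpart (eJ (j :: J)) F) w m := by
  classical
  unfold EE
  congr 1
  have h1 : ∑ v ∈ (Fpart (eJ (j :: J)) F).support,
      Fpart (eJ (j :: J)) F v • con (vec k v) (w (m - sh v)) =
      ∑ v ∈ (Fpart (eJ (j :: J)) F).support,
        Fpart (eJ J) F v • con (vec k v) (w (m - sh v)) :=
    sum_congr rfl fun v hv => by rw [d2_Fpart_cons_apply F J j hv]
  rw [h1]
  refine (sum_subset (fun v hv => ((d2_Fpart_cons_support F J j v).1 hv).1) ?_).symm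
  intro v hv hv'
  rw [d2_Fpart_cons_support] at hv'
  have hvj : v j ≠ 0 := fun h => hv' ⟨hv, h⟩
  have hvF : v ∈ F.support := by
    unfold Fpart at hv
    rw [Finsupp.support_filter, mem_filter] at hv
    exact hv.1
  have h0 := hF v hvF j
  have : w (m - sh v) = 0 := by
    by_contra hne
    have := hw _ hne
    rw [d2_sh_succ, hm] at this
    omega
  rw [this, map_zero, smul_zero]

private theorem d2_zet_cons (J : List (Fin n)) (j : Fin n) (x : Lam k n) :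
    zet k (eJ (j :: J)) * x = gi (vec k (ee j)) * (zet k (eJ J) * x) := by
  have : eJ (j :: J) = ee j :: eJ J := rfl
  rw [this, zet_cons, mul_assoc]

private theorem d2_zet_gi (J : List (Fin n)) (j : Fin n) (x : Lam k n) :
    zet k (eJ J) * (gi (vec k (ee j)) * x) = (-1 : k) ^ (eJ J).length •
      (zet k (eJ (j :: J)) * x) := by
  rw [zet_gi, d2_zet_cons]

private theorem d2_zero_of {J : List (Fin n)} {j : Fin n} {x : Lam k n}
    (h : zet k (eJ J) * (gi (vec k (ee j)) * x) = 0) : zet k (eJ (j :: J)) * x = 0 := by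
  rw [d2_zet_gi] at h
  have h1 : ((-1 : k) ^ (eJ J).length) * ((-1 : k) ^ (eJ J).length) = 1 := by
    rw [← mul_pow]; simp
  calc zet k (eJ (j :: J)) * x = (1 : k) • (zet k (eJ (j :: J)) * x) := (one_smul _ _).symm
    _ = ((-1 : k) ^ (eJ J).length) • ((-1 : k) ^ (eJ J).length) • (zet k (eJ (j :: J)) * x) := by
      rw [smul_smul, h1]
    _ = 0 := by rw [h, smul_zero]

private theorem d2_vec_dot (v w : Fin n → ℤ) : vec k v ⬝ᵥ vec k w = ((v ⬝ᵥ w : ℤ) : k) := by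
  unfold vec dotProduct
  push_cast
  rfl

/-- The induction step.  Write `Fz = Fpart (eJ J) F` and note
`Fpart (eJ (j :: J)) F` = the part of `Fz` with `v_j = 0`; `zet k (eJ (j :: J)) = gi (vec k (ee j)) *
zet k (eJ J)`.  Let `d ≥ 1` and `w` as in `X(j :: S, J)`.
(1) `h1` gives `g` (degree `d + 1`), filled at `S` modulo `J`, with `w - EE Fz g` zero modulo `J`
outside `NN Sg J c`.
(2) `γ` = `g` restricted to `m_j = -1`.  It is supported in `NN Sg (j :: J) (c + T e₀)`, filled at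
`S` modulo `j :: J`, and outside `NN Sg (j :: J) c` we have
`zet k (eJ (j :: J)) * EE (Fpart (eJ (j :: J)) F) γ m = 0`: for `m_j = -1`,
`EE Fz g m = EE (Fpart (eJ (j :: J)) F) γ m` since the terms with `v_j > 0` come from
`m_j - v_j < -1`, outside the support of `g`; `w` is filled at `j`; use (1) multiplied by `e_j`.
(3) `h2` (degree `d + 1`) gives `g₂` (degree `d + 2`), filled at `S` modulo `j :: J`, with
`γ - EE _ g₂` zero modulo `j :: J` outside `NN Sg (j :: J) c`.  Put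
`β m = con (vec k (ee j)) (gi (vec k (ee j)) * g₂ m)`; it has degree `d + 2`, is filled at `S`
modulo `J` (contract `0 = e_j e_J e_i g₂` with `e_j`), and `gi (ee j) * β m = gi (ee j) * g₂ m`.
(4) `g₁ = g - EE Fz β`: filled at `S` modulo `J` (`Filled.EE`), `w - EE Fz g₁` is zero modulo `J`
outside `NN Sg J c` (`EE_EE`), and for `m ∉ NN Sg J c`, `m_j = -1`:
`zet k (eJ (j :: J)) * g₁ m = 0` by (3).
(5) `g₃` = `g₁` restricted to `{m ∈ NN Sg J c, m_j = -1}`; `EE Fz g₃` is supported in `NN Sg J c`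
(`MSuppIn.EE`).  The answer is `g₁ - g₃`.  (Note `NN Sg (j :: J) c = NN Sg J c ∩ {m_j = -1}`.) -/
theorem XSt.step {F : (Fin n → ℤ) →₀ k} {Sg : Finset ((Fin n → ℤ) × ℤ)} (hW : WOK Sg F)
    {c : Fin (n + 1) → ℝ} {T : ℝ} (hT : 0 ≤ T) {S J : List (Fin n)} {j : Fin n} (hjS : j ∉ S)
    (hjJ : j ∉ J) (hc : ∀ i, i = j ∨ i ∈ S ∨ i ∈ J → c i.succ = -1) (hSJ : ∀ i ∈ S, i ∉ J)
    (h1 : XSt F Sg c T S J) (h2 : XSt F Sg c T S (j :: J)) : XSt F Sg c T (j :: S) J := by
  classical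
  have hcj : c j.succ = -1 := hc j (Or.inl rfl)
  have hcS : ∀ i ∈ S, c i.succ = -1 := fun i hi => hc i (Or.inr (Or.inl hi))
  have hcJ : ∀ i ∈ J, c i.succ = -1 := fun i hi => hc i (Or.inr (Or.inr hi))
  have hcT : ∀ i : Fin n, (c + Pi.single 0 T : Fin (n + 1) → ℝ) i.succ = c i.succ := by
    intro i
    simp
  intro d hd w hw hwd hwf hwz
  -- (1)
  have hwfS : Filled S J w := fun m i hi hm => hwf m i (List.mem_cons_of_mem _ hi) hm
  obtain ⟨g, hg, hgd, hgf, hgz⟩ := h1 d hd w hw hwd hwfS hwz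
  -- values of coordinates on the supports
  have hNT : ∀ m, m ∈ NN Sg J (c + Pi.single 0 T) → -1 ≤ m j.succ := by
    intro m hm
    have := d2_NN_le hm j
    rw [hcT, hcj] at this
    exact_mod_cast this
  have hNTS : ∀ m, m ∈ NN Sg J (c + Pi.single 0 T) → ∀ i ∈ S, -1 ≤ m i.succ := by
    intro m hm i hi
    have := d2_NN_le hm i
    rw [hcT, hcS i hi] at this
    exact_mod_cast this
  have hNTJ : ∀ m, m ∈ NN Sg J (c + Pi.single 0 T) → ∀ i ∈ J, m i.succ = -1 := by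
    intro m hm i hi
    have := d2_NN_J hm hi
    rw [hcT, hcJ i hi] at this
    exact_mod_cast this
  have hcons : ∀ m, m ∈ NN Sg (j :: J) c ↔ m ∈ NN Sg J c ∧ m j.succ = -1 := by
    intro m
    rw [d2_NN_cons, hcj]
    constructor
    · rintro ⟨h, h'⟩
      exact ⟨h, by exact_mod_cast h'⟩
    · rintro ⟨h, h'⟩
      exact ⟨h, by rw [h']; norm_num⟩
  have hconsT : ∀ m, m ∈ NN Sg (j :: J) (c + Pi.single 0 T) ↔
      m ∈ NN Sg J (c + Pi.single 0 T) ∧ m j.succ = -1 := by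
    intro m
    rw [d2_NN_cons, hcT, hcj]
    constructor
    · rintro ⟨h, h'⟩
      exact ⟨h, by exact_mod_cast h'⟩
    · rintro ⟨h, h'⟩
      exact ⟨h, by rw [h']; norm_num⟩
  -- (2)
  let γ : MFun k n := fun m => if m j.succ = -1 then g m else 0
  have hγ1 : ∀ m, m j.succ = -1 → γ m = g m := fun m hm => if_pos hm
  have hγ0 : ∀ m, m j.succ ≠ -1 → γ m = 0 := fun m hm => if_neg hm
  have hγne : ∀ m, γ m ≠ 0 → m j.succ = -1 ∧ g m ≠ 0 := by
    intro m hm
    by_cases h : m j.succ = -1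
    · exact ⟨h, by rwa [← hγ1 m h]⟩
    · exact absurd (hγ0 m h) hm
  have hγs : MSuppIn (NN Sg (j :: J) (c + Pi.single 0 T)) γ := by
    refine ⟨hg.1.subset fun m hm => ?_, fun m hm => ?_⟩
    · exact (hγne m hm).2
    · rw [hconsT]
      exact ⟨hg.2 m (hγne m hm).2, (hγne m hm).1⟩
  have hγd : MDeg (d + 1) γ := by
    intro m
    by_cases h : m j.succ = -1
    · rw [hγ1 m h]; exact hgd m
    · rw [hγ0 m h]; exact Submodule.zero_mem _
  have hγf : Filled S (j :: J) γ := by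
    intro m i hi hm
    rw [d2_zet_cons]
    by_cases h : m j.succ = -1
    · rw [hγ1 m h, hgf m i hi hm, mul_zero]
    · rw [hγ0 m h, mul_zero, mul_zero, mul_zero]
  have hFz : ∀ v ∈ (Fpart (eJ (j :: J)) F).support, v j = 0 := fun v hv =>
    ((d2_Fpart_cons_support F J j v).1 hv).2
  have hEEγ : ∀ m, m j.succ = -1 →
      EE (Fpart (eJ (j :: J)) F) γ m = EE (Fpart (eJ (j :: J)) F) g m := by
    intro m hm
    unfold EE
    rw [hγ1 m hm]
    congr 1
    refine sum_congr rfl fun v hv => ?_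
    rw [hγ1 (m - sh v) (by rw [d2_sh_succ, hFz v hv, hm]; rfl)]
  have hEEγ0 : ∀ m, m j.succ ≠ -1 → EE (Fpart (eJ (j :: J)) F) γ m = 0 := by
    intro m hm
    unfold EE
    rw [hγ0 m hm, map_zero, zero_add]
    refine sum_eq_zero fun v hv => ?_
    rw [hγ0 (m - sh v) (by rw [d2_sh_succ, hFz v hv, sub_zero]; exact hm), map_zero, smul_zero]
  have hγz : ∀ m, m ∉ NN Sg (j :: J) c →
      zet k (eJ (j :: J)) * EE (Fpart (eJ (j :: J)) F) γ m = 0 := by
    intro m hm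
    by_cases h : m j.succ = -1
    · have hmJ : m ∉ NN Sg J c := fun h' => hm ((hcons m).2 ⟨h', h⟩)
      have h3 := hgz m hmJ
      have h4 : zet k (eJ (j :: J)) * (w m - EE (Fpart (eJ J) F) g m) = 0 := by
        rw [d2_zet_cons, h3, mul_zero]
      have h5 : zet k (eJ (j :: J)) * w m = 0 := d2_zero_of (hwf m j List.mem_cons_self h)
      rw [mul_sub, h5, zero_sub, neg_eq_zero] at h4
      rw [hEEγ m h, ← d2_EE_eq hW.nonneg J j h (fun m' hm' => hNT m' (hg.2 m' hm'))]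
      exact h4
    · rw [hEEγ0 m h, mul_zero]
  -- (3)
  obtain ⟨g₂, hg₂, hg₂d, hg₂f, hg₂z⟩ := h2 (d + 1) (by omega) γ hγs hγd hγf hγz
  let β : MFun k n := fun m => con (vec k (ee j)) (gi (vec k (ee j)) * g₂ m)
  have hβm : ∀ m, β m = con (vec k (ee j)) (gi (vec k (ee j)) * g₂ m) := fun m => rfl
  have hjj : vec k (ee j) ⬝ᵥ vec k (ee j) = 1 := by
    rw [d2_vec_dot, d2_ee_dot]
    simp [ee]
  have hβg : ∀ m, gi (vec k (ee j)) * β m = gi (vec k (ee j)) * g₂ m := by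
    intro m
    rw [hβm, con_gi_mul, hjj, one_smul, mul_sub, gi_self, sub_zero]
  have hβs : MSuppIn (NN Sg J (c + Pi.single 0 T)) β := by
    have hne : ∀ m, β m ≠ 0 → g₂ m ≠ 0 := by
      intro m hm h
      apply hm
      rw [hβm, h, mul_zero, map_zero]
    exact ⟨hg₂.1.subset fun m hm => hne m hm, fun m hm => ((hconsT m).1 (hg₂.2 m (hne m hm))).1⟩
  have hβd : MDeg (d + 2) β := fun m => con_mem_Fil _ (gi_mem_Fil _ (hg₂d m))
  have hβf : Filled S J β := by
    intro m i hi hm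
    have hij : i ≠ j := fun h => hjS (h ▸ hi)
    have hdot : vec k (ee j) ⬝ᵥ vec k (ee i) = 0 := by
      rw [d2_vec_dot, d2_ee_dot]
      simp [ee, hij.symm]
    have h3 := hg₂f m i hi hm
    rw [d2_zet_cons] at h3
    have h4 : gi (vec k (ee i)) * β m =
        - con (vec k (ee j)) (gi (vec k (ee i)) * (gi (vec k (ee j)) * g₂ m)) := by
      rw [hβm, con_gi_mul (vec k (ee j)) (vec k (ee i)), hdot, zero_smul, zero_sub, neg_neg]
    have h5 : gi (vec k (ee i)) * (gi (vec k (ee j)) * g₂ m) =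
        - (gi (vec k (ee j)) * (gi (vec k (ee i)) * g₂ m)) := gi_gi _ _ _
    have hz : ∀ z ∈ eJ J, vec k (ee j) ⬝ᵥ vec k z = 0 := by
      intro z hz
      unfold eJ at hz
      obtain ⟨l, hl, rfl⟩ := List.mem_map.1 hz
      rw [d2_vec_dot, d2_ee_dot]
      have : l ≠ j := fun h => hjJ (h ▸ hl)
      simp [ee, this.symm]
    rw [h4, mul_neg, zet_con _ _ hz, h5, mul_neg, zet_gi, h3]
    simp
  have hβsupp : ∀ m, β m ≠ 0 → (∀ j ∈ J, m j.succ = -1) ∧ ∀ j ∈ S, -1 ≤ m j.succ := fun m hm =>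
    ⟨hNTJ m (hβs.2 m hm), hNTS m (hβs.2 m hm)⟩
  -- (4)
  have hEβ : MSuppIn (NN Sg J (c + Pi.single 0 T)) (EE (Fpart (eJ J) F) β) :=
    MSuppIn.EE hW J _ hβs
  have hEβd : MDeg (d + 1) (EE (Fpart (eJ J) F) β) := MDeg.EE hβd _
  have hEβf : Filled S J (EE (Fpart (eJ J) F) β) := Filled.EE F hW.nonneg hβf hβsupp
  let g₁ : MFun k n := g - EE (Fpart (eJ J) F) β
  have hg₁m : ∀ m, g₁ m = g m - EE (Fpart (eJ J) F) β m := fun m => rfl
  have hg₁f : Filled S J g₁ := by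
    intro m i hi hm
    rw [hg₁m, mul_sub, mul_sub, hgf m i hi hm, hEβf m i hi hm, sub_zero]
  have hg₁s : MSuppIn (NN Sg J (c + Pi.single 0 T)) g₁ := by
    have hor : ∀ m, g₁ m ≠ 0 → g m ≠ 0 ∨ EE (Fpart (eJ J) F) β m ≠ 0 := by
      intro m hm
      by_contra hn
      push Not at hn
      apply hm
      rw [hg₁m, hn.1, hn.2, sub_zero]
    refine ⟨(hg.1.union hEβ.1).subset fun m hm => ?_, fun m hm => ?_⟩
    · exact hor m hm
    · rcases hor m hm with h | h
      · exact hg.2 m h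
      · exact hEβ.2 m h
  have hg₁d : MDeg (d + 1) g₁ := fun m => by
    rw [hg₁m]
    exact Submodule.sub_mem _ (hgd m) (hEβd m)
  have hg₁E : EE (Fpart (eJ J) F) g₁ = EE (Fpart (eJ J) F) g := by
    show EE (Fpart (eJ J) F) (g - EE (Fpart (eJ J) F) β) = _
    rw [EE_sub, EE_EE, sub_zero]
  have hg₁z : ∀ m, m ∉ NN Sg J c → m j.succ = -1 → zet k (eJ (j :: J)) * g₁ m = 0 := by
    intro m hm hmj
    by_cases h0 : g₁ m = 0
    · rw [h0, mul_zero]
    have hmN := hg₁s.2 m h0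
    have hmc : m ∉ NN Sg (j :: J) c := fun h => hm ((hcons m).1 h).1
    have h3 := hg₂z m hmc
    rw [hγ1 m hmj] at h3
    have h4 : zet k (eJ (j :: J)) * EE (Fpart (eJ (j :: J)) F) (β - g₂) m = 0 := by
      have hdiff : ∀ m', zet k (eJ (j :: J)) * (β - g₂) m' = 0 := by
        intro m'
        apply d2_zero_of
        rw [Pi.sub_apply, mul_sub, hβg, sub_self, mul_zero]
      refine zet_EE_congr F (j :: J) (β - g₂) m ?_ (hdiff m) fun v _ => hdiff _
      intro i hi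
      rcases List.mem_cons.1 hi with rfl | hi
      · exact hmj
      · exact hNTJ m hmN i hi
    rw [EE_sub, Pi.sub_apply, mul_sub, sub_eq_zero] at h4
    have h5 : EE (Fpart (eJ J) F) β m = EE (Fpart (eJ (j :: J)) F) β m :=
      d2_EE_eq hW.nonneg J j hmj (fun m' hm' => hNT m' (hβs.2 m' hm'))
    rw [hg₁m, h5, mul_sub, h4, ← mul_sub]
    exact h3
  -- (5)
  let g₃ : MFun k n := fun m => if m ∈ NN Sg J c ∧ m j.succ = -1 then g₁ m else 0
  have hg₃1 : ∀ m, m ∈ NN Sg J c ∧ m j.succ = -1 → g₃ m = g₁ m := fun m hm => if_pos hm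
  have hg₃0 : ∀ m, ¬ (m ∈ NN Sg J c ∧ m j.succ = -1) → g₃ m = 0 := fun m hm => if_neg hm
  have hg₃ne : ∀ m, g₃ m ≠ 0 → (m ∈ NN Sg J c ∧ m j.succ = -1) ∧ g₁ m ≠ 0 := by
    intro m hm
    by_cases h : m ∈ NN Sg J c ∧ m j.succ = -1
    · exact ⟨h, by rwa [← hg₃1 m h]⟩
    · exact absurd (hg₃0 m h) hm
  have hg₃s : MSuppIn (NN Sg J c) g₃ :=
    ⟨hg₁s.1.subset fun m hm => (hg₃ne m hm).2, fun m hm => (hg₃ne m hm).1.1⟩
  have hEg₃ : MSuppIn (NN Sg J c) (EE (Fpart (eJ J) F) g₃) := MSuppIn.EE hW J _ hg₃s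
  refine ⟨g₁ - g₃, ?_, ?_, ?_, ?_⟩
  · have hne : ∀ m, (g₁ - g₃) m ≠ 0 → g₁ m ≠ 0 := by
      intro m hm h
      apply hm
      have : g₃ m = 0 := by
        by_contra h'
        exact (hg₃ne m h').2 h
      rw [Pi.sub_apply, h, this, sub_zero]
    exact ⟨hg₁s.1.subset fun m hm => hne m hm, fun m hm => hg₁s.2 m (hne m hm)⟩
  · intro m
    rw [Pi.sub_apply]
    by_cases h : m ∈ NN Sg J c ∧ m j.succ = -1
    · rw [hg₃1 m h, sub_self]; exact Submodule.zero_mem _
    · rw [hg₃0 m h, sub_zero]; exact hg₁d m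
  · intro m i hi hm
    rw [Pi.sub_apply]
    by_cases h : m ∈ NN Sg J c ∧ m j.succ = -1
    · rw [hg₃1 m h, sub_self, mul_zero, mul_zero]
    · rw [hg₃0 m h, sub_zero]
      rcases List.mem_cons.1 hi with rfl | hi
      · rw [d2_zet_gi, hg₁z m (fun h' => h ⟨h', hm⟩) hm, smul_zero]
      · exact hg₁f m i hi hm
  · intro m hm
    have h3 : EE (Fpart (eJ J) F) g₃ m = 0 := by
      by_contra h'
      exact hm (hEg₃.2 m h')
    rw [EE_sub, Pi.sub_apply, h3, sub_zero, hg₁E]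
    exact hgz m hm

end MPb07157T
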