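import Pool.Agent.Lib.MP_b07157_agT.T1
import Pool.Agent.Lib.MP_b07157_agT.DDefs

/-!
# Generic paths
-/

noncomputable section

namespace MPb07157T

open Finset Matrix

variable {k : Type} [Field k] {n : ℕ}

/-- If the form of `τ` is a combination of the form of `σ` and the coordinate forms of `J`, then
the form of `τ` on the levels of `σ` is a combination of the coordinate forms of `J`. -/
theorem inSpan_et {σ τ : (Fin n → ℤ) × ℤ} (hσ : 0 < σ.2) (J : List (Fin n))
    (h : InSpan (hs σ :: slc J) (hs τ)) : InSpan (eJ J) (et σ τ) := by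
  unfold InSpan at h
  have hset : {y : Fin (n + 1) → ℚ | ∃ z ∈ hs σ :: slc J, y = vec ℚ z} =
      insert (vec ℚ (hs σ)) {y : Fin (n + 1) → ℚ | ∃ z ∈ slc J, y = vec ℚ z} := by
    ext y
    simp only [Set.mem_ofPred_eq, List.mem_cons, Set.mem_insert_iff]
    constructor
    · rintro ⟨z, rfl | hz, rfl⟩
      · exact Or.inl rfl
      · exact Or.inr ⟨z, hz, rfl⟩
    · rintro (rfl | ⟨z, hz, rfl⟩)
      · exact ⟨_, Or.inl rfl, rfl⟩
      · exact ⟨z, Or.inr hz, rfl⟩
  rw [hset, Submodule.mem_span_insert] at h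
  obtain ⟨a, z, hz, hx⟩ := h
  -- the properties of `z`
  have key : ∀ z ∈ Submodule.span ℚ {y : Fin (n + 1) → ℚ | ∃ z ∈ slc J, y = vec ℚ z},
      z 0 = 0 ∧ (fun i => z i.succ) ∈
        Submodule.span ℚ {y : Fin n → ℚ | ∃ z ∈ eJ J, y = vec ℚ z} := by
    intro z hz
    induction hz using Submodule.span_induction with
    | mem x hx =>
      obtain ⟨w, hw, rfl⟩ := hx
      obtain ⟨l, hl, rfl⟩ := List.mem_map.1 hw
      refine ⟨by simp [vec, he], Submodule.subset_span ⟨ee l, List.mem_map.2 ⟨l, hl, rfl⟩, ?_⟩⟩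
      funext i
      simp [vec, he]
    | zero => exact ⟨rfl, Submodule.zero_mem _⟩
    | add x y _ _ hx hy =>
      exact ⟨by rw [Pi.add_apply, hx.1, hy.1, add_zero], Submodule.add_mem _ hx.2 hy.2⟩
    | smul c x _ hx =>
      exact ⟨by rw [Pi.smul_apply, hx.1, smul_zero], Submodule.smul_mem _ c hx.2⟩
  obtain ⟨h0, h1⟩ := key z hz
  have hx0 := congrFun hx 0
  simp only [vec, hs, Fin.cons_zero, Pi.add_apply, Pi.smul_apply, smul_eq_mul, h0, add_zero,
    Int.cast_neg] at hx0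
  have hσ' : (σ.2 : ℚ) ≠ 0 := by exact_mod_cast hσ.ne'
  have e : vec ℚ (et σ τ) = (σ.2 : ℚ) • (fun i : Fin n => z i.succ) := by
    funext i
    have hxi := congrFun hx i.succ
    simp only [vec, hs, Fin.cons_succ, Pi.add_apply, Pi.smul_apply, smul_eq_mul] at hxi
    simp only [vec, et, Pi.sub_apply, Pi.smul_apply, smul_eq_mul]
    push_cast
    rw [hxi]
    linear_combination (σ.1 i : ℚ) * hx0
  unfold InSpan
  rw [e]
  exact Submodule.smul_mem _ _ h1

theorem rdot_he (l : Fin n) (u : Fin (n + 1) → ℝ) : rdot (he l) u = u l.succ := by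
  unfold rdot he ee
  rw [Fin.sum_univ_succ]
  simp only [Fin.cons_zero, Int.cast_zero, zero_mul, Fin.cons_succ, zero_add]
  rw [Finset.sum_eq_single l]
  · simp
  · intro b _ hb
    rw [Pi.single_eq_of_ne hb]
    simp
  · intro h
    exact absurd (Finset.mem_univ l) h

/-- A generic direction near `(-T, 0)` in the slice, with positive coordinates outside `J`.
(Apply the argument of `exists_generic` to `Z = slc J`, `H = Sg.image hs` and the open set of
directions close to `(-T - ε, ε, …, ε)`.) -/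
theorem exists_path {Sg : Finset ((Fin n → ℤ) × ℤ)} (hN : ∀ σ ∈ Sg, 0 < σ.2)
    (hw : ∀ σ ∈ Sg, ∀ j, 0 < σ.1 j) (J : List (Fin n)) (c : Fin (n + 1) → ℝ) (T : ℝ) (hT : 0 < T)
    (ε : ℝ) (hε : 0 < ε) :
    ∃ u : Fin (n + 1) → ℝ, (∀ j ∈ J, u j.succ = 0) ∧ (∀ j, j ∉ J → 0 < u j.succ ∧ u j.succ < ε) ∧
      (-T - ε < u 0 ∧ u 0 < -T) ∧
      ∀ σ ∈ Sg, ∀ τ ∈ Sg, ∀ p p' : ℤ, ∀ t : ℝ, 0 < t → rdot (hs σ) c - p = t * rdot (hs σ) u →
        rdot (hs τ) c - p' = t * rdot (hs τ) u → InSpan (eJ J) (et σ τ) := by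
  classical
  let V := kerZ (slc J)
  let μ : MeasureTheory.Measure V := MeasureTheory.Measure.addHaar
  let B : (Fin (n + 1) → ℤ) × (Fin (n + 1) → ℤ) × ℤ × ℤ → Submodule ℝ V := fun q =>
    { carrier := {u | (rdot q.1 c - q.2.2.1) * rdot q.2.1 (u : Fin (n + 1) → ℝ) =
        (rdot q.2.1 c - q.2.2.2) * rdot q.1 (u : Fin (n + 1) → ℝ)}
      add_mem' := fun {a b} ha hb => by
        change _ * rdot q.2.1 ((a : Fin (n + 1) → ℝ) + (b : Fin (n + 1) → ℝ)) =
          _ * rdot q.1 ((a : Fin (n + 1) → ℝ) + (b : Fin (n + 1) → ℝ))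
        have ha' : (rdot q.1 c - q.2.2.1) * rdot q.2.1 (a : Fin (n + 1) → ℝ) =
          (rdot q.2.1 c - q.2.2.2) * rdot q.1 (a : Fin (n + 1) → ℝ) := ha
        have hb' : (rdot q.1 c - q.2.2.1) * rdot q.2.1 (b : Fin (n + 1) → ℝ) =
          (rdot q.2.1 c - q.2.2.2) * rdot q.1 (b : Fin (n + 1) → ℝ) := hb
        rw [rdot_add, rdot_add, mul_add, mul_add, ha', hb']
      zero_mem' := by
        change _ * rdot q.2.1 (0 : Fin (n + 1) → ℝ) = _ * rdot q.1 (0 : Fin (n + 1) → ℝ)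
        have h0 : ∀ h : Fin (n + 1) → ℤ, rdot h (0 : Fin (n + 1) → ℝ) = 0 := fun h => by
          have := rdot_smul h 0 (0 : Fin (n + 1) → ℝ)
          rw [zero_smul, zero_mul] at this
          exact this
        rw [h0, h0, mul_zero, mul_zero]
      smul_mem' := fun c' a ha => by
        change _ * rdot q.2.1 (c' • (a : Fin (n + 1) → ℝ)) =
          _ * rdot q.1 (c' • (a : Fin (n + 1) → ℝ))
        have ha' : (rdot q.1 c - q.2.2.1) * rdot q.2.1 (a : Fin (n + 1) → ℝ) =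
          (rdot q.2.1 c - q.2.2.2) * rdot q.1 (a : Fin (n + 1) → ℝ) := ha
        rw [rdot_smul, rdot_smul, mul_left_comm, ha', mul_left_comm] }
  let I : Set ((Fin (n + 1) → ℤ) × (Fin (n + 1) → ℤ) × ℤ × ℤ) :=
    {q | ¬ InSpan (q.1 :: slc J) q.2.1 ∧ 0 < rdot q.1 c - q.2.2.1}
  have hI : ∀ q ∈ I, B q ≠ ⊤ := by
    rintro ⟨h, h', p, p'⟩ ⟨hq1, hq2⟩ htop
    obtain ⟨d, hd, hdh⟩ := exists_sep (h :: slc J) h' hq1
    let v : V := ⟨fun i => (d i : ℝ), fun z hz => by
      rw [rdot_int, dotProduct_comm, hd z (List.mem_cons_of_mem _ hz), Int.cast_zero]⟩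
    have hv : v ∈ B (h, h', p, p') := by
      rw [htop]
      trivial
    have hv' : (rdot h c - p) * rdot h' (fun i => (d i : ℝ)) =
        (rdot h' c - p') * rdot h (fun i => (d i : ℝ)) := hv
    have h1 : rdot h (fun i => (d i : ℝ)) = 0 := by
      rw [rdot_int, dotProduct_comm, hd h List.mem_cons_self, Int.cast_zero]
    have h2 : rdot h' (fun i => (d i : ℝ)) ≠ 0 := by
      rw [rdot_int, dotProduct_comm]
      exact_mod_cast hdh
    rw [h1, mul_zero] at hv'
    rcases mul_eq_zero.1 hv' with h3 | h3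
    · exact hq2.ne' h3
    · exact h2 h3
  have hnull : μ (⋃ q ∈ I, (B q : Set V)) = 0 := by
    refine (MeasureTheory.measure_biUnion_null_iff (Set.to_countable I)).2 fun q hq => ?_
    exact MeasureTheory.Measure.addHaar_submodule μ (B q) (hI q hq)
  -- the open set
  let U : Set V := {u | (∀ j, j ∉ J → 0 < (u : Fin (n + 1) → ℝ) j.succ ∧
    (u : Fin (n + 1) → ℝ) j.succ < ε) ∧
    (-T - ε < (u : Fin (n + 1) → ℝ) 0 ∧ (u : Fin (n + 1) → ℝ) 0 < -T)}
  have hco : ∀ i : Fin (n + 1), Continuous fun u : V => (u : Fin (n + 1) → ℝ) i := fun i =>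
    (continuous_apply i).comp continuous_subtype_val
  have hUopen : IsOpen U := by
    have hU : U = (⋂ j ∈ (Finset.univ.filter fun j => j ∉ J),
        ({u : V | 0 < (u : Fin (n + 1) → ℝ) j.succ} ∩
          {u : V | (u : Fin (n + 1) → ℝ) j.succ < ε})) ∩
        ({u : V | -T - ε < (u : Fin (n + 1) → ℝ) 0} ∩ {u : V | (u : Fin (n + 1) → ℝ) 0 < -T}) := by
      ext u
      simp only [U, Set.mem_inter_iff, Set.mem_iInter, Finset.mem_filter, Finset.mem_univ,
        true_and, Set.mem_ofPred_eq]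
    rw [hU]
    refine IsOpen.inter (isOpen_biInter_finset fun j _ => ?_) ?_
    · exact (isOpen_lt continuous_const (hco _)).inter (isOpen_lt (hco _) continuous_const)
    · exact (isOpen_lt continuous_const (hco _)).inter (isOpen_lt (hco _) continuous_const)
  have hUne : U.Nonempty := by
    refine ⟨⟨Fin.cons (-T - ε / 2) fun j => if j ∈ J then 0 else ε / 2, ?_⟩, ?_, ?_⟩
    · intro z hz
      obtain ⟨l, hl, rfl⟩ := List.mem_map.1 hz
      rw [rdot_he, Fin.cons_succ, if_pos hl]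
    · intro j hj
      change 0 < (Fin.cons (-T - ε / 2) (fun j => if j ∈ J then 0 else ε / 2) : Fin (n + 1) → ℝ)
        j.succ ∧ (Fin.cons (-T - ε / 2) (fun j => if j ∈ J then 0 else ε / 2) : Fin (n + 1) → ℝ)
        j.succ < ε
      rw [Fin.cons_succ, if_neg hj]
      constructor <;> linarith
    · change -T - ε < (Fin.cons (-T - ε / 2) (fun j => if j ∈ J then 0 else ε / 2) :
        Fin (n + 1) → ℝ) 0 ∧ (Fin.cons (-T - ε / 2) (fun j => if j ∈ J then 0 else ε / 2) :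
        Fin (n + 1) → ℝ) 0 < -T
      rw [Fin.cons_zero]
      constructor <;> linarith
  have hpos : 0 < μ U := hUopen.measure_pos μ hUne
  obtain ⟨u, huU, huB⟩ : ∃ u ∈ U, u ∉ ⋃ q ∈ I, (B q : Set V) := by
    by_contra hcon
    push Not at hcon
    have : μ U ≤ μ (⋃ q ∈ I, (B q : Set V)) := MeasureTheory.measure_mono hcon
    rw [hnull] at this
    exact absurd hpos (not_lt.2 this)
  have huJ : ∀ j ∈ J, (u : Fin (n + 1) → ℝ) j.succ = 0 := by
    intro j hj
    have := u.2 (he j) (List.mem_map.2 ⟨j, hj, rfl⟩)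
    rwa [rdot_he] at this
  refine ⟨u, huJ, huU.1, huU.2, ?_⟩
  intro σ hσ τ hτ p p' t ht e1 e2
  by_contra hcon
  apply huB
  rw [Set.mem_iUnion₂]
  have hpu : 0 < rdot (hs σ) (u : Fin (n + 1) → ℝ) := by
    unfold rdot hs
    rw [Fin.sum_univ_succ]
    simp only [Fin.cons_zero, Fin.cons_succ]
    have h1 : 0 < ((-σ.2 : ℤ) : ℝ) * (u : Fin (n + 1) → ℝ) 0 := by
      have h2 : (0 : ℝ) < (σ.2 : ℝ) := by exact_mod_cast hN σ hσ
      have h3 : (u : Fin (n + 1) → ℝ) 0 < 0 := lt_trans huU.2.2 (by linarith)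
      push_cast
      nlinarith
    refine add_pos_of_pos_of_nonneg h1 (Finset.sum_nonneg fun j _ => ?_)
    have h4 : (0 : ℝ) < (σ.1 j : ℝ) := by exact_mod_cast hw σ hσ j
    by_cases hj : j ∈ J
    · rw [huJ j hj, mul_zero]
    · exact (mul_pos h4 (huU.1 j hj).1).le
  refine ⟨(hs σ, hs τ, p, p'), ⟨fun hsp => hcon (inSpan_et (hN σ hσ) J hsp), ?_⟩, ?_⟩
  · change 0 < rdot (hs σ) c - p
    rw [e1]
    exact mul_pos ht hpu
  · change (rdot (hs σ) c - p) * rdot (hs τ) (u : Fin (n + 1) → ℝ) =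
      (rdot (hs τ) c - p') * rdot (hs σ) (u : Fin (n + 1) → ℝ)
    rw [e1, e2]
    ring

end MPb07157T
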