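import Pool.Agent.Lib.MP_b07157_agT.D1
import Pool.Agent.Lib.MP_b07157_agT.D3a
import Pool.Agent.Lib.MP_b07157_agT.D3b
import Pool.Agent.Lib.MP_b07157_agT.D3c
import Pool.Agent.Lib.MP_b07157_agT.D3d

/-!
# The base case: generic paths
-/

noncomputable section

namespace MPb07157T

open Finset Matrix

variable {k : Type} [Field k] {n : ℕ}

private theorem d3e_hs_dot (σ : (Fin n → ℤ) × ℤ) (m : Fin (n + 1) → ℤ) :
    hs σ ⬝ᵥ m = -σ.2 * m 0 + σ.1 ⬝ᵥ Fin.tail m := by
  unfold hs
  rw [dotProduct, Fin.sum_univ_succ]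
  simp only [Fin.cons_zero, Fin.cons_succ]
  rfl

private theorem d3e_hs_rdot (σ : (Fin n → ℤ) × ℤ) (x : Fin (n + 1) → ℝ) :
    rdot (hs σ) x = -(σ.2 : ℝ) * x 0 + rdot σ.1 (Fin.tail x) := by
  unfold rdot hs
  rw [Fin.sum_univ_succ]
  simp only [Fin.cons_zero, Fin.cons_succ, Int.cast_neg]
  rfl

private theorem d3e_ee_dot (l : Fin n) (v : Fin n → ℤ) : ee l ⬝ᵥ v = v l := by
  unfold ee
  simp

private theorem d3e_ee_rdot (l : Fin n) (x : Fin n → ℝ) : rdot (ee l) x = x l := by
  unfold rdot ee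
  simp [Pi.single_apply]

private theorem d3e_he_dot (l : Fin n) (m : Fin (n + 1) → ℤ) : he l ⬝ᵥ m = m l.succ := by
  unfold he
  rw [dotProduct, Fin.sum_univ_succ]
  simp only [Fin.cons_zero, Fin.cons_succ, zero_mul, zero_add]
  exact d3e_ee_dot l (Fin.tail m)

private theorem d3e_he_rdot (l : Fin n) (x : Fin (n + 1) → ℝ) : rdot (he l) x = x l.succ := by
  unfold rdot he
  rw [Fin.sum_univ_succ]
  simp only [Fin.cons_zero, Fin.cons_succ, Int.cast_zero, zero_mul, zero_add]
  exact d3e_ee_rdot l (Fin.tail x)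

private theorem d3e_hs_sh (σ : (Fin n → ℤ) × ℤ) (v : Fin n → ℤ) :
    hs σ ⬝ᵥ sh v = σ.1 ⬝ᵥ v - σ.2 := by
  rw [d3e_hs_dot]
  have h : Fin.tail (sh v) = v := by
    unfold sh
    exact Fin.tail_cons _ _
  rw [h]
  simp only [sh, Fin.cons_zero, mul_one]
  ring

private theorem d3e_et_dot (σ τ : (Fin n → ℤ) × ℤ) (m : Fin (n + 1) → ℤ) :
    et σ τ ⬝ᵥ Fin.tail m = σ.2 * (hs τ ⬝ᵥ m) - τ.2 * (hs σ ⬝ᵥ m) := by
  rw [d3e_hs_dot, d3e_hs_dot]
  unfold et
  rw [sub_dotProduct, smul_dotProduct, smul_dotProduct, smul_eq_mul, smul_eq_mul]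
  ring

private theorem d3e_rdot_sub {r : ℕ} (h : Fin r → ℤ) (x u : Fin r → ℝ) :
    rdot h (x - u) = rdot h x - rdot h u := by
  unfold rdot
  rw [← Finset.sum_sub_distrib]
  exact Finset.sum_congr rfl fun i _ => by simp only [Pi.sub_apply]; ring

private theorem d3e_rdot_smul {r : ℕ} (h : Fin r → ℤ) (t : ℝ) (u : Fin r → ℝ) :
    rdot h (t • u) = t * rdot h u := by
  unfold rdot
  rw [Finset.mul_sum]
  exact Finset.sum_congr rfl fun i _ => by simp only [Pi.smul_apply, smul_eq_mul]; ring

private theorem d3e_et_rdot (σ τ : (Fin n → ℤ) × ℤ) (x : Fin (n + 1) → ℝ) :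
    rdot (et σ τ) (Fin.tail x) = σ.2 * rdot (hs τ) x - τ.2 * rdot (hs σ) x := by
  rw [d3e_hs_rdot, d3e_hs_rdot]
  have h : rdot (et σ τ) (Fin.tail x) =
      (σ.2 : ℝ) * rdot τ.1 (Fin.tail x) - τ.2 * rdot σ.1 (Fin.tail x) := by
    unfold rdot et
    rw [Finset.mul_sum, Finset.mul_sum, ← Finset.sum_sub_distrib]
    refine Finset.sum_congr rfl fun i _ => ?_
    simp only [Pi.sub_apply, Pi.smul_apply, smul_eq_mul, Int.cast_sub, Int.cast_mul]
    ring
  rw [h]
  ring

private theorem d3e_mem_NN (Sg : Finset ((Fin n → ℤ) × ℤ)) (J : List (Fin n))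
    (x : Fin (n + 1) → ℝ) (m : Fin (n + 1) → ℤ) : m ∈ NN Sg J x ↔
      (∀ j ∈ J, (m j.succ : ℝ) = x j.succ) ∧
      (∀ σ ∈ Sg, rdot (hs σ) x ≤ ((hs σ ⬝ᵥ m : ℤ) : ℝ)) ∧ ∀ l : Fin n, x l.succ ≤ (m l.succ : ℝ) := by
  unfold NN Nset
  constructor
  · rintro ⟨h1, h2⟩
    refine ⟨fun j hj => ?_, fun σ hσ => ?_, fun l => ?_⟩
    · have := h1 (he j) (by unfold slc; exact List.mem_map.2 ⟨j, hj, rfl⟩)
      rwa [d3e_he_dot, d3e_he_rdot] at this
    · exact h2 _ (by unfold HS; exact Finset.mem_union_left _ (Finset.mem_image_of_mem _ hσ))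
    · have := h2 (he l) (by
        unfold HS
        exact Finset.mem_union_right _ (Finset.mem_image_of_mem _ (Finset.mem_univ _)))
      rwa [d3e_he_dot, d3e_he_rdot] at this
  · rintro ⟨h1, h2, h3⟩
    refine ⟨fun z hz => ?_, fun z hz => ?_⟩
    · unfold slc at hz
      obtain ⟨j, hj, rfl⟩ := List.mem_map.1 hz
      rw [d3e_he_dot, d3e_he_rdot]
      exact h1 j hj
    · unfold HS at hz
      rcases Finset.mem_union.1 hz with hz | hz
      · obtain ⟨σ, hσ, rfl⟩ := Finset.mem_image.1 hz
        exact h2 σ hσ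
      · obtain ⟨l, _, rfl⟩ := Finset.mem_image.1 hz
        rw [d3e_he_dot, d3e_he_rdot]
        exact h3 l

private theorem d3e_mem_lev (σ : (Fin n → ℤ) × ℤ) (Sg : Finset ((Fin n → ℤ) × ℤ))
    (J : List (Fin n)) (x : Fin (n + 1) → ℝ) (m : Fin (n + 1) → ℤ) :
    m ∈ Nset (hs σ :: slc J) (HS Sg) x ↔
      ((hs σ ⬝ᵥ m : ℤ) : ℝ) = rdot (hs σ) x ∧ m ∈ NN Sg J x := by
  unfold NN Nset
  simp only [Set.mem_ofPred_eq, List.mem_cons, forall_eq_or_imp]
  tauto

private theorem d3e_mem_Fpart {J : List (Fin n)} {F : (Fin n → ℤ) →₀ k} {v : Fin n → ℤ} :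
    v ∈ (Fpart (eJ J) F).support ↔ v ∈ F.support ∧ ∀ z ∈ eJ J, z ⬝ᵥ v = 0 := by
  classical
  unfold Fpart
  rw [Finsupp.support_filter, Finset.mem_filter]

private theorem d3e_mem_Fs {σ : (Fin n → ℤ) × ℤ} {F : (Fin n → ℤ) →₀ k} {v : Fin n → ℤ} :
    v ∈ (Fs σ F).support ↔ v ∈ F.support ∧ σ.1 ⬝ᵥ v = σ.2 := by
  classical
  unfold Fs
  rw [Finsupp.support_filter, Finset.mem_filter]

private theorem d3e_val {σ : (Fin n → ℤ) × ℤ} {J : List (Fin n)} {F : (Fin n → ℤ) →₀ k}
    {v : Fin n → ℤ} (hv : v ∈ (Fpart (eJ J) F).support) (hs : σ.1 ⬝ᵥ v = σ.2) :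
    (Fpart (eJ J) (Fs σ F)) v = (Fpart (eJ J) F) v := by
  classical
  have h := (d3e_mem_Fpart.1 hv).2
  unfold Fpart Fs
  rw [Finsupp.filter_apply, if_pos h, Finsupp.filter_apply, if_pos hs, Finsupp.filter_apply,
    if_pos h]

private theorem d3e_sub {σ : (Fin n → ℤ) × ℤ} {J : List (Fin n)} {F : (Fin n → ℤ) →₀ k} :
    (Fpart (eJ J) (Fs σ F)).support ⊆ (Fpart (eJ J) F).support := by
  intro v hv
  obtain ⟨h1, h2⟩ := d3e_mem_Fpart.1 hv
  exact d3e_mem_Fpart.2 ⟨(d3e_mem_Fs.1 h1).1, h2⟩

/-- On a level of `σ` the operator of `F` is the operator of the face, for functions supported on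
this level. -/
private theorem d3e_EE_level {σ : (Fin n → ℤ) × ℤ} (J : List (Fin n)) (F : (Fin n → ℤ) →₀ k)
    {p : ℤ} {g : MFun k n} (hg : ∀ m, g m ≠ 0 → hs σ ⬝ᵥ m = p) {m : Fin (n + 1) → ℤ}
    (hm : hs σ ⬝ᵥ m = p) :
    EE (Fpart (eJ J) F) g m = EE (Fpart (eJ J) (Fs σ F)) g m := by
  unfold EE
  congr 1
  have h1 : ∑ v ∈ (Fpart (eJ J) (Fs σ F)).support,
      (Fpart (eJ J) (Fs σ F)) v • con (vec k v) (g (m - sh v)) =
      ∑ v ∈ (Fpart (eJ J) (Fs σ F)).support,
      (Fpart (eJ J) F) v • con (vec k v) (g (m - sh v)) := by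
    refine Finset.sum_congr rfl fun v hv => ?_
    rw [d3e_val (d3e_sub hv) (d3e_mem_Fs.1 (d3e_mem_Fpart.1 hv).1).2]
  rw [h1]
  refine (Finset.sum_subset d3e_sub fun v hv hv' => ?_).symm
  have h2 : g (m - sh v) = 0 := by
    by_contra hne
    have h3 := hg _ hne
    rw [dotProduct_sub, hm, d3e_hs_sh] at h3
    apply hv'
    obtain ⟨h4, h5⟩ := d3e_mem_Fpart.1 hv
    exact d3e_mem_Fpart.2 ⟨d3e_mem_Fs.2 ⟨h4, by omega⟩, h5⟩
  rw [h2, map_zero, smul_zero]

/-- The base case `X(∅, J)`.  Write `Fz = Fpart (eJ J) F`.  Let `ε` be as in `exists_eps`, `u` as in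
`exists_path`, so `NN Sg J (c - u) = NN Sg J (c + T e₀)`.  Use `abstract_cross` with `H = Sg`,
`val σ m = hs σ ⬝ᵥ m`, `A σ = rdot (hs σ) c`, `B σ = rdot (hs σ) u > 0`; the states are the functions
`g` (degree `d + 1`, support in `NN Sg J (c - u)`), `w' = w - EE Fz g`, and the relevant points are
the `m` with `zet k (eJ J) * w' m ≠ 0`.  The final state has its relevant points in `NN Sg J c`.
STEP at time `t`: for `t > 1` nothing to do (`w'` is supported in `NN Sg J (c - u)`).  Let `t ≤ 1`,
`y = c - t u`.  If no relevant point is on a level `hs τ·m = hs τ·y`, nothing to do.  Otherwise let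
`m₀` be relevant, `σ ∈ Sg`, `hs σ·m₀ = hs σ·y`; let `w_L` be `w'` restricted to the relevant points
with `hs σ·m = hs σ·y`.
(a) `w_L` is supported in `Nset (hs σ :: slc J) (HS Sg) y`.
(b) `zet k (eJ J) * EE (Fpart (eJ J) (Fs σ F)) w_L m = 0`: enough for `hs σ·m = hs σ·y`, then
`hs σ·m < A σ`, so `m ∉ NN Sg J c` and `zet * EE Fz w' m = 0` (`EE_EE`); the terms with
`σ.1·v > σ.2` and the irrelevant points do not contribute modulo `J` (`zet_EE_congr`).
(c) There is a relative interior direction of `eJ J` in `H2 Sg σ`: otherwise `no_relint` for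
`tail y`, `tail m₀` gives `h ∈ H2 Sg σ` outside the span with `h·tail y = h·tail m₀`; `h = ee l`
contradicts the second part of `exists_eps`; `h = et σ τ` gives `hs τ·m₀ = hs τ·y`, and
`exists_path` gives `InSpan (eJ J) (et σ τ)`, a contradiction.
(d) `level_EE` gives `g_L`; the new state is `g + g_L`.  For a relevant point `m` of the new state
all `hs τ·m ≥ hs τ·y`; if there is equality for some `τ` then `exists_path` (for `τ, σ`) gives
`InSpan (eJ J) (et τ σ)`, hence `hs σ·m = hs σ·y`, and on this level the new function is zero modulo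
`J` (the terms of `EE Fz g_L` with `σ.1·v > σ.2` come from lower levels, where `g_L = 0`). -/
theorem XSt.base [CharZero k] {F : (Fin n → ℤ) →₀ k} {Sg : Finset ((Fin n → ℤ) × ℤ)}
    (hW : WOK Sg F) {c : Fin (n + 1) → ℝ} {T : ℝ} (hT : 0 < T) (J : List (Fin n))
    (hc : ∀ j ∈ J, c j.succ = -1) : XSt F Sg c T [] J := by
  classical
  intro d hd w hw hdeg _ hcond
  obtain ⟨ε, hε, heps⟩ := exists_eps Sg J c T hW.posw hW.posN
  obtain ⟨u, huJ, huJ', hu0, hpath⟩ := exists_path hW.posN hW.posw J c T hT ε hε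
  obtain ⟨hNN, hint⟩ := heps u huJ huJ' hu0
  set Fz := Fpart (eJ J) F with hFz
  have hu : ∀ l : Fin n, 0 ≤ u l.succ := by
    intro l
    by_cases hl : l ∈ J
    · rw [huJ l hl]
    · exact (huJ' l hl).1.le
  have hB : ∀ σ ∈ Sg, 0 < rdot (hs σ) u := by
    intro σ hσ
    rw [d3e_hs_rdot]
    have h1 : (0 : ℝ) < σ.2 := by exact_mod_cast hW.posN σ hσ
    have h2 : 0 ≤ rdot σ.1 (Fin.tail u) := by
      unfold rdot
      refine Finset.sum_nonneg fun i _ => mul_nonneg ?_ (hu i)
      exact_mod_cast (hW.posw σ hσ i).le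
    nlinarith [hu0.2]
  -- coordinates of the points of the support
  have hcoord : ∀ m, m ∈ NN Sg J (c - u) → (∀ j ∈ J, (m j.succ : ℝ) = c j.succ) ∧
      ∀ l : Fin n, c l.succ ≤ (m l.succ : ℝ) := by
    intro m hm
    rw [hNN, d3e_mem_NN] at hm
    have e : ∀ l : Fin n, (c + Pi.single 0 T : Fin (n + 1) → ℝ) l.succ = c l.succ := by
      intro l
      simp [Fin.succ_ne_zero]
    refine ⟨fun j hj => ?_, fun l => ?_⟩
    · rw [hm.1 j hj, e]
    · rw [← e]
      exact hm.2.2 l
  -- the states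
  let St := {g : MFun k n // MSuppIn (NN Sg J (c - u)) g ∧ MDeg (d + 1) g}
  let w' : St → MFun k n := fun g => w - EE Fz g.1
  have hw' : ∀ g : St, MSuppIn (NN Sg J (c - u)) (w' g) := by
    intro g
    have h1 := g.2.1.EE hW J (c - u)
    rw [← hNN] at hw
    refine ⟨(hw.1.union h1.1).subset fun m hm => ?_, fun m hm => ?_⟩
    · by_contra hcon
      rw [Set.mem_union, not_or] at hcon
      apply hm
      show w m - EE Fz g.1 m = 0
      rw [Function.notMem_support.1 hcon.1, Function.notMem_support.1 hcon.2, sub_zero]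
    · by_cases hwm : w m = 0
      · apply h1.2
        intro h2
        apply hm
        show w m - EE Fz g.1 m = 0
        rw [hwm, h2, sub_zero]
      · exact hw.2 m hwm
  have hwdeg : ∀ g : St, MDeg d (w' g) := fun g m =>
    Submodule.sub_mem _ (hdeg m) (MDeg.EE g.2.2 Fz m)
  let rel : St → Set (Fin (n + 1) → ℤ) := fun g => {m | zet k (eJ J) * w' g m ≠ 0}
  have hrel_ne : ∀ (g : St) (m : Fin (n + 1) → ℤ), m ∈ rel g → w' g m ≠ 0 := by
    intro g m hm h
    apply hm
    rw [h, mul_zero]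
  have hfin : ∀ g : St, (rel g).Finite := fun g => (hw' g).1.subset fun m hm => hrel_ne g m hm
  have hrelNN : ∀ (g : St) (m : Fin (n + 1) → ℤ), m ∈ rel g → m ∈ NN Sg J (c - u) :=
    fun g m hm => (hw' g).2 m (hrel_ne g m hm)
  obtain ⟨g, hg⟩ := abstract_cross Sg (fun σ (m : Fin (n + 1) → ℤ) => hs σ ⬝ᵥ m)
    (fun σ => rdot (hs σ) c) (fun σ => rdot (hs σ) u) hB rel hfin (by
    intro t ht g hg
    by_cases ht1 : 1 < t
    · refine ⟨g, fun m hm σ hσ => ?_⟩
      have h1 := ((d3e_mem_NN _ _ _ _).1 (hrelNN g m hm)).2.1 σ hσ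
      rw [d3e_rdot_sub] at h1
      nlinarith [hB σ hσ]
    · push Not at ht1
      set y : Fin (n + 1) → ℝ := c - t • u with hy
      have hry : ∀ h, rdot h y = rdot h c - t * rdot h u := by
        intro h
        rw [hy, d3e_rdot_sub, d3e_rdot_smul]
      have hyl : ∀ l : Fin n, y l.succ = c l.succ - t * u l.succ := fun l => rfl
      have hyJ : ∀ j ∈ J, y j.succ = -1 := by
        intro j hj
        rw [hyl, huJ j hj, hc j hj]
        ring
      by_cases hex : ∃ m₀ ∈ rel g, ∃ σ ∈ Sg, ((hs σ ⬝ᵥ m₀ : ℤ) : ℝ) = rdot (hs σ) y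
      swap
      · push Not at hex
        refine ⟨g, fun m hm σ hσ => lt_of_le_of_ne (hg m hm σ hσ) fun h => ?_⟩
        exact hex m hm σ hσ (by rw [hry, ← h])
      obtain ⟨m₀, hm₀, σ, hσ, hlev⟩ := hex
      set p : ℤ := hs σ ⬝ᵥ m₀ with hp
      -- old relevant points are in the conic set at `y`
      have hrely : ∀ m, m ∈ rel g → m ∈ NN Sg J y := by
        intro m hm
        have h1 := hcoord m (hrelNN g m hm)
        rw [d3e_mem_NN]
        refine ⟨fun j hj => ?_, fun τ hτ => ?_, fun l => ?_⟩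
        · rw [h1.1 j hj, hyl, huJ j hj, mul_zero, sub_zero]
        · rw [hry]
          exact hg m hm τ hτ
        · rw [hyl]
          have := h1.2 l
          have h2 := mul_nonneg ht.le (hu l)
          linarith
      have hpc : ∀ m, hs σ ⬝ᵥ m = p → m ∉ NN Sg J c := by
        intro m hm hmem
        have h1 := ((d3e_mem_NN _ _ _ _).1 hmem).2.1 σ hσ
        rw [hm, hlev, hry] at h1
        have h2 := mul_pos ht (hB σ hσ)
        linarith
      have hyc : NN Sg J y ⊆ NN Sg J (c - u) := by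
        intro m hm
        rw [d3e_mem_NN] at hm ⊢
        refine ⟨fun j hj => ?_, fun τ hτ => ?_, fun l => ?_⟩
        · rw [hm.1 j hj, hyl, Pi.sub_apply, huJ j hj, mul_zero]
        · refine le_trans ?_ (hm.2.1 τ hτ)
          rw [d3e_rdot_sub, hry]
          nlinarith [hB τ hτ]
        · refine le_trans ?_ (hm.2.2 l)
          rw [hyl, Pi.sub_apply]
          nlinarith [hu l]
      let wL : MFun k n := fun m => if m ∈ rel g ∧ hs σ ⬝ᵥ m = p then w' g m else 0
      have hwLne : ∀ m, wL m ≠ 0 → m ∈ rel g ∧ hs σ ⬝ᵥ m = p := by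
        intro m hm
        by_contra hcon
        exact hm (if_neg hcon)
      have hwLdiff : ∀ m, hs σ ⬝ᵥ m = p → zet k (eJ J) * (w' g m - wL m) = 0 := by
        intro m hm
        by_cases hr : m ∈ rel g
        · have h1 : wL m = w' g m := if_pos ⟨hr, hm⟩
          rw [h1, sub_self, mul_zero]
        · have h1 : wL m = 0 := if_neg fun h => hr h.1
          rw [h1, sub_zero]
          exact not_not.1 hr
      have hwLsupp : MSuppIn (Nset (hs σ :: slc J) (HS Sg) y) wL := by
        refine ⟨(hfin g).subset fun m hm => (hwLne m hm).1, fun m hm => ?_⟩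
        obtain ⟨h1, h2⟩ := hwLne m hm
        rw [d3e_mem_lev]
        exact ⟨by rw [h2, hlev], hrely m h1⟩
      have hwLdeg : MDeg d wL := by
        intro m
        by_cases h : m ∈ rel g ∧ hs σ ⬝ᵥ m = p
        · have h1 : wL m = w' g m := if_pos h
          rw [h1]
          exact hwdeg g m
        · have h1 : wL m = 0 := if_neg h
          rw [h1]
          exact Submodule.zero_mem _
      -- (b)
      have hcyc : ∀ m, zet k (eJ J) * EE (Fpart (eJ J) (Fs σ F)) wL m = 0 := by
        intro m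
        by_cases hz : EE (Fpart (eJ J) (Fs σ F)) wL m = 0
        · rw [hz, mul_zero]
        -- some term does not vanish
        have hterm : wL m ≠ 0 ∨ ∃ v ∈ (Fpart (eJ J) (Fs σ F)).support, wL (m - sh v) ≠ 0 := by
          by_contra hcon
          push Not at hcon
          apply hz
          unfold EE
          rw [hcon.1, map_zero, zero_add]
          refine Finset.sum_eq_zero fun v hv => ?_
          rw [hcon.2 v hv, map_zero, smul_zero]
        have hmp : hs σ ⬝ᵥ m = p ∧ ∀ j ∈ J, m j.succ = -1 := by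
          rcases hterm with h | ⟨v, hv, h⟩
          · obtain ⟨h1, h2⟩ := hwLne m h
            refine ⟨h2, fun j hj => ?_⟩
            have h3 := (hcoord m (hrelNN g m h1)).1 j hj
            rw [hc j hj] at h3
            exact_mod_cast h3
          · obtain ⟨h1, h2⟩ := hwLne _ h
            obtain ⟨hv1, hv2⟩ := d3e_mem_Fpart.1 hv
            have hv3 := (d3e_mem_Fs.1 hv1).2
            rw [dotProduct_sub, d3e_hs_sh, hv3, sub_self, sub_zero] at h2
            refine ⟨h2, fun j hj => ?_⟩
            have h3 := (hcoord _ (hrelNN g _ h1)).1 j hj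
            rw [hc j hj] at h3
            have h4 : (m - sh v) j.succ = -1 := by exact_mod_cast h3
            have h5 : v j = 0 := by
              have := hv2 (ee j) (by unfold eJ; exact List.mem_map.2 ⟨j, hj, rfl⟩)
              rwa [d3e_ee_dot] at this
            have h6 : (m - sh v) j.succ = m j.succ - v j := by simp [sh]
            rw [h6, h5, sub_zero] at h4
            exact h4
        obtain ⟨hmp, hmJ⟩ := hmp
        have e1 : EE Fz (w' g) m = EE Fz w m := by
          show EE Fz (w - EE Fz g.1) m = _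
          rw [EE_sub, EE_EE, sub_zero]
        have e2 : zet k (eJ J) * EE Fz (w' g) m = 0 := by
          rw [e1]
          exact hcond m (hpc m hmp)
        have e3 : EE Fz (w' g) m = EE Fz wL m + EE Fz (w' g - wL) m := by
          have h := EE_add Fz wL (w' g - wL)
          rw [add_sub_cancel] at h
          rw [h]
          rfl
        have e4 : zet k (eJ J) * EE Fz (w' g - wL) m = 0 := by
          refine zet_EE_congr F J (w' g - wL) m hmJ (hwLdiff m hmp) fun v hv => ?_
          rw [Pi.sub_apply]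
          have hle := hW.le σ hσ v (d3e_mem_Fpart.1 hv).1
          by_cases hv' : σ.1 ⬝ᵥ v = σ.2
          · apply hwLdiff
            rw [dotProduct_sub, d3e_hs_sh, hv', hmp]
            ring
          · have hlt : hs σ ⬝ᵥ (m - sh v) < p := by
              rw [dotProduct_sub, d3e_hs_sh, hmp]
              omega
            have hnr : m - sh v ∉ rel g := by
              intro hr
              have h1 := hg _ hr σ hσ
              rw [← hry, ← hlev] at h1
              have h2 : p ≤ hs σ ⬝ᵥ (m - sh v) := by exact_mod_cast h1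
              omega
            have h1 : wL (m - sh v) = 0 := if_neg fun h => hnr h.1
            rw [h1, sub_zero]
            exact not_not.1 hnr
        have e5 : EE Fz wL m = EE (Fpart (eJ J) (Fs σ F)) wL m :=
          d3e_EE_level J F (fun m hm => (hwLne m hm).2) hmp
        rw [e3, mul_add, e4, add_zero, e5] at e2
        exact e2
      -- (c)
      have hrelint : ∃ u, Relint (eJ J) (H2 Sg σ) u := by
        by_contra hno
        have hm₀y := (d3e_mem_NN _ _ _ _).1 (hrely m₀ hm₀)
        have hmem : Fin.tail m₀ ∈ Nset (eJ J) (H2 Sg σ) (Fin.tail y) := by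
          refine ⟨fun z hz => ?_, fun z hz => ?_⟩
          · unfold eJ at hz
            obtain ⟨j, hj, rfl⟩ := List.mem_map.1 hz
            rw [d3e_ee_dot, d3e_ee_rdot]
            exact hm₀y.1 j hj
          · unfold H2 at hz
            rcases Finset.mem_union.1 hz with hz | hz
            · obtain ⟨τ, hτ, rfl⟩ := Finset.mem_image.1 hz
              rw [d3e_et_dot, d3e_et_rdot]
              have h1 := hm₀y.2.1 τ hτ
              have h2 : (0 : ℝ) < σ.2 := by exact_mod_cast hW.posN σ hσ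
              push_cast
              rw [← hp, hlev]
              nlinarith
            · obtain ⟨l, _, rfl⟩ := Finset.mem_image.1 hz
              rw [d3e_ee_dot, d3e_ee_rdot]
              exact hm₀y.2.2 l
        obtain ⟨h, hh, hspan, heq⟩ := no_relint (eJ J) (H2 Sg σ) hno (Fin.tail y) (Fin.tail m₀) hmem
        unfold H2 at hh
        rcases Finset.mem_union.1 hh with hh | hh
        · obtain ⟨τ, hτ, rfl⟩ := Finset.mem_image.1 hh
          apply hspan
          rw [d3e_et_dot, d3e_et_rdot] at heq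
          have h2 : (0 : ℝ) < σ.2 := by exact_mod_cast hW.posN σ hσ
          push_cast at heq
          rw [← hp, hlev] at heq
          have h3 : rdot (hs τ) y = ((hs τ ⬝ᵥ m₀ : ℤ) : ℝ) := by
            have h4 : (σ.2 : ℝ) * (rdot (hs τ) y - ((hs τ ⬝ᵥ m₀ : ℤ) : ℝ)) = 0 := by
              linear_combination heq
            have h5 := (mul_eq_zero.1 h4).resolve_left h2.ne'
            linarith
          refine hpath σ hσ τ hτ p (hs τ ⬝ᵥ m₀) t ht ?_ ?_
          · rw [hlev, hry]
            ring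
          · rw [← h3, hry]
            ring
        · obtain ⟨l, _, rfl⟩ := Finset.mem_image.1 hh
          have hl : l ∉ J := by
            intro hl
            apply hspan
            unfold InSpan
            refine Submodule.subset_span ⟨ee l, ?_, rfl⟩
            unfold eJ
            exact List.mem_map.2 ⟨l, hl, rfl⟩
          rw [d3e_ee_dot, d3e_ee_rdot] at heq
          exact hint l hl t ht ht1 (Fin.tail m₀ l) heq.symm
      -- (d)
      obtain ⟨gL, hgL, hgLdeg, hgLeq⟩ := level_EE hW J y hyJ hσ hrelint hd hwLsupp hwLdeg hcyc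
      have hgLy : MSuppIn (NN Sg J y) gL :=
        ⟨hgL.1, fun m hm => ((d3e_mem_lev _ _ _ _ _).1 (hgL.2 m hm)).2⟩
      have hgLp : ∀ m, gL m ≠ 0 → hs σ ⬝ᵥ m = p := by
        intro m hm
        have h1 := ((d3e_mem_lev _ _ _ _ _).1 (hgL.2 m hm)).1
        rw [← hlev] at h1
        exact_mod_cast h1
      have hnew : MSuppIn (NN Sg J (c - u)) (g.1 + gL) := by
        refine ⟨(g.2.1.1.union hgL.1).subset fun m hm => ?_, fun m hm => ?_⟩
        · by_contra hcon
          rw [Set.mem_union, not_or] at hcon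
          apply hm
          rw [Pi.add_apply, Function.notMem_support.1 hcon.1, Function.notMem_support.1 hcon.2,
            add_zero]
        · by_cases hgm : g.1 m = 0
          · apply hyc
            apply hgLy.2
            intro h2
            apply hm
            rw [Pi.add_apply, hgm, h2, add_zero]
          · exact g.2.1.2 m hgm
      let g' : St := ⟨g.1 + gL, hnew, fun m => Submodule.add_mem _ (g.2.2 m) (hgLdeg m)⟩
      have hg' : ∀ m, w' g' m = w' g m - EE Fz gL m := by
        intro m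
        show (w - EE Fz (g.1 + gL)) m = (w - EE Fz g.1) m - EE Fz gL m
        rw [EE_add]
        simp only [Pi.sub_apply, Pi.add_apply]
        abel
      have hEgL := hgLy.EE hW J y
      refine ⟨g', fun m hm τ hτ => ?_⟩
      have hmy : m ∈ NN Sg J y := by
        by_cases hr : m ∈ rel g
        · exact hrely m hr
        · apply hEgL.2
          intro h2
          apply hm
          have h3 : zet k (eJ J) * w' g m = 0 := not_not.1 hr
          rw [hg', h2, sub_zero]
          exact h3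
      have hmy' := (d3e_mem_NN _ _ _ _).1 hmy
      have hle := hmy'.2.1 τ hτ
      rw [hry] at hle
      refine lt_of_le_of_ne hle fun heq => ?_
      -- equality for `τ`
      have hspan := hpath τ hτ σ hσ (hs τ ⬝ᵥ m) p t ht (by rw [← heq]; ring)
        (by rw [hlev, hry]; ring)
      have hmp : hs σ ⬝ᵥ m = p := by
        have h1 := rdot_eq_of_inSpan (eJ J) (et τ σ) hspan
          (fun i => (Fin.tail m i : ℝ) - Fin.tail y i) (fun z hz => by
            unfold eJ at hz
            obtain ⟨j, hj, rfl⟩ := List.mem_map.1 hz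
            rw [d3e_ee_rdot]
            exact sub_eq_zero.2 (hmy'.1 j hj))
        have h2 : rdot (et τ σ) (fun i => (Fin.tail m i : ℝ) - Fin.tail y i) =
            ((et τ σ ⬝ᵥ Fin.tail m : ℤ) : ℝ) - rdot (et τ σ) (Fin.tail y) := by
          unfold rdot dotProduct
          push_cast
          rw [← Finset.sum_sub_distrib]
          exact Finset.sum_congr rfl fun i _ => by ring
        rw [h2, d3e_et_dot, d3e_et_rdot] at h1
        push_cast at h1
        have h3 : (0 : ℝ) < τ.2 := by exact_mod_cast hW.posN τ hτ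
        have h4 : (τ.2 : ℝ) * (((hs σ ⬝ᵥ m : ℤ) : ℝ) - p) = 0 := by
          rw [hlev]
          have h5 : rdot (hs τ) y = ((hs τ ⬝ᵥ m : ℤ) : ℝ) := by rw [hry]; exact heq
          rw [← h5] at h1
          linear_combination h1
        have h5 := (mul_eq_zero.1 h4).resolve_left h3.ne'
        have h6 : ((hs σ ⬝ᵥ m : ℤ) : ℝ) = p := by linarith
        exact_mod_cast h6
      apply hm
      rw [hg', d3e_EE_level J F hgLp hmp]
      have h1 : w' g m - EE (Fpart (eJ J) (Fs σ F)) gL m =
          (w' g m - wL m) + (wL m - EE (Fpart (eJ J) (Fs σ F)) gL m) := by abel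
      rw [h1, mul_add, hwLdiff m hmp, hgLeq m, add_zero])
    ⟨0, ⟨by simp, fun m hm => absurd rfl hm⟩, fun m => Submodule.zero_mem _⟩
  refine ⟨g.1, ?_, g.2.2, fun m j hj => absurd hj (by simp), fun m hm => ?_⟩
  · rw [← hNN]
    exact g.2.1
  · by_contra hne
    apply hm
    have hr : m ∈ rel g := hne
    have h1 := hcoord m (hrelNN g m hr)
    rw [d3e_mem_NN]
    exact ⟨h1.1, fun σ hσ => hg m hr σ hσ, h1.2⟩

end MPb07157T
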