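import Pool.Agent.Lib.MP_b07157_agT.D2
import Pool.Agent.Lib.MP_b07157_agT.D3e

/-!
# The injectivity theorem
-/

noncomputable section

namespace MPb07157T

open Finset Matrix

variable {k : Type} [Field k] {n : ℕ}

/-- The injectivity theorem: induction on `S` (for all `J`) with `XSt.step` and `XSt.base`. -/
theorem XSt.all [CharZero k] {F : (Fin n → ℤ) →₀ k} {Sg : Finset ((Fin n → ℤ) × ℤ)}
    (hW : WOK Sg F) {c : Fin (n + 1) → ℝ} {T : ℝ} (hT : 0 < T) (S J : List (Fin n))
    (hS : S.Nodup) (hSJ : ∀ i ∈ S, i ∉ J) (hc : ∀ i, i ∈ S ∨ i ∈ J → c i.succ = -1) :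
    XSt F Sg c T S J := by
  induction S generalizing J with
  | nil => exact XSt.base hW hT J fun j hj => hc j (Or.inr hj)
  | cons j S ih =>
    have hn := List.nodup_cons.1 hS
    have hjJ : j ∉ J := hSJ j List.mem_cons_self
    have hSJ' : ∀ i ∈ S, i ∉ J := fun i hi => hSJ i (List.mem_cons_of_mem _ hi)
    refine XSt.step hW hT.le hn.1 hjJ ?_ hSJ' (ih J hn.2 hSJ' ?_) (ih (j :: J) hn.2 ?_ ?_)
    · rintro i (rfl | h | h)
      · exact hc _ (Or.inl List.mem_cons_self)
      · exact hc i (Or.inl (List.mem_cons_of_mem _ h))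
      · exact hc i (Or.inr h)
    · rintro i (h | h)
      · exact hc i (Or.inl (List.mem_cons_of_mem _ h))
      · exact hc i (Or.inr h)
    · intro i hi h
      rcases List.mem_cons.1 h with rfl | h
      · exact hn.1 hi
      · exact hSJ' i hi h
    · rintro i (h | h)
      · exact hc i (Or.inl (List.mem_cons_of_mem _ h))
      · rcases List.mem_cons.1 h with rfl | h
        · exact hc _ (Or.inl List.mem_cons_self)
        · exact hc i (Or.inr h)

end MPb07157T
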