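import Mathlib

/-!
# Koszul complexes of conic lattice modules: definitions

Values lie in the exterior algebra of `Fin r → k`.  Functions `w : (Fin r → ℤ) → Lam k r` are
plain functions; finiteness of the support is a separate hypothesis.
-/

noncomputable section

namespace MPb07157T

open Finset Matrix

/-- The exterior algebra of `k ^ r`. -/
abbrev Lam (k : Type) [Field k] (r : ℕ) : Type := ExteriorAlgebra k (Fin r → k)

/-- Cast of an integral vector. -/
def vec (k : Type) [Field k] {r : ℕ} (v : Fin r → ℤ) : Fin r → k := fun i => (v i : k)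

/-- The functional `ξ ↦ v ⬝ ξ`. -/
def dualv {k : Type} [Field k] {r : ℕ} (v : Fin r → k) : Module.Dual k (Fin r → k) where
  toFun ξ := v ⬝ᵥ ξ
  map_add' := fun x y => dotProduct_add v x y
  map_smul' := fun c x => by simp [dotProduct_smul]

/-- Contraction with `v`. -/
def con {k : Type} [Field k] {r : ℕ} (v : Fin r → k) : Lam k r →ₗ[k] Lam k r :=
  CliffordAlgebra.contractLeft (Q := (0 : QuadraticForm k (Fin r → k))) (dualv v)

/-- The vector `ξ` in the exterior algebra. -/
def gi {k : Type} [Field k] {r : ℕ} (ξ : Fin r → k) : Lam k r := ExteriorAlgebra.ι k ξ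

/-- Elements which are sums of products of at least `d` vectors. -/
def Fil (k : Type) [Field k] (r d : ℕ) : Submodule k (Lam k r) :=
  (LinearMap.range (ExteriorAlgebra.ι k (M := Fin r → k))) ^ d * ⊤

/-- Functions on the lattice with values in the exterior algebra. -/
abbrev LFun (k : Type) [Field k] (r : ℕ) : Type := (Fin r → ℤ) → Lam k r

/-- The product of the forms of a list. -/
def zet (k : Type) [Field k] {r : ℕ} (Z : List (Fin r → ℤ)) : Lam k r :=
  (Z.map fun z => gi (vec k z)).prod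

/-- The symbol operator `w ↦ ∑_v F_v con(v) w(· - v)`. -/
def iF {k : Type} [Field k] {r : ℕ} (F : (Fin r → ℤ) →₀ k) (w : LFun k r) : LFun k r :=
  fun m => ∑ v ∈ F.support, F v • con (vec k v) (w (m - v))

/-- The full operator `w ↦ con(m + b) w(m) + (iF F w)(m)`. -/
def Eop {k : Type} [Field k] {r : ℕ} (b : Fin r → k) (F : (Fin r → ℤ) →₀ k) (w : LFun k r) :
    LFun k r :=
  fun m => con (vec k m + b) (w m) + iF F w m

/-- Value of an integral form at a real vector. -/
def rdot {r : ℕ} (h : Fin r → ℤ) (u : Fin r → ℝ) : ℝ := ∑ i, (h i : ℝ) * u i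

/-- The conic lattice set at `x`: equalities for `Z`, inequalities for `H`. -/
def Nset {r : ℕ} (Z : List (Fin r → ℤ)) (H : Finset (Fin r → ℤ)) (x : Fin r → ℝ) :
    Set (Fin r → ℤ) :=
  {m | (∀ z ∈ Z, ((z ⬝ᵥ m : ℤ) : ℝ) = rdot z x) ∧ ∀ h ∈ H, rdot h x ≤ ((h ⬝ᵥ m : ℤ) : ℝ)}

/-- The form `h` is a rational combination of the forms in `Z`. -/
def InSpan {r : ℕ} (Z : List (Fin r → ℤ)) (h : Fin r → ℤ) : Prop :=
  vec ℚ h ∈ Submodule.span ℚ {y | ∃ z ∈ Z, y = vec ℚ z}

/-- `u` is a direction in the relative interior of the face of `Z`. -/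
def Relint {r : ℕ} (Z : List (Fin r → ℤ)) (H : Finset (Fin r → ℤ)) (u : Fin r → ℝ) : Prop :=
  (∀ z ∈ Z, rdot z u = 0) ∧ ∀ h ∈ H, ¬ InSpan Z h → 0 < rdot h u

/-- The part of `F` on the common kernel of `Z`. -/
def Fpart {k : Type} [Field k] {r : ℕ} (Z : List (Fin r → ℤ)) (F : (Fin r → ℤ) →₀ k) :
    (Fin r → ℤ) →₀ k := by
  classical exact F.filter fun v => ∀ z ∈ Z, z ⬝ᵥ v = 0

/-- The logarithmic derivatives of `F` generate the unit ideal of the Laurent polynomial ring:
`∑ᵢ aᵢ * θᵢ F = 1`, written out, with multipliers supported on the kernel of `Z`. -/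
def UnitOn {k : Type} [Field k] {r : ℕ} (Z : List (Fin r → ℤ)) (F : (Fin r → ℤ) →₀ k) : Prop :=
  ∃ a : Fin r → ((Fin r → ℤ) →₀ k), (∀ i, ∀ v ∈ (a i).support, ∀ z ∈ Z, z ⬝ᵥ v = 0) ∧
    ∀ m : Fin r → ℤ, (∑ i, ∑ v ∈ (a i).support, (a i) v * (((m - v) i : ℤ) : k) * F (m - v)) =
      if m = 0 then 1 else 0

/-- Nondegeneracy of `F` relative to `H`. -/
def ND {k : Type} [Field k] {r : ℕ} (H : Finset (Fin r → ℤ)) (F : (Fin r → ℤ) →₀ k) : Prop :=
  ∀ Z : List (Fin r → ℤ), (∀ z ∈ Z, z ∈ H) → (∃ u, Relint Z H u) → (∃ h, ¬ InSpan Z h) →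
    UnitOn Z (Fpart Z F)

/-- Membership of all values in the `d`-th step of the filtration. -/
def Deg {k : Type} [Field k] {r : ℕ} (d : ℕ) (w : LFun k r) : Prop := ∀ m, w m ∈ Fil k r d

/-- The support of `w` is finite and contained in `A`. -/
def SuppIn {k : Type} [Field k] {r : ℕ} (A : Set (Fin r → ℤ)) (w : LFun k r) : Prop :=
  (Function.support w).Finite ∧ ∀ m, w m ≠ 0 → m ∈ A

end MPb07157T
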