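import Pool.Agent.Lib.MP_b07157_agT.F0

/-!
# Stability of `TT`
-/

noncomputable section

namespace MPb07157T

open Finset Matrix MvPolynomial MPb07157

variable {n : ℕ}

private theorem f1_nab_C (f : MvPolynomial (Fin n) ℂ) (i : Fin n) (c : MvPowerSeries (Fin n) ℂ)
    (m : PY n) : Polynomial.C c * nab f i m =
      nab f i (Polynomial.C c * m) + Polynomial.C (-(MvPowerSeries.pderiv ℂ i c)) * m := by
  unfold nab
  rw [derivC_mul, derivC_C, map_neg]
  ring

/-- `TT` is stable under multiplication by power series: `c ∇_i m = ∇_i (c m) - (∂_i c) m`. -/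
theorem TT.mulC {f : MvPolynomial (Fin n) ℂ} {m : PY n} (h : TT f m)
    (c : MvPowerSeries (Fin n) ℂ) : TT f (Polynomial.C c * m) := by
  induction h generalizing c with
  | gen c0 i =>
    rw [← mul_assoc, ← map_mul]
    exact TT.gen _ _
  | add _ _ ih1 ih2 =>
    rw [mul_add]
    exact (ih1 c).add (ih2 c)
  | nab i _ ih =>
    rw [f1_nab_C]
    exact ((ih c).nab i).add (ih _)

private theorem f1_tht_C (f : MvPolynomial (Fin n) ℂ) (c : MvPowerSeries (Fin n) ℂ)
    (m : PY n) : Tht f (Polynomial.C c * m) = Polynomial.C c * Tht f m := by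
  unfold Tht
  rw [Polynomial.derivative_C_mul]
  ring

private theorem f1_tht_add (f : MvPolynomial (Fin n) ℂ) (m m' : PY n) :
    Tht f (m + m') = Tht f m + Tht f m' := by
  unfold Tht
  rw [map_add]
  ring

private theorem f1_deriv_comm (i : Fin n) (m : PY n) :
    Polynomial.derivative (derivC i m) = derivC i (Polynomial.derivative m) := by
  refine Polynomial.ext fun j => ?_
  rw [Polynomial.coeff_derivative, coeff_derivC, coeff_derivC, Polynomial.coeff_derivative,
    Derivation.leibniz]
  have h : MvPowerSeries.pderiv ℂ i ((j : MvPowerSeries (Fin n) ℂ) + 1) = 0 := by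
    rw [map_add, Derivation.map_natCast, Derivation.map_one_eq_zero, add_zero]
  rw [h, smul_zero, zero_add, smul_eq_mul, mul_comm]

private theorem f1_derivC_X (i : Fin n) : derivC i (Polynomial.X : PY n) = 0 := by
  refine Polynomial.ext fun j => ?_
  rw [coeff_derivC, Polynomial.coeff_X, Polynomial.coeff_zero]
  split_ifs
  · exact Derivation.map_one_eq_zero _
  · exact map_zero _

private theorem f1_tht_nab (f : MvPolynomial (Fin n) ℂ) (i : Fin n) (m : PY n) :
    Tht f (nab f i m) = nab f i (Tht f m) := by
  unfold Tht nab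
  rw [map_add, f1_deriv_comm, derivC_add, derivC_mul, derivC_mul, derivC_mul, f1_derivC_X,
    derivC_C, MvPowerSeries.pderiv_coe, Polynomial.derivative_mul, Polynomial.derivative_mul,
    Polynomial.derivative_C, Polynomial.derivative_X]
  ring

/-- `TT` is stable under `Θ`, which commutes with `∇_i` and with multiplication by `c(x)`. -/
theorem TT.tht {f : MvPolynomial (Fin n) ℂ} {m : PY n} (h : TT f m) : TT f (Tht f m) := by
  induction h with
  | gen c i =>
    rw [f1_tht_C, ← Function.iterate_succ_apply' (Tht f) i]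
    exact TT.gen _ _
  | add _ _ ih1 ih2 =>
    rw [f1_tht_add]
    exact ih1.add ih2
  | nab i _ ih =>
    rw [f1_tht_nab]
    exact ih.nab i

end MPb07157T
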