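import Pool.Agent.Lib.MP_b07157_agT.F0

/-!
# The comparison map `ph`
-/

noncomputable section

namespace MPb07157T

open Finset Matrix MvPolynomial MPb07157

variable {n : ℕ}

private theorem f2_ph_add (f : MvPolynomial (Fin n) ℂ) (K : ℕ) (a b : PY n) :
    ph f K (a + b) = ph f K a + ph f K b := by
  unfold ph
  rw [Polynomial.sum_add_index]
  · intro i
    rw [zero_mul, map_zero, mul_zero]
  · intro i x y
    rw [add_mul, map_add, mul_add]

private theorem f2_ph_zero (f : MvPolynomial (Fin n) ℂ) (K : ℕ) : ph f K (0 : PY n) = 0 := by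
  unfold ph
  rw [Polynomial.sum_zero_index]

private theorem f2_ph_monomial (f : MvPolynomial (Fin n) ℂ) (K j : ℕ)
    (a : MvPowerSeries (Fin n) ℂ) :
    ph f K (Polynomial.C a * Polynomial.X ^ j) =
      descPochhammer (MvPowerSeries (Fin n) ℂ) j *
        Polynomial.C (a * (f : MvPowerSeries (Fin n) ℂ) ^ (K - j)) := by
  unfold ph
  rw [Polynomial.C_mul_X_pow_eq_monomial, Polynomial.sum_monomial_index]
  rw [zero_mul, map_zero, mul_zero]

private theorem f2_tht_add (f : MvPolynomial (Fin n) ℂ) (a b : PY n) :
    Tht f (a + b) = Tht f a + Tht f b := by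
  unfold Tht
  rw [Polynomial.derivative_add]
  ring

private theorem f2_tht_zero (f : MvPolynomial (Fin n) ℂ) : Tht f (0 : PY n) = 0 := by
  unfold Tht
  simp

private theorem f2_nab_add (f : MvPolynomial (Fin n) ℂ) (i : Fin n) (a b : PY n) :
    nab f i (a + b) = nab f i a + nab f i b := by
  unfold nab
  rw [derivC_add]
  ring

private theorem f2_nab_zero (f : MvPolynomial (Fin n) ℂ) (i : Fin n) :
    nab f i (0 : PY n) = 0 := by
  unfold nab
  rw [derivC_zero]
  simp

private theorem f2_desc_succ (j : ℕ) : descPochhammer (MvPowerSeries (Fin n) ℂ) (j + 1) =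
    descPochhammer (MvPowerSeries (Fin n) ℂ) j * (Polynomial.X - (j : PY n)) :=
  descPochhammer_succ_right _ j

/-- `Θ` corresponds to multiplication by `s`. -/
theorem ph_tht (f : MvPolynomial (Fin n) ℂ) (K : ℕ) (m : PY n) (hK : m.natDegree ≤ K) :
    ph f (K + 1) (Tht f m) = Polynomial.C (f : MvPowerSeries (Fin n) ℂ) * Polynomial.X *
      ph f K m := by
  refine Polynomial.induction_with_natDegree_le
    (motive := fun m : PY n => ph f (K + 1) (Tht f m) =
      Polynomial.C (f : MvPowerSeries (Fin n) ℂ) * Polynomial.X * ph f K m) K ?_ ?_ ?_ m hK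
  · rw [f2_tht_zero, f2_ph_zero, f2_ph_zero, mul_zero]
  · intro j a _ hj
    have h1 : Tht f (Polynomial.C a * Polynomial.X ^ j) =
        Polynomial.C ((j : MvPowerSeries (Fin n) ℂ) * a) * Polynomial.X ^ j +
        Polynomial.C ((f : MvPowerSeries (Fin n) ℂ) * a) * Polynomial.X ^ (j + 1) := by
      unfold Tht
      rw [Polynomial.derivative_C_mul_X_pow, Polynomial.C_mul, Polynomial.C_mul, Polynomial.C_mul]
      rcases j with _ | j
      · simp
        ring
      · rw [Nat.add_sub_cancel]
        ring
    rw [h1, f2_ph_add, f2_ph_monomial, f2_ph_monomial, f2_ph_monomial, f2_desc_succ,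
      Nat.add_sub_add_right, show K + 1 - j = (K - j) + 1 by omega, pow_succ]
    simp only [Polynomial.C_mul, map_natCast]
    ring
  · intro p q _ _ hp hq
    rw [f2_tht_add, f2_ph_add, f2_ph_add, hp, hq]
    ring

private theorem f2_derivC_desc (i : Fin n) (j : ℕ) :
    derivC i (descPochhammer (MvPowerSeries (Fin n) ℂ) j) = 0 := by
  induction j with
  | zero =>
    rw [descPochhammer_zero, ← Polynomial.C_1, derivC_C, Derivation.map_one_eq_zero, map_zero]
  | succ j ih =>
    rw [f2_desc_succ, derivC_mul, ih, zero_mul, zero_add]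
    have h1 : derivC i (Polynomial.X - (j : PY n)) = 0 := by
      ext1 k
      rw [coeff_derivC, Polynomial.coeff_sub, Polynomial.coeff_X, Polynomial.coeff_natCast_ite,
        Polynomial.coeff_zero, map_sub]
      have h2 : MvPowerSeries.pderiv ℂ i (if 1 = k then (1 : MvPowerSeries (Fin n) ℂ) else 0) = 0 := by
        split_ifs
        · exact Derivation.map_one_eq_zero _
        · exact map_zero _
      have h3 : MvPowerSeries.pderiv ℂ i
          (if k = 0 then (j : MvPowerSeries (Fin n) ℂ) else 0) = 0 := by
        split_ifs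
        · exact Derivation.map_natCast _ _
        · exact map_zero _
      rw [h2, zero_sub, neg_eq_zero]
      convert! h3
      split_ifs <;> simp
    rw [h1, mul_zero]

/-- `∇_i` corresponds to `∂_i` of `· f^{s-K}`. -/
theorem ph_nab (f : MvPolynomial (Fin n) ℂ) (i : Fin n) (K : ℕ) (m : PY n)
    (hK : m.natDegree ≤ K) :
    ph f (K + 1) (nab f i m) = Polynomial.C (f : MvPowerSeries (Fin n) ℂ) * derivC i (ph f K m) +
      (Polynomial.X - (K : PY n)) * Polynomial.C ((pderiv i f : MvPolynomial (Fin n) ℂ) :
        MvPowerSeries (Fin n) ℂ) * ph f K m := by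
  refine Polynomial.induction_with_natDegree_le
    (motive := fun m : PY n => ph f (K + 1) (nab f i m) =
      Polynomial.C (f : MvPowerSeries (Fin n) ℂ) * derivC i (ph f K m) +
      (Polynomial.X - (K : PY n)) * Polynomial.C ((pderiv i f : MvPolynomial (Fin n) ℂ) :
        MvPowerSeries (Fin n) ℂ) * ph f K m) K ?_ ?_ ?_ m hK
  · rw [f2_nab_zero, f2_ph_zero, f2_ph_zero, derivC_zero, mul_zero, mul_zero, add_zero]
  · intro j a _ hj
    set F : MvPowerSeries (Fin n) ℂ := (f : MvPowerSeries (Fin n) ℂ) with hF
    set F' : MvPowerSeries (Fin n) ℂ := ((pderiv i f : MvPolynomial (Fin n) ℂ) :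
        MvPowerSeries (Fin n) ℂ) with hF'
    have hd : derivC i (Polynomial.C a * Polynomial.X ^ j) =
        Polynomial.C (MvPowerSeries.pderiv ℂ i a) * Polynomial.X ^ j := by
      rw [Polynomial.C_mul_X_pow_eq_monomial, Polynomial.C_mul_X_pow_eq_monomial]
      unfold derivC
      rw [Polynomial.sum_monomial_index]
      rw [map_zero, Polynomial.monomial_zero_right]
    have h1 : nab f i (Polynomial.C a * Polynomial.X ^ j) =
        Polynomial.C (MvPowerSeries.pderiv ℂ i a) * Polynomial.X ^ j +
        Polynomial.C (F' * a) * Polynomial.X ^ (j + 1) := by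
      unfold nab
      rw [hd, Polynomial.C_mul]
      ring
    obtain ⟨d, hd'⟩ := Nat.exists_eq_add_of_le hj
    have h2 : derivC i (ph f K (Polynomial.C a * Polynomial.X ^ j)) =
        descPochhammer (MvPowerSeries (Fin n) ℂ) j * Polynomial.C
          (MvPowerSeries.pderiv ℂ i (a * F ^ d)) := by
      rw [f2_ph_monomial, derivC_mul, f2_derivC_desc, zero_mul, zero_add, derivC_C, hd',
        Nat.add_sub_cancel_left]
    have h3 : F * MvPowerSeries.pderiv ℂ i (F ^ d) = (d : MvPowerSeries (Fin n) ℂ) * F ^ d * F' := by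
      rw [MvPowerSeries.pderiv_pow, hF, MvPowerSeries.pderiv_coe, ← hF, ← hF']
      rcases d with _ | d
      · simp
      · rw [Nat.add_sub_cancel, pow_succ]
        ring
    rw [h1, f2_ph_add, f2_ph_monomial, f2_ph_monomial, h2, f2_ph_monomial, f2_desc_succ,
      Nat.add_sub_add_right, show K + 1 - j = d + 1 by omega, show K - j = d by omega,
      Derivation.leibniz, smul_eq_mul, smul_eq_mul]
    have h4 : Polynomial.C F * Polynomial.C (MvPowerSeries.pderiv ℂ i (F ^ d)) =
        (d : PY n) * Polynomial.C (F ^ d) * Polynomial.C F' := by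
      rw [← Polynomial.C_mul, h3, Polynomial.C_mul, Polynomial.C_mul, map_natCast]
    have hK' : (K : PY n) = (j : PY n) + (d : PY n) := by
      rw [hd']
      push_cast
      ring
    rw [hK']
    simp only [Polynomial.C_mul, map_add, pow_succ, ← hF]
    linear_combination (-(descPochhammer (MvPowerSeries (Fin n) ℂ) j * Polynomial.C a)) * h4
  · intro p q _ _ hp hq
    rw [f2_nab_add, f2_ph_add, f2_ph_add, hp, hq, derivC_add]
    ring

/-- `ph f K` is injective on polynomials of degree at most `K` (compare the degrees in `s`). -/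
theorem ph_injective {f : MvPolynomial (Fin n) ℂ} (hf : f ≠ 0) (K : ℕ) {m m' : PY n}
    (hm : m.natDegree ≤ K) (hm' : m'.natDegree ≤ K) (h : ph f K m = ph f K m') : m = m' := by
  have hF : (f : MvPowerSeries (Fin n) ℂ) ≠ 0 := by
    intro h0
    exact hf (MvPolynomial.coe_eq_zero_iff.mp h0)
  have key : ∀ g : PY n, ph f K g = 0 → g = 0 := by
    intro g hg
    by_contra hne
    have h1 : (ph f K g).coeff g.natDegree =
        g.leadingCoeff * (f : MvPowerSeries (Fin n) ℂ) ^ (K - g.natDegree) := by
      unfold ph
      rw [Polynomial.sum_def, Polynomial.finsetSum_coeff,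
        Finset.sum_eq_single g.natDegree]
      · rw [Polynomial.coeff_mul_C]
        have h2 : (descPochhammer (MvPowerSeries (Fin n) ℂ) g.natDegree).coeff g.natDegree = 1 := by
          have h3 := monic_descPochhammer (MvPowerSeries (Fin n) ℂ) g.natDegree
          unfold Polynomial.Monic Polynomial.leadingCoeff at h3
          rwa [descPochhammer_natDegree] at h3
        rw [h2, one_mul]
        rfl
      · intro j hj hne'
        rw [Polynomial.coeff_mul_C]
        have hlt : j < g.natDegree :=
          lt_of_le_of_ne (Polynomial.le_natDegree_of_mem_supp j hj) hne'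
        rw [Polynomial.coeff_eq_zero_of_natDegree_lt
          (by rw [descPochhammer_natDegree]; exact hlt), zero_mul]
      · intro hns
        exact absurd (Polynomial.natDegree_mem_support_of_nonzero hne) hns
    rw [hg, Polynomial.coeff_zero] at h1
    have h2 := mul_ne_zero (Polynomial.leadingCoeff_ne_zero.mpr hne)
      (pow_ne_zero (K - g.natDegree) hF)
    exact h2 h1.symm
  have h1 : ph f K (m - m') = 0 := by
    have h2 := f2_ph_add f K (m - m') m'
    rw [sub_add_cancel, h] at h2
    linear_combination -h2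
  exact sub_eq_zero.mp (key _ h1)

end MPb07157T
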