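import Pool.Agent.Lib.MP_b07157_agT.F1
import Pool.Agent.Lib.MP_b07157_agT.F2

/-!
# Normal form of the functional equation
-/

noncomputable section

namespace MPb07157T

open Finset Matrix MvPolynomial MPb07157

variable {n : ℕ}

private theorem F3_TT_zero (f : MvPolynomial (Fin n) ℂ) : TT f (0 : PY n) := by
  have := TT.gen (f := f) (0 : MvPowerSeries (Fin n) ℂ) 0
  simpa using this

private theorem F3_TT_sum {f : MvPolynomial (Fin n) ℂ} {ι : Type} (s : Finset ι) (g : ι → PY n)
    (h : ∀ i ∈ s, TT f (g i)) : TT f (∑ i ∈ s, g i) := by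
  classical
  induction s using Finset.induction_on with
  | empty => simpa using F3_TT_zero f
  | insert a s ha ih =>
    rw [Finset.sum_insert ha]
    exact TT.add (h a (Finset.mem_insert_self a s))
      (ih fun i hi => h i (Finset.mem_insert_of_mem hi))

private theorem F3_TT_iter {f : MvPolynomial (Fin n) ℂ} {m : PY n} (h : TT f m) (i : ℕ) :
    TT f ((Tht f)^[i] m) := by
  induction i with
  | zero => simpa using h
  | succ i ih =>
    rw [Function.iterate_succ_apply']
    exact TT.tht ih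

private theorem F3_ph_range (f : MvPolynomial (Fin n) ℂ) (K N : ℕ) (m : PY n)
    (hN : m.natDegree < N) :
    ph f K m = ∑ j ∈ range N, (descPochhammer (MvPowerSeries (Fin n) ℂ) j) * Polynomial.C
      (m.coeff j * (f : MvPowerSeries (Fin n) ℂ) ^ (K - j)) := by
  unfold ph
  refine Polynomial.sum_over_range' m ?_ N hN
  intro j
  simp

private theorem F3_ph_add (f : MvPolynomial (Fin n) ℂ) (K : ℕ) (m m' : PY n) :
    ph f K (m + m') = ph f K m + ph f K m' := by
  unfold ph
  refine Polynomial.sum_add_index m m' _ ?_ ?_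
  · intro j
    simp
  · intro j a b
    rw [add_mul, map_add, mul_add]

private theorem F3_ph_zero (f : MvPolynomial (Fin n) ℂ) (K : ℕ) : ph f K (0 : PY n) = 0 := by
  unfold ph
  exact Polynomial.sum_zero_index _

private theorem F3_ph_sum (f : MvPolynomial (Fin n) ℂ) (K : ℕ) {ι : Type} (s : Finset ι)
    (g : ι → PY n) : ph f K (∑ i ∈ s, g i) = ∑ i ∈ s, ph f K (g i) := by
  classical
  induction s using Finset.induction_on with
  | empty => simpa using F3_ph_zero f K
  | insert a s ha ih => rw [Finset.sum_insert ha, Finset.sum_insert ha, F3_ph_add, ih]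

private theorem F3_ph_C_mul (f : MvPolynomial (Fin n) ℂ) (K : ℕ) (c : MvPowerSeries (Fin n) ℂ)
    (m : PY n) : ph f K (Polynomial.C c * m) = Polynomial.C c * ph f K m := by
  have h1 : (Polynomial.C c * m).natDegree < m.natDegree + 1 :=
    lt_of_le_of_lt (Polynomial.natDegree_C_mul_le c m) (Nat.lt_succ_self _)
  rw [F3_ph_range f K (m.natDegree + 1) _ h1,
    F3_ph_range f K (m.natDegree + 1) m (Nat.lt_succ_self _), Finset.mul_sum]
  refine Finset.sum_congr rfl fun j _ => ?_
  rw [Polynomial.coeff_C_mul, mul_assoc c, map_mul]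
  ring

private theorem F3_ph_succ (f : MvPolynomial (Fin n) ℂ) (K : ℕ) (m : PY n)
    (hm : m.natDegree ≤ K) :
    ph f (K + 1) m = Polynomial.C (f : MvPowerSeries (Fin n) ℂ) * ph f K m := by
  rw [F3_ph_range f (K + 1) (K + 1) m (Nat.lt_succ_of_le hm),
    F3_ph_range f K (K + 1) m (Nat.lt_succ_of_le hm), Finset.mul_sum]
  refine Finset.sum_congr rfl fun j hj => ?_
  have hj' : j ≤ K := Nat.lt_succ_iff.1 (Finset.mem_range.1 hj)
  rw [Nat.succ_sub hj', pow_succ, ← mul_assoc, map_mul _ (m.coeff j * _)]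
  ring

private theorem F3_ph_raise (f : MvPolynomial (Fin n) ℂ) (K j : ℕ) (m : PY n)
    (hm : m.natDegree ≤ K) :
    ph f (K + j) m = Polynomial.C (f : MvPowerSeries (Fin n) ℂ) ^ j * ph f K m := by
  induction j with
  | zero => simp
  | succ j ih =>
    rw [← add_assoc, F3_ph_succ f (K + j) m (by omega), ih, pow_succ]
    ring

private theorem F3_deg_tht (f : MvPolynomial (Fin n) ℂ) (m : PY n) :
    (Tht f m).natDegree ≤ m.natDegree + 1 := by
  unfold Tht
  refine Polynomial.natDegree_add_le_of_degree_le ?_ ?_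
  · refine le_trans Polynomial.natDegree_mul_le ?_
    have h1 : (Polynomial.X : PY n).natDegree ≤ 1 := Polynomial.natDegree_X_le
    have h2 := Polynomial.natDegree_derivative_le m
    omega
  · refine le_trans Polynomial.natDegree_mul_le ?_
    have h1 : (Polynomial.X * Polynomial.C (f : MvPowerSeries (Fin n) ℂ) : PY n).natDegree ≤ 1 :=
      le_trans Polynomial.natDegree_mul_le
        (by rw [Polynomial.natDegree_C, add_zero]; exact Polynomial.natDegree_X_le)
    omega

private theorem F3_deg_tht_iter (f : MvPolynomial (Fin n) ℂ) (m : PY n) (i : ℕ) :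
    ((Tht f)^[i] m).natDegree ≤ m.natDegree + i := by
  induction i with
  | zero => simp
  | succ i ih =>
    rw [Function.iterate_succ_apply']
    have := F3_deg_tht f ((Tht f)^[i] m)
    omega

private theorem F3_ph_tht_iter (f : MvPolynomial (Fin n) ℂ) (K : ℕ) (m : PY n)
    (hm : m.natDegree ≤ K) (i : ℕ) :
    ph f (K + i) ((Tht f)^[i] m) =
      Polynomial.C (f : MvPowerSeries (Fin n) ℂ) ^ i * Polynomial.X ^ i * ph f K m := by
  induction i with
  | zero => simp
  | succ i ih =>
    rw [Function.iterate_succ_apply', ← add_assoc,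
      ph_tht f (K + i) _ (le_trans (F3_deg_tht_iter f m i) (by omega)), ih, pow_succ, pow_succ]
    ring

private theorem F3_ph_comb (f : MvPolynomial (Fin n) ℂ) (K N : ℕ) (m : PY n)
    (hm : m.natDegree ≤ K) (c : ℕ → MvPowerSeries (Fin n) ℂ) :
    ph f (K + N) (∑ i ∈ range (N + 1), Polynomial.C (c i) * (Tht f)^[i] m) =
      Polynomial.C (f : MvPowerSeries (Fin n) ℂ) ^ N *
        (∑ i ∈ range (N + 1), Polynomial.C (c i) * Polynomial.X ^ i) * ph f K m := by
  rw [F3_ph_sum, Finset.mul_sum, Finset.sum_mul]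
  refine Finset.sum_congr rfl fun i hi => ?_
  have hi' : i ≤ N := Nat.lt_succ_iff.1 (Finset.mem_range.1 hi)
  obtain ⟨j, rfl⟩ := Nat.exists_eq_add_of_le hi'
  have h1 : ((Tht f)^[i] m).natDegree ≤ K + i := le_trans (F3_deg_tht_iter f m i) (by omega)
  rw [F3_ph_C_mul, ← add_assoc, F3_ph_raise f (K + i) j _ h1, F3_ph_tht_iter f K m hm i, pow_add]
  ring

private theorem F3_deg_comb (f : MvPolynomial (Fin n) ℂ) (K N : ℕ) (m : PY n)
    (hm : m.natDegree ≤ K) (c : ℕ → MvPowerSeries (Fin n) ℂ) :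
    (∑ i ∈ range (N + 1), Polynomial.C (c i) * (Tht f)^[i] m).natDegree ≤ K + N := by
  refine Polynomial.natDegree_sum_le_of_forall_le _ _ fun i hi => ?_
  have hi' : i ≤ N := Nat.lt_succ_iff.1 (Finset.mem_range.1 hi)
  refine le_trans (Polynomial.natDegree_C_mul_le _ _) ?_
  have := F3_deg_tht_iter f m i
  omega

private theorem F3_deg_nab (f : MvPolynomial (Fin n) ℂ) (i : Fin n) (m : PY n) (K : ℕ)
    (hm : m.natDegree ≤ K) : (nab f i m).natDegree ≤ K + 1 := by
  unfold nab
  refine Polynomial.natDegree_add_le_of_degree_le ?_ ?_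
  · rw [Polynomial.natDegree_le_iff_coeff_eq_zero]
    intro j hj
    rw [coeff_derivC, Polynomial.coeff_eq_zero_of_natDegree_lt (by omega), map_zero]
  · refine le_trans Polynomial.natDegree_mul_le ?_
    have h1 : (Polynomial.X * Polynomial.C ((pderiv i f : MvPolynomial (Fin n) ℂ) :
        MvPowerSeries (Fin n) ℂ) : PY n).natDegree ≤ 1 :=
      le_trans Polynomial.natDegree_mul_le
        (by rw [Polynomial.natDegree_C, add_zero]; exact Polynomial.natDegree_X_le)
    omega

/-- The invariant: if `g f^{s+1-k} ∈ D[[x]][s] f^{s+1}` then it comes from `TT`. -/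
theorem exists_TT {f : MvPolynomial (Fin n) ℂ} (hf : f ≠ 0) {k : ℕ} {g : PY n}
    (h : InDnForm f k g) :
    ∃ m : PY n, TT f m ∧ ∃ K : ℕ, m.natDegree ≤ K ∧ k ≤ K + 1 ∧
      ph f K m = g * Polynomial.C (f : MvPowerSeries (Fin n) ℂ) ^ (K + 1 - k) := by
  induction h with
  | base =>
    refine ⟨Polynomial.C (f : MvPowerSeries (Fin n) ℂ), ?_, 0, ?_, ?_, ?_⟩
    · have := TT.gen (f := f) (1 : MvPowerSeries (Fin n) ℂ) 0
      simpa using this
    · rw [Polynomial.natDegree_C]
    · omega
    · rw [F3_ph_range f 0 1 _ (by rw [Polynomial.natDegree_C]; omega)]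
      simp
  | @add k g h _ _ ih1 ih2 =>
    obtain ⟨m1, t1, K1, d1, k1, e1⟩ := ih1
    obtain ⟨m2, t2, K2, d2, k2, e2⟩ := ih2
    refine ⟨m1 + m2, t1.add t2, K1 + K2, ?_, ?_, ?_⟩
    · refine Polynomial.natDegree_add_le_of_degree_le ?_ ?_ <;> omega
    · omega
    · rw [F3_ph_add, F3_ph_raise f K1 K2 m1 d1, add_comm K1 K2, F3_ph_raise f K2 K1 m2 d2, e1, e2]
      obtain ⟨u, hu⟩ := Nat.exists_eq_add_of_le k1
      obtain ⟨v, hv⟩ := Nat.exists_eq_add_of_le k2
      have h1 : K1 + 1 - k = u := by omega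
      have h2 : K2 + 1 - k = v := by omega
      have h3 : K2 + K1 + 1 - k = K2 + u := by omega
      have h4 : K2 + u = K1 + v := by omega
      have h5 : Polynomial.C (f : MvPowerSeries (Fin n) ℂ) ^ (K2 + u) =
          Polynomial.C (f : MvPowerSeries (Fin n) ℂ) ^ (K1 + v) := by rw [h4]
      rw [h1, h2, h3, add_mul, h5, ← h5]
      rw [show h * Polynomial.C (f : MvPowerSeries (Fin n) ℂ) ^ (K2 + u) =
        h * Polynomial.C (f : MvPowerSeries (Fin n) ℂ) ^ (K1 + v) by rw [h5], pow_add, pow_add]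
      ring
  | @mul k g c _ ih =>
    obtain ⟨m, t, K, d, kk, e⟩ := ih
    refine ⟨∑ i ∈ range (c.natDegree + 1), Polynomial.C (c.coeff i) * (Tht f)^[i] m, ?_,
      K + c.natDegree, F3_deg_comb f K c.natDegree m d c.coeff, ?_, ?_⟩
    · exact F3_TT_sum _ _ fun i _ => (F3_TT_iter t i).mulC _
    · omega
    · rw [F3_ph_comb f K c.natDegree m d c.coeff, ← Polynomial.as_sum_range_C_mul_X_pow c, e]
      have h1 : K + c.natDegree + 1 - k = c.natDegree + (K + 1 - k) := by omega
      rw [h1, pow_add]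
      ring
  | @deriv k g i _ ih =>
    obtain ⟨m, t, K, d, kk, e⟩ := ih
    refine ⟨nab f i m, TT.nab i t, K + 1, F3_deg_nab f i m K d, ?_, ?_⟩
    · omega
    · rw [ph_nab f i K m d, e]
      have e2 : (g.sum fun j a => Polynomial.monomial j (MvPowerSeries.pderiv ℂ i a)) =
        derivC i g := rfl
      rw [e2]
      obtain ⟨u, hu⟩ := Nat.exists_eq_add_of_le kk
      have h1 : K + 1 - k = u := by omega
      have h2 : K + 1 + 1 - (k + 1) = u := by omega
      rw [h1, h2, derivC_mul, ← Polynomial.C_pow, derivC_C, MvPowerSeries.pderiv_pow,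
        MvPowerSeries.pderiv_coe]
      have h3 : (K : PY n) = (k : PY n) + (u : PY n) - 1 := by
        have : ((K + 1 : ℕ) : PY n) = ((k + u : ℕ) : PY n) := by rw [hu]
        push_cast at this
        rw [← this]
        ring
      rcases u with _ | u
      · rw [h3]
        simp only [pow_zero, map_one, Nat.cast_zero, zero_mul, map_zero, mul_zero, mul_one,
          add_zero]
        ring
      · rw [Nat.add_sub_cancel, h3]
        simp only [map_mul, map_pow, Nat.cast_add, Nat.cast_one, map_add, map_one, map_natCast]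
        ring
  | @raise k g _ ih =>
    obtain ⟨m, t, K, d, kk, e⟩ := ih
    refine ⟨m, t, K + 1, by omega, by omega, ?_⟩
    rw [F3_ph_succ f K m d, e]
    have h1 : K + 1 + 1 - (k + 1) = K + 1 - k := by omega
    rw [h1]
    ring
  | @lower k g _ ih =>
    obtain ⟨m, t, K, d, kk, e⟩ := ih
    refine ⟨m, t, K, d, by omega, ?_⟩
    rw [e]
    have h1 : K + 1 - k = (K + 1 - (k + 1)) + 1 := by omega
    rw [h1, pow_succ]
    ring

private theorem F3_nab_add (f : MvPolynomial (Fin n) ℂ) (i : Fin n) (a b : PY n) :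
    nab f i (a + b) = nab f i a + nab f i b := by
  unfold nab
  rw [derivC_add]
  ring

private theorem F3_nab_zero (f : MvPolynomial (Fin n) ℂ) (i : Fin n) :
    nab f i (0 : PY n) = 0 := by
  unfold nab
  rw [derivC_zero]
  ring

private theorem F3_sum_ext (f : MvPolynomial (Fin n) ℂ) (N M : ℕ) (p : ℕ → MvPowerSeries (Fin n) ℂ)
    (q : PY n) :
    ∑ i ∈ range (N + M), Polynomial.C (if i < N then p i else 0) * (Tht f)^[i] q =
      ∑ i ∈ range N, Polynomial.C (p i) * (Tht f)^[i] q := by
  rw [Finset.sum_range_add, Finset.sum_eq_zero (s := range M), add_zero]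
  · refine Finset.sum_congr rfl fun i hi => ?_
    rw [if_pos (Finset.mem_range.1 hi)]
  · intro i _
    rw [if_neg (by omega), map_zero, zero_mul]

private theorem F3_shape {f : MvPolynomial (Fin n) ℂ} {m : PY n} (h : TT f m) :
    ∃ (N : ℕ) (p : ℕ → MvPowerSeries (Fin n) ℂ) (V : Fin n → PY n),
      m = ∑ i ∈ range N, Polynomial.C (p i) *
        (Tht f)^[i] (Polynomial.C (f : MvPowerSeries (Fin n) ℂ)) + ∑ j, nab f j (V j) := by
  classical
  induction h with
  | gen c i =>
    refine ⟨i + 1, fun j => if j = i then c else 0, 0, ?_⟩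
    rw [Finset.sum_range_succ, Finset.sum_eq_zero (s := range i), zero_add,
      Finset.sum_eq_zero (s := Finset.univ), add_zero]
    · beta_reduce
      rw [if_pos rfl]
    · intro j _
      exact F3_nab_zero f j
    · intro j hj
      beta_reduce
      rw [if_neg (Finset.mem_range.1 hj).ne, map_zero, zero_mul]
  | add _ _ ih1 ih2 =>
    obtain ⟨N1, p1, V1, e1⟩ := ih1
    obtain ⟨N2, p2, V2, e2⟩ := ih2
    refine ⟨N1 + N2, fun i => (if i < N1 then p1 i else 0) + (if i < N2 then p2 i else 0),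
      V1 + V2, ?_⟩
    have h1 := F3_sum_ext f N1 N2 p1 (Polynomial.C (f : MvPowerSeries (Fin n) ℂ))
    have h2 := F3_sum_ext f N2 N1 p2 (Polynomial.C (f : MvPowerSeries (Fin n) ℂ))
    rw [add_comm N2 N1] at h2
    simp only [map_add, add_mul, Finset.sum_add_distrib, h1, h2, Pi.add_apply, F3_nab_add]
    rw [e1, e2]
    ring
  | @nab m i _ ih =>
    refine ⟨0, 0, Pi.single i m, ?_⟩
    rw [Finset.range_zero, Finset.sum_empty, zero_add,
      ← Finset.add_sum_erase _ _ (Finset.mem_univ i), Pi.single_eq_same,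
      Finset.sum_eq_zero, add_zero]
    intro j hj
    rw [Pi.single_eq_of_ne (Finset.ne_of_mem_erase hj)]
    exact F3_nab_zero f j

/-- **Normal form.** -/
theorem normal_form {f : MvPolynomial (Fin n) ℂ} (hf : f ≠ 0) {b : Polynomial ℂ}
    (hb : InDnForm f 1 (b.map (MvPowerSeries.C (σ := Fin n) (R := ℂ)))) :
    ∃ (N : ℕ) (p : ℕ → MvPowerSeries (Fin n) ℂ) (V : Fin n → PY n),
      ∑ i ∈ range (b.natDegree + 1), Polynomial.C (MvPowerSeries.C (b.coeff i)) *
        (Tht f)^[i] (1 : PY n) =
      ∑ i ∈ range N, Polynomial.C (p i) *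
        (Tht f)^[i] (Polynomial.C (f : MvPowerSeries (Fin n) ℂ)) + ∑ j, nab f j (V j) := by
  obtain ⟨m, t, K, d, kk, e⟩ := exists_TT hf hb
  set L : PY n := ∑ i ∈ range (b.natDegree + 1), Polynomial.C (MvPowerSeries.C (b.coeff i)) *
        (Tht f)^[i] (1 : PY n) with hL
  have h1 : (1 : PY n).natDegree ≤ 0 := by simp
  have hLd : L.natDegree ≤ 0 + b.natDegree :=
    F3_deg_comb f 0 b.natDegree 1 h1 fun i => MvPowerSeries.C (b.coeff i)
  have hLp := F3_ph_comb f 0 b.natDegree 1 h1 fun i => MvPowerSeries.C (b.coeff i)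
  rw [← hL] at hLp
  have h2 : ph f 0 (1 : PY n) = 1 := by
    rw [F3_ph_range f 0 1 _ (by simp)]
    simp
  have h3 : ∑ i ∈ range (b.natDegree + 1), Polynomial.C (MvPowerSeries.C (b.coeff i)) *
      Polynomial.X ^ i = b.map (MvPowerSeries.C (σ := Fin n) (R := ℂ)) := by
    conv_rhs => rw [Polynomial.as_sum_range_C_mul_X_pow b]
    rw [Polynomial.map_sum]
    refine Finset.sum_congr rfl fun i _ => ?_
    rw [Polynomial.map_mul, Polynomial.map_pow, Polynomial.map_X, Polynomial.map_C]
  rw [h2, h3, mul_one, zero_add] at hLp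
  rw [zero_add] at hLd
  have h4 : L = m := by
    refine ph_injective hf (b.natDegree + K) (by omega) (by omega) ?_
    rw [F3_ph_raise f b.natDegree K L hLd, hLp, add_comm b.natDegree K,
      F3_ph_raise f K b.natDegree m d, e, Nat.add_sub_cancel]
    ring
  rw [h4]
  exact F3_shape t

end MPb07157T
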