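import Pool.Agent.Lib.MP_b07157_agT.F3
import Pool.Agent.Lib.MP_b07157_agT.F5

/-!
# The functional equation on the lattice
-/

noncomputable section

namespace MPb07157T

open Finset Matrix MvPolynomial MPb07157

variable {n : ℕ}

/-! ### Exterior algebra -/

private theorem f6_con (v ξ : Fin n → ℂ) (a : ℂ) :
    con v (gi ξ * algebraMap ℂ (Lam ℂ n) a) = algebraMap ℂ (Lam ℂ n) ((v ⬝ᵥ ξ) * a) := by
  unfold con gi
  have h := CliffordAlgebra.contractLeft_ι_mul (Q := (0 : QuadraticForm ℂ (Fin n → ℂ)))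
    (dualv v) ξ (algebraMap ℂ (Lam ℂ n) a)
  have h2 := CliffordAlgebra.contractLeft_algebraMap (Q := (0 : QuadraticForm ℂ (Fin n → ℂ)))
    (dualv v) a
  refine Eq.trans h ?_
  rw [h2, mul_zero, sub_zero, map_mul]
  rw [Algebra.smul_def]
  rfl

private theorem f6_fil (ξ : Fin n → ℂ) (x : Lam ℂ n) : gi ξ * x ∈ Fil ℂ n 1 := by
  unfold Fil
  rw [pow_one]
  exact Submodule.mul_mem_mul ⟨ξ, rfl⟩ trivial

private theorem f6_self (ξ : Fin n → ℂ) (x : Lam ℂ n) : gi ξ * (gi ξ * x) = 0 := by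
  rw [← mul_assoc]
  unfold gi
  rw [ExteriorAlgebra.ι_sq_zero, zero_mul]

private theorem f6_dot (v : Fin n → ℂ) (j : Fin n) : v ⬝ᵥ vec ℂ (ee j) = v j := by
  have h : vec ℂ (ee j) = Pi.single j 1 := by
    funext i
    unfold vec ee
    by_cases hi : i = j
    · subst hi; simp
    · simp [Pi.single_eq_of_ne hi]
  rw [h, dotProduct_single, mul_one]

/-! ### Coefficients -/

private theorem f6_cf_neg (φ : PY n) (m : Fin (n + 1) → ℤ) (i : Fin (n + 1)) (h : m i < 0) :
    cf φ m = 0 := by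
  unfold cf
  rw [if_neg]
  intro h'
  exact absurd (h' i) (not_le.mpr h)

private theorem f6_cf_deg (φ : PY n) (m : Fin (n + 1) → ℤ) (h : cf φ m ≠ 0) :
    0 ≤ m 0 ∧ m 0 ≤ φ.natDegree := by
  have h0 : 0 ≤ m 0 := by
    by_contra hc
    exact h (f6_cf_neg φ m 0 (not_le.mp hc))
  refine ⟨h0, ?_⟩
  unfold cf at h
  split_ifs at h with hm
  · have h1 : φ.coeff (m 0).toNat ≠ 0 := by
      intro h2
      rw [h2] at h
      exact h (map_zero _)
    have h2 := Polynomial.le_natDegree_of_ne_zero h1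
    have h3 := Int.toNat_of_nonneg h0
    omega
  · exact absurd rfl h

private theorem f6_cf_C (a : ℂ) (φ : PY n) :
    cf (Polynomial.C (MvPowerSeries.C (σ := Fin n) (R := ℂ) a) * φ) = fun m => a * cf φ m := by
  funext m
  unfold cf
  split_ifs with hm
  · rw [Polynomial.coeff_C_mul, MvPowerSeries.coeff_C_mul]
  · rw [mul_zero]

private def cfA : PY n →+ ((Fin (n + 1) → ℤ) → ℂ) := AddMonoidHom.mk' cf cf_add

private theorem f6_cf_sum {ι : Type*} (s : Finset ι) (g : ι → PY n) (m : Fin (n + 1) → ℤ) :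
    cf (∑ i ∈ s, g i) m = ∑ i ∈ s, cf (g i) m := by
  have h := map_sum (cfA (n := n)) g s
  have h2 := congrFun h m
  rw [Finset.sum_apply] at h2
  exact h2

private theorem f6_cf_one : cf (1 : PY n) = Pi.single 0 1 := by
  funext m
  unfold cf
  by_cases hm : m = 0
  · subst hm
    have h0 : ∀ i : Fin (n + 1), 0 ≤ (0 : Fin (n + 1) → ℤ) i := fun i => le_refl _
    rw [if_pos h0, Pi.single_eq_same]
    have h1 : (Finsupp.equivFunOnFinite.symm fun j : Fin n =>
        ((0 : Fin (n + 1) → ℤ) j.succ).toNat) = 0 := by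
      ext j
      simp
    rw [h1]
    simp [Polynomial.coeff_one]
  · rw [Pi.single_eq_of_ne hm]
    split_ifs with h
    · rw [Polynomial.coeff_one]
      split_ifs with h0
      · rw [MvPowerSeries.coeff_one, if_neg]
        intro h1
        apply hm
        funext i
        refine Fin.cases ?_ (fun j => ?_) i
        · have := h 0
          simp only [Pi.zero_apply]
          omega
        · have h2 := congrArg (fun e : Fin n →₀ ℕ => e j) h1
          simp at h2
          have := h j.succ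
          simp only [Pi.zero_apply]
          omega
      · exact map_zero _
    · rfl

private theorem f6_cf_iter (f : MvPolynomial (Fin n) ℂ) (i : ℕ) (φ : PY n) :
    cf ((Tht f)^[i] φ) = (thL (Fc f))^[i] (cf φ) := by
  induction i generalizing φ with
  | zero => rfl
  | succ i ih => rw [Function.iterate_succ_apply, Function.iterate_succ_apply, ih, cf_tht]

/-! ### Supports -/

private theorem f6_hs_sub (σ : (Fin n → ℤ) × ℤ) (m : Fin (n + 1) → ℤ) (v : Fin n → ℤ) :
    hs σ ⬝ᵥ (m - sh v) = hs σ ⬝ᵥ m - (σ.1 ⬝ᵥ v - σ.2) := by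
  rw [dotProduct_sub]
  have h : hs σ ⬝ᵥ sh v = σ.1 ⬝ᵥ v - σ.2 := by
    unfold hs sh dotProduct
    rw [Fin.sum_univ_succ]
    simp only [Fin.cons_zero, Fin.cons_succ]
    ring
  rw [h]

private theorem f6_hs (σ : (Fin n → ℤ) × ℤ) (m : Fin (n + 1) → ℤ) :
    hs σ ⬝ᵥ m = σ.1 ⬝ᵥ Fin.tail m - σ.2 * m 0 := by
  unfold hs dotProduct
  rw [Fin.sum_univ_succ]
  simp only [Fin.cons_zero, Fin.cons_succ, Fin.tail]
  ring

private theorem f6_supp {F : (Fin n → ℤ) →₀ ℂ} (hF : ∀ v ∈ F.support, ∀ j, 0 ≤ v j) (i : ℕ) :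
    ∀ m : Fin (n + 1) → ℤ, (thL F)^[i] (Pi.single 0 1) m ≠ 0 →
      (∀ j : Fin n, 0 ≤ m j.succ) ∧ m 0 ≤ i ∧
      ∀ σ : (Fin n → ℤ) × ℤ, (∀ v ∈ F.support, σ.2 ≤ σ.1 ⬝ᵥ v) → 0 ≤ hs σ ⬝ᵥ m := by
  induction i with
  | zero =>
    intro m hm
    rw [Function.iterate_zero, id] at hm
    have h0 : m = 0 := by
      by_contra hc
      exact hm (Pi.single_eq_of_ne hc _)
    subst h0
    refine ⟨fun j => le_refl _, by simp, fun σ _ => ?_⟩
    rw [dotProduct_zero]
  | succ i ih =>
    intro m hm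
    rw [Function.iterate_succ_apply'] at hm
    unfold thL at hm
    by_cases hg : (thL F)^[i] (Pi.single 0 1) m = 0
    · unfold thL at hg
      rw [hg, mul_zero, zero_add] at hm
      obtain ⟨v, hv, hv2⟩ := Finset.exists_ne_zero_of_sum_ne_zero hm
      have h1 : (thL F)^[i] (Pi.single 0 1) (m - sh v) ≠ 0 := by
        intro h2
        apply hv2
        unfold thL at h2
        rw [h2, mul_zero]
      obtain ⟨ha, hb, hc⟩ := ih _ h1
      refine ⟨fun j => ?_, ?_, fun σ hσ => ?_⟩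
      · have := ha j
        have h3 := hF v hv j
        simp only [Pi.sub_apply, sh, Fin.cons_succ] at this
        omega
      · simp only [Pi.sub_apply, sh, Fin.cons_zero] at hb
        push_cast
        omega
      · have h3 := hc σ hσ
        rw [f6_hs_sub] at h3
        have h4 := hσ v hv
        omega
    · obtain ⟨ha, hb, hc⟩ := ih m hg
      refine ⟨ha, ?_, hc⟩
      push_cast
      omega

/-! ### The untruncated solution -/

private def f6W (V : Fin n → PY n) : MFun ℂ n := fun m =>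
  ∑ j, gi (vec ℂ (ee j)) * algebraMap ℂ (Lam ℂ n) (cf (V j) (m + he j))

private theorem f6_EE (f : MvPolynomial (Fin n) ℂ) (V : Fin n → PY n) (m : Fin (n + 1) → ℤ) :
    EE (Fc f) (f6W V) m = algebraMap ℂ (Lam ℂ n) (∑ j, cf (nab f j (V j)) m) := by
  unfold EE f6W
  simp only [map_sum, f6_con, f6_dot, Finset.smul_sum]
  rw [Finset.sum_comm, ← Finset.sum_add_distrib]
  refine Finset.sum_congr rfl fun j _ => ?_
  rw [cf_nab, map_add, map_sum]
  refine congrArg₂ (· + ·) rfl (Finset.sum_congr rfl fun v _ => ?_)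
  rw [Algebra.smul_def, ← map_mul]
  refine congrArg _ ?_
  have h : m - sh v + he j = m + he j - sh v := by abel
  rw [h]
  unfold vec
  ring

private theorem f6_main {f : MvPolynomial (Fin n) ℂ} {b : Polynomial ℂ} {N : ℕ} {p : ℕ → MvPowerSeries (Fin n) ℂ}
    {V : Fin n → PY n}
    (hnf : ∑ i ∈ range (b.natDegree + 1), Polynomial.C (MvPowerSeries.C (b.coeff i)) *
        (Tht f)^[i] (1 : PY n) =
      ∑ i ∈ range N, Polynomial.C (p i) *
        (Tht f)^[i] (Polynomial.C (f : MvPowerSeries (Fin n) ℂ)) + ∑ j, nab f j (V j))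
    (m : Fin (n + 1) → ℤ) :
    EE (Fc f) (f6W V) m = algebraMap ℂ (Lam ℂ n)
      ((∑ i ∈ range (b.natDegree + 1), b.coeff i * (thL (Fc f))^[i] (Pi.single 0 1) m) -
        ∑ i ∈ range N, cf (Polynomial.C (p i) *
        (Tht f)^[i] (Polynomial.C (f : MvPowerSeries (Fin n) ℂ))) m) := by
  rw [f6_EE]
  refine congrArg _ ?_
  have h := congrFun (congrArg cf hnf) m
  rw [cf_add, Pi.add_apply, f6_cf_sum, f6_cf_sum, f6_cf_sum] at h
  have h2 : ∀ i ∈ range (b.natDegree + 1), cf (Polynomial.C (MvPowerSeries.C (b.coeff i)) *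
        (Tht f)^[i] (1 : PY n)) m = b.coeff i * (thL (Fc f))^[i] (Pi.single 0 1) m := by
    intro i _
    rw [f6_cf_C, f6_cf_iter, f6_cf_one]
  rw [Finset.sum_congr rfl h2] at h
  rw [h, add_sub_cancel_left]

private theorem f6_W_supp {V : Fin n → PY n} {m : Fin (n + 1) → ℤ} (h : f6W V m ≠ 0) :
    0 ≤ m 0 ∧ m 0 ≤ ((∑ j, (V j).natDegree : ℕ) : ℤ) ∧ ∀ j : Fin n, -1 ≤ m j.succ := by
  unfold f6W at h
  obtain ⟨j, _, hj⟩ := Finset.exists_ne_zero_of_sum_ne_zero h
  have h1 : cf (V j) (m + he j) ≠ 0 := by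
    intro h2
    rw [h2, map_zero, mul_zero] at hj
    exact hj rfl
  have h2 := f6_cf_deg _ _ h1
  have h3 : (m + he j) 0 = m 0 := by
    simp [he]
  rw [h3] at h2
  have h4 : (V j).natDegree ≤ ∑ j, (V j).natDegree :=
    Finset.single_le_sum (f := fun j => (V j).natDegree) (fun i _ => Nat.zero_le _)
      (Finset.mem_univ j)
  refine ⟨h2.1, h2.2.trans (by exact_mod_cast h4), fun l => ?_⟩
  by_contra hc
  apply h1
  refine f6_cf_neg _ _ l.succ ?_
  have h5 : he j l.succ ≤ 1 := by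
    unfold he ee
    rw [Fin.cons_succ]
    by_cases hl : l = j
    · subst hl; simp
    · rw [Pi.single_eq_of_ne hl]; norm_num
  simp only [Pi.add_apply]
  omega

private theorem f6_ineq {σ : (Fin n → ℤ) × ℤ} (hw : ∀ j, 0 < σ.1 j) {m : Fin (n + 1) → ℤ}
    (hm : ∀ j : Fin n, -1 ≤ m j.succ) :
    ∑ l : Fin n, m l.succ - ∑ l, σ.1 l ≤ σ.1 ⬝ᵥ Fin.tail m := by
  unfold dotProduct
  rw [← Finset.sum_sub_distrib]
  refine Finset.sum_le_sum fun l _ => ?_
  have h1 := hw l
  have h2 := hm l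
  unfold Fin.tail
  nlinarith

/-- The lattice form of the functional equation.  Let `N, p, V` be as in `normal_form`, and
`W m = ∑ j, gi (vec ℂ (ee j)) * algebraMap ℂ _ (cf (V j) (m + he j))` if `∑ l, m l.succ ≤ B`,
`W m = 0` otherwise, with `B` large.  Facts:
(1) all `m` in the support have `m l.succ ≥ -1`, `0 ≤ m 0 ≤ K` (`K` = a bound of the degrees in
`y`), so the support is finite; at `m j.succ = -1` only the `j`-th term is present (filled), and it
is killed by `gi (ee j)`; `T` large makes it a subset of `NN Sg [] (c + T e₀)`.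
(2) for `∑ l, m l.succ ≤ B`: `EE (Fc f) W m = algebraMap (∑ j, cf (nab f j (V j)) m)` (`cf_nab`,
`con (vec k v) (gi (ee j) * algebraMap a) = v_j a`, and `(0, v)` has nonnegative sum, so the points
`m - sh v` are also below `B`), which is the coefficient of `∑ b_i Θ^i 1 - ∑ C (p i) Θ^i f`
(`normal_form`, `cf_tht`, `cf 1 = Pi.single 0 1`); it is zero outside `{m ≥ 0, hs σ·m ≥ 0}`, a subset
of `NN Sg [] c` (`hc`, `hcS`), and the `p`-part is supported on `hs κ·m ≥ κ.2 > 0`
(`cf_gen_support`).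
(3) for `∑ l, m l.succ > B` and `EE (Fc f) W m ≠ 0`: `m 0 ≤ K + 1`, all `m l.succ ≥ -1`, so
`hs σ·m ≥ ∑ m l.succ - const > 0` for all `σ ∈ Sg`, hence `m ∈ NN Sg [] c` and `hs κ·m > 0`; and
`(thL (Fc f))^[i] (Pi.single 0 1)`, `i ≤ deg b`, is zero for `hs κ·m = 0`, `∑ m l.succ > B`
(its support has `0 ≤ m 0 ≤ deg b`). -/
theorem exists_lattice {f : MvPolynomial (Fin n) ℂ} (hf : f ≠ 0)
    {Sg : Finset ((Fin n → ℤ) × ℤ)} (hW : WOK Sg (Fc f)) {b : Polynomial ℂ}
    (hb : InDnForm f 1 (b.map (MvPowerSeries.C (σ := Fin n) (R := ℂ))))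
    (c : Fin (n + 1) → ℝ) (hc : ∀ j : Fin n, c j.succ ≤ -1)
    (hcS : ∀ σ ∈ Sg, rdot (hs σ) c ≤ 0) (κ : (Fin n → ℤ) × ℤ) (hκ : κ ∈ Sg) :
    ∃ (W : MFun ℂ n) (T : ℝ), 0 < T ∧ MSuppIn (NN Sg [] (c + Pi.single 0 T)) W ∧ MDeg 1 W ∧
      (∀ m : Fin (n + 1) → ℤ, ∀ j : Fin n, m j.succ = -1 → gi (vec ℂ (ee j)) * W m = 0) ∧
      (∀ m, m ∉ NN Sg [] c → EE (Fc f) W m = 0) ∧
      ∀ m, (hs κ) ⬝ᵥ m = 0 → EE (Fc f) W m = algebraMap ℂ _
        (∑ i ∈ range (b.natDegree + 1), b.coeff i * (thL (Fc f))^[i] (Pi.single 0 1) m) := by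
  classical
  obtain ⟨N, p, V, hnf⟩ := normal_form hf hb
  set F := Fc f with hF
  set K : ℕ := ∑ j, (V j).natDegree with hK
  set Bt : (Fin n → ℤ) × ℤ → ℤ := fun σ => ∑ l, σ.1 l + σ.2 * (K + 1) + σ.2 * b.natDegree with hBt
  set B : ℤ := ∑ σ ∈ Sg, Bt σ with hB
  have hBt0 : ∀ σ ∈ Sg, 0 ≤ Bt σ := by
    intro σ hσ
    have h1 := hW.posN σ hσ
    have h2 : 0 ≤ ∑ l, σ.1 l := Finset.sum_nonneg fun l _ => (hW.posw σ hσ l).le
    rw [hBt]
    positivity
  have hBσ : ∀ σ ∈ Sg, Bt σ ≤ B := fun σ hσ => Finset.single_le_sum hBt0 hσ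
  let W : MFun ℂ n := fun m => if ∑ l : Fin n, m l.succ ≤ B then f6W V m else 0
  have hWs : ∀ m, W m ≠ 0 → (∑ l : Fin n, m l.succ ≤ B) ∧ 0 ≤ m 0 ∧ m 0 ≤ K ∧
      ∀ j : Fin n, -1 ≤ m j.succ := by
    intro m hm
    by_cases h : ∑ l : Fin n, m l.succ ≤ B
    · have h1 : W m = f6W V m := if_pos h
      rw [h1] at hm
      obtain ⟨h2, h3, h4⟩ := f6_W_supp hm
      exact ⟨h, h2, h3, h4⟩
    · exact absurd (if_neg h) hm
  -- low part
  have hlow : ∀ m, ∑ l : Fin n, m l.succ ≤ B → EE F W m = EE F (f6W V) m := by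
    intro m hm
    unfold EE
    have h1 : W m = f6W V m := if_pos hm
    rw [h1]
    congr 1
    refine Finset.sum_congr rfl fun v hv => ?_
    have h2 : ∑ l : Fin n, (m - sh v) l.succ ≤ B := by
      refine le_trans (Finset.sum_le_sum fun l _ => ?_) hm
      have := hW.nonneg v hv l
      simp only [Pi.sub_apply, sh, Fin.cons_succ]
      omega
    have h3 : W (m - sh v) = f6W V (m - sh v) := if_pos h2
    rw [h3]
  -- high part
  have hhigh : ∀ m, B < ∑ l : Fin n, m l.succ → EE F W m ≠ 0 →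
      (∀ j : Fin n, -1 ≤ m j.succ) ∧ ∀ σ ∈ Sg, 0 < hs σ ⬝ᵥ m := by
    intro m hm hne
    unfold EE at hne
    have h1 : W m = 0 := if_neg (not_le.mpr hm)
    rw [h1, map_zero, zero_add] at hne
    obtain ⟨v, hv, hv2⟩ := Finset.exists_ne_zero_of_sum_ne_zero hne
    have h2 : W (m - sh v) ≠ 0 := by
      intro h3
      rw [h3, map_zero, smul_zero] at hv2
      exact hv2 rfl
    obtain ⟨_, _, h5, h6⟩ := hWs _ h2
    have h7 : ∀ j : Fin n, -1 ≤ m j.succ := by
      intro j
      have h8 := h6 j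
      have h9 := hW.nonneg v hv j
      simp only [Pi.sub_apply, sh, Fin.cons_succ] at h8
      omega
    refine ⟨h7, fun σ hσ => ?_⟩
    rw [f6_hs]
    have h8 := f6_ineq (hW.posw σ hσ) h7
    have h9 : m 0 ≤ K + 1 := by
      simp only [Pi.sub_apply, sh, Fin.cons_zero] at h5
      omega
    have h10 := hBσ σ hσ
    have h11 := hW.posN σ hσ
    have h12 : σ.2 * m 0 ≤ σ.2 * (K + 1) := mul_le_mul_of_nonneg_left h9 h11.le
    have h13 : 0 ≤ σ.2 * (b.natDegree : ℤ) := by positivity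
    simp only [hBt] at h10
    linarith
  have hmain := fun m => f6_main (V := V) hnf m
  have hp0 : ∀ σ ∈ Sg, ∀ m, hs σ ⬝ᵥ m ≤ 0 → ∀ i, cf (Polynomial.C (p i) *
        (Tht f)^[i] (Polynomial.C (f : MvPowerSeries (Fin n) ℂ))) m = 0 := by
    intro σ hσ m hm i
    by_contra hc
    have h1 := cf_gen_support f (p i) i (fun j => (hW.posw σ hσ j).le) (hW.le σ hσ) m hc
    rw [f6_hs] at hm
    have h2 := hW.posN σ hσ
    linarith
  have hthσ : ∀ m i, (thL F)^[i] (Pi.single 0 1) m ≠ 0 → (∀ j : Fin n, 0 ≤ m j.succ) ∧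
      m 0 ≤ i ∧ ∀ σ ∈ Sg, 0 ≤ hs σ ⬝ᵥ m := by
    intro m i hm
    obtain ⟨h1, h2, h3⟩ := f6_supp hW.nonneg i m hm
    exact ⟨h1, h2, fun σ hσ => h3 σ (hW.le σ hσ)⟩
  -- finiteness of the support
  have hfin : (Function.support W).Finite := by
    refine (Set.finite_Icc (fun _ => (-1 : ℤ)) (fun _ : Fin (n + 1) => (K : ℤ) + |B| + n)).subset ?_
    intro m hm
    obtain ⟨h1, h2, h3, h4⟩ := hWs m hm
    have hB' : B ≤ |B| := le_abs_self B
    have hB0 := abs_nonneg B
    rw [Set.mem_Icc, Pi.le_def, Pi.le_def]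
    constructor
    · intro i
      refine Fin.cases ?_ (fun j => h4 j) i
      linarith
    · intro i
      refine Fin.cases ?_ (fun j => ?_) i
      · have : (0 : ℤ) ≤ n := Int.natCast_nonneg n
        linarith
      · have h5 : m j.succ + ∑ l ∈ univ.erase j, m (Fin.succ l) = ∑ l : Fin n, m l.succ :=
          Finset.add_sum_erase _ (fun l : Fin n => m l.succ) (Finset.mem_univ j)
        have h6 : ∑ l ∈ univ.erase j, (-1 : ℤ) ≤ ∑ l ∈ univ.erase j, m (Fin.succ l) :=
          Finset.sum_le_sum fun l _ => h4 l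
        have h7 : -(n : ℤ) ≤ ∑ l ∈ univ.erase j, (-1 : ℤ) := by
          rw [Finset.sum_const, Finset.card_erase_of_mem (Finset.mem_univ j), Finset.card_univ,
            Fintype.card_fin, nsmul_eq_mul]
          have : ((n - 1 : ℕ) : ℤ) ≤ n := by omega
          linarith
        have h8 : (0 : ℤ) ≤ K := Int.natCast_nonneg K
        linarith
  -- the shift
  set T : ℝ := 1 + ∑ m ∈ hfin.toFinset, ∑ σ ∈ Sg, |((hs σ ⬝ᵥ m : ℤ) : ℝ)| with hT
  have hTpos : 0 < T := by positivity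
  have hTb : ∀ m, W m ≠ 0 → ∀ σ ∈ Sg, -T ≤ ((hs σ ⬝ᵥ m : ℤ) : ℝ) := by
    intro m hm σ hσ
    have h1 : |((hs σ ⬝ᵥ m : ℤ) : ℝ)| ≤ ∑ σ ∈ Sg, |((hs σ ⬝ᵥ m : ℤ) : ℝ)| :=
      Finset.single_le_sum (f := fun σ => |((hs σ ⬝ᵥ m : ℤ) : ℝ)|) (fun _ _ => abs_nonneg _) hσ
    have h2 : ∑ σ ∈ Sg, |((hs σ ⬝ᵥ m : ℤ) : ℝ)| ≤
        ∑ m ∈ hfin.toFinset, ∑ σ ∈ Sg, |((hs σ ⬝ᵥ m : ℤ) : ℝ)| :=
      Finset.single_le_sum (f := fun m => ∑ σ ∈ Sg, |((hs σ ⬝ᵥ m : ℤ) : ℝ)|)
        (fun _ _ => Finset.sum_nonneg fun _ _ => abs_nonneg _) (by simpa using hm)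
    have h3 := neg_abs_le ((hs σ ⬝ᵥ m : ℤ) : ℝ)
    linarith
  have hrhe : ∀ (j : Fin n) (u : Fin (n + 1) → ℝ), rdot (he j) u = u j.succ := by
    intro j u
    unfold rdot he ee
    rw [Fin.sum_univ_succ]
    simp only [Fin.cons_zero, Fin.cons_succ, Int.cast_zero, zero_mul, zero_add]
    rw [Finset.sum_eq_single j]
    · simp
    · intro l _ hl
      rw [Pi.single_eq_of_ne hl]
      simp
    · intro h; exact absurd (Finset.mem_univ j) h
  have hdhe : ∀ (j : Fin n) (m : Fin (n + 1) → ℤ), he j ⬝ᵥ m = m j.succ := by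
    intro j m
    unfold dotProduct he ee
    rw [Fin.sum_univ_succ]
    simp only [Fin.cons_zero, Fin.cons_succ, zero_mul, zero_add]
    rw [Finset.sum_eq_single j]
    · simp
    · intro l _ hl
      rw [Pi.single_eq_of_ne hl]
      simp
    · intro h; exact absurd (Finset.mem_univ j) h
  have hrhs : ∀ (σ : (Fin n → ℤ) × ℤ), rdot (hs σ) (c + Pi.single 0 T) =
      rdot (hs σ) c - σ.2 * T := by
    intro σ
    unfold rdot hs
    rw [Fin.sum_univ_succ, Fin.sum_univ_succ]
    simp only [Fin.cons_zero, Fin.cons_succ, Pi.add_apply, Pi.single_eq_same]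
    have : ∀ l : Fin n, (Pi.single 0 T : Fin (n + 1) → ℝ) l.succ = 0 := fun l =>
      Pi.single_eq_of_ne (Fin.succ_ne_zero l) _
    simp only [this, add_zero]
    push_cast
    ring
  refine ⟨W, T, hTpos, ⟨hfin, ?_⟩, ?_, ?_, ?_, ?_⟩
  · intro m hm
    obtain ⟨_, _, _, h4⟩ := hWs m hm
    refine ⟨fun z hz => absurd hz (by simp [slc]), ?_⟩
    intro h hh
    unfold HS at hh
    rw [Finset.mem_union, Finset.mem_image, Finset.mem_image] at hh
    rcases hh with ⟨σ, hσ, rfl⟩ | ⟨j, _, rfl⟩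
    · rw [hrhs]
      have h5 := hTb m hm σ hσ
      have h6 := hcS σ hσ
      have h7 : (1 : ℝ) ≤ σ.2 := by exact_mod_cast hW.posN σ hσ
      nlinarith
    · rw [hrhe, hdhe]
      have h5 : (c + (Pi.single 0 T : Fin (n + 1) → ℝ)) j.succ = c j.succ := by
        rw [Pi.add_apply, Pi.single_eq_of_ne (Fin.succ_ne_zero j), add_zero]
      rw [h5]
      have h6 : (-1 : ℝ) ≤ (m j.succ : ℝ) := by exact_mod_cast h4 j
      linarith [hc j]
  · intro m
    by_cases h : ∑ l : Fin n, m l.succ ≤ B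
    · have h1 : W m = f6W V m := if_pos h
      rw [h1]
      exact Submodule.sum_mem _ fun j _ => f6_fil _ _
    · have h1 : W m = 0 := if_neg h
      rw [h1]
      exact Submodule.zero_mem _
  · intro m j hj
    by_cases h : ∑ l : Fin n, m l.succ ≤ B
    · have h1 : W m = f6W V m := if_pos h
      rw [h1]
      unfold f6W
      rw [Finset.mul_sum]
      refine Finset.sum_eq_zero fun l _ => ?_
      by_cases hl : l = j
      · subst hl
        exact f6_self _ _
      · have h2 : cf (V l) (m + he l) = 0 := by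
          refine f6_cf_neg _ _ j.succ ?_
          have h3 : he l j.succ = 0 := by
            unfold he ee
            rw [Fin.cons_succ, Pi.single_eq_of_ne (Ne.symm hl)]
          rw [Pi.add_apply, h3, hj]
          norm_num
        rw [h2, map_zero, mul_zero, mul_zero]
    · have h1 : W m = 0 := if_neg h
      rw [h1, mul_zero]
  · intro m hm
    by_cases h : ∑ l : Fin n, m l.succ ≤ B
    · rw [hlow m h, hmain m]
      have hz : ∀ i, (thL F)^[i] (Pi.single 0 1) m = 0 ∧ cf (Polynomial.C (p i) *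
          (Tht f)^[i] (Polynomial.C (f : MvPowerSeries (Fin n) ℂ))) m = 0 := by
        by_cases hneg : ∃ j : Fin n, m j.succ < 0
        · obtain ⟨j, hj⟩ := hneg
          intro i
          refine ⟨?_, f6_cf_neg _ _ _ hj⟩
          by_contra hc'
          exact absurd ((hthσ m i hc').1 j) (not_le.mpr hj)
        · push Not at hneg
          have h2 : ∃ σ ∈ Sg, hs σ ⬝ᵥ m < 0 := by
            by_contra hc'
            push Not at hc'
            apply hm
            refine ⟨fun z hz => absurd hz (by simp [slc]), ?_⟩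
            intro h' hh
            unfold HS at hh
            rw [Finset.mem_union, Finset.mem_image, Finset.mem_image] at hh
            rcases hh with ⟨σ, hσ, rfl⟩ | ⟨j, _, rfl⟩
            · refine (hcS σ hσ).trans ?_
              exact_mod_cast hc' σ hσ
            · rw [hrhe, hdhe]
              have h6 : (0 : ℝ) ≤ (m j.succ : ℝ) := by exact_mod_cast hneg j
              linarith [hc j]
          obtain ⟨σ, hσ, h3⟩ := h2
          intro i
          refine ⟨?_, hp0 σ hσ m h3.le i⟩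
          by_contra hc'
          exact absurd ((hthσ m i hc').2.2 σ hσ) (not_le.mpr h3)
      rw [Finset.sum_eq_zero (fun i _ => by rw [(hz i).1, mul_zero]),
        Finset.sum_eq_zero (fun i _ => (hz i).2), sub_zero, map_zero]
    · by_contra hne
      obtain ⟨h1, h2⟩ := hhigh m (not_le.mp h) hne
      apply hm
      refine ⟨fun z hz => absurd hz (by simp [slc]), ?_⟩
      intro h' hh
      unfold HS at hh
      rw [Finset.mem_union, Finset.mem_image, Finset.mem_image] at hh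
      rcases hh with ⟨σ, hσ, rfl⟩ | ⟨j, _, rfl⟩
      · refine (hcS σ hσ).trans ?_
        exact_mod_cast (h2 σ hσ).le
      · rw [hrhe, hdhe]
        have h6 : (-1 : ℝ) ≤ (m j.succ : ℝ) := by exact_mod_cast h1 j
        linarith [hc j]
  · intro m hm
    by_cases h : ∑ l : Fin n, m l.succ ≤ B
    · rw [hlow m h, hmain m]
      rw [Finset.sum_eq_zero (s := range N) (fun i _ => hp0 κ hκ m hm.le i), sub_zero]
    · have h0 : EE F W m = 0 := by
        by_contra hne
        have := (hhigh m (not_le.mp h) hne).2 κ hκ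
        omega
      rw [h0]
      have hz : ∀ i ∈ range (b.natDegree + 1),
          b.coeff i * (thL F)^[i] (Pi.single 0 1) m = 0 := by
        intro i hi
        have hi' : i ≤ b.natDegree := Nat.lt_succ_iff.mp (Finset.mem_range.mp hi)
        have h1 : (thL F)^[i] (Pi.single 0 1) m = 0 := by
          by_contra hc'
          obtain ⟨h2, h3, _⟩ := hthσ m i hc'
          have h4 : ∑ l : Fin n, m l.succ ≤ κ.1 ⬝ᵥ Fin.tail m := by
            unfold dotProduct
            refine Finset.sum_le_sum fun l _ => ?_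
            have h5 := hW.posw κ hκ l
            have h6 := h2 l
            unfold Fin.tail
            nlinarith
          rw [f6_hs] at hm
          have h7 := hBσ κ hκ
          have h8 := hW.posN κ hκ
          have h9 : m 0 ≤ b.natDegree := h3.trans (by exact_mod_cast hi')
          have h10 : κ.2 * m 0 ≤ κ.2 * b.natDegree := mul_le_mul_of_nonneg_left h9 h8.le
          have h11 : 0 ≤ ∑ l, κ.1 l := Finset.sum_nonneg fun l _ => (hW.posw κ hκ l).le
          have h12 : 0 ≤ κ.2 * ((K : ℤ) + 1) := by positivity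
          simp only [hBt] at h7
          linarith [not_le.mp h]
        rw [h1, mul_zero]
      rw [Finset.sum_eq_zero hz, map_zero]

end MPb07157T
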