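import Pool.Agent.Lib.MP_b07157_agT.F6
import Pool.Agent.Lib.MP_b07157_agT.D3f

/-!
# The face identity, raw form
-/

noncomputable section

namespace MPb07157T

open Finset Matrix MvPolynomial MPb07157

variable {n : ℕ}

private theorem f7_zet_nil : zet ℂ (eJ ([] : List (Fin n))) = 1 := by
  simp [zet, eJ]

private theorem f7_Fpart_nil (F : (Fin n → ℤ) →₀ ℂ) : Fpart (eJ ([] : List (Fin n))) F = F := by
  classical
  ext v
  simp [Fpart, eJ]

private theorem f7_rdot_cons (σ : (Fin n → ℤ) × ℤ) (x : ℝ) (y : Fin n → ℝ) :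
    rdot (hs σ) (Fin.cons x y) = -(σ.2 : ℝ) * x + rdot σ.1 y := by
  simp only [rdot, hs, Fin.sum_univ_succ, Fin.cons_zero, Fin.cons_succ]
  push_cast
  ring

private theorem f7_hs_dot (σ : (Fin n → ℤ) × ℤ) (m : Fin (n + 1) → ℤ) :
    hs σ ⬝ᵥ m = -σ.2 * m 0 + σ.1 ⬝ᵥ Fin.tail m := by
  simp only [hs, dotProduct, Fin.sum_univ_succ, Fin.cons_zero, Fin.cons_succ, Fin.tail]

private theorem f7_he_dot (j : Fin n) (m : Fin (n + 1) → ℤ) : he j ⬝ᵥ m = m j.succ := by
  simp only [he, dotProduct, Fin.sum_univ_succ, Fin.cons_zero, Fin.cons_succ, ee]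
  rw [Finset.sum_eq_single j]
  · simp
  · intro i _ hij
    simp [hij]
  · simp

private theorem f7_he_rdot (j : Fin n) (u : Fin (n + 1) → ℝ) : rdot (he j) u = u j.succ := by
  simp only [he, rdot, Fin.sum_univ_succ, Fin.cons_zero, Fin.cons_succ, ee]
  rw [Finset.sum_eq_single j]
  · simp
  · intro i _ hij
    simp [hij]
  · simp

private theorem f7_rdot_et (κ τ : (Fin n → ℤ) × ℤ) (a : Fin n → ℝ) :
    rdot (et κ τ) a = κ.2 * rdot τ.1 a - τ.2 * rdot κ.1 a := by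
  simp only [rdot, et, Pi.sub_apply, Pi.smul_apply, smul_eq_mul, Finset.mul_sum,
    ← Finset.sum_sub_distrib]
  apply Finset.sum_congr rfl
  intro i _
  push_cast
  ring

private theorem f7_et_dot (κ τ : (Fin n → ℤ) × ℤ) (m : Fin n → ℤ) :
    et κ τ ⬝ᵥ m = κ.2 * (τ.1 ⬝ᵥ m) - τ.2 * (κ.1 ⬝ᵥ m) := by
  simp only [et, sub_dotProduct, smul_dotProduct, smul_eq_mul]

private theorem f7_rdot_neg (h : Fin n → ℤ) (a : Fin n → ℝ) :
    rdot h (fun j => -a j) = -rdot h a := by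
  simp [rdot]

/-- The injectivity theorem applied to the lattice functional equation, restricted to the face.
Let `c = Fin.cons (-(rdot κ.1 a / κ.2)) (-a)`: `rdot (hs κ) c = 0`,
`κ.2 * rdot (hs τ) c = - rdot (et κ τ) a ≤ 0`.  Let `W, T` be as in `exists_lattice`; `XSt.all`
for `S`, `J = []`, `d = 1` (`zet k [] = 1`) gives `g`, filled at `S`, and `V' = W - EE (Fc f) g` is
supported in `NN Sg [] c`, filled at `S` (`Filled.EE`), of degree `1`, and
`EE (Fc f) V' = EE (Fc f) W`.  Put `V b = V' (Fin.cons ((κ.1 ⬝ᵥ b) / κ.2) b)` if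
`κ.2 ∣ κ.1 ⬝ᵥ b`, and `0` otherwise: this is the restriction to the level `hs κ·m = 0`, the lowest
level of `V'` (`hs κ·m ≥ hs κ·c = 0` on the support), so only the exponents with `κ.1·v = κ.2`
contribute to `EE (Fc f) V'` there.  Support: `κ.2 * (hs τ·m) = et κ τ·tail m` on this level. -/
theorem exists_face_raw {f : MvPolynomial (Fin n) ℂ} (hf : f ≠ 0)
    {Sg : Finset ((Fin n → ℤ) × ℤ)} (hW : WOK Sg (Fc f)) {b : Polynomial ℂ}
    (hb : InDnForm f 1 (b.map (MvPowerSeries.C (σ := Fin n) (R := ℂ))))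
    {κ : (Fin n → ℤ) × ℤ} (hκ : κ ∈ Sg) (a : Fin n → ℝ) (ha : ∀ j, 1 ≤ a j)
    (haS : ∀ τ ∈ Sg, 0 ≤ rdot (et κ τ) a) (S : List (Fin n)) (hS : S.Nodup)
    (haS1 : ∀ j ∈ S, a j = 1) :
    ∃ V : LFun ℂ n, SuppIn (MM Sg κ a) V ∧ Deg 1 V ∧
      (∀ m, ∀ j ∈ S, m j = -1 → gi (vec ℂ (ee j)) * V m = 0) ∧
      ∀ m, Eop 1 (Fs κ (Fc f)) V m = algebraMap ℂ _
        (if κ.2 ∣ κ.1 ⬝ᵥ m then ∑ i ∈ range (b.natDegree + 1), b.coeff i *
          (thL (Fc f))^[i] (Pi.single 0 1) (Fin.cons ((κ.1 ⬝ᵥ m) / κ.2) m) else 0) := by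
  classical
  have hN : 0 < κ.2 := hW.posN κ hκ
  have hNR : (0 : ℝ) < κ.2 := by exact_mod_cast hN
  set c : Fin (n + 1) → ℝ := Fin.cons (-(rdot κ.1 a / κ.2)) (fun j => -a j) with hcdef
  have hcs : ∀ j : Fin n, c j.succ = -a j := fun j => by simp [hcdef]
  have hcσ : ∀ σ : (Fin n → ℤ) × ℤ, κ.2 * rdot (hs σ) c = -rdot (et κ σ) a := by
    intro σ
    rw [hcdef, f7_rdot_cons, f7_rdot_et, f7_rdot_neg]
    field_simp
    ring
  have hcS : ∀ σ ∈ Sg, rdot (hs σ) c ≤ 0 := by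
    intro σ hσ
    have h1 := hcσ σ
    have h2 := haS σ hσ
    by_contra h
    push Not at h
    have := mul_pos hNR h
    linarith
  have hcκ : rdot (hs κ) c = 0 := by
    have h1 := hcσ κ
    rw [f7_rdot_et] at h1
    have h2 : (κ.2 : ℝ) * rdot (hs κ) c = 0 := by rw [h1]; ring
    rcases mul_eq_zero.mp h2 with h | h
    · exact absurd h hNR.ne'
    · exact h
  obtain ⟨W, T, hT, hWs, hWd, hWf, hWz, hWk⟩ := exists_lattice hf hW hb c
    (fun j => by rw [hcs]; have := ha j; linarith) hcS κ hκ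
  have hX := XSt.all hW (c := c) hT S [] hS (by simp) (by
    intro i hi
    rcases hi with hi | hi
    · rw [hcs, haS1 i hi]
    · simp at hi)
  obtain ⟨g, hgs, hgd, hgf, hgz⟩ := hX 1 le_rfl W hWs hWd
    (by intro m j _ hm; rw [hWf m j hm, mul_zero])
    (by
      intro m hm
      rw [f7_Fpart_nil, hWz m hm, mul_zero])
  simp only [f7_Fpart_nil, f7_zet_nil, one_mul] at hgz
  -- the corrected function
  have hgEs := MSuppIn.EE hW [] (c + Pi.single 0 T) hgs
  rw [f7_Fpart_nil] at hgEs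
  have hgEf : Filled S [] (EE (Fc f) g) := by
    have h := Filled.EE (Fc f) hW.nonneg (J := []) hgf (by
      intro m hm
      refine ⟨by simp, ?_⟩
      intro j hj
      have h1 := (hgs.2 m hm).2 (he j) (by
        simp only [HS, Finset.mem_union, Finset.mem_image]
        exact Or.inr ⟨j, Finset.mem_univ _, rfl⟩)
      rw [f7_he_rdot, f7_he_dot] at h1
      have h2 : (c + (Pi.single 0 T : Fin (n + 1) → ℝ)) j.succ = -1 := by
        simp only [Pi.add_apply, hcs, haS1 j hj]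
        simp
      rw [h2] at h1
      exact_mod_cast h1)
    rwa [f7_Fpart_nil] at h
  set V' : MFun ℂ n := W - EE (Fc f) g with hV'
  have hV'fin : (Function.support V').Finite := by
    apply (hWs.1.union hgEs.1).subset
    intro m hm
    by_contra h
    simp only [Set.mem_union, Function.mem_support, not_or, not_not] at h
    apply hm
    rw [hV', Pi.sub_apply, h.1, h.2, sub_zero]
  have hV'supp : ∀ m, V' m ≠ 0 → m ∈ NN Sg [] c := by
    intro m hm
    by_contra h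
    exact hm (hgz m h)
  have hV'deg : ∀ m, V' m ∈ Fil ℂ n 1 := by
    intro m
    exact Submodule.sub_mem _ (hWd m) (MDeg.EE hgd (Fc f) m)
  have hV'fill : ∀ m : Fin (n + 1) → ℤ, ∀ j ∈ S, m j.succ = -1 →
      gi (vec ℂ (ee j)) * V' m = 0 := by
    intro m j hj hm
    have h1 := hgEf m j hj hm
    rw [f7_zet_nil, one_mul] at h1
    rw [hV', Pi.sub_apply, mul_sub, hWf m j hm, h1, sub_zero]
  have hV'E : EE (Fc f) V' = EE (Fc f) W := by
    rw [hV', EE_sub, EE_EE, sub_zero]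
  -- restriction to the level
  let cc : (Fin n → ℤ) → (Fin (n + 1) → ℤ) := fun m => Fin.cons ((κ.1 ⬝ᵥ m) / κ.2) m
  let V : LFun ℂ n := fun m => if κ.2 ∣ κ.1 ⬝ᵥ m then V' (cc m) else 0
  have hccs : ∀ m (j : Fin n), cc m j.succ = m j := fun m j => by simp [cc]
  have hcc0 : ∀ m, cc m 0 = (κ.1 ⬝ᵥ m) / κ.2 := fun m => by simp [cc]
  have hcct : ∀ m, Fin.tail (cc m) = m := fun m => by simp [cc]
  have hVdiv : ∀ m, κ.2 ∣ κ.1 ⬝ᵥ m → V m = V' (cc m) := fun m h => by simp [V, h]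
  have hVnd : ∀ m, ¬ κ.2 ∣ κ.1 ⬝ᵥ m → V m = 0 := fun m h => by simp [V, h]
  have hVne : ∀ m, V m ≠ 0 → κ.2 ∣ κ.1 ⬝ᵥ m ∧ V' (cc m) ≠ 0 := by
    intro m hm
    by_cases h : κ.2 ∣ κ.1 ⬝ᵥ m
    · exact ⟨h, by rw [← hVdiv m h]; exact hm⟩
    · exact absurd (hVnd m h) hm
  refine ⟨V, ⟨?_, ?_⟩, ?_, ?_, ?_⟩
  · apply (hV'fin.image Fin.tail).subset
    intro m hm
    exact ⟨cc m, (hVne m hm).2, hcct m⟩
  · intro m hm
    obtain ⟨hd, h0⟩ := hVne m hm
    have hN' := (hV'supp _ h0).2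
    refine ⟨hd, ?_, ?_⟩
    · intro j
      have h1 := hN' (he j) (by
        simp only [HS, Finset.mem_union, Finset.mem_image]
        exact Or.inr ⟨j, Finset.mem_univ _, rfl⟩)
      rw [f7_he_rdot, f7_he_dot, hcs, hccs] at h1
      exact h1
    · intro τ hτ
      have h1 := hN' (hs τ) (by
        simp only [HS, Finset.mem_union, Finset.mem_image]
        exact Or.inl ⟨τ, hτ, rfl⟩)
      have h2 : (κ.2 : ℝ) * rdot (hs τ) c ≤ (κ.2 : ℝ) * ((hs τ ⬝ᵥ cc m : ℤ) : ℝ) :=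
        mul_le_mul_of_nonneg_left h1 hNR.le
      rw [hcσ τ, ← Int.cast_mul] at h2
      have h3 : κ.2 * (hs τ ⬝ᵥ cc m) = et κ τ ⬝ᵥ m := by
        rw [f7_hs_dot, f7_et_dot, hcc0, hcct]
        have h4 : κ.2 * ((κ.1 ⬝ᵥ m) / κ.2) = κ.1 ⬝ᵥ m := Int.mul_ediv_cancel' hd
        linear_combination (-τ.2) * h4
      rw [h3] at h2
      exact h2
  · intro m
    by_cases h : κ.2 ∣ κ.1 ⬝ᵥ m
    · rw [hVdiv m h]
      exact hV'deg _
    · rw [hVnd m h]
      exact Submodule.zero_mem _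
  · intro m j hj hm
    by_cases h : κ.2 ∣ κ.1 ⬝ᵥ m
    · rw [hVdiv m h]
      exact hV'fill _ j hj (by rw [hccs, hm])
    · rw [hVnd m h, mul_zero]
  · intro m
    have hFsup : (Fs κ (Fc f)).support =
        (Fc f).support.filter (fun v => κ.1 ⬝ᵥ v = κ.2) := by
      ext v
      simp [Fs, and_comm]
    have hFval : ∀ v, κ.1 ⬝ᵥ v = κ.2 → Fs κ (Fc f) v = Fc f v := by
      intro v hv
      simp [Fs, hv]
    by_cases h : κ.2 ∣ κ.1 ⬝ᵥ m
    · rw [if_pos h]
      have hk0 : hs κ ⬝ᵥ cc m = 0 := by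
        rw [f7_hs_dot, hcc0, hcct]
        have h4 : κ.2 * ((κ.1 ⬝ᵥ m) / κ.2) = κ.1 ⬝ᵥ m := Int.mul_ediv_cancel' h
        linear_combination -h4
      have h5 := hWk (cc m) hk0
      rw [← hV'E] at h5
      have h6 : (Fin.cons ((κ.1 ⬝ᵥ m) / κ.2) m : Fin (n + 1) → ℤ) = cc m := rfl
      rw [h6, ← h5]
      simp only [Eop, EE, iF]
      rw [hcct, hVdiv m h]
      congr 1
      rw [hFsup, Finset.sum_filter]
      apply Finset.sum_congr rfl
      intro v hv
      by_cases hvk : κ.1 ⬝ᵥ v = κ.2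
      · rw [if_pos hvk, hFval v hvk]
        have hd' : κ.2 ∣ κ.1 ⬝ᵥ (m - v) := by
          rw [dotProduct_sub, hvk]
          exact dvd_sub h (dvd_refl _)
        rw [hVdiv _ hd']
        congr 3
        have h7 : (κ.1 ⬝ᵥ (m - v)) / κ.2 = (κ.1 ⬝ᵥ m) / κ.2 - 1 := by
          rw [dotProduct_sub, hvk, Int.sub_ediv_of_dvd _ (dvd_refl _), Int.ediv_self hN.ne']
        funext i
        refine Fin.cases ?_ (fun j => ?_) i
        · rw [hcc0, h7, Pi.sub_apply, hcc0]
          simp [sh]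
        · rw [hccs, Pi.sub_apply, Pi.sub_apply, hccs]
          simp [sh]
      · rw [if_neg hvk]
        have h8 : V' (cc m - sh v) = 0 := by
          by_contra hne
          have h9 := (hV'supp _ hne).2 (hs κ) (by
            simp only [HS, Finset.mem_union, Finset.mem_image]
            exact Or.inl ⟨κ, hκ, rfl⟩)
          rw [hcκ] at h9
          have h10 : (0 : ℤ) ≤ hs κ ⬝ᵥ (cc m - sh v) := by exact_mod_cast h9
          rw [dotProduct_sub, hk0] at h10
          have h11 : hs κ ⬝ᵥ sh v = -κ.2 + κ.1 ⬝ᵥ v := by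
            rw [f7_hs_dot]
            simp [sh]
          have h12 := hW.le κ hκ v hv
          rw [h11] at h10
          exact hvk (by omega)
        rw [h8]
        simp
    · rw [if_neg h, map_zero]
      simp only [Eop, iF]
      rw [hVnd m h, map_zero, zero_add]
      apply Finset.sum_eq_zero
      intro v hv
      rw [hFsup, Finset.mem_filter] at hv
      have hd' : ¬ κ.2 ∣ κ.1 ⬝ᵥ (m - v) := by
        rw [dotProduct_sub, hv.2]
        intro hh
        apply h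
        have := dvd_add hh (dvd_refl κ.2)
        simpa using this
      rw [hVnd _ hd']
      simp

end MPb07157T
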