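import Pool.Agent.Lib.MP_b07157_agT.F7

/-!
# The face identity
-/

noncomputable section

namespace MPb07157T

open Finset Matrix MvPolynomial MPb07157

variable {n : ℕ}

private theorem f8_con (v ξ : Fin n → ℂ) (a : ℂ) :
    con v (gi ξ * algebraMap ℂ (Lam ℂ n) a) = algebraMap ℂ (Lam ℂ n) ((v ⬝ᵥ ξ) * a) := by
  unfold con gi
  have h := CliffordAlgebra.contractLeft_ι_mul (Q := (0 : QuadraticForm ℂ (Fin n → ℂ)))
    (dualv v) ξ (algebraMap ℂ (Lam ℂ n) a)
  have h2 := CliffordAlgebra.contractLeft_algebraMap (Q := (0 : QuadraticForm ℂ (Fin n → ℂ)))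
    (dualv v) a
  refine Eq.trans h ?_
  rw [h2, mul_zero, sub_zero, map_mul]
  rw [Algebra.smul_def]
  rfl

private theorem f8_fil (ξ : Fin n → ℂ) (x : Lam ℂ n) : gi ξ * x ∈ Fil ℂ n 1 := by
  unfold Fil
  rw [pow_one]
  exact Submodule.mul_mem_mul ⟨ξ, rfl⟩ trivial

private theorem f8_hs_dot (σ : (Fin n → ℤ) × ℤ) (m : Fin (n + 1) → ℤ) :
    hs σ ⬝ᵥ m = -σ.2 * m 0 + σ.1 ⬝ᵥ Fin.tail m := by
  simp only [hs, dotProduct, Fin.sum_univ_succ, Fin.cons_zero, Fin.cons_succ, Fin.tail]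

private theorem f8_et_dot (κ τ : (Fin n → ℤ) × ℤ) (m : Fin n → ℤ) :
    et κ τ ⬝ᵥ m = κ.2 * (τ.1 ⬝ᵥ m) - τ.2 * (κ.1 ⬝ᵥ m) := by
  simp only [et, sub_dotProduct, smul_dotProduct, smul_eq_mul]

private theorem f8_mem_Fs {κ : (Fin n → ℤ) × ℤ} {F : (Fin n → ℤ) →₀ ℂ} {v : Fin n → ℤ}
    (hv : v ∈ (Fs κ F).support) : v ∈ F.support ∧ κ.1 ⬝ᵥ v = κ.2 := by
  classical
  unfold Fs at hv
  rw [Finsupp.support_filter, Finset.mem_filter] at hv
  exact hv

/-- `Θ₀` as a linear map. -/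
private def f8T (κ : (Fin n → ℤ) × ℤ) (G : (Fin n → ℤ) →₀ ℂ) :
    ((Fin n → ℤ) → ℂ) →ₗ[ℂ] ((Fin n → ℤ) → ℂ) where
  toFun g := fun m => ((κ.1 ⬝ᵥ m : ℤ) : ℂ) / (κ.2 : ℂ) * g m + ∑ v ∈ G.support, G v * g (m - v)
  map_add' x y := by
    funext m
    simp only [Pi.add_apply, mul_add, Finset.sum_add_distrib]
    ring
  map_smul' c x := by
    funext m
    simp only [Pi.smul_apply, smul_eq_mul, RingHom.id_apply, mul_add, Finset.mul_sum]
    congr 1
    · ring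
    · exact Finset.sum_congr rfl fun v _ => by ring

private theorem f8T_apply (κ : (Fin n → ℤ) × ℤ) (G : (Fin n → ℤ) →₀ ℂ) (g : (Fin n → ℤ) → ℂ)
    (m : Fin n → ℤ) : f8T κ G g m =
      ((κ.1 ⬝ᵥ m : ℤ) : ℂ) / (κ.2 : ℂ) * g m + ∑ v ∈ G.support, G v * g (m - v) := rfl

/-- Functions with good support. -/
private def f8S (Sg : Finset ((Fin n → ℤ) × ℤ)) (κ : (Fin n → ℤ) × ℤ) :
    Submodule ℂ ((Fin n → ℤ) → ℂ) where
  carrier := {g | (Function.support g).Finite ∧ ∀ m, g m ≠ 0 → κ.2 ∣ κ.1 ⬝ᵥ m ∧ (∀ j, 0 ≤ m j) ∧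
    ∀ τ ∈ Sg, 0 ≤ et κ τ ⬝ᵥ m}
  add_mem' := by
    rintro x y ⟨hx1, hx2⟩ ⟨hy1, hy2⟩
    refine ⟨(hx1.union hy1).subset (Function.support_add x y), ?_⟩
    intro m hm
    by_cases h : x m = 0
    · apply hy2
      intro h'
      apply hm
      rw [Pi.add_apply, h, h', add_zero]
    · exact hx2 m h
  zero_mem' := by
    refine ⟨?_, fun m hm => absurd rfl hm⟩
    simp
  smul_mem' := by
    rintro c x ⟨hx1, hx2⟩
    refine ⟨hx1.subset (Function.support_const_smul_subset c x), ?_⟩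
    intro m hm
    apply hx2
    intro h'
    apply hm
    rw [Pi.smul_apply, h', smul_zero]

private theorem f8S_T {Sg : Finset ((Fin n → ℤ) × ℤ)} {F : (Fin n → ℤ) →₀ ℂ} (hW : WOK Sg F)
    {κ : (Fin n → ℤ) × ℤ} (hκ : κ ∈ Sg) {g : (Fin n → ℤ) → ℂ} (hg : g ∈ f8S Sg κ) :
    f8T κ (Fs κ F) g ∈ f8S Sg κ := by
  obtain ⟨h1, h2⟩ := hg
  have key : ∀ m, f8T κ (Fs κ F) g m ≠ 0 → g m ≠ 0 ∨ ∃ v ∈ (Fs κ F).support, g (m - v) ≠ 0 := by
    intro m hm
    by_contra hcon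
    push Not at hcon
    apply hm
    rw [f8T_apply, hcon.1, mul_zero, zero_add]
    exact Finset.sum_eq_zero fun v hv => by rw [hcon.2 v hv, mul_zero]
  constructor
  · have h3 : (Function.support g ∪ ⋃ v ∈ (Fs κ F).support,
        (fun m => m + v) '' Function.support g).Finite :=
      h1.union ((Fs κ F).support.finite_toSet.biUnion fun v _ => h1.image _)
    apply h3.subset
    intro m hm
    rcases key m hm with h | ⟨v, hv, h⟩
    · exact Or.inl h
    · right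
      rw [Set.mem_iUnion₂]
      exact ⟨v, hv, m - v, h, by simp⟩
  · intro m hm
    rcases key m hm with h | ⟨v, hv, h⟩
    · exact h2 m h
    · obtain ⟨h3, h4, h5⟩ := h2 _ h
      obtain ⟨hv1, hv2⟩ := f8_mem_Fs hv
      refine ⟨?_, ?_, ?_⟩
      · rw [dotProduct_sub, hv2] at h3
        have := dvd_add h3 (dvd_refl κ.2)
        simpa using this
      · intro j
        have h6 := h4 j
        have h7 := hW.nonneg v hv1 j
        rw [Pi.sub_apply] at h6
        linarith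
      · intro τ hτ
        have h6 := h5 τ hτ
        rw [dotProduct_sub] at h6
        have h7 : 0 ≤ et κ τ ⬝ᵥ v := by
          rw [f8_et_dot, hv2]
          have h8 := hW.le τ hτ v hv1
          have h9 := hW.posN κ hκ
          nlinarith
        linarith

private theorem f8S_delta {Sg : Finset ((Fin n → ℤ) × ℤ)} {κ : (Fin n → ℤ) × ℤ} :
    (Pi.single 0 1 : (Fin n → ℤ) → ℂ) ∈ f8S Sg κ := by
  constructor
  · apply (Set.finite_singleton (0 : Fin n → ℤ)).subset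
    intro m hm
    by_contra h
    exact hm (Pi.single_eq_of_ne h 1)
  · intro m hm
    have h : m = 0 := by
      by_contra h
      exact hm (Pi.single_eq_of_ne h 1)
    subst h
    simp

private theorem f8S_iter {Sg : Finset ((Fin n → ℤ) × ℤ)} {F : (Fin n → ℤ) →₀ ℂ} (hW : WOK Sg F)
    {κ : (Fin n → ℤ) × ℤ} (hκ : κ ∈ Sg) (i : ℕ) :
    (f8T κ (Fs κ F))^[i] (Pi.single 0 1) ∈ f8S Sg κ := by
  induction i with
  | zero => exact f8S_delta
  | succ i ih =>
    rw [Function.iterate_succ_apply']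
    exact f8S_T hW hκ ih

private theorem f8_aeval_apply (L : ((Fin n → ℤ) → ℂ) →ₗ[ℂ] ((Fin n → ℤ) → ℂ)) (q : Polynomial ℂ)
    (g : (Fin n → ℤ) → ℂ) : Polynomial.aeval L q g =
      ∑ i ∈ range (q.natDegree + 1), q.coeff i • L^[i] g := by
  rw [Polynomial.aeval_eq_sum_range, LinearMap.sum_apply]
  exact Finset.sum_congr rfl fun i _ => by
    rw [LinearMap.smul_apply, Module.End.pow_apply]

private theorem f8_level {Sg : Finset ((Fin n → ℤ) × ℤ)} {F : (Fin n → ℤ) →₀ ℂ} (hW : WOK Sg F)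
    {κ : (Fin n → ℤ) × ℤ} (hκ : κ ∈ Sg) (i : ℕ) :
    (∀ m, (thL F)^[i] (Pi.single 0 1) m ≠ 0 → 0 ≤ hs κ ⬝ᵥ m) ∧
      ∀ m, κ.2 ∣ κ.1 ⬝ᵥ m → (thL F)^[i] (Pi.single 0 1) (Fin.cons ((κ.1 ⬝ᵥ m) / κ.2) m) =
        (f8T κ (Fs κ F))^[i] (Pi.single 0 1) m := by
  classical
  have hN : 0 < κ.2 := hW.posN κ hκ
  have hNC : (κ.2 : ℂ) ≠ 0 := by exact_mod_cast hN.ne'
  have hsh : ∀ v : Fin n → ℤ, hs κ ⬝ᵥ sh v = -κ.2 + κ.1 ⬝ᵥ v := by
    intro v
    rw [f8_hs_dot]
    simp [sh]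
  induction i with
  | zero =>
    constructor
    · intro m hm
      have h : m = 0 := by
        by_contra h
        exact hm (Pi.single_eq_of_ne h 1)
      subst h
      simp
    · intro m hm
      rw [Function.iterate_zero_apply, Function.iterate_zero_apply]
      by_cases h : m = 0
      · subst h
        have h0 : (Fin.cons ((κ.1 ⬝ᵥ (0 : Fin n → ℤ)) / κ.2) (0 : Fin n → ℤ) : Fin (n + 1) → ℤ)
            = 0 := by
          funext j
          refine Fin.cases ?_ (fun j => ?_) j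
          · simp
          · simp
        rw [h0, Pi.single_eq_same, Pi.single_eq_same]
      · rw [Pi.single_eq_of_ne h, Pi.single_eq_of_ne]
        intro h'
        apply h
        funext j
        have := congrFun h' j.succ
        simpa using this
  | succ i ih =>
    obtain ⟨ih1, ih2⟩ := ih
    constructor
    · intro m hm
      rw [Function.iterate_succ_apply'] at hm
      by_contra hneg
      apply hm
      have h1 : (thL F)^[i] (Pi.single 0 1) m = 0 := by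
        by_contra h
        exact hneg (ih1 m h)
      show ((m 0 : ℤ) : ℂ) * (thL F)^[i] (Pi.single 0 1) m +
        ∑ v ∈ F.support, F v * (thL F)^[i] (Pi.single 0 1) (m - sh v) = 0
      rw [h1, mul_zero, zero_add]
      refine Finset.sum_eq_zero fun v hv => ?_
      have h2 : (thL F)^[i] (Pi.single 0 1) (m - sh v) = 0 := by
        by_contra h
        have h3 := ih1 _ h
        rw [dotProduct_sub, hsh] at h3
        have h4 := hW.le κ hκ v hv
        omega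
      rw [h2, mul_zero]
    · intro m hm
      rw [Function.iterate_succ_apply', Function.iterate_succ_apply', f8T_apply, ← ih2 m hm]
      have h4 : κ.2 * ((κ.1 ⬝ᵥ m) / κ.2) = κ.1 ⬝ᵥ m := Int.mul_ediv_cancel' hm
      have h5 : (((κ.1 ⬝ᵥ m) / κ.2 : ℤ) : ℂ) = ((κ.1 ⬝ᵥ m : ℤ) : ℂ) / (κ.2 : ℂ) := by
        rw [eq_div_iff hNC]
        conv_rhs => rw [← h4]
        push_cast
        ring
      have hk0 : hs κ ⬝ᵥ (Fin.cons ((κ.1 ⬝ᵥ m) / κ.2) m : Fin (n + 1) → ℤ) = 0 := by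
        rw [f8_hs_dot, Fin.cons_zero, Fin.tail_cons]
        linear_combination -h4
      show (((Fin.cons ((κ.1 ⬝ᵥ m) / κ.2) m : Fin (n + 1) → ℤ) 0 : ℤ) : ℂ) *
        (thL F)^[i] (Pi.single 0 1) (Fin.cons ((κ.1 ⬝ᵥ m) / κ.2) m) +
        ∑ v ∈ F.support, F v * (thL F)^[i] (Pi.single 0 1)
          ((Fin.cons ((κ.1 ⬝ᵥ m) / κ.2) m : Fin (n + 1) → ℤ) - sh v) = _
      rw [Fin.cons_zero, h5]
      congr 1
      have hFsup : (Fs κ F).support = F.support.filter (fun v => κ.1 ⬝ᵥ v = κ.2) := by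
        ext v
        simp [Fs, and_comm]
      have hFval : ∀ v, κ.1 ⬝ᵥ v = κ.2 → Fs κ F v = F v := by
        intro v hv
        simp [Fs, hv]
      rw [hFsup, Finset.sum_filter]
      refine Finset.sum_congr rfl fun v hv => ?_
      by_cases hvk : κ.1 ⬝ᵥ v = κ.2
      · rw [if_pos hvk, hFval v hvk]
        have hd' : κ.2 ∣ κ.1 ⬝ᵥ (m - v) := by
          rw [dotProduct_sub, hvk]
          exact dvd_sub hm (dvd_refl _)
        rw [← ih2 _ hd']
        have h7 : (κ.1 ⬝ᵥ (m - v)) / κ.2 = (κ.1 ⬝ᵥ m) / κ.2 - 1 := by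
          rw [dotProduct_sub, hvk, Int.sub_ediv_of_dvd _ (dvd_refl _), Int.ediv_self hN.ne']
        have e : (Fin.cons ((κ.1 ⬝ᵥ m) / κ.2) m : Fin (n + 1) → ℤ) - sh v =
            Fin.cons ((κ.1 ⬝ᵥ (m - v)) / κ.2) (m - v) := by
          funext j
          refine Fin.cases ?_ (fun j => ?_) j
          · rw [h7]
            simp [sh]
          · simp [sh]
        rw [e]
      · rw [if_neg hvk]
        have h8 : (thL F)^[i] (Pi.single 0 1)
            ((Fin.cons ((κ.1 ⬝ᵥ m) / κ.2) m : Fin (n + 1) → ℤ) - sh v) = 0 := by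
          by_contra hne
          have h9 := ih1 _ hne
          rw [dotProduct_sub, hk0, hsh] at h9
          have h12 := hW.le κ hκ v hv
          exact hvk (by omega)
        rw [h8, mul_zero]

/-- **The face identity** (output of part D).  Let `V₀` be as in `exists_face_raw`, and let
`Θ₀ g b = ((κ.1·b)/κ.2) g b + ∑ over v in Fs κ of F_v g (b - v)` on scalar functions on
`{b : κ.2 ∣ κ.1·b}`: the right hand side of `exists_face_raw` is `∑ b_i Θ₀^i δ₀` (the function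
`(thL (Fc f))^[i] (Pi.single 0 1)` is supported on `hs κ·m ≥ 0`, and on the level `hs κ·m = 0` it is
`Θ₀^i δ₀`, also supported on `m ≥ 0`, `et κ τ·tail m ≥ 0`).  Write `b = b(s₀) + (X - s₀) q`, so
`∑ b_i Θ₀^i δ₀ = b(s₀) δ₀ + (Θ₀ - s₀) u`, `u = q(Θ₀) δ₀`.  With
`U b = gi (vec ℂ κ.1) * algebraMap (u b / κ.2)` one has
`Eop 1 (Fs κ (Fc f)) U b = algebraMap (((Θ₀ - s₀) u) b)`, since
`(vec b + 1)·κ.1 = κ.1·b + ∑ κ.1 j = κ.1·b - s₀ κ.2` and `v·κ.1 = κ.2` on the face.  `U` is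
supported on nonnegative `b`, so it is filled.  The answer is `V₀ - U`. -/
theorem face_identity {f : MvPolynomial (Fin n) ℂ} (hf : f ≠ 0)
    {Sg : Finset ((Fin n → ℤ) × ℤ)} (hW : WOK Sg (Fc f)) {b : Polynomial ℂ}
    (hb : InDnForm f 1 (b.map (MvPowerSeries.C (σ := Fin n) (R := ℂ))))
    {κ : (Fin n → ℤ) × ℤ} (hκ : κ ∈ Sg) (a : Fin n → ℝ) (ha : ∀ j, 1 ≤ a j)
    (haS : ∀ τ ∈ Sg, 0 ≤ rdot (et κ τ) a) (S : List (Fin n)) (hS : S.Nodup)
    (haS1 : ∀ j ∈ S, a j = 1) (s₀ : ℚ) (hs₀ : (s₀ : ℝ) * κ.2 = -∑ j, (κ.1 j : ℝ)) :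
    ∃ V : LFun ℂ n, SuppIn (MM Sg κ a) V ∧ Deg 1 V ∧
      (∀ m, ∀ j ∈ S, m j = -1 → gi (vec ℂ (ee j)) * V m = 0) ∧
      ∀ m, Eop 1 (Fs κ (Fc f)) V m = if m = 0 then algebraMap ℂ _ (b.eval (s₀ : ℂ)) else 0 := by
  classical
  have hN : 0 < κ.2 := hW.posN κ hκ
  have hNC : (κ.2 : ℂ) ≠ 0 := by exact_mod_cast hN.ne'
  have hsQ : s₀ * (κ.2 : ℚ) = -((∑ j, κ.1 j : ℤ) : ℚ) := by
    have h : ((s₀ * (κ.2 : ℚ) : ℚ) : ℝ) = ((-((∑ j, κ.1 j : ℤ) : ℚ) : ℚ) : ℝ) := by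
      push_cast
      exact hs₀
    exact_mod_cast h
  have hsC : (s₀ : ℂ) * (κ.2 : ℂ) = -((∑ j, κ.1 j : ℤ) : ℂ) := by exact_mod_cast congrArg (fun q : ℚ => (q : ℂ)) hsQ
  obtain ⟨V₀, hV1, hV2, hV3, hV4⟩ := exists_face_raw hf hW hb hκ a ha haS S hS haS1
  set L := f8T κ (Fs κ (Fc f)) with hL
  set q : Polynomial ℂ := b /ₘ (Polynomial.X - Polynomial.C (s₀ : ℂ)) with hq
  set δ : (Fin n → ℤ) → ℂ := Pi.single 0 1 with hδ
  set u : (Fin n → ℤ) → ℂ := Polynomial.aeval L q δ with hu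
  have hbq : Polynomial.aeval L b δ = b.eval (s₀ : ℂ) • δ + (L u - (s₀ : ℂ) • u) := by
    have h1 : Polynomial.C (b.eval (s₀ : ℂ)) + (Polynomial.X - Polynomial.C (s₀ : ℂ)) * q = b := by
      rw [← Polynomial.modByMonic_X_sub_C_eq_C_eval, hq]
      exact Polynomial.modByMonic_add_div b _
    conv_lhs => rw [← h1]
    rw [map_add, map_mul, map_sub, Polynomial.aeval_X, Polynomial.aeval_C, Polynomial.aeval_C,
      LinearMap.add_apply, Module.End.mul_apply, LinearMap.sub_apply, Module.algebraMap_end_apply,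
      Module.algebraMap_end_apply]
  have huS : u ∈ f8S Sg κ := by
    rw [hu, f8_aeval_apply]
    exact Submodule.sum_mem _ fun i _ => Submodule.smul_mem _ _ (f8S_iter hW hκ i)
  have hsum : ∀ m, (if κ.2 ∣ κ.1 ⬝ᵥ m then ∑ i ∈ range (b.natDegree + 1), b.coeff i *
      (thL (Fc f))^[i] (Pi.single 0 1) (Fin.cons ((κ.1 ⬝ᵥ m) / κ.2) m) else 0) =
      Polynomial.aeval L b δ m := by
    intro m
    rw [f8_aeval_apply, Finset.sum_apply]
    split_ifs with h
    · refine Finset.sum_congr rfl fun i _ => ?_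
      rw [(f8_level hW hκ i).2 m h, Pi.smul_apply, smul_eq_mul]
    · symm
      refine Finset.sum_eq_zero fun i _ => ?_
      rw [Pi.smul_apply, smul_eq_mul]
      have h1 : L^[i] δ m = 0 := by
        by_contra hne
        exact h ((f8S_iter hW hκ i).2 m hne).1
      rw [h1, mul_zero]
  let U : LFun ℂ n := fun m => gi (vec ℂ κ.1) * algebraMap ℂ (Lam ℂ n) (u m / κ.2)
  have hUdef : ∀ m, U m = gi (vec ℂ κ.1) * algebraMap ℂ (Lam ℂ n) (u m / κ.2) := fun m => rfl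
  have hU0 : ∀ m, u m = 0 → U m = 0 := by
    intro m h
    rw [hUdef, h, zero_div, map_zero, mul_zero]
  have hUne : ∀ m, U m ≠ 0 → u m ≠ 0 := fun m h h' => h (hU0 m h')
  have hdot : ∀ v : Fin n → ℤ, vec ℂ v ⬝ᵥ vec ℂ κ.1 = ((κ.1 ⬝ᵥ v : ℤ) : ℂ) := by
    intro v
    simp only [dotProduct, vec]
    push_cast
    exact Finset.sum_congr rfl fun j _ => mul_comm _ _
  have hone : (1 : Fin n → ℂ) ⬝ᵥ vec ℂ κ.1 = ((∑ j, κ.1 j : ℤ) : ℂ) := by
    simp only [dotProduct, vec, Pi.one_apply, one_mul]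
    push_cast
    rfl
  have hEU : ∀ m, Eop 1 (Fs κ (Fc f)) U m = algebraMap ℂ _ ((L u - (s₀ : ℂ) • u) m) := by
    intro m
    unfold Eop iF
    have h1 : con (vec ℂ m + 1) (U m) = algebraMap ℂ (Lam ℂ n)
        ((((κ.1 ⬝ᵥ m : ℤ) : ℂ) / κ.2 - s₀) * u m) := by
      rw [hUdef, f8_con, add_dotProduct, hdot, hone]
      congr 1
      field_simp
      linear_combination (u m) * hsC
    have h2 : ∀ v ∈ (Fs κ (Fc f)).support, (Fs κ (Fc f)) v • con (vec ℂ v) (U (m - v)) =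
        algebraMap ℂ (Lam ℂ n) ((Fs κ (Fc f)) v * u (m - v)) := by
      intro v hv
      rw [hUdef, f8_con, hdot, (f8_mem_Fs hv).2, Algebra.smul_def, ← map_mul]
      congr 2
      field_simp
    rw [h1, Finset.sum_congr rfl h2, ← map_sum, ← map_add]
    congr 1
    rw [Pi.sub_apply, Pi.smul_apply, smul_eq_mul, hL, f8T_apply]
    ring
  refine ⟨V₀ - U, ⟨?_, ?_⟩, ?_, ?_, ?_⟩
  · apply (hV1.1.union huS.1).subset
    intro m hm
    by_contra h
    simp only [Set.mem_union, Function.mem_support, not_or, not_not] at h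
    apply hm
    rw [Pi.sub_apply, h.1, hU0 m h.2, sub_zero]
  · intro m hm
    by_cases h : V₀ m = 0
    · have h1 : u m ≠ 0 := by
        intro h'
        apply hm
        rw [Pi.sub_apply, h, hU0 m h', sub_zero]
      obtain ⟨h2, h3, h4⟩ := huS.2 m h1
      refine ⟨h2, ?_, ?_⟩
      · intro j
        have h5 : (0 : ℝ) ≤ (m j : ℝ) := by exact_mod_cast h3 j
        linarith [ha j]
      · intro τ hτ
        have h5 : (0 : ℝ) ≤ ((et κ τ ⬝ᵥ m : ℤ) : ℝ) := by exact_mod_cast h4 τ hτ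
        linarith [haS τ hτ]
    · exact hV1.2 m h
  · intro m
    rw [Pi.sub_apply]
    exact Submodule.sub_mem _ (hV2 m) (f8_fil _ _)
  · intro m j hj hm
    have h1 : u m = 0 := by
      by_contra h
      have := (huS.2 m h).2.1 j
      rw [hm] at this
      norm_num at this
    rw [Pi.sub_apply, hU0 m h1, sub_zero]
    exact hV3 m j hj hm
  · intro m
    have h1 : Eop 1 (Fs κ (Fc f)) (V₀ - U) m =
        Eop 1 (Fs κ (Fc f)) V₀ m - Eop 1 (Fs κ (Fc f)) U m := by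
      unfold Eop iF
      simp only [Pi.sub_apply, map_sub, smul_sub, Finset.sum_sub_distrib]
      abel
    rw [h1, hV4, hEU, hsum, hbq, ← map_sub, Pi.add_apply, add_sub_cancel_right, Pi.smul_apply,
      smul_eq_mul]
    by_cases h : m = 0
    · subst h
      rw [if_pos rfl, hδ, Pi.single_eq_same, mul_one]
    · rw [if_neg h, hδ, Pi.single_eq_of_ne h, mul_zero, map_zero]

end MPb07157T
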