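import Pool.Agent.Lib.MP_b07157_agT.T1D

/-!
# Exactness of the Koszul complex of a nondegenerate conic lattice module (T1)

The theorem is `MPb07157T.koszul_exact` (`T1D.lean`); the sections A, B, C are `T1A.lean` (exterior
algebra), `T1B.lean` (the operator `iF`), `T1C.lean` (generic directions).
-/
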