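import Pool.Agent.Lib.MP_b07157_agT.T1A

/-!
# T1, section B: the operator `iF`
-/

noncomputable section

namespace MPb07157T

open Finset Matrix

variable {k : Type} [Field k] {r : ℕ}

theorem vec_sub (u v : Fin r → ℤ) : vec k (u - v) = vec k u - vec k v := by
  funext i
  simp [vec]

theorem vec_add (u v : Fin r → ℤ) : vec k (u + v) = vec k u + vec k v := by
  funext i
  simp [vec]

theorem con_sub (u v : Fin r → k) (x : Lam k r) : con (u - v) x = con u x - con v x := by
  have h := con_add (u - v) v x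
  rw [sub_add_cancel] at h
  rw [h, add_sub_cancel_right]

theorem iF_iF_apply (F : (Fin r → ℤ) →₀ k) (w : LFun k r) (m : Fin r → ℤ) :
    iF F (iF F w) m = 0 := by
  classical
  unfold iF
  have h1 : ∀ v ∈ F.support, F v • con (vec k v) (∑ v' ∈ F.support,
      F v' • con (vec k v') (w (m - v - v'))) = ∑ v' ∈ F.support,
      (F v * F v') • con (vec k v) (con (vec k v') (w (m - v - v'))) := by
    intro v _
    rw [map_sum, Finset.smul_sum]
    exact Finset.sum_congr rfl fun v' _ => by rw [map_smul, smul_smul]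
  rw [Finset.sum_congr rfl h1, ← Finset.sum_product']
  refine Finset.sum_involution (fun p _ => (p.2, p.1)) ?_ ?_ ?_ ?_
  · intro p _
    have h2 : m - p.2 - p.1 = m - p.1 - p.2 := by abel
    simp only
    rw [h2, con_comm (vec k p.2) (vec k p.1), mul_comm (F p.2) (F p.1), smul_neg, add_neg_cancel]
  · intro p _ hne heq
    apply hne
    have h3 : p.1 = p.2 := by
      have := congrArg Prod.snd heq
      exact this
    rw [h3, con_self, smul_zero]
  · intro p hp
    rw [Finset.mem_product] at hp ⊢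
    exact ⟨hp.2, hp.1⟩
  · intro p _
    rfl

theorem iF_iF (F : (Fin r → ℤ) →₀ k) (w : LFun k r) : iF F (iF F w) = 0 := by
  funext m
  exact iF_iF_apply F w m

theorem iF_add (F : (Fin r → ℤ) →₀ k) (w w' : LFun k r) : iF F (w + w') = iF F w + iF F w' := by
  funext m
  unfold iF
  rw [Pi.add_apply, ← Finset.sum_add_distrib]
  exact Finset.sum_congr rfl fun v _ => by rw [Pi.add_apply, map_add, smul_add]

theorem iF_sub (F : (Fin r → ℤ) →₀ k) (w w' : LFun k r) : iF F (w - w') = iF F w - iF F w' := by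
  funext m
  unfold iF
  rw [Pi.sub_apply, ← Finset.sum_sub_distrib]
  exact Finset.sum_congr rfl fun v _ => by rw [Pi.sub_apply, map_sub, smul_sub]

theorem iF_zero (F : (Fin r → ℤ) →₀ k) : iF F (0 : LFun k r) = 0 := by
  funext m
  unfold iF
  exact Finset.sum_eq_zero fun v _ => by rw [Pi.zero_apply, map_zero, smul_zero]

/-- `Eop` squares to zero. -/
theorem Eop_Eop (b : Fin r → k) (F : (Fin r → ℤ) →₀ k) (w : LFun k r) :
    Eop b F (Eop b F w) = 0 := by
  funext m
  have h1 : Eop b F (Eop b F w) m = con (vec k m + b) (con (vec k m + b) (w m) + iF F w m) +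
      iF F (fun m => con (vec k m + b) (w m) + iF F w m) m := rfl
  have h2 : (fun m => con (vec k m + b) (w m) + iF F w m) =
      (fun m => con (vec k m + b) (w m)) + iF F w := rfl
  rw [h1, h2, iF_add, Pi.add_apply, iF_iF_apply, add_zero, map_add, con_self, zero_add]
  unfold iF
  rw [map_sum, ← Finset.sum_add_distrib, Pi.zero_apply]
  refine Finset.sum_eq_zero fun v _ => ?_
  rw [map_smul, ← smul_add]
  have h3 : vec k (m - v) + b = (vec k m + b) - vec k v := by
    rw [vec_sub]
    abel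
  beta_reduce
  rw [h3, con_sub, map_sub, con_self, sub_zero, con_comm (vec k m + b), neg_add_cancel, smul_zero]

theorem zet_iF (Z : List (Fin r → ℤ)) (F : (Fin r → ℤ) →₀ k)
    (hF : ∀ v ∈ F.support, ∀ z ∈ Z, z ⬝ᵥ v = 0) (w : LFun k r) (m : Fin r → ℤ) :
    zet k Z * iF F w m = (-1 : k) ^ Z.length • iF F (fun m => zet k Z * w m) m := by
  unfold iF
  rw [Finset.mul_sum, Finset.smul_sum]
  refine Finset.sum_congr rfl fun v hv => ?_
  rw [mul_smul_comm, zet_con Z (vec k v) (fun z hz => by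
    rw [vec_dotProduct, dotProduct_comm, hF v hv z hz, Int.cast_zero]), smul_comm]

theorem Deg.iF {d : ℕ} {w : LFun k r} (hw : Deg (d + 1) w) (F : (Fin r → ℤ) →₀ k) :
    Deg d (iF F w) := fun m =>
  Submodule.sum_mem _ fun v _ => Submodule.smul_mem _ _ (con_mem_Fil _ (hw (m - v)))

theorem iF_support_finite {F : (Fin r → ℤ) →₀ k} {w : LFun k r}
    (hw : (Function.support w).Finite) : (Function.support (MPb07157T.iF F w)).Finite := by
  classical
  refine Set.Finite.subset (Set.Finite.biUnion (F.support.finite_toSet)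
    fun v _ => hw.image (fun m => m + v)) fun m hm => ?_
  rw [Function.mem_support] at hm
  obtain ⟨v, hv, hne⟩ := Finset.exists_ne_zero_of_sum_ne_zero hm
  rw [Set.mem_iUnion₂]
  refine ⟨v, hv, m - v, ?_, sub_add_cancel m v⟩
  rw [Function.mem_support]
  intro h0
  apply hne
  rw [h0, map_zero, smul_zero]

theorem iF_ne_zero {F : (Fin r → ℤ) →₀ k} {w : LFun k r} {m : Fin r → ℤ} (h : iF F w m ≠ 0) :
    ∃ v ∈ F.support, w (m - v) ≠ 0 := by
  obtain ⟨v, hv, hne⟩ := Finset.exists_ne_zero_of_sum_ne_zero h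
  refine ⟨v, hv, fun h0 => hne ?_⟩
  rw [h0, map_zero, smul_zero]

theorem mem_Fpart {Z : List (Fin r → ℤ)} {F : (Fin r → ℤ) →₀ k} {v : Fin r → ℤ} :
    v ∈ (Fpart Z F).support ↔ v ∈ F.support ∧ ∀ z ∈ Z, z ⬝ᵥ v = 0 := by
  classical
  unfold Fpart
  rw [Finsupp.support_filter, Finset.mem_filter]

theorem Nset_add {Z : List (Fin r → ℤ)} {H : Finset (Fin r → ℤ)} {x : Fin r → ℝ}
    {m v : Fin r → ℤ} (hm : m - v ∈ Nset Z H x) (hz : ∀ z ∈ Z, z ⬝ᵥ v = 0)
    (hh : ∀ h ∈ H, 0 ≤ h ⬝ᵥ v) : m ∈ Nset Z H x := by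
  refine ⟨fun z hz' => ?_, fun h hh' => ?_⟩
  · have h1 := hm.1 z hz'
    rw [dotProduct_sub, hz z hz', sub_zero] at h1
    exact h1
  · have h1 := hm.2 h hh'
    rw [dotProduct_sub] at h1
    have h2 : (0 : ℝ) ≤ ((h ⬝ᵥ v : ℤ) : ℝ) := by exact_mod_cast hh h hh'
    push_cast at h1
    linarith

theorem SuppIn.iF {Z : List (Fin r → ℤ)} {H : Finset (Fin r → ℤ)} {x : Fin r → ℝ}
    {F : (Fin r → ℤ) →₀ k} (hF : ∀ v ∈ F.support, ∀ h ∈ H, 0 ≤ h ⬝ᵥ v) {w : LFun k r}
    (hw : SuppIn (Nset Z H x) w) : SuppIn (Nset Z H x) (MPb07157T.iF (Fpart Z F) w) := by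
  refine ⟨iF_support_finite hw.1, fun m hm => ?_⟩
  obtain ⟨v, hv, hne⟩ := iF_ne_zero hm
  rw [mem_Fpart] at hv
  exact Nset_add (hw.2 _ hne) hv.2 (hF v hv.1)

/-- Laurent exactness: `g m = ∑ᵢ ∑_v aᵢ(v) (eᵢ ∧ w(m - v))`. -/
theorem laurent_step (Z : List (Fin r → ℤ)) (F : (Fin r → ℤ) →₀ k)
    (hU : UnitOn Z F) (x : Fin r → ℝ) {d : ℕ}
    {w : LFun k r} (hfin : (Function.support w).Finite)
    (hsupp : ∀ m, w m ≠ 0 → ∀ z ∈ Z, ((z ⬝ᵥ m : ℤ) : ℝ) = rdot z x) (hdeg : Deg d w)
    (hcyc : ∀ m, zet k Z * iF F w m = 0) :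
    ∃ g : LFun k r, (Function.support g).Finite ∧
      (∀ m, g m ≠ 0 → ∀ z ∈ Z, ((z ⬝ᵥ m : ℤ) : ℝ) = rdot z x) ∧ Deg (d + 1) g ∧
      ∀ m, zet k Z * (w m - iF F g m) = 0 := by
  classical
  obtain ⟨a, ha, hu⟩ := hU
  let e : Fin r → Fin r → k := fun i => Pi.single i 1
  let g : LFun k r := fun m => ∑ i, ∑ v ∈ (a i).support, (a i) v • (gi (e i) * w (m - v))
  have hgne : ∀ m, g m ≠ 0 → ∃ i, ∃ v ∈ (a i).support, w (m - v) ≠ 0 := by
    intro m hm
    obtain ⟨i, -, h1⟩ := Finset.exists_ne_zero_of_sum_ne_zero hm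
    obtain ⟨v, hv, h2⟩ := Finset.exists_ne_zero_of_sum_ne_zero h1
    refine ⟨i, v, hv, fun h0 => h2 ?_⟩
    rw [h0, mul_zero, smul_zero]
  refine ⟨g, ?_, ?_, ?_, ?_⟩
  · refine Set.Finite.subset (Set.finite_iUnion fun i : Fin r =>
      Set.Finite.biUnion ((a i).support.finite_toSet)
        fun v _ => hfin.image (fun m => m + v)) fun m hm => ?_
    obtain ⟨i, v, hv, hne⟩ := hgne m hm
    rw [Set.mem_iUnion]
    refine ⟨i, ?_⟩
    rw [Set.mem_iUnion₂]
    exact ⟨v, hv, m - v, hne, sub_add_cancel m v⟩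
  · intro m hm z hz
    obtain ⟨i, v, hv, hne⟩ := hgne m hm
    have h1 := hsupp _ hne z hz
    rw [dotProduct_sub, ha i v hv z hz, sub_zero] at h1
    exact h1
  · intro m
    exact Submodule.sum_mem _ fun i _ => Submodule.sum_mem _ fun v _ =>
      Submodule.smul_mem _ _ (gi_mem_Fil _ (hdeg _))
  · intro m
    -- the contraction of `g`
    have h1 : iF F g m = (∑ v' ∈ F.support, ∑ i, ∑ v ∈ (a i).support,
        (F v' * (a i) v * ((v' i : ℤ) : k)) • w (m - v' - v)) -
        ∑ i, ∑ v ∈ (a i).support, (a i) v • (gi (e i) * iF F w (m - v)) := by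
      have h2 : ∑ i, ∑ v ∈ (a i).support, (a i) v • (gi (e i) * iF F w (m - v)) =
          ∑ v' ∈ F.support, ∑ i, ∑ v ∈ (a i).support,
            (F v' * (a i) v) • (gi (e i) * con (vec k v') (w (m - v' - v))) := by
        rw [Finset.sum_comm]
        refine Finset.sum_congr rfl fun i _ => ?_
        rw [Finset.sum_comm]
        refine Finset.sum_congr rfl fun v _ => ?_
        unfold MPb07157T.iF
        rw [Finset.mul_sum, Finset.smul_sum]
        refine Finset.sum_congr rfl fun v' _ => ?_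
        rw [mul_smul_comm, smul_smul, sub_right_comm, mul_comm (F v')]
      rw [h2, ← Finset.sum_sub_distrib]
      unfold MPb07157T.iF
      refine Finset.sum_congr rfl fun v' _ => ?_
      rw [← Finset.sum_sub_distrib]
      simp only [g]
      rw [map_sum, Finset.smul_sum]
      refine Finset.sum_congr rfl fun i _ => ?_
      rw [← Finset.sum_sub_distrib, map_sum, Finset.smul_sum]
      refine Finset.sum_congr rfl fun v _ => ?_
      have h3 : vec k v' ⬝ᵥ e i = ((v' i : ℤ) : k) := by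
        simp only [e]
        rw [dotProduct_single, mul_one]
        rfl
      rw [map_smul, con_gi_mul, h3, smul_sub, smul_sub, smul_smul, smul_smul, smul_smul]
    -- the first part is `w m`
    have h4 : (∑ v' ∈ F.support, ∑ i, ∑ v ∈ (a i).support,
        (F v' * (a i) v * ((v' i : ℤ) : k)) • w (m - v' - v)) = w m := by
      let T : Finset (Fin r → ℤ) :=
        insert 0 ((Finset.univ : Finset (Fin r)).biUnion fun i =>
          (F.support ×ˢ (a i).support).image fun p => p.1 + p.2)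
      have h5 : ∑ n ∈ T, (∑ i, ∑ v ∈ (a i).support,
          (a i) v * (((n - v) i : ℤ) : k) * F (n - v)) • w (m - n) = w m := by
        rw [Finset.sum_congr rfl fun n _ => by rw [hu n]]
        simp only [ite_smul, one_smul, zero_smul]
        rw [Finset.sum_ite_eq' T 0, if_pos (Finset.mem_insert_self _ _), sub_zero]
      rw [← h5]
      have h6 : ∀ n, (∑ i, ∑ v ∈ (a i).support,
          (a i) v * (((n - v) i : ℤ) : k) * F (n - v)) • w (m - n) = ∑ i, ∑ v ∈ (a i).support,
          ((a i) v * (((n - v) i : ℤ) : k) * F (n - v)) • w (m - n) := by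
        intro n
        rw [Finset.sum_smul]
        exact Finset.sum_congr rfl fun i _ => by rw [Finset.sum_smul]
      rw [Finset.sum_congr rfl fun n _ => h6 n, Finset.sum_comm, Finset.sum_comm (s := T)]
      refine Finset.sum_congr rfl fun i _ => ?_
      rw [Finset.sum_comm, Finset.sum_comm (s := T)]
      refine Finset.sum_congr rfl fun v hv => ?_
      -- substitute `n = v' + v`
      have h7 : ∑ n ∈ T, ((a i) v * (((n - v) i : ℤ) : k) * F (n - v)) • w (m - n) =
          ∑ n ∈ T.filter (fun n => n - v ∈ F.support),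
            ((a i) v * (((n - v) i : ℤ) : k) * F (n - v)) • w (m - n) := by
        symm
        refine Finset.sum_filter_of_ne fun n _ hne => ?_
        rw [Finsupp.mem_support_iff]
        intro h0
        apply hne
        rw [h0, mul_zero, zero_smul]
      rw [h7]
      refine Finset.sum_bij' (fun v' _ => v' + v) (fun n _ => n - v) ?_ ?_ ?_ ?_ ?_
      · intro v' hv'
        rw [Finset.mem_filter, add_sub_cancel_right]
        refine ⟨Finset.mem_insert_of_mem (Finset.mem_biUnion.2 ⟨i, Finset.mem_univ _, ?_⟩), hv'⟩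
        exact Finset.mem_image.2 ⟨(v', v), Finset.mem_product.2 ⟨hv', hv⟩, rfl⟩
      · intro n hn
        exact (Finset.mem_filter.1 hn).2
      · intro v' _
        exact add_sub_cancel_right v' v
      · intro n _
        exact sub_add_cancel n v
      · intro v' _
        rw [add_sub_cancel_right, sub_sub]
        congr 1
        ring
    rw [h1, h4]
    have h8 : w m - (w m - ∑ i, ∑ v ∈ (a i).support, (a i) v • (gi (e i) * iF F w (m - v))) =
        ∑ i, ∑ v ∈ (a i).support, (a i) v • (gi (e i) * iF F w (m - v)) := by abel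
    rw [h8, Finset.mul_sum]
    refine Finset.sum_eq_zero fun i _ => ?_
    rw [Finset.mul_sum]
    refine Finset.sum_eq_zero fun v _ => ?_
    rw [mul_smul_comm, zet_gi, hcyc, mul_zero, smul_zero, smul_zero]

end MPb07157T
end
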