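import Pool.Agent.Lib.MP_b07157_agT.T1C

/-!
# T1, section D: crossing a level, and the exactness theorem
-/

noncomputable section

namespace MPb07157T

open Finset Matrix

variable {k : Type} [Field k] {r : ℕ}

/-- The statement of T1 for one list `Z`. -/
def T1At (H : Finset (Fin r → ℤ)) (F : (Fin r → ℤ) →₀ k) (Z : List (Fin r → ℤ)) : Prop :=
  ∀ x : Fin r → ℝ, ∀ d : ℕ, 1 ≤ d → ∀ w : LFun k r, SuppIn (Nset Z H x) w → Deg d w →
    (∀ m, zet k Z * iF (Fpart Z F) w m = 0) →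
    ∃ g : LFun k r, SuppIn (Nset Z H x) g ∧ Deg (d + 1) g ∧
      ∀ m, zet k Z * (w m - iF (Fpart Z F) g m) = 0

/-- `iF` of a pointwise product with a vector on which the exponents of `F` vanish. -/
theorem iF_gi (F : (Fin r → ℤ) →₀ k) (h : Fin r → ℤ) (hF : ∀ v ∈ F.support, h ⬝ᵥ v = 0)
    (w : LFun k r) (m : Fin r → ℤ) :
    iF F (fun m => gi (vec k h) * w m) m = - (gi (vec k h) * iF F w m) := by
  unfold iF
  rw [Finset.mul_sum, ← Finset.sum_neg_distrib]
  refine Finset.sum_congr rfl fun v hv => ?_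
  rw [con_gi_mul, vec_dotProduct, dotProduct_comm, hF v hv, Int.cast_zero, zero_smul, zero_sub,
    smul_neg, mul_smul_comm]

/-- `iF` of a pointwise contraction. -/
theorem iF_con (F : (Fin r → ℤ) →₀ k) (c : Fin r → k) (a : k) (w : LFun k r) (m : Fin r → ℤ) :
    iF F (fun m => a • con c (w m)) m = - (a • con c (iF F w m)) := by
  unfold iF
  rw [map_sum, Finset.smul_sum, ← Finset.sum_neg_distrib]
  refine Finset.sum_congr rfl fun v _ => ?_
  rw [map_smul, map_smul, con_comm c (vec k v), smul_neg, smul_neg, neg_neg, smul_comm]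

theorem SuppIn.sub {A : Set (Fin r → ℤ)} {w w' : LFun k r} (hw : SuppIn A w)
    (hw' : SuppIn A w') : SuppIn A (w - w') := by
  refine ⟨(hw.1.union hw'.1).subset (Function.support_sub w w'), fun m hm => ?_⟩
  by_cases h : w m = 0
  · refine hw'.2 m fun h' => hm ?_
    rw [Pi.sub_apply, h, h', sub_zero]
  · exact hw.2 m h

theorem SuppIn.mono {A B : Set (Fin r → ℤ)} {w : LFun k r} (hw : SuppIn A w) (hAB : A ⊆ B) :
    SuppIn B w := ⟨hw.1, fun m hm => hAB (hw.2 m hm)⟩

theorem SuppIn.of_imp {A : Set (Fin r → ℤ)} {w w' : LFun k r} (hw : SuppIn A w)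
    (h : ∀ m, w' m ≠ 0 → w m ≠ 0) : SuppIn A w' :=
  ⟨hw.1.subset fun m hm => h m hm, fun m hm => hw.2 m (h m hm)⟩

theorem Deg.sub {d : ℕ} {w w' : LFun k r} (hw : Deg d w) (hw' : Deg d w') : Deg d (w - w') :=
  fun m => Submodule.sub_mem _ (hw m) (hw' m)

/-- Killing the part of a cycle on one level of `h` (`y` is the crossing point): `u` is a cycle
modulo `Z` on the level; apply `T1At (h :: Z)` to `u` (degree `d + 1`), divide the remainder
`γ = u - i w₁` by `h` (`zet_div`), `γ' = con c γ / (c·h)` of degree `d`, is a cycle modulo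
`h :: Z`; apply `T1At (h :: Z)` again, `γ' ≡ i w₂`; then `u ≡ i (w₁ - h ∧ w₂)` modulo `Z`. -/
theorem level_exact [CharZero k] (H : Finset (Fin r → ℤ)) (F : (Fin r → ℤ) →₀ k)
    (hF : ∀ v ∈ F.support, ∀ h ∈ H, 0 ≤ h ⬝ᵥ v)
    (Z : List (Fin r → ℤ)) (h : Fin r → ℤ) (hh : ¬ InSpan Z h) (hT : T1At H F (h :: Z))
    (y : Fin r → ℝ) {d : ℕ} (hd : 1 ≤ d) {u : LFun k r} (hu : SuppIn (Nset (h :: Z) H y) u)
    (hdeg : Deg (d + 1) u) (hcyc : ∀ m, zet k Z * iF (Fpart (h :: Z) F) u m = 0) :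
    ∃ g : LFun k r, SuppIn (Nset (h :: Z) H y) g ∧ Deg (d + 2) g ∧
      ∀ m, zet k Z * (u m - iF (Fpart (h :: Z) F) g m) = 0 := by
  classical
  set F' := Fpart (h :: Z) F with hF'
  have hF'h : ∀ v ∈ F'.support, h ⬝ᵥ v = 0 := fun v hv =>
    (mem_Fpart.1 hv).2 h List.mem_cons_self
  have hF'Z : ∀ v ∈ F'.support, ∀ z ∈ Z, z ⬝ᵥ v = 0 := fun v hv z hz =>
    (mem_Fpart.1 hv).2 z (List.mem_cons_of_mem _ hz)
  obtain ⟨w₁, hw₁, hw₁d, hw₁e⟩ := hT y (d + 1) (by omega) u hu hdeg (fun m => by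
    rw [zet_cons, mul_assoc, hcyc m, mul_zero])
  obtain ⟨c, hc, hch⟩ := exists_sep Z h hh
  set a : k := (((c ⬝ᵥ h : ℤ) : k))⁻¹ with ha
  let γ : LFun k r := u - iF F' w₁
  have hγe : ∀ m, zet k (h :: Z) * γ m = 0 := hw₁e
  have hγd : Deg (d + 1) γ := hdeg.sub (Deg.iF hw₁d F')
  have hγs : SuppIn (Nset (h :: Z) H y) γ := hu.sub (hw₁.iF hF)
  have hiγ : ∀ m, iF F' γ m = iF F' u m := by
    intro m
    have h1 : iF F' γ = iF F' u - iF F' (iF F' w₁) := iF_sub F' u (iF F' w₁)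
    rw [h1, Pi.sub_apply, iF_iF_apply, sub_zero]
  let γ' : LFun k r := fun m => a • con (vec k c) (γ m)
  have hγ'e : ∀ m, zet k Z * γ m = zet k Z * (gi (vec k h) * γ' m) := fun m =>
    zet_div Z h c hc hch (hγe m)
  have hγ'd : Deg d γ' := fun m => Submodule.smul_mem _ _ (con_mem_Fil _ (hγd m))
  have hγ's : SuppIn (Nset (h :: Z) H y) γ' := hγs.of_imp fun m hm h0 => hm (by
    change a • con (vec k c) (γ m) = 0
    rw [h0, map_zero, smul_zero])
  have hγ'c : ∀ m, zet k (h :: Z) * iF F' γ' m = 0 := by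
    intro m
    have h1 : iF F' γ' m = - (a • con (vec k c) (iF F' γ m)) := iF_con F' (vec k c) a γ m
    have h2 : zet k Z * con (vec k c) (iF F' γ m) = 0 := by
      rw [zet_con Z (vec k c) (fun z hz => by rw [vec_dotProduct, hc z hz, Int.cast_zero]), hiγ,
        hcyc m, map_zero, smul_zero]
    rw [zet_cons, mul_assoc, h1, mul_neg, mul_smul_comm, h2, smul_zero, neg_zero, mul_zero]
  obtain ⟨w₂, hw₂, hw₂d, hw₂e⟩ := hT y d hd γ' hγ's hγ'd hγ'c
  let e : LFun k r := fun m => gi (vec k h) * w₂ m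
  have hes : SuppIn (Nset (h :: Z) H y) e := hw₂.of_imp fun m hm h0 => hm (by
    change gi (vec k h) * w₂ m = 0
    rw [h0, mul_zero])
  refine ⟨w₁ - e, hw₁.sub hes, hw₁d.sub fun m => gi_mem_Fil _ (hw₂d m), fun m => ?_⟩
  have h1 : iF F' (w₁ - e) m = iF F' w₁ m + gi (vec k h) * iF F' w₂ m := by
    rw [iF_sub, Pi.sub_apply, iF_gi F' h hF'h w₂ m, sub_neg_eq_add]
  have h2 : u m - iF F' (w₁ - e) m = γ m - gi (vec k h) * iF F' w₂ m := by
    rw [h1, ← sub_sub]
    rfl
  rw [h2, mul_sub, hγ'e, ← mul_sub, ← mul_sub, zet_gi]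
  have h3 := hw₂e m
  rw [zet_cons, mul_assoc] at h3
  rw [h3, smul_zero]

/-- One crossing: all relevant points of `g` are in the conic set at `x - t u`; replace `g` by
`g'` for which the inequalities are strict.  If no relevant point is on a level there is nothing
to do.  Otherwise let `m₀` be relevant with `h·m₀ = h·(x - t u)`; by genericity the relevant
points on some level at time `t` are exactly the relevant points with `h·m = h·m₀`; if `h :: Z`
has no relative interior direction, `no_relint` and genericity give a contradiction; otherwise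
restrict `g` (with irrelevant values dropped) to the level `h·m = h·m₀`, `level_exact`, subtract
`iF (Fpart Z F)` of the result; `d + 1` is the degree of `g`. -/
theorem cross_step [CharZero k] (H : Finset (Fin r → ℤ)) (F : (Fin r → ℤ) →₀ k)
    (hF : ∀ v ∈ F.support, ∀ h ∈ H, 0 ≤ h ⬝ᵥ v) (Z : List (Fin r → ℤ))
    (hT : ∀ h ∈ H, ¬ InSpan Z h → (∃ u, Relint (h :: Z) H u) → T1At H F (h :: Z))
    (x u : Fin r → ℝ) (hu : Relint Z H u)
    (hgen : ∀ h ∈ H, ∀ h' ∈ H, ¬ InSpan Z h → ¬ InSpan Z h' → ∀ p p' : ℤ, ∀ t : ℝ,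
      0 < t → rdot h x - p = t * rdot h u → rdot h' x - p' = t * rdot h' u →
      InSpan (h :: Z) h')
    {d : ℕ} (hd : 1 ≤ d) {w g : LFun k r} (hw : SuppIn (Nset Z H x) w)
    (hgfin : (Function.support g).Finite) (hgdeg : Deg (d + 1) g)
    (hg : ∀ m, zet k Z * (w m - iF (Fpart Z F) g m) = 0) (t : ℝ) (ht : 0 < t)
    (hgs : ∀ m, zet k Z * g m ≠ 0 → m ∈ Nset Z H (x - t • u)) :
    ∃ g' : LFun k r, (Function.support g').Finite ∧ Deg (d + 1) g' ∧
      (∀ m, zet k Z * (w m - iF (Fpart Z F) g' m) = 0) ∧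
      ∀ m, zet k Z * g' m ≠ 0 → m ∈ Nset Z H (x - t • u) ∧
        ∀ h ∈ H, ¬ InSpan Z h → rdot h (x - t • u) < ((h ⬝ᵥ m : ℤ) : ℝ) := by
  classical
  set y := x - t • u with hy
  have hyt : ∀ h, rdot h y = rdot h x - t * rdot h u := fun h => rdot_time h x u t
  by_cases hno : ∀ m, zet k Z * g m ≠ 0 → ∀ h ∈ H, ¬ InSpan Z h →
      rdot h y < ((h ⬝ᵥ m : ℤ) : ℝ)
  · exact ⟨g, hgfin, hgdeg, hg, fun m hm => ⟨hgs m hm, hno m hm⟩⟩
  push Not at hno
  obtain ⟨m₀, hm₀, h, hh, hs, hle⟩ := hno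
  have hm₀N := hgs m₀ hm₀
  have hp : rdot h y = ((h ⬝ᵥ m₀ : ℤ) : ℝ) := le_antisymm (hm₀N.2 h hh) hle
  have hpu := hu.2 h hh hs
  -- points of the conic set on some level are on the level of `h`
  have hlev : ∀ m ∈ Nset Z H y, ∀ h' ∈ H, ¬ InSpan Z h' → rdot h' y = ((h' ⬝ᵥ m : ℤ) : ℝ) →
      h ⬝ᵥ m = h ⬝ᵥ m₀ := by
    intro m hm h' hh' hs' he
    have h1 : InSpan (h :: Z) h' := by
      refine hgen h hh h' hh' hs hs' (h ⬝ᵥ m₀) (h' ⬝ᵥ m) t ht ?_ ?_
      · rw [← hp, hyt]
        ring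
      · rw [← he, hyt]
        ring
    have h2 := exchange h1 hs' ((fun i => (m i : ℝ)) - y) (fun z hz => by
      rw [rdot_sub, rdot_int, hm.1 z hz, sub_self]) (by rw [rdot_sub, rdot_int, he, sub_self])
    rw [rdot_sub, rdot_int, hp, sub_eq_zero] at h2
    exact_mod_cast h2
  have hm₀N' : m₀ ∈ Nset (h :: Z) H y := by
    refine ⟨fun z hz => ?_, hm₀N.2⟩
    rcases List.mem_cons.1 hz with rfl | hz
    · exact hp.symm
    · exact hm₀N.1 z hz
  have hrel : ∃ v, Relint (h :: Z) H v := by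
    by_contra hcon
    obtain ⟨h', hh', hs', he⟩ := no_relint (h :: Z) H hcon y m₀ hm₀N'
    apply hs'
    refine hgen h hh h' hh' hs (fun hx => hs' (hx.cons h)) (h ⬝ᵥ m₀) (h' ⬝ᵥ m₀) t ht ?_ ?_
    · rw [← hp, hyt]
      ring
    · rw [← he, hyt]
      ring
  -- the part of `g` on the level
  let u₁ : LFun k r := fun m => if h ⬝ᵥ m = h ⬝ᵥ m₀ ∧ zet k Z * g m ≠ 0 then g m else 0
  have hu₁z : ∀ m, h ⬝ᵥ m = h ⬝ᵥ m₀ → zet k Z * u₁ m = zet k Z * g m := by
    intro m hm
    simp only [u₁]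
    by_cases hr : zet k Z * g m = 0
    · rw [if_neg (fun hx => hx.2 hr), mul_zero, hr]
    · rw [if_pos ⟨hm, hr⟩]
  have hu₁0 : ∀ m, h ⬝ᵥ m ≠ h ⬝ᵥ m₀ → u₁ m = 0 := fun m hm => if_neg fun hx => hm hx.1
  have hu₁s : SuppIn (Nset (h :: Z) H y) u₁ := by
    have hne : ∀ m, u₁ m ≠ 0 → h ⬝ᵥ m = h ⬝ᵥ m₀ ∧ zet k Z * g m ≠ 0 := by
      intro m hm
      by_contra hcon
      exact hm (if_neg hcon)
    refine ⟨hgfin.subset fun m hm => ?_, fun m hm => ?_⟩
    · rw [Function.mem_support]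
      intro h0
      exact (hne m hm).2 (by rw [h0, mul_zero])
    · obtain ⟨h1, h2⟩ := hne m hm
      have h3 := hgs m h2
      refine ⟨fun z hz => ?_, h3.2⟩
      rcases List.mem_cons.1 hz with rfl | hz
      · rw [h1]
        exact hp.symm
      · exact h3.1 z hz
  have hu₁d : Deg (d + 1) u₁ := by
    intro m
    simp only [u₁]
    split_ifs
    · exact hgdeg m
    · exact Submodule.zero_mem _
  -- on the level, the two operators agree modulo `Z`
  have hcong : ∀ (a b : LFun k r) (m : Fin r → ℤ) (G : (Fin r → ℤ) →₀ k),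
      (∀ v ∈ G.support, ∀ z ∈ Z, z ⬝ᵥ v = 0) →
      (∀ v ∈ G.support, zet k Z * a (m - v) = zet k Z * b (m - v)) →
      zet k Z * iF G a m = zet k Z * iF G b m := by
    intro a b m G hG hab
    rw [zet_iF Z G hG, zet_iF Z G hG]
    unfold iF
    congr 1
    exact Finset.sum_congr rfl fun v hv => by beta_reduce; rw [hab v hv]
  have hsplit : ∀ (a : LFun k r) (m : Fin r → ℤ),
      (∀ v ∈ (Fpart Z F).support, 0 < h ⬝ᵥ v → zet k Z * a (m - v) = 0) →
      zet k Z * iF (Fpart Z F) a m = zet k Z * iF (Fpart (h :: Z) F) a m := by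
    intro a m ha
    rw [zet_iF Z _ (fun v hv => (mem_Fpart.1 hv).2), zet_iF Z _ (fun v hv z hz =>
      (mem_Fpart.1 hv).2 z (List.mem_cons_of_mem _ hz))]
    congr 1
    unfold iF
    have hsub : (Fpart (h :: Z) F).support ⊆ (Fpart Z F).support := fun v hv => by
      rw [mem_Fpart] at hv ⊢
      exact ⟨hv.1, fun z hz => hv.2 z (List.mem_cons_of_mem _ hz)⟩
    rw [← Finset.sum_subset hsub]
    · refine Finset.sum_congr rfl fun v hv => ?_
      have h1 : Fpart Z F v = Fpart (h :: Z) F v := by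
        have h2 := mem_Fpart.1 hv
        unfold Fpart
        rw [Finsupp.filter_apply_pos _ _ (fun z hz => h2.2 z (List.mem_cons_of_mem _ hz)),
          Finsupp.filter_apply_pos _ _ h2.2]
      rw [h1]
    · intro v hv hnv
      rw [mem_Fpart] at hv hnv
      have h3 : h ⬝ᵥ v ≠ 0 := by
        intro h0
        apply hnv
        refine ⟨hv.1, fun z hz => ?_⟩
        rcases List.mem_cons.1 hz with rfl | hz
        · exact h0
        · exact hv.2 z hz
      have h4 : 0 < h ⬝ᵥ v := lt_of_le_of_ne (hF v hv.1 h hh) (Ne.symm h3)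
      beta_reduce
      rw [ha v (mem_Fpart.2 hv) h4, map_zero, smul_zero]
  have hcyc : ∀ m, zet k Z * iF (Fpart (h :: Z) F) u₁ m = 0 := by
    intro m
    by_cases hm : h ⬝ᵥ m = h ⬝ᵥ m₀
    · have e1 : zet k Z * iF (Fpart (h :: Z) F) u₁ m = zet k Z * iF (Fpart (h :: Z) F) g m := by
        refine hcong _ _ _ _ (fun v hv z hz => (mem_Fpart.1 hv).2 z (List.mem_cons_of_mem _ hz))
          fun v hv => hu₁z _ ?_
        rw [dotProduct_sub, (mem_Fpart.1 hv).2 h List.mem_cons_self, sub_zero, hm]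
      have e2 : zet k Z * iF (Fpart Z F) g m = zet k Z * iF (Fpart (h :: Z) F) g m := by
        refine hsplit g m fun v _ hpos => ?_
        by_contra hne
        have h5 := (hgs _ hne).2 h hh
        rw [hp, dotProduct_sub, hm] at h5
        have h6 : h ⬝ᵥ m₀ ≤ h ⬝ᵥ m₀ - h ⬝ᵥ v := by exact_mod_cast h5
        omega
      have e3 : w m = 0 := by
        by_contra hne
        have h5 := (hw.2 m hne).2 h hh
        rw [hm, ← hp, hyt] at h5
        have := mul_pos ht hpu
        linarith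
      have e4 := hg m
      rw [e3, zero_sub, mul_neg, neg_eq_zero] at e4
      rw [e1, ← e2, e4]
    · unfold iF
      rw [Finset.mul_sum]
      refine Finset.sum_eq_zero fun v hv => ?_
      rw [hu₁0, map_zero, smul_zero, mul_zero]
      rw [dotProduct_sub, (mem_Fpart.1 hv).2 h List.mem_cons_self, sub_zero]
      exact hm
  obtain ⟨g₁, hg₁, hg₁d, hg₁e⟩ := level_exact H F hF Z h hs (hT h hh hs hrel) y hd hu₁s hu₁d hcyc
  have hNsub : Nset (h :: Z) H y ⊆ Nset Z H y := fun m hm =>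
    ⟨fun z hz => hm.1 z (List.mem_cons_of_mem _ hz), hm.2⟩
  have hig₁ : SuppIn (Nset Z H y) (iF (Fpart Z F) g₁) := (hg₁.mono hNsub).iF hF
  refine ⟨g - iF (Fpart Z F) g₁, (hgfin.union hig₁.1).subset (Function.support_sub _ _),
    hgdeg.sub (Deg.iF hg₁d _), fun m => ?_, fun m hm => ?_⟩
  · rw [iF_sub, Pi.sub_apply, iF_iF_apply, sub_zero]
    exact hg m
  · have hmN : m ∈ Nset Z H y := by
      by_cases h1 : zet k Z * g m = 0
      · refine hig₁.2 m fun h2 => hm ?_
        rw [Pi.sub_apply, mul_sub, h1, h2, mul_zero, sub_zero]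
      · exact hgs m h1
    refine ⟨hmN, fun h' hh' hs' => ?_⟩
    refine lt_of_le_of_ne (hmN.2 h' hh') fun he => hm ?_
    have hml := hlev m hmN h' hh' hs' he
    have e1 : zet k Z * iF (Fpart Z F) g₁ m = zet k Z * iF (Fpart (h :: Z) F) g₁ m := by
      refine hsplit g₁ m fun v _ hpos => ?_
      have h5 : g₁ (m - v) = 0 := by
        by_contra hne
        have h6 := (hg₁.2 _ hne).1 h List.mem_cons_self
        rw [hp, dotProduct_sub, hml] at h6
        have h7 : h ⬝ᵥ m₀ - h ⬝ᵥ v = h ⬝ᵥ m₀ := by exact_mod_cast h6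
        omega
      rw [h5, mul_zero]
    have e2 := hg₁e m
    rw [mul_sub, hu₁z m hml] at e2
    rw [Pi.sub_apply, mul_sub, e1, e2]

/-- All crossings, by strong induction on the number of event times in `(0, t]`. -/
theorem all_cross [CharZero k] (H : Finset (Fin r → ℤ)) (F : (Fin r → ℤ) →₀ k)
    (hF : ∀ v ∈ F.support, ∀ h ∈ H, 0 ≤ h ⬝ᵥ v) (Z : List (Fin r → ℤ))
    (hT : ∀ h ∈ H, ¬ InSpan Z h → (∃ u, Relint (h :: Z) H u) → T1At H F (h :: Z))
    (x u : Fin r → ℝ) (hu : Relint Z H u)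
    (hgen : ∀ h ∈ H, ∀ h' ∈ H, ¬ InSpan Z h → ¬ InSpan Z h' → ∀ p p' : ℤ, ∀ t : ℝ,
      0 < t → rdot h x - p = t * rdot h u → rdot h' x - p' = t * rdot h' u →
      InSpan (h :: Z) h')
    {d : ℕ} (hd : 1 ≤ d) {w g : LFun k r} (hw : SuppIn (Nset Z H x) w)
    (hgfin : (Function.support g).Finite) (hgdeg : Deg (d + 1) g)
    (hgz : ∀ m, g m ≠ 0 → ∀ z ∈ Z, ((z ⬝ᵥ m : ℤ) : ℝ) = rdot z x)
    (hg : ∀ m, zet k Z * (w m - iF (Fpart Z F) g m) = 0) :
    ∃ g' : LFun k r, SuppIn (Nset Z H x) g' ∧ Deg (d + 1) g' ∧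
      ∀ m, zet k Z * (w m - iF (Fpart Z F) g' m) = 0 := by
  classical
  -- the statement at time `t`
  let P : ℝ → Prop := fun t => ∃ g : LFun k r, (Function.support g).Finite ∧ Deg (d + 1) g ∧
    (∀ m, zet k Z * (w m - iF (Fpart Z F) g m) = 0) ∧
    ∀ m, zet k Z * g m ≠ 0 → m ∈ Nset Z H (x - t • u)
  have hzt : ∀ t : ℝ, ∀ z ∈ Z, rdot z (x - t • u) = rdot z x := fun t z hz => by
    rw [rdot_time, hu.1 z hz, mul_zero, sub_zero]
  have hst : ∀ t : ℝ, ∀ h, InSpan Z h → rdot h (x - t • u) = rdot h x := fun t h hh => by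
    rw [rdot_time, rdot_eq_of_inSpan Z h hh u hu.1, mul_zero, sub_zero]
  -- membership at another time
  have hmove : ∀ (s t : ℝ) (m : Fin r → ℤ), m ∈ Nset Z H (x - s • u) →
      (∀ h ∈ H, ¬ InSpan Z h → rdot h x - ((h ⬝ᵥ m : ℤ) : ℝ) ≤ t * rdot h u) →
      m ∈ Nset Z H (x - t • u) := by
    intro s t m hm h1
    refine ⟨fun z hz => ?_, fun h hh => ?_⟩
    · rw [hm.1 z hz, hzt, hzt t z hz]
      exact hz
    · by_cases hs : InSpan Z h
      · have h2 := hm.2 h hh
        rw [hst s h hs] at h2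
        rwa [hst t h hs]
      · have h2 := h1 h hh hs
        rw [rdot_time]
        linarith
  -- a starting time
  obtain ⟨T, hT0, hPT⟩ : ∃ T : ℝ, 0 ≤ T ∧ P T := by
    let c : (Fin r → ℤ) → (Fin r → ℤ) → ℝ := fun h m =>
      |rdot h x - ((h ⬝ᵥ m : ℤ) : ℝ)| / rdot h u
    let T : ℝ := ∑ m ∈ hgfin.toFinset, ∑ h ∈ H.filter (fun h => ¬ InSpan Z h), c h m
    have hc : ∀ h ∈ H.filter (fun h => ¬ InSpan Z h), ∀ m, 0 ≤ c h m := fun h hh m =>
      div_nonneg (abs_nonneg _) (hu.2 h (Finset.mem_filter.1 hh).1 (Finset.mem_filter.1 hh).2).le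
    have hT0 : 0 ≤ T := Finset.sum_nonneg fun m _ => Finset.sum_nonneg fun h hh => hc h hh m
    refine ⟨T, hT0, g, hgfin, hgdeg, hg, fun m hm => ?_⟩
    have hgm : g m ≠ 0 := fun h0 => hm (by rw [h0, mul_zero])
    refine ⟨fun z hz => ?_, fun h hh => ?_⟩
    · rw [hgz m hgm z hz, hzt T z hz]
    · by_cases hs : InSpan Z h
      · rw [hst T h hs]
        have h1 : rdot h ((fun i => (m i : ℝ)) - x) = 0 :=
          rdot_eq_of_inSpan Z h hs _ fun z hz => by
            rw [rdot_sub, rdot_int, hgz m hgm z hz, sub_self]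
        rw [rdot_sub, rdot_int, sub_eq_zero] at h1
        exact h1.ge
      · have hpu := hu.2 h hh hs
        have h1 : c h m ≤ T := by
          refine le_trans ?_ (Finset.single_le_sum (f := fun m =>
            ∑ h ∈ H.filter (fun h => ¬ InSpan Z h), c h m)
            (fun m _ => Finset.sum_nonneg fun h hh => hc h hh m) (hgfin.mem_toFinset.2 hgm))
          exact Finset.single_le_sum (f := fun h => c h m) (fun h hh => hc h hh m)
            (Finset.mem_filter.2 ⟨hh, hs⟩)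
        have h2 : |rdot h x - ((h ⬝ᵥ m : ℤ) : ℝ)| ≤ T * rdot h u := by
          simp only [c] at h1
          rwa [div_le_iff₀ hpu] at h1
        rw [rdot_time]
        have h3 := le_abs_self (rdot h x - ((h ⬝ᵥ m : ℤ) : ℝ))
        linarith
  -- the event times
  let ev : Finset ℝ := ((H.filter (fun h => ¬ InSpan Z h)).biUnion fun h =>
    (Finset.Icc ⌊rdot h x - T * rdot h u⌋ ⌈rdot h x⌉).image fun p : ℤ =>
      (rdot h x - p) / rdot h u).filter fun s => 0 < s
  have hevpos : ∀ s ∈ ev, 0 < s := fun s hs => (Finset.mem_filter.1 hs).2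
  have hevmem : ∀ h ∈ H, ¬ InSpan Z h → ∀ p : ℤ, ∀ s : ℝ, 0 < s → s ≤ T →
      rdot h x - p = s * rdot h u → s ∈ ev := by
    intro h hh hs p s hs0 hsT he
    have hpu := hu.2 h hh hs
    refine Finset.mem_filter.2 ⟨Finset.mem_biUnion.2 ⟨h, Finset.mem_filter.2 ⟨hh, hs⟩,
      Finset.mem_image.2 ⟨p, Finset.mem_Icc.2 ⟨?_, ?_⟩, ?_⟩⟩, hs0⟩
    · rw [← Int.cast_le (R := ℝ)]
      refine le_trans (Int.floor_le _) ?_
      have : s * rdot h u ≤ T * rdot h u := mul_le_mul_of_nonneg_right hsT hpu.le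
      linarith
    · rw [← Int.cast_le (R := ℝ)]
      refine le_trans ?_ (Int.le_ceil _)
      have := mul_pos hs0 hpu
      linarith
    · rw [he]
      exact mul_div_cancel_right₀ s hpu.ne'
  -- descent
  have key : ∀ n : ℕ, ∀ t : ℝ, 0 ≤ t → t ≤ T → (ev.filter fun s => s ≤ t).card = n → P t → P 0 := by
    intro n
    induction n using Nat.strong_induction_on with
    | _ n ih =>
      intro t ht0 htT hn hPt
      by_cases hemp : (ev.filter fun s => s ≤ t) = ∅
      · obtain ⟨g₁, hf₁, hd₁, he₁, hs₁⟩ := hPt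
        refine ⟨g₁, hf₁, hd₁, he₁, fun m hm => hmove t 0 m (hs₁ m hm) fun h hh hs => ?_⟩
        have hpu := hu.2 h hh hs
        by_contra hcon
        push Not at hcon
        rw [zero_mul] at hcon
        have h1 := (hs₁ m hm).2 h hh
        rw [rdot_time] at h1
        have h2 : (rdot h x - ((h ⬝ᵥ m : ℤ) : ℝ)) / rdot h u ∈ ev.filter fun s => s ≤ t := by
          refine Finset.mem_filter.2 ⟨hevmem h hh hs (h ⬝ᵥ m) _ (div_pos hcon hpu) ?_ ?_, ?_⟩
          · rw [div_le_iff₀ hpu]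
            have := mul_le_mul_of_nonneg_right htT hpu.le
            linarith
          · rw [div_mul_cancel₀ _ hpu.ne']
          · rw [div_le_iff₀ hpu]
            linarith
        rw [hemp] at h2
        exact absurd h2 (Finset.notMem_empty _)
      · have hne : (ev.filter fun s => s ≤ t).Nonempty := Finset.nonempty_iff_ne_empty.2 hemp
        set t₁ := (ev.filter fun s => s ≤ t).max' hne with ht₁
        have ht₁mem := Finset.max'_mem _ hne
        rw [← ht₁, Finset.mem_filter] at ht₁mem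
        have ht₁pos := hevpos t₁ ht₁mem.1
        obtain ⟨g₁, hf₁, hd₁, he₁, hs₁⟩ := hPt
        have hs₁' : ∀ m, zet k Z * g₁ m ≠ 0 → m ∈ Nset Z H (x - t₁ • u) := by
          refine fun m hm => hmove t t₁ m (hs₁ m hm) fun h hh hs => ?_
          have hpu := hu.2 h hh hs
          by_contra hcon
          push Not at hcon
          have h1 := (hs₁ m hm).2 h hh
          rw [rdot_time] at h1
          have hlt : t₁ < (rdot h x - ((h ⬝ᵥ m : ℤ) : ℝ)) / rdot h u := by
            rwa [lt_div_iff₀ hpu]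
          have h2 : (rdot h x - ((h ⬝ᵥ m : ℤ) : ℝ)) / rdot h u ∈ ev.filter fun s => s ≤ t := by
            refine Finset.mem_filter.2 ⟨hevmem h hh hs (h ⬝ᵥ m) _ (ht₁pos.trans hlt) ?_ ?_, ?_⟩
            · rw [div_le_iff₀ hpu]
              have := mul_le_mul_of_nonneg_right htT hpu.le
              linarith
            · rw [div_mul_cancel₀ _ hpu.ne']
            · rw [div_le_iff₀ hpu]
              linarith
          exact absurd (Finset.le_max' _ _ h2) (not_le.2 hlt)
        obtain ⟨g₂, hf₂, hd₂, he₂, hs₂⟩ := cross_step H F hF Z hT x u hu hgen hd hw hf₁ hd₁ he₁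
          t₁ ht₁pos hs₁'
        -- the next time
        let E' := ev.filter fun s => s < t₁
        obtain ⟨t₂, ht₂0, ht₂lt, ht₂⟩ : ∃ t₂ : ℝ, 0 ≤ t₂ ∧ t₂ < t₁ ∧ ∀ s ∈ ev, s < t₁ → s ≤ t₂ := by
          by_cases hE : E'.Nonempty
          · have h1 := Finset.mem_filter.1 (Finset.max'_mem E' hE)
            exact ⟨E'.max' hE, (hevpos _ h1.1).le, h1.2, fun s hs hlt =>
              Finset.le_max' _ _ (Finset.mem_filter.2 ⟨hs, hlt⟩)⟩
          · rw [Finset.not_nonempty_iff_eq_empty] at hE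
            refine ⟨0, le_rfl, ht₁pos, fun s hs hlt => ?_⟩
            have : s ∈ E' := Finset.mem_filter.2 ⟨hs, hlt⟩
            rw [hE] at this
            exact absurd this (Finset.notMem_empty _)
        have hP2 : P t₂ := by
          refine ⟨g₂, hf₂, hd₂, he₂, fun m hm => hmove t₁ t₂ m (hs₂ m hm).1 fun h hh hs => ?_⟩
          have hpu := hu.2 h hh hs
          by_contra hcon
          push Not at hcon
          have h1 := (hs₂ m hm).2 h hh hs
          rw [rdot_time] at h1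
          have hlt : t₂ < (rdot h x - ((h ⬝ᵥ m : ℤ) : ℝ)) / rdot h u := by
            rwa [lt_div_iff₀ hpu]
          have hlt1 : (rdot h x - ((h ⬝ᵥ m : ℤ) : ℝ)) / rdot h u < t₁ := by
            rw [div_lt_iff₀ hpu]
            linarith
          have h2 : (rdot h x - ((h ⬝ᵥ m : ℤ) : ℝ)) / rdot h u ∈ ev := by
            refine hevmem h hh hs (h ⬝ᵥ m) _ (lt_of_le_of_lt ht₂0 hlt)
              (hlt1.le.trans (ht₁mem.2.trans htT)) ?_
            rw [div_mul_cancel₀ _ hpu.ne']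
          exact absurd (ht₂ _ h2 hlt1) (not_le.2 hlt)
        refine ih (ev.filter fun s => s ≤ t₂).card ?_ t₂ ht₂0
          (ht₂lt.le.trans (ht₁mem.2.trans htT)) rfl hP2
        rw [← hn]
        refine Finset.card_lt_card ⟨fun s hs => ?_, fun hsub => ?_⟩
        · rw [Finset.mem_filter] at hs ⊢
          exact ⟨hs.1, hs.2.trans (ht₂lt.le.trans ht₁mem.2)⟩
        · have h3 := hsub (Finset.mem_filter.2 ht₁mem)
          exact absurd (Finset.mem_filter.1 h3).2 (not_le.2 ht₂lt)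
  obtain ⟨g₃, hf₃, hd₃, he₃, hs₃⟩ := key _ T hT0 le_rfl rfl hPT
  rw [zero_smul, sub_zero] at hs₃
  -- drop the irrelevant values
  let g' : LFun k r := fun m => if zet k Z * g₃ m ≠ 0 then g₃ m else 0
  have hg'z : ∀ m, zet k Z * g' m = zet k Z * g₃ m := by
    intro m
    simp only [g']
    by_cases hr : zet k Z * g₃ m = 0
    · rw [if_neg (fun hx => hx hr), mul_zero, hr]
    · rw [if_pos hr]
  refine ⟨g', ⟨hf₃.subset fun m hm => ?_, fun m hm => ?_⟩, fun m => ?_, fun m => ?_⟩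
  · rw [Function.mem_support] at hm ⊢
    intro h0
    apply hm
    simp only [g']
    rw [if_neg]
    rw [h0, mul_zero]
    exact fun hx => hx rfl
  · refine hs₃ m fun h0 => hm ?_
    simp only [g']
    rw [if_neg]
    exact fun hx => hx h0
  · simp only [g']
    split_ifs
    · exact hd₃ m
    · exact Submodule.zero_mem _
  · have h1 : zet k Z * iF (Fpart Z F) g' m = zet k Z * iF (Fpart Z F) g₃ m := by
      rw [zet_iF Z _ (fun v hv => (mem_Fpart.1 hv).2), zet_iF Z _ (fun v hv =>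
        (mem_Fpart.1 hv).2)]
      have h2 : (fun m => zet k Z * g' m) = fun m => zet k Z * g₃ m := funext hg'z
      rw [h2]
    rw [mul_sub, h1, ← mul_sub, he₃]

theorem Fil_anti {d e : ℕ} (h : d ≤ e) : Fil k r e ≤ Fil k r d := by
  induction h with
  | refl => exact le_rfl
  | step _ ih => exact (Fil_mono _).trans ih

/-- **T1.** Strong induction on the number of `h ∈ H` outside the span of `Z`.  If every form is
in the span: `zet_top`, `g = 0`.  Otherwise `laurent_step`, `exists_generic`, `all_cross`. -/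
theorem koszul_exact [CharZero k] (H : Finset (Fin r → ℤ)) (F : (Fin r → ℤ) →₀ k)
    (hF : ∀ v ∈ F.support, ∀ h ∈ H, 0 ≤ h ⬝ᵥ v) (hND : ND H F) (Z : List (Fin r → ℤ))
    (hZ : ∀ z ∈ Z, z ∈ H) (hrel : ∃ u, Relint Z H u) : T1At H F Z := by
  classical
  obtain ⟨n, hn⟩ : ∃ n, (H.filter fun h => ¬ InSpan Z h).card = n := ⟨_, rfl⟩
  induction n using Nat.strong_induction_on generalizing Z with
  | _ n ih =>
    intro x d hd w hw hwd hcyc
    by_cases hall : ∀ h, InSpan Z h
    · refine ⟨0, ⟨?_, fun m hm => absurd rfl hm⟩, fun m => Submodule.zero_mem _, fun m => ?_⟩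
      · have : Function.support (0 : LFun k r) = ∅ := Function.support_zero
        rw [this]
        exact Set.finite_empty
      · rw [iF_zero, Pi.zero_apply, sub_zero]
        exact zet_top Z hall (Fil_anti hd (hwd m))
    · push Not at hall
      obtain ⟨h₀, hh₀⟩ := hall
      have hU := hND Z hZ hrel ⟨h₀, hh₀⟩
      obtain ⟨g, hgf, hgz, hgd, hge⟩ := laurent_step Z (Fpart Z F) hU x hw.1
        (fun m hm => (hw.2 m hm).1) hwd hcyc
      obtain ⟨u, hu, hgen⟩ := exists_generic Z H x hrel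
      refine all_cross H F hF Z (fun h hh hs hrel' => ?_) x u hu hgen hd hw hgf hgd hgz hge
      refine ih (H.filter fun h' => ¬ InSpan (h :: Z) h').card ?_ (h :: Z) ?_ hrel' rfl
      · rw [← hn]
        refine Finset.card_lt_card ⟨fun h' hh' => ?_, fun hsub => ?_⟩
        · rw [Finset.mem_filter] at hh' ⊢
          exact ⟨hh'.1, fun hx => hh'.2 (hx.cons h)⟩
        · have h1 := hsub (Finset.mem_filter.2 ⟨hh, hs⟩)
          exact (Finset.mem_filter.1 h1).2 (InSpan.mem List.mem_cons_self)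
      · intro z hz
        rcases List.mem_cons.1 hz with rfl | hz
        · exact hh
        · exact hZ z hz

end MPb07157T
end
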