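import Pool.Agent.Lib.MP_b07157_agT.Defs

/-!
# Weyl's theorem
-/

noncomputable section

namespace MPb07157T

open Finset Matrix

variable {n : ℕ}

private theorem w1_rdot_sub {r : ℕ} (a v : Fin r → ℤ) (x : Fin r → ℝ) (t : ℝ) :
    rdot a (x - t • fun i => (v i : ℝ)) = rdot a x - t * ((a ⬝ᵥ v : ℤ) : ℝ) := by
  unfold rdot dotProduct
  push_cast
  rw [Finset.mul_sum, ← Finset.sum_sub_distrib]
  refine Finset.sum_congr rfl fun i _ => ?_
  simp only [Pi.sub_apply, Pi.smul_apply, smul_eq_mul]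
  ring

private theorem w1_rdot_comb {r : ℕ} (a a' : Fin r → ℤ) (c d : ℤ) (x : Fin r → ℝ) :
    rdot (fun i => c * a i - d * a' i) x = (c : ℝ) * rdot a x - (d : ℝ) * rdot a' x := by
  unfold rdot
  rw [Finset.mul_sum, Finset.mul_sum, ← Finset.sum_sub_distrib]
  refine Finset.sum_congr rfl fun i _ => ?_
  push_cast
  ring

/-- Elimination of the multiplier `t`. -/
private theorem w1_elim {r : ℕ} (A : Finset (Fin r → ℤ)) (v : Fin r → ℤ) :
    ∃ B : Finset (Fin r → ℤ), ∀ x : Fin r → ℝ,
      (∃ t : ℝ, 0 ≤ t ∧ ∀ a ∈ A, t * ((a ⬝ᵥ v : ℤ) : ℝ) ≤ rdot a x) ↔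
        ∀ b ∈ B, 0 ≤ rdot b x := by
  classical
  refine ⟨(A.filter fun a => 0 ≤ a ⬝ᵥ v) ∪
    ((A.filter fun a => a ⬝ᵥ v < 0) ×ˢ (A.filter fun a => 0 < a ⬝ᵥ v)).image
      (fun p => fun i => (p.2 ⬝ᵥ v) * p.1 i - (p.1 ⬝ᵥ v) * p.2 i), fun x => ⟨?_, ?_⟩⟩
  · rintro ⟨t, ht, h⟩ b hb
    rcases Finset.mem_union.mp hb with hb | hb
    · obtain ⟨hbA, hb0⟩ := Finset.mem_filter.mp hb
      have h1 : (0 : ℝ) ≤ ((b ⬝ᵥ v : ℤ) : ℝ) := by exact_mod_cast hb0
      exact le_trans (mul_nonneg ht h1) (h b hbA)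
    · obtain ⟨p, hp, rfl⟩ := Finset.mem_image.mp hb
      obtain ⟨hp1, hp2⟩ := Finset.mem_product.mp hp
      obtain ⟨hp1A, hp1v⟩ := Finset.mem_filter.mp hp1
      obtain ⟨hp2A, hp2v⟩ := Finset.mem_filter.mp hp2
      rw [w1_rdot_comb]
      have h1 : ((p.1 ⬝ᵥ v : ℤ) : ℝ) < 0 := by exact_mod_cast hp1v
      have h2 : (0 : ℝ) < ((p.2 ⬝ᵥ v : ℤ) : ℝ) := by exact_mod_cast hp2v
      have h3 := h _ hp1A
      have h4 := h _ hp2A
      nlinarith [mul_le_mul_of_nonneg_left h3 h2.le, mul_le_mul_of_nonneg_left h4 (neg_nonneg.mpr h1.le)]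
  · intro h
    set L : Finset ℝ := insert 0 ((A.filter fun a => a ⬝ᵥ v < 0).image
      fun a => rdot a x / ((a ⬝ᵥ v : ℤ) : ℝ)) with hL
    have hne : L.Nonempty := ⟨0, Finset.mem_insert_self _ _⟩
    refine ⟨L.max' hne, L.le_max' 0 (Finset.mem_insert_self _ _), fun a ha => ?_⟩
    have hmem := L.max'_mem hne
    rcases lt_trichotomy (a ⬝ᵥ v) 0 with hv | hv | hv
    · have hle : rdot a x / ((a ⬝ᵥ v : ℤ) : ℝ) ≤ L.max' hne :=
        L.le_max' _ (Finset.mem_insert_of_mem (Finset.mem_image_of_mem _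
          (Finset.mem_filter.mpr ⟨ha, hv⟩)))
      have h1 : ((a ⬝ᵥ v : ℤ) : ℝ) < 0 := by exact_mod_cast hv
      rw [div_le_iff_of_neg h1] at hle
      exact hle
    · rw [hv]
      have := h a (Finset.mem_union_left _ (Finset.mem_filter.mpr ⟨ha, hv.ge⟩))
      simpa using this
    · have h1 : (0 : ℝ) < ((a ⬝ᵥ v : ℤ) : ℝ) := by exact_mod_cast hv
      have h0 := h a (Finset.mem_union_left _ (Finset.mem_filter.mpr ⟨ha, hv.le⟩))
      rw [← le_div_iff₀ h1]
      rcases Finset.mem_insert.mp hmem with h2 | h2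
      · rw [h2]
        exact div_nonneg h0 h1.le
      · obtain ⟨b, hb, hbe⟩ := Finset.mem_image.mp h2
        obtain ⟨hbA, hbv⟩ := Finset.mem_filter.mp hb
        rw [← hbe]
        have h3 : ((b ⬝ᵥ v : ℤ) : ℝ) < 0 := by exact_mod_cast hbv
        have h4 := h _ (Finset.mem_union_right _ (Finset.mem_image.mpr ⟨(b, a),
          Finset.mem_product.mpr ⟨Finset.mem_filter.mpr ⟨hbA, hbv⟩,
            Finset.mem_filter.mpr ⟨ha, hv⟩⟩, rfl⟩))
        rw [w1_rdot_comb] at h4
        rw [div_le_iff_of_neg h3, div_mul_eq_mul_div, div_le_iff₀ h1]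
        simp only at h4
        nlinarith [h4]

/-- **Weyl's theorem** (integral form, by Fourier–Motzkin elimination, induction on `S`): the cone
generated by finitely many integral vectors is cut out by finitely many integral forms. The new
forms after adding the generator `v` are the old `a` with `a·v ≥ 0` and the combinations
`(a'·v) a - (a·v) a'` for `a·v < 0 < a'·v`. -/
theorem weyl {r : ℕ} (S : Finset (Fin r → ℤ)) :
    ∃ A : Finset (Fin r → ℤ), ∀ x : Fin r → ℝ,
      (∃ l : (Fin r → ℤ) → ℝ, (∀ v ∈ S, 0 ≤ l v) ∧ x = ∑ v ∈ S, l v • fun i => (v i : ℝ)) ↔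
        ∀ a ∈ A, 0 ≤ rdot a x := by
  classical
  induction S using Finset.induction_on with
  | empty =>
    refine ⟨Finset.univ.image (fun i : Fin r => (Pi.single i 1 : Fin r → ℤ)) ∪
      Finset.univ.image (fun i : Fin r => (Pi.single i (-1) : Fin r → ℤ)), fun x => ⟨?_, ?_⟩⟩
    · rintro ⟨l, -, hx⟩ a -
      rw [Finset.sum_empty] at hx
      rw [hx]
      simp [rdot]
    · intro h
      refine ⟨0, by simp, ?_⟩
      rw [Finset.sum_empty]
      funext i
      have h1 := h _ (Finset.mem_union_left _ (Finset.mem_image_of_mem _ (Finset.mem_univ i)))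
      have h2 := h _ (Finset.mem_union_right _ (Finset.mem_image_of_mem _ (Finset.mem_univ i)))
      have e1 : rdot (Pi.single i 1 : Fin r → ℤ) x = x i := by
        unfold rdot
        rw [Finset.sum_eq_single i]
        · simp
        · intro j _ hj
          simp [Pi.single_eq_of_ne hj]
        · simp
      have e2 : rdot (Pi.single i (-1) : Fin r → ℤ) x = - x i := by
        unfold rdot
        rw [Finset.sum_eq_single i]
        · simp
        · intro j _ hj
          simp [Pi.single_eq_of_ne hj]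
        · simp
      rw [e1] at h1
      rw [e2] at h2
      have h3 : x i ≤ 0 := by linarith
      exact le_antisymm h3 h1
  | insert v S hv ih =>
    obtain ⟨A, hA⟩ := ih
    obtain ⟨B, hB⟩ := w1_elim A v
    refine ⟨B, fun x => ?_⟩
    rw [← hB x]
    constructor
    · rintro ⟨l, hl, hx⟩
      refine ⟨l v, hl v (Finset.mem_insert_self _ _), fun a ha => ?_⟩
      have h1 := (hA (x - l v • fun i => (v i : ℝ))).mp
        ⟨l, fun w hw => hl w (Finset.mem_insert_of_mem hw), by
          rw [hx, Finset.sum_insert hv, add_sub_cancel_left]⟩ a ha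
      rw [w1_rdot_sub] at h1
      linarith
    · rintro ⟨t, ht, h⟩
      obtain ⟨l, hl, hx⟩ := (hA (x - t • fun i => (v i : ℝ))).mpr fun a ha => by
        rw [w1_rdot_sub]
        linarith [h a ha]
      refine ⟨Function.update l v t, fun w hw => ?_, ?_⟩
      · rcases Finset.mem_insert.mp hw with rfl | hw
        · rw [Function.update_self]
          exact ht
        · have hne : w ≠ v := fun e => hv (by rw [← e]; exact hw)
          rw [Function.update_of_ne hne]
          exact hl w hw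
      · rw [Finset.sum_insert hv, Function.update_self]
        rw [Finset.sum_congr rfl (g := fun w => l w • fun i => (w i : ℝ)) fun w hw => by
          have hne : w ≠ v := fun e => hv (by rw [← e]; exact hw)
          rw [Function.update_of_ne hne]]
        rw [← hx]
        abel

end MPb07157T
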