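import Pool.Agent.Lib.MP_b07157_agT.W0
import Pool.Agent.Lib.MP_b07157_agT.W1

/-!
# Finitely many weights cut out the Newton polyhedron of a convenient polynomial
-/

noncomputable section

namespace MPb07157T

open Finset Matrix MvPolynomial MPb07157

variable {n : ℕ}

private theorem w2_rdot_cons (a : Fin (n + 1) → ℤ) (c : ℝ) (q : Fin n → ℝ) :
    rdot a (Fin.cons c q : Fin (n + 1) → ℝ) = (a 0 : ℝ) * c + rdot (Fin.tail a) q := by
  simp only [rdot, Fin.sum_univ_succ, Fin.cons_zero, Fin.cons_succ, Fin.tail]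

private theorem w2_mem_support {f : MvPolynomial (Fin n) ℂ} {d : Fin n →₀ ℕ}
    (hd : d ∈ f.support) : (fun j => (d j : ℤ)) ∈ (Fc f).support := by
  classical
  rw [Finsupp.mem_support_iff]
  have h : Fc f (fun j => (d j : ℤ)) = coeff d f := by
    rw [Fc, Finsupp.finsetSum_apply, Finset.sum_eq_single d]
    · simp [MvPolynomial.coeff]
    · intro b _ hb
      rw [Finsupp.single_apply, if_neg]
      intro he
      apply hb
      ext j
      have := congrFun he j
      exact_mod_cast this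
    · intro h
      exact absurd hd h
  rw [h]
  exact MvPolynomial.mem_support_iff.mp hd

/-- Existence of the finite set of weights, containing finitely many given ones.  Apply `weyl` (for
`r = n + 1`) to the vectors `(1, v)`, `v ∈ (Fc f).support`, and `(0, ee l)`; for `a ∈ A` put
`σ = (tail a, -a 0)`: `0 ≤ a·(0, ee l) = σ.1 l`, `0 ≤ a·(1, v) = σ.1·v - σ.2`.  Let `Sg` be `S₀`
and the `σ` with `σ.2 > 0`; these have `σ.1 l > 0` for all `l` (convenience: `d ee l` is an
exponent, `0 < σ.2 ≤ d σ.1 l`).  `CutsOut`: for `q ≥ 0` with `σ.2 ≤ σ.1·q` for `σ ∈ Sg`, the vector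
`(1, q)` satisfies `0 ≤ a·(1, q)` for all `a ∈ A` (if `σ.2 ≤ 0` since `σ.1 ≥ 0`, `q ≥ 0`), so it is
in the cone; the coefficients of the `(1, v)` have sum `1`, the rest is nonnegative.  (If `n = 0` and
`f = 0` everything is vacuous: then `A` must contain a form with `a 0 < 0`.) -/
theorem exists_weights {f : MvPolynomial (Fin n) ℂ} (hconv : Convenient f)
    (S₀ : Finset ((Fin n → ℤ) × ℤ))
    (hS₀ : ∀ σ ∈ S₀, 0 < σ.2 ∧ (∀ j, 0 < σ.1 j) ∧ ∀ v ∈ (Fc f).support, σ.2 ≤ σ.1 ⬝ᵥ v) :
    ∃ Sg : Finset ((Fin n → ℤ) × ℤ), S₀ ⊆ Sg ∧ CutsOut Sg f ∧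
      ∀ σ ∈ Sg, 0 < σ.2 ∧ (∀ j, 0 < σ.1 j) ∧ ∀ v ∈ (Fc f).support, σ.2 ≤ σ.1 ⬝ᵥ v := by
  classical
  set S1 : Finset (Fin (n + 1) → ℤ) := (Fc f).support.image fun v => Fin.cons (1 : ℤ) v with hS1
  set S2 : Finset (Fin (n + 1) → ℤ) :=
    (Finset.univ : Finset (Fin n)).image fun l => Fin.cons (0 : ℤ) (Pi.single l (1 : ℤ)) with hS2
  obtain ⟨A, hA⟩ := weyl (S1 ∪ S2)
  have hdisj : Disjoint S1 S2 := by
    rw [Finset.disjoint_left]
    intro w h1 h2
    rw [hS1, Finset.mem_image] at h1
    rw [hS2, Finset.mem_image] at h2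
    obtain ⟨v, _, rfl⟩ := h1
    obtain ⟨l, _, hl⟩ := h2
    have := congrFun hl 0
    simp at this
  -- the forms are nonnegative on the generators
  have hgen : ∀ a ∈ A, ∀ w ∈ S1 ∪ S2, 0 ≤ a ⬝ᵥ w := by
    intro a ha w hw
    have h := (hA (fun i => (w i : ℝ))).mp ⟨fun v => if v = w then 1 else 0, by
      intro v _
      dsimp only
      split_ifs <;> norm_num, by
      simp [ite_smul, Finset.sum_ite_eq', hw]⟩ a ha
    have h2 : rdot a (fun i => (w i : ℝ)) = ((a ⬝ᵥ w : ℤ) : ℝ) := by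
      simp [rdot, dotProduct]
    rw [h2] at h
    exact_mod_cast h
  have hgen1 : ∀ a ∈ A, ∀ v ∈ (Fc f).support, 0 ≤ a 0 + Fin.tail a ⬝ᵥ v := by
    intro a ha v hv
    have h := hgen a ha (Fin.cons (1 : ℤ) v)
      (Finset.mem_union_left _ (Finset.mem_image_of_mem _ hv))
    have h2 : a ⬝ᵥ (Fin.cons (1 : ℤ) v : Fin (n + 1) → ℤ) = a 0 + Fin.tail a ⬝ᵥ v := by
      simp only [dotProduct, Fin.sum_univ_succ, Fin.cons_zero, Fin.cons_succ, Fin.tail, mul_one]
    rwa [h2] at h
  have hgen2 : ∀ a ∈ A, ∀ l : Fin n, 0 ≤ Fin.tail a l := by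
    intro a ha l
    have h := hgen a ha (Fin.cons (0 : ℤ) (Pi.single l (1 : ℤ)))
      (Finset.mem_union_right _ (Finset.mem_image_of_mem _ (Finset.mem_univ l)))
    have h2 : a ⬝ᵥ (Fin.cons (0 : ℤ) (Pi.single l (1 : ℤ)) : Fin (n + 1) → ℤ) = Fin.tail a l := by
      simp only [dotProduct, Fin.sum_univ_succ, Fin.cons_zero, Fin.cons_succ, Fin.tail, mul_zero,
        zero_add]
      rw [Finset.sum_eq_single l]
      · simp
      · intro b _ hb
        simp [hb]
      · intro h
        exact absurd (Finset.mem_univ l) h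
    rwa [h2] at h
  set Sg : Finset ((Fin n → ℤ) × ℤ) :=
    S₀ ∪ (A.filter fun a => a 0 < 0).image fun a => (Fin.tail a, -a 0) with hSg
  refine ⟨Sg, Finset.subset_union_left, ?_, ?_⟩
  · intro q hq hqS
    have hcone : ∀ a ∈ A, 0 ≤ rdot a (Fin.cons (1 : ℝ) q : Fin (n + 1) → ℝ) := by
      intro a ha
      rw [w2_rdot_cons, mul_one]
      by_cases h0 : a 0 < 0
      · have h := hqS (Fin.tail a, -a 0) (Finset.mem_union_right _
          (Finset.mem_image_of_mem _ (Finset.mem_filter.mpr ⟨ha, h0⟩)))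
        simp only [Int.cast_neg] at h
        linarith
      · have h1 : (0 : ℝ) ≤ (a 0 : ℝ) := by exact_mod_cast not_lt.mp h0
        have h2 : 0 ≤ rdot (Fin.tail a) q := by
          rw [rdot]
          refine Finset.sum_nonneg fun i _ => mul_nonneg ?_ (hq i)
          exact_mod_cast hgen2 a ha i
        linarith
    obtain ⟨l, hl0, hl⟩ := (hA _).mpr hcone
    have hinj1 : Function.Injective fun v : Fin n → ℤ => (Fin.cons (1 : ℤ) v : Fin (n + 1) → ℤ) := by
      intro v w h
      funext i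
      have := congrFun h i.succ
      simpa using this
    refine ⟨fun v => l (Fin.cons (1 : ℤ) v), ?_, ?_, ?_⟩
    · intro v hv
      exact hl0 _ (Finset.mem_union_left _ (Finset.mem_image_of_mem _ hv))
    · have h := congrFun hl 0
      rw [Finset.sum_union hdisj] at h
      simp only [Fin.cons_zero, Pi.add_apply, Finset.sum_apply, Pi.smul_apply, smul_eq_mul] at h
      rw [hS1, Finset.sum_image (fun _ _ _ _ h => hinj1 h)] at h
      rw [show (∑ c ∈ S2, l c * ((c 0 : ℤ) : ℝ)) = 0 from by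
        refine Finset.sum_eq_zero fun c hc => ?_
        rw [hS2, Finset.mem_image] at hc
        obtain ⟨j, _, rfl⟩ := hc
        simp] at h
      simp only [Fin.cons_zero, Int.cast_one, mul_one, add_zero] at h
      exact h.symm
    · intro j
      have h := congrFun hl j.succ
      rw [Finset.sum_union hdisj] at h
      simp only [Fin.cons_succ, Pi.add_apply, Finset.sum_apply, Pi.smul_apply, smul_eq_mul] at h
      rw [hS1, Finset.sum_image (fun _ _ _ _ h => hinj1 h)] at h
      simp only [Fin.cons_succ] at h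
      have h2 : 0 ≤ ∑ c ∈ S2, l c * ((c j.succ : ℤ) : ℝ) := by
        refine Finset.sum_nonneg fun c hc => mul_nonneg (hl0 c (Finset.mem_union_right _ hc)) ?_
        rw [hS2, Finset.mem_image] at hc
        obtain ⟨i, _, rfl⟩ := hc
        simp only [Fin.cons_succ, Pi.single_apply]
        split_ifs <;> simp
      linarith
  · intro σ hσ
    rw [hSg, Finset.mem_union] at hσ
    rcases hσ with hσ | hσ
    · exact hS₀ σ hσ
    · rw [Finset.mem_image] at hσ
      obtain ⟨a, ha, rfl⟩ := hσ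
      rw [Finset.mem_filter] at ha
      have hv : ∀ v ∈ (Fc f).support, -a 0 ≤ Fin.tail a ⬝ᵥ v := by
        intro v hv
        have := hgen1 a ha.1 v hv
        linarith
      refine ⟨by simpa using ha.2, ?_, hv⟩
      intro j
      obtain ⟨d, hd, hds⟩ := hconv j
      have h1 := hv _ (w2_mem_support hds)
      have h2 : Fin.tail a ⬝ᵥ (fun i => ((Finsupp.single j d i : ℕ) : ℤ)) = Fin.tail a j * d := by
        rw [dotProduct, Finset.sum_eq_single j]
        · simp
        · intro b _ hb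
          simp [Ne.symm hb]
        · intro h
          exact absurd (Finset.mem_univ j) h
      rw [h2] at h1
      have h3 : 0 < Fin.tail a j * (d : ℤ) := lt_of_lt_of_le (by simpa using ha.2) h1
      exact (mul_pos_iff_of_pos_right (by exact_mod_cast hd)).mp h3

end MPb07157T
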